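import Pool.Graph.R_seed8.TH756.PN.Cl
import Pool.Graph.R_seed8.Y173.QA.Phi

/-!
The Lie derivative of a pluricanonical form along a derivation of the function field which maps the
field of constants to itself.
-/

set_option autoImplicit false
set_option linter.overlappingInstances false
set_option linter.unusedSectionVars false

open FF MvPolynomial IntermediateField Pool.Agent.W619.PQ Pool.Agent.W619.TW Pool.Agent.W619.PL
  Pool.Agent.W603.LV Pool.Agent.W619.Y

namespace Pool.Agent.H917

section det

variable {k L : Type} [Field k] [Field L] [Algebra k L]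

/-- the homomorphism to the dual numbers given by a derivation -/
noncomputable def dh (D : Derivation k L L) : L →+* TrivSqZeroExt L L where
  toFun a := TrivSqZeroExt.inl a + TrivSqZeroExt.inr (D a)
  map_one' := by ext <;> simp
  map_mul' a b := by
    ext
    · simp
    · simp
      ring
  map_zero' := by ext <;> simp
  map_add' a b := by ext <;> simp

theorem dh_fst (D : Derivation k L L) (a : L) : (dh D a).fst = a := by simp [dh]

theorem dh_snd (D : Derivation k L L) (a : L) : (dh D a).snd = D a := by simp [dh]

theorem det_eps {n : ℕ} (M : Matrix (Fin n) (Fin n) L) :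
    (1 + (TrivSqZeroExt.inr 1 : TrivSqZeroExt L L) • M.map (TrivSqZeroExt.inlHom L L)).det =
      1 + TrivSqZeroExt.inr (Matrix.trace M) := by
  rw [Matrix.det_one_add_smul]
  have h1 : (TrivSqZeroExt.inr 1 : TrivSqZeroExt L L) ^ 2 = 0 := by
    rw [pow_two, TrivSqZeroExt.inr_mul_inr]
  have h2 : Matrix.trace (M.map (TrivSqZeroExt.inlHom L L)) =
      TrivSqZeroExt.inl (Matrix.trace M) := by
    rw [← TrivSqZeroExt.inlHom_apply (R := L) (M := L), ← AddMonoidHom.map_trace]
  rw [h1, mul_zero, add_zero, h2, TrivSqZeroExt.inl_mul_inr, smul_eq_mul, mul_one]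

theorem der_det {n : ℕ} (D : Derivation k L L) (T c B : Matrix (Fin n) (Fin n) L)
    (h : ∀ i j, D (T i j) = (c * T) i j + (T * B) i j) :
    D T.det = T.det * (Matrix.trace c + Matrix.trace B) := by
  have h1 : T.map (dh D) = (1 + (TrivSqZeroExt.inr 1 : TrivSqZeroExt L L) •
      c.map (TrivSqZeroExt.inlHom L L)) * T.map (TrivSqZeroExt.inlHom L L) *
      (1 + (TrivSqZeroExt.inr 1 : TrivSqZeroExt L L) • B.map (TrivSqZeroExt.inlHom L L)) := by
    have hcT : c.map (TrivSqZeroExt.inlHom L L) * T.map (TrivSqZeroExt.inlHom L L) =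
        (c * T).map (TrivSqZeroExt.inlHom L L) := (Matrix.map_mul).symm
    have hTB : T.map (TrivSqZeroExt.inlHom L L) * B.map (TrivSqZeroExt.inlHom L L) =
        (T * B).map (TrivSqZeroExt.inlHom L L) := (Matrix.map_mul).symm
    have hcTB : (c * T).map (TrivSqZeroExt.inlHom L L) * B.map (TrivSqZeroExt.inlHom L L) =
        (c * T * B).map (TrivSqZeroExt.inlHom L L) := (Matrix.map_mul).symm
    rw [add_mul, one_mul, mul_add, mul_one, Matrix.mul_smul, add_mul, hTB, Matrix.smul_mul,
      Matrix.smul_mul, hcT, hcTB]
    obtain ⟨P, hP⟩ : ∃ P, P = c * T := ⟨_, rfl⟩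
    obtain ⟨Q, hQ⟩ : ∃ Q, Q = T * B := ⟨_, rfl⟩
    obtain ⟨R, hR⟩ : ∃ R, R = c * T * B := ⟨_, rfl⟩
    rw [← hR, ← hP, ← hQ]
    ext i j
    · simp [dh]
    · simp [dh, h i j, ← hP, ← hQ]
  have h2 := congrArg Matrix.det h1
  rw [Matrix.det_mul, Matrix.det_mul, det_eps, det_eps] at h2
  have h3 : (T.map (dh D)).det = dh D T.det := ((dh D).map_det T).symm
  have h4 : (T.map (TrivSqZeroExt.inlHom L L)).det = TrivSqZeroExt.inl T.det :=
    ((TrivSqZeroExt.inlHom L L).map_det T).symm
  rw [h3, h4] at h2
  have h5 := congrArg TrivSqZeroExt.snd h2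
  rw [dh_snd] at h5
  rw [h5]
  simp
  ring

end det

section lie

variable {k C L : Type} [Field k] [Field C] [Field L] [CharZero C] [Algebra k L] [Algebra C L]

/-- `F` are the coordinate vector fields of the coordinates `t` of the field `L` over `C`. -/
structure Frm {e : ℕ} (t : Fin e → L) (F : Fin e → Derivation C L L) : Prop where
  bas : IsTranscendenceBasis C t
  dual : ∀ i j, F i (t j) = if i = j then 1 else 0

theorem der_sum {ι : Type} (s : Finset ι) (c : ι → L) (D : ι → Derivation C L L) (f : L) :
    (∑ i ∈ s, c i • D i) f = ∑ i ∈ s, c i * D i f := by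
  classical
  induction s using Finset.induction_on with
  | empty => simp
  | insert i s hi ih =>
    rw [Finset.sum_insert hi, Finset.sum_insert hi, Derivation.add_apply, ih,
      Derivation.smul_apply, smul_eq_mul]

theorem Frm.expand {e : ℕ} {t : Fin e → L} {F : Fin e → Derivation C L L} (h : Frm t F)
    (E : Derivation C L L) : E = ∑ i, E (t i) • F i := by
  apply Derivation.ext
  intro f
  have h1 := der_zero (E - ∑ i, E (t i) • F i) t h.bas (fun j => by
    rw [Derivation.sub_apply, der_sum, Finset.sum_eq_single j]
    · rw [h.dual, if_pos rfl, mul_one, sub_self]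
    · intro b _ hb
      rw [h.dual, if_neg hb, mul_zero]
    · intro hj
      exact absurd (Finset.mem_univ _) hj) f
  rw [Derivation.sub_apply] at h1
  exact sub_eq_zero.1 h1

theorem Frm.apply {e : ℕ} {t : Fin e → L} {F : Fin e → Derivation C L L} (h : Frm t F)
    (E : Derivation C L L) (f : L) : E f = ∑ i, E (t i) * F i f := by
  conv_lhs => rw [h.expand E]
  exact der_sum _ _ _ _

/-- The bracket of a derivation which maps `C` to itself and a derivation over `C`. -/
noncomputable def brk (D : Derivation k L L)
    (hD : ∀ c : C, ∃ c' : C, D (algebraMap C L c) = algebraMap C L c') (E : Derivation C L L) :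
    Derivation C L L :=
  Derivation.mk'
    { toFun := fun x => D (E x) - E (D x)
      map_add' := fun x y => by
        rw [map_add, map_add, map_add, map_add]
        ring
      map_smul' := fun c x => by
        obtain ⟨c', hc'⟩ := hD c
        rw [RingHom.id_apply, Algebra.smul_def, Algebra.smul_def, E.leibniz, D.leibniz,
          E.map_algebraMap, smul_zero, add_zero, smul_eq_mul, D.leibniz, hc', map_add]
        simp only [smul_eq_mul]
        rw [E.leibniz, E.leibniz, E.map_algebraMap, E.map_algebraMap]
        simp only [smul_eq_mul]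
        ring }
    (fun x y => by
      change D (E (x * y)) - E (D (x * y)) = x • (D (E y) - E (D y)) + y • (D (E x) - E (D x))
      rw [E.leibniz, D.leibniz]
      simp only [smul_eq_mul, map_add, Derivation.leibniz]
      ring)

theorem brk_apply (D : Derivation k L L)
    (hD : ∀ c : C, ∃ c' : C, D (algebraMap C L c) = algebraMap C L c') (E : Derivation C L L)
    (x : L) : brk D hD E x = D (E x) - E (D x) := rfl

/-- the divergence -/
noncomputable def dvg {e : ℕ} (D : Derivation k L L) (t : Fin e → L)
    (F : Fin e → Derivation C L L) : L := ∑ i, F i (D (t i))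

/-- **The divergence in two coordinate systems.** -/
theorem dvg_change {e : ℕ} {D : Derivation k L L}
    (hD : ∀ c : C, ∃ c' : C, D (algebraMap C L c) = algebraMap C L c') {t y : Fin e → L}
    {F E : Fin e → Derivation C L L} (ht : Frm t F) (hy : Frm y E) :
    D (Matrix.of fun i j => E i (t j)).det =
      (Matrix.of fun i j => E i (t j)).det * (dvg D t F - dvg D y E) := by
  have h := der_det D (Matrix.of fun i j => E i (t j)) (Matrix.of fun i j => - E i (D (y j)))
    (Matrix.of fun i j => F i (D (t j))) (fun i j => by
      have h1 : D (E i (t j)) = brk D hD (E i) (t j) + E i (D (t j)) := by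
        rw [brk_apply]
        ring
      have h2 : ∀ l, brk D hD (E i) (y l) = - E i (D (y l)) := by
        intro l
        rw [brk_apply, hy.dual]
        split_ifs
        · rw [D.map_one_eq_zero, zero_sub]
        · rw [map_zero, zero_sub]
      rw [Matrix.of_apply, h1, hy.apply (brk D hD (E i)) (t j), ht.apply (E i) (D (t j)),
        Matrix.mul_apply, Matrix.mul_apply]
      simp only [Matrix.of_apply, h2])
  rw [h]
  congr 1
  unfold dvg Matrix.trace
  simp only [Matrix.diag_apply, Matrix.of_apply, Finset.sum_neg_distrib]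
  ring

/-- the chain rule for determinants -/
theorem Frm.det_chain {e : ℕ} {y : Fin e → L} {E : Fin e → Derivation C L L} (hy : Frm y E)
    (G : Fin e → Derivation C L L) (t : Fin e → L) :
    (Matrix.of fun i j => G i (t j)).det =
      (Matrix.of fun i j => G i (y j)).det * (Matrix.of fun i j => E i (t j)).det := by
  rw [← Matrix.det_mul]
  congr 1
  ext i j
  rw [Matrix.mul_apply, Matrix.of_apply, hy.apply (G i) (t j)]
  rfl

end lie

end Pool.Agent.H917
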