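import Pool.Agent.H917.A1

/-!
Spaces of pluricanonical forms which are regular at a set of places.
-/

set_option autoImplicit false
set_option linter.overlappingInstances false
set_option linter.unusedSectionVars false

open FF MvPolynomial IntermediateField Pool.Agent.W619.PQ Pool.Agent.W619.TW Pool.Agent.W619.PL
  Pool.Agent.W603.LV Pool.Agent.W619.Y

namespace Pool.Agent.H917

variable {k C L : Type} [Field k] [Field C] [Field L] [CharZero C] [Algebra k L] [Algebra C L]

/-- The functions `g` such that the form `g (dt)^N` is regular at all places in `V`. -/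
def WN (V : Set (Place C L)) {e : ℕ} (t : Fin e → L) (N : ℕ) : Submodule C L where
  carrier := {g | ∀ P ∈ V, ∀ G : Fin e → Derivation C L L, (∀ i, Pres P (G i)) →
    P.Reg ((Matrix.of fun i j => G i (t j)).det ^ N * g)}
  add_mem' := by
    intro a b ha hb P hP G hG
    rw [mul_add]
    exact P.reg_add (ha P hP G hG) (hb P hP G hG)
  zero_mem' := by
    intro P _ G _
    rw [mul_zero]
    exact P.reg_zero
  smul_mem' := by
    intro c a ha P hP G hG
    rw [mul_smul_comm, Algebra.smul_def]
    exact P.reg_mul (P.reg_const c) (ha P hP G hG)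

variable {V : Set (Place C L)} {e : ℕ} {t : Fin e → L} {N : ℕ}

theorem WN_mul {N' : ℕ} {g g' : L} (hg : g ∈ WN V t N) (hg' : g' ∈ WN V t N') :
    g * g' ∈ WN V t (N + N') := by
  intro P hP G hG
  have h := P.reg_mul (hg P hP G hG) (hg' P hP G hG)
  rw [show (Matrix.of fun i j => G i (t j)).det ^ (N + N') * (g * g') =
    (Matrix.of fun i j => G i (t j)).det ^ N * g *
      ((Matrix.of fun i j => G i (t j)).det ^ N' * g') by ring]
  exact h

theorem WN_pow {g : L} (hg : g ∈ WN V t N) : ∀ n : ℕ, g ^ n ∈ WN V t (n * N)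
  | 0 => by
    intro P _ _ _
    rw [Nat.zero_mul, pow_zero, pow_zero, one_mul]
    exact P.reg_one
  | (n + 1) => by
    rw [pow_succ, Nat.succ_mul]
    exact WN_mul (WN_pow hg n) hg

/-- coordinates at the place `P` -/
structure FrmAt (P : Place C L) {e : ℕ} (y : Fin e → L) (E : Fin e → Derivation C L L) : Prop where
  frm : Frm y E
  reg : ∀ i, P.Reg (y i)
  pres : ∀ i, Pres P (E i)

theorem reg_det {P : Place C L} {y : Fin e → L} {G : Fin e → Derivation C L L}
    (hy : ∀ i, P.Reg (y i)) (hG : ∀ i, Pres P (G i)) :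
    P.Reg (Matrix.of fun i j => G i (y j)).det :=
  ge_det P _ fun i j => hG i _ (hy j)

theorem reg_pow' {P : Place C L} {f : L} (hf : P.Reg f) (n : ℕ) : P.Reg (f ^ n) := by
  induction n with
  | zero => rw [pow_zero]; exact P.reg_one
  | succ n ih => rw [pow_succ]; exact P.reg_mul ih hf

/-- it is enough to consider one coordinate system at each place -/
theorem reg_of_frm {P : Place C L} {y : Fin e → L} {E : Fin e → Derivation C L L}
    (hy : FrmAt P y E) {g : L} (h : P.Reg ((Matrix.of fun i j => E i (t j)).det ^ N * g))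
    {G : Fin e → Derivation C L L} (hG : ∀ i, Pres P (G i)) :
    P.Reg ((Matrix.of fun i j => G i (t j)).det ^ N * g) := by
  rw [hy.frm.det_chain G t, mul_pow, mul_assoc]
  exact P.reg_mul (reg_pow' (reg_det hy.reg hG) N) h

theorem mem_WN (hV : ∀ P ∈ V, ∃ y E, FrmAt (e := e) P y E) {g : L}
    (h : ∀ P ∈ V, ∀ y E, FrmAt (e := e) P y E → P.Reg ((Matrix.of fun i j => E i (t j)).det ^ N * g)) :
    g ∈ WN V t N := by
  intro P hP G hG
  obtain ⟨y, E, hy⟩ := hV P hP
  exact reg_of_frm hy (h P hP y E hy) hG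

theorem reg_dvg {P : Place C L} {y : Fin e → L} {E : Fin e → Derivation C L L}
    (hy : FrmAt P y E) {D : Derivation k L L} (hDP : ∀ z, P.Reg z → P.Reg (D z)) :
    P.Reg (dvg D y E) := by
  unfold dvg
  exact Ge.sum _ _ fun i _ => hy.pres i _ (hDP _ (hy.reg i))

/-- **The Lie derivative of a regular pluricanonical form is regular.** -/
theorem WN_lie {D : Derivation k L L}
    (hD : ∀ c : C, ∃ c' : C, D (algebraMap C L c) = algebraMap C L c')
    (hV : ∀ P ∈ V, ∃ y E, FrmAt (e := e) P y E) (hDV : ∀ P ∈ V, ∀ z, P.Reg z → P.Reg (D z))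
    {F : Fin e → Derivation C L L} (hF : Frm t F) {g : L} (hg : g ∈ WN V t N) :
    D g + N * dvg D t F * g ∈ WN V t N := by
  refine mem_WN hV fun P hP y E hy => ?_
  obtain ⟨J, hJ⟩ : ∃ J, J = (Matrix.of fun i j => E i (t j)).det := ⟨_, rfl⟩
  have h1 : D J = J * (dvg D t F - dvg D y E) := by
    rw [hJ]
    exact dvg_change hD hF hy.frm
  have h2 : P.Reg (J ^ N * g) := by
    rw [hJ]
    exact hg P hP E hy.pres
  rw [← hJ]
  have h3 : J ^ N * (D g + N * dvg D t F * g) =
      D (J ^ N * g) + (N : L) * dvg D y E * (J ^ N * g) := by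
    have h4 : D (J ^ N) = N * J ^ N * (dvg D t F - dvg D y E) := by
      rw [D.leibniz_pow, h1, nsmul_eq_mul, smul_eq_mul]
      rcases Nat.eq_zero_or_pos N with h0 | h0
      · subst h0
        simp
      · obtain ⟨M, rfl⟩ := Nat.exists_eq_succ_of_ne_zero h0.ne'
        rw [Nat.succ_sub_one, pow_succ]
        ring
    rw [D.leibniz, h4, smul_eq_mul, smul_eq_mul]
    ring
  rw [h3]
  refine P.reg_add (hDV P hP _ h2) (P.reg_mul (P.reg_mul ?_ (reg_dvg hy (hDV P hP))) h2)
  have h5 := P.reg_const (N : C)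
  rwa [map_natCast] at h5

/-- an element which is integral over a ring of regular functions is regular -/
theorem reg_of_monic {P : Place C L} {d : ℕ} {a : ℕ → L} (ha : ∀ i < d, P.Reg (a i)) {b : L}
    (h : b ^ d + ∑ i ∈ Finset.range d, a i * b ^ i = 0) : P.Reg b := by
  classical
  by_contra hb
  have hb0 : b ≠ 0 := fun h0 => hb (Or.inl h0)
  have hbn : P.ord b < 0 := by
    by_contra h1
    exact hb (Or.inr (not_lt.1 h1))
  have hd : 0 < d := by
    rcases Nat.eq_zero_or_pos d with h0 | h0
    · subst h0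
      simp at h
    · exact h0
  have h1 : Ge P ((d - 1 : ℕ) * P.ord b) (∑ i ∈ Finset.range d, a i * b ^ i) := by
    refine Ge.sum _ _ fun i hi => ?_
    have hi' := Finset.mem_range.1 hi
    have h2 : Ge P (i * P.ord b) (b ^ i) := Or.inr (by rw [P.ord_pow])
    have h3 : Ge P 0 (a i) := ha i hi'
    have h4 := h3.mul h2
    refine h4.mono ?_
    rw [zero_add]
    have h5 : (i : ℤ) ≤ (d - 1 : ℕ) := by exact_mod_cast Nat.le_sub_one_of_lt hi'
    nlinarith
  have h6 : Ge P ((d - 1 : ℕ) * P.ord b) (b ^ d) := by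
    have h7 : b ^ d = -(∑ i ∈ Finset.range d, a i * b ^ i) := by linear_combination h
    rw [h7]
    exact h1.neg
  have h8 := h6.resolve_left (pow_ne_zero _ hb0)
  rw [P.ord_pow] at h8
  have h9 : ((d - 1 : ℕ) : ℤ) = d - 1 := by
    rw [Nat.cast_sub (Nat.succ_le_of_lt hd)]
    norm_num
  rw [h9] at h8
  nlinarith

/-- **Integrality.** -/
theorem WN_int {d : ℕ} {a : ℕ → L} (ha : ∀ i ≤ d, a i ∈ WN V t N) {b : L} (had : a d ≠ 0)
    (h : ∑ i ∈ Finset.range (d + 1), a i * b ^ i = 0) : a d * b ∈ WN V t N := by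
  intro P hP G hG
  obtain ⟨J, hJ⟩ : ∃ J, J = (Matrix.of fun i j => G i (t j)).det ^ N := ⟨_, rfl⟩
  have hJa : ∀ i ≤ d, P.Reg (J * a i) := fun i hi => by
    rw [hJ]
    exact ha i hi P hP G hG
  rw [← hJ]
  have hd : 0 < d := by
    rcases Nat.eq_zero_or_pos d with h0 | h0
    · subst h0
      simp at h
      exact absurd h had
    · exact h0
  -- `c = J a_d b` is a root of the monic polynomial with the coefficients `J a_i (J a_d)^(d-1-i)`
  refine reg_of_monic (d := d) (a := fun i => J * a i * (J * a d) ^ (d - 1 - i)) ?_ ?_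
  · intro i hi
    exact P.reg_mul (hJa i hi.le) (reg_pow' (hJa d le_rfl) _)
  · have h1 : (J * (a d * b)) ^ d + ∑ i ∈ Finset.range d,
        J * a i * (J * a d) ^ (d - 1 - i) * (J * (a d * b)) ^ i =
        J * (J * a d) ^ (d - 1) * ∑ i ∈ Finset.range (d + 1), a i * b ^ i := by
      rw [Finset.sum_range_succ, mul_add, Finset.mul_sum, add_comm]
      congr 1
      · refine Finset.sum_congr rfl fun i hi => ?_
        have hi' := Finset.mem_range.1 hi
        have h2 : (J * a d) ^ (d - 1) = (J * a d) ^ (d - 1 - i) * (J * a d) ^ i := by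
          rw [← pow_add]
          congr 1
          omega
        rw [h2, ← mul_assoc J (a d) b, mul_pow (J * a d) b i]
        ring
      · obtain ⟨d', rfl⟩ := Nat.exists_eq_succ_of_ne_zero hd.ne'
        rw [Nat.succ_sub_one, ← mul_assoc J (a _) b, mul_pow, pow_succ (J * a _)]
        ring
    rw [h1, h, mul_zero]

end Pool.Agent.H917
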