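import Pool.Graph.R_seed8.TH143.HE.Spec
import Pool.Agent.H917.A2

/-!
Linear projections to a projective space (Noether normalization).
-/

set_option autoImplicit false
set_option linter.overlappingInstances false
set_option linter.unusedSectionVars false

open FF MvPolynomial Pool.Agent.W603.LV Pool.Agent.TH143.HE

namespace Pool.Agent.H917

theorem hmg_ne {R : Type} [CommRing R] {n : ℕ} {G : MvPolynomial (Fin n) R} (hG : G ≠ 0) :
    hmg G ≠ 0 := by
  intro h0
  apply hG
  have h1 : aeval (Fin.cons 1 X : Fin (n + 1) → MvPolynomial (Fin n) R) (hmg G) = G := by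
    unfold hmg
    rw [map_sum]
    conv_rhs => rw [← sum_homogeneousComponent G]
    refine Finset.sum_congr rfl fun e _ => ?_
    rw [map_mul, map_pow, aeval_X, Fin.cons_zero, one_pow, one_mul, aeval_rename]
    have h2 : (Fin.cons 1 X : Fin (n + 1) → MvPolynomial (Fin n) R) ∘ Fin.succ = X := by
      funext i
      simp
    rw [h2, aeval_X_left_apply]
  rw [← h1, h0, map_zero]

section

variable {C L : Type} [Field C] [Field L] [Algebra C L]

theorem aeval_smul_homog {σ : Type} [Fintype σ] {A : Type} [CommRing A] [Algebra C A] (c : A)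
    (v : σ → A) {G : MvPolynomial σ C} {d : ℕ} (hG : G.IsHomogeneous d) :
    aeval (fun i => c * v i) G = c ^ d * aeval v G :=
  eval₂_smul_homog (algebraMap C A) c v hG

theorem aeval_hmg {n : ℕ} (v : Fin (n + 1) → L) (hv : v 0 ≠ 0) (G : MvPolynomial (Fin n) C) :
    aeval v (hmg G) = v 0 ^ G.totalDegree * aeval (fun i => v (Fin.succ i) / v 0) G :=
  eval₂_hmg (algebraMap C L) v hv G

theorem aeval_c {σ A : Type} [CommRing A] [Algebra C A] (c : σ → C) (f : MvPolynomial σ C) :
    aeval (fun i => algebraMap C A (c i)) f = algebraMap C A (eval c f) := by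
  induction f using MvPolynomial.induction_on with
  | C a => simp
  | add p q hp hq => rw [map_add, hp, hq, map_add, map_add]
  | mul_X p i hp => rw [map_mul, hp, aeval_X, map_mul, eval_X, map_mul]

/-- there is no homogeneous relation -/
def HI {r : ℕ} (T : Fin r → L) : Prop :=
  ∀ (f : MvPolynomial (Fin r) C) (d : ℕ), f.IsHomogeneous d → f ≠ 0 → aeval T f ≠ 0

theorem HI.ne {r : ℕ} {T : Fin r → L} (h : HI (C := C) T) (i : Fin r) : T i ≠ 0 := by
  have := h (X i) 1 (isHomogeneous_X C i) (X_ne_zero i)
  rwa [aeval_X] at this

theorem HI.ind {r : ℕ} {T : Fin (r + 1) → L} (h : HI (C := C) T) :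
    AlgebraicIndependent C fun i : Fin r => T i.succ / T 0 := by
  rw [AlgebraicIndependent, injective_iff_map_eq_zero]
  intro f hf
  by_contra hf0
  apply h (hmg f) _ (hmg_homog f) (hmg_ne hf0)
  rw [aeval_hmg T (h.ne 0)]
  rw [hf, mul_zero]

/-- The linear projection given by `T`. -/
structure PNorm {n r : ℕ} (y : Fin n → L) (T : Fin r → L) : Prop where
  mem : ∀ i, T i ∈ Submodule.span C (Set.range y)
  reg : ∀ (P : Place C L) (N : ℤ), (∀ i, Ge P N (T i)) → ∀ j, Ge P N (y j)
  alg : ∀ i j, IsAlgebraic (IntermediateField.adjoin C {z | ∃ k l, z = T k / T l}) (y i / y j)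

/-- congruence of values of polynomials -/
theorem ge_sub {r : ℕ} {P : Place C L} (f : MvPolynomial (Fin r) C) {u v : Fin r → L}
    (hu : ∀ i, P.Reg (u i)) (huv : ∀ i, Ge P 1 (u i - v i)) :
    Ge P 1 (aeval u f - aeval v f) := by
  have hv : ∀ i, P.Reg (v i) := by
    intro i
    have h1 : v i = u i - (u i - v i) := by ring
    rw [h1]
    exact Ge.sub (hu i) ((huv i).mono (by norm_num))
  have hreg : ∀ (g : MvPolynomial (Fin r) C) (w : Fin r → L), (∀ i, P.Reg (w i)) →
      P.Reg (aeval w g) := by
    intro g w hw
    induction g using MvPolynomial.induction_on with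
    | C a => rw [aeval_C]; exact P.reg_const a
    | add p q hp hq => rw [map_add]; exact P.reg_add hp hq
    | mul_X p i hp => rw [map_mul, aeval_X]; exact P.reg_mul hp (hw i)
  induction f using MvPolynomial.induction_on with
  | C a => rw [aeval_C, aeval_C, sub_self]; exact Ge.zero
  | add p q hp hq =>
    rw [map_add, map_add, add_sub_add_comm]
    exact hp.add hq
  | mul_X p i hp =>
    rw [map_mul, map_mul, aeval_X, aeval_X]
    have h1 : aeval u p * u i - aeval v p * v i =
        (aeval u p - aeval v p) * u i + aeval v p * (u i - v i) := by ring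
    rw [h1]
    have h2 : Ge P (1 + 0) ((aeval u p - aeval v p) * u i) := hp.mul (hu i)
    have h3 : Ge P (0 + 1) (aeval v p * (u i - v i)) := Ge.mul (hreg p v hv) (huv i)
    rw [add_zero] at h2
    rw [zero_add] at h3
    exact h2.add h3

theorem alg_mono {E F : IntermediateField C L} (h : E ≤ F) {z : L} (hz : IsAlgebraic E z) :
    IsAlgebraic F z := by
  let _ : Algebra E F := (IntermediateField.inclusion h).toRingHom.toAlgebra
  have : IsScalarTower E F L := IsScalarTower.of_algebraMap_eq fun _ => rfl
  exact hz.tower_top F

/-- algebraic over algebraic -/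
theorem alg_trans {E : IntermediateField C L} {S : Set L} (hS : ∀ z ∈ S, IsAlgebraic E z) {z : L}
    (hz : IsAlgebraic (IntermediateField.adjoin C S) z) : IsAlgebraic E z := by
  obtain ⟨A, hA⟩ : ∃ A : IntermediateField E L, A = algebraicClosure E L := ⟨_, rfl⟩
  have h1 : IntermediateField.adjoin C S ≤ A.restrictScalars C := by
    rw [IntermediateField.adjoin_le_iff]
    intro s hs
    have := hS s hs
    change s ∈ A
    rw [hA, mem_algebraicClosure_iff]
    exact this
  have h2 : IsAlgebraic (A.restrictScalars C) z := alg_mono h1 hz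
  have h3 : IsAlgebraic A z := h2
  have : Algebra.IsAlgebraic E A := by
    rw [hA]
    infer_instance
  exact h3.restrictScalars E

theorem PNorm.step [Infinite C] {n r : ℕ} {y : Fin n → L} {T : Fin (r + 1) → L}
    (hT : PNorm (C := C) y T) (hn : ¬ HI (C := C) T) : ∃ T' : Fin r → L, PNorm (C := C) y T' := by
  classical
  unfold HI at hn
  push Not at hn
  obtain ⟨f, d, hfd, hf0, hf⟩ := hn
  -- a vector with `f c ≠ 0`
  obtain ⟨c0, hc0⟩ : ∃ c : Fin (r + 1) → C, eval c f ≠ 0 := by
    by_contra hcon
    push Not at hcon
    exact hf0 (MvPolynomial.funext fun c => by rw [hcon c, map_zero])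
  have hsc : ∀ (a : C) (v : Fin (r + 1) → C), eval (fun i => a * v i) f = a ^ d * eval v f :=
    fun a v => aeval_smul_homog (C := C) a v hfd
  obtain ⟨k, hk⟩ : ∃ k, c0 k ≠ 0 := by
    by_contra hcon
    push Not at hcon
    have h1 : c0 = fun i => (0 : C) * c0 i := by
      funext i
      rw [hcon i, mul_zero]
    have h2 : eval c0 f = (0 : C) ^ d * eval c0 f := by
      conv_lhs => rw [h1]
      exact hsc _ _
    rcases Nat.eq_zero_or_pos d with h0 | h0
    · subst h0
      have h3 := totalDegree_eq_zero_iff_eq_C.1 (hfd.totalDegree hf0)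
      rw [h3, aeval_C] at hf
      have h4 : coeff 0 f = 0 := by simpa using hf
      rw [h4, map_zero] at h3
      exact hf0 h3
    · rw [zero_pow h0.ne', zero_mul] at h2
      exact hc0 h2
  obtain ⟨c, hc⟩ : ∃ c : Fin (r + 1) → C, c = fun i => (c0 k)⁻¹ * c0 i := ⟨_, rfl⟩
  have hck : c k = 1 := by
    rw [hc]
    exact inv_mul_cancel₀ hk
  have hcf : eval c f ≠ 0 := by
    rw [hc, hsc]
    exact mul_ne_zero (pow_ne_zero _ (inv_ne_zero hk)) hc0
  have hcfL : aeval (fun i => algebraMap C L (c i)) f = algebraMap C L (eval c f) :=
    aeval_c c f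
  obtain ⟨T', hT'⟩ : ∃ T' : Fin r → L, ∀ i, T' i =
      T (k.succAbove i) - algebraMap C L (c (k.succAbove i)) * T k := ⟨_, fun _ => rfl⟩
  refine ⟨T', ⟨?_, ?_, ?_⟩⟩
  · intro i
    rw [hT', ← Algebra.smul_def]
    exact Submodule.sub_mem _ (hT.mem _) (Submodule.smul_mem _ _ (hT.mem _))
  · intro P N hP
    refine hT.reg P N ?_
    have hTk : Ge P N (T k) := by
      by_contra hcon
      have h0 : T k ≠ 0 := fun h => hcon (Or.inl h)
      have h1 : P.ord (T k) < N := by
        by_contra h1
        exact hcon (Or.inr (not_lt.1 h1))
      have h2 : ∀ i, Ge P 1 (T i / T k - algebraMap C L (c i)) := by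
        intro i
        rcases Fin.eq_self_or_eq_succAbove k i with rfl | ⟨i', rfl⟩
        · rw [div_self h0, hck, map_one, sub_self]
          exact Ge.zero
        · have h3 : T (k.succAbove i') / T k - algebraMap C L (c (k.succAbove i')) =
              T' i' * (T k)⁻¹ := by
            rw [hT']
            field_simp
          rw [h3]
          have h4 : Ge P (- P.ord (T k)) (T k)⁻¹ := Or.inr (by rw [P.ord_inv])
          refine ((hP i').mul h4).mono ?_
          omega
      have h3 : ∀ i, P.Reg (T i / T k) := by
        intro i
        have h4 : T i / T k = (T i / T k - algebraMap C L (c i)) + algebraMap C L (c i) := by ring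
        rw [h4]
        exact Ge.add ((h2 i).mono (by norm_num)) (Ge.const (c i))
      have h4 := ge_sub f h3 h2
      have h5 : aeval (fun i => T i / T k) f = 0 := by
        have h6 : (fun i => T i / T k) = fun i => (T k)⁻¹ * T i := by
          funext i
          rw [div_eq_mul_inv, mul_comm]
        rw [h6, aeval_smul_homog _ _ hfd, hf, mul_zero]
      rw [h5, hcfL, zero_sub] at h4
      have h6 := h4.neg
      rw [neg_neg] at h6
      rcases h6 with h6 | h6
      · exact hcf (by simpa using h6)
      · rw [P.ord_const hcf] at h6
        omega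
    intro i
    rcases Fin.eq_self_or_eq_succAbove k i with rfl | ⟨i', rfl⟩
    · exact hTk
    · have h3 : T (k.succAbove i') = T' i' + algebraMap C L (c (k.succAbove i')) * T k := by
        rw [hT']
        ring
      rw [h3]
      refine (hP i').add ?_
      have h4 := (Ge.const (P := P) (c (k.succAbove i'))).mul hTk
      rwa [zero_add] at h4
  · intro i j
    obtain ⟨K', hK'⟩ : ∃ K', K' = IntermediateField.adjoin C {z | ∃ k l, z = T' k / T' l} :=
      ⟨_, rfl⟩
    rw [← hK']
    refine alg_trans ?_ (hT.alg i j)
    rintro z ⟨a, b, rfl⟩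
    by_cases hall : ∀ i, T' i = 0
    · have h1 : ∀ i, T i = algebraMap C L (c i) * T k := by
        intro i
        rcases Fin.eq_self_or_eq_succAbove k i with rfl | ⟨i', rfl⟩
        · rw [hck, map_one, one_mul]
        · have h3 := hall i'
          rw [hT'] at h3
          linear_combination h3
      by_cases h0 : T k = 0
      · rw [h1 a, h0, mul_zero, zero_div]
        exact isAlgebraic_zero
      · have h2 : T a / T b = algebraMap K' L (algebraMap C K' (c a / c b)) := by
          rw [← IsScalarTower.algebraMap_apply, map_div₀, h1 a, h1 b]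
          by_cases hb : c b = 0
          · rw [hb]
            simp
          · have hb' : algebraMap C L (c b) ≠ 0 := by simpa using hb
            field_simp
        rw [h2]
        exact isAlgebraic_algebraMap _
    · push Not at hall
      obtain ⟨l, hl⟩ := hall
      have hmem : ∀ i, T' i / T' l ∈ K' := fun i => by
        rw [hK']
        exact IntermediateField.subset_adjoin C _ ⟨i, l, rfl⟩
      obtain ⟨u, hu⟩ : ∃ u : Fin (r + 1) → K', ∀ j, (u j : L) =
          (T j - algebraMap C L (c j) * T k) / T' l := by
        have : ∀ j, ∃ w : K', (w : L) = (T j - algebraMap C L (c j) * T k) / T' l := by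
          intro j
          rcases Fin.eq_self_or_eq_succAbove k j with rfl | ⟨j', rfl⟩
          · refine ⟨0, ?_⟩
            rw [hck, map_one, one_mul, sub_self, zero_div]
            rfl
          · refine ⟨⟨_, hmem j'⟩, ?_⟩
            change T' j' / T' l = _
            rw [hT']
        exact ⟨fun j => (this j).choose, fun j => (this j).choose_spec⟩
      have hz : IsAlgebraic K' (T k / T' l) := by
        by_cases hz0 : T k = 0
        · rw [hz0, zero_div]
          exact isAlgebraic_zero
        have h3 : IsAlgebraic K' (T k / T' l)⁻¹ := by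
          obtain ⟨H, hH⟩ : ∃ H : Polynomial K', H = aeval (fun j => Polynomial.C (u j) *
              Polynomial.X + Polynomial.C (algebraMap C K' (c j))) f := ⟨_, rfl⟩
          refine ⟨H, ?_, ?_⟩
          · intro h0
            have h4 : Polynomial.eval 0 H = algebraMap C K' (eval c f) := by
              rw [hH]
              have h5 : Polynomial.eval 0 (aeval (fun j => Polynomial.C (u j) *
                Polynomial.X + Polynomial.C (algebraMap C K' (c j))) f) =
                  ((Polynomial.aeval (0 : K')).restrictScalars C)
                    (aeval (fun j => Polynomial.C (u j) *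
                Polynomial.X + Polynomial.C (algebraMap C K' (c j))) f) := by
                rw [AlgHom.restrictScalars_apply, Polynomial.coe_aeval_eq_eval]
              rw [h5, comp_aeval_apply]
              have h6 : (fun j => ((Polynomial.aeval (0 : K')).restrictScalars C)
                  (Polynomial.C (u j) * Polynomial.X + Polynomial.C (algebraMap C K' (c j)))) =
                  fun j => algebraMap C K' (c j) := by
                funext j
                simp
              rw [h6]
              exact aeval_c c f
            rw [h0, Polynomial.eval_zero] at h4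
            apply hcf
            exact (map_eq_zero_iff _ (algebraMap C K').injective).1 h4.symm
          · rw [hH]
            have h5 : Polynomial.aeval (T k / T' l)⁻¹ (aeval (fun j => Polynomial.C (u j) *
                Polynomial.X + Polynomial.C (algebraMap C K' (c j))) f) =
                  ((Polynomial.aeval (R := K') (T k / T' l)⁻¹).restrictScalars C)
                    (aeval (fun j => Polynomial.C (u j) *
                Polynomial.X + Polynomial.C (algebraMap C K' (c j))) f) := by
                rw [AlgHom.restrictScalars_apply]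
            rw [h5, comp_aeval_apply]
            have h6 : (fun j => ((Polynomial.aeval (R := K') (T k / T' l)⁻¹).restrictScalars C)
                (Polynomial.C (u j) * Polynomial.X + Polynomial.C (algebraMap C K' (c j)))) =
                fun j => (T k)⁻¹ * T j := by
              funext j
              have h7 : algebraMap K' L (u j) = (T j - algebraMap C L (c j) * T k) / T' l := hu j
              simp only [AlgHom.restrictScalars_apply, map_add, map_mul, Polynomial.aeval_C,
                Polynomial.aeval_X, h7, ← IsScalarTower.algebraMap_apply]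
              field_simp
              ring
            rw [h6, aeval_smul_homog _ _ hfd, hf, mul_zero]
        have h4 := h3.inv
        rwa [inv_inv] at h4
      have hTl : ∀ j, IsAlgebraic K' (T j / T' l) := by
        intro j
        have h3 : T j / T' l = algebraMap K' L (u j) +
            algebraMap K' L (algebraMap C K' (c j)) * (T k / T' l) := by
          have h7 : algebraMap K' L (u j) = (T j - algebraMap C L (c j) * T k) / T' l := hu j
          rw [h7, ← IsScalarTower.algebraMap_apply]
          ring
        rw [h3]
        exact (isAlgebraic_algebraMap _).add ((isAlgebraic_algebraMap _).mul hz)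
      have h8 : T a / T b = (T a / T' l) * (T b / T' l)⁻¹ := by
        rw [inv_div, div_mul_div_cancel₀ hl]
      rw [h8]
      exact (hTl a).mul (hTl b).inv

/-- **Noether normalization.** -/
theorem exists_pnorm [Infinite C] {n : ℕ} (y : Fin n → L) :
    ∃ (r : ℕ) (T : Fin r → L), PNorm (C := C) y T ∧ HI (C := C) T := by
  classical
  have h1 : ∃ (r : ℕ) (T : Fin r → L), PNorm (C := C) y T := by
    refine ⟨n, y, fun i => Submodule.subset_span ⟨i, rfl⟩, fun P N h => h, fun i j => ?_⟩
    have h2 : y i / y j ∈ IntermediateField.adjoin C {z | ∃ k l, z = y k / y l} :=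
      IntermediateField.subset_adjoin C _ ⟨i, j, rfl⟩
    exact isAlgebraic_algebraMap (⟨_, h2⟩ : IntermediateField.adjoin C {z | ∃ k l, z = y k / y l})
  obtain ⟨r, ⟨T, hT⟩, hmin⟩ : ∃ r, (∃ T : Fin r → L, PNorm (C := C) y T) ∧
      ∀ m < r, ¬ ∃ T : Fin m → L, PNorm (C := C) y T :=
    ⟨Nat.find h1, Nat.find_spec h1, fun m hm => Nat.find_min h1 hm⟩
  refine ⟨r, T, hT, ?_⟩
  rcases Nat.eq_zero_or_pos r with h0 | h0
  · subst h0
    intro f d _ hf0 hf
    have h3 := MvPolynomial.eq_C_of_isEmpty f
    rw [h3, aeval_C] at hf
    have h4 : coeff 0 f = 0 := by simpa using hf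
    rw [h4, map_zero] at h3
    exact hf0 h3
  · obtain ⟨r', rfl⟩ := Nat.exists_eq_succ_of_ne_zero h0.ne'
    by_contra hcon
    exact hmin r' (Nat.lt_succ_self _) (hT.step hcon)

end

end Pool.Agent.H917
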