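import Pool.Agent.H917.A3
import Pool.Graph.R_pool_sql_team_seeded_1acbe0a2.Y174.BR.G4

/-!
The prime divisors which are not contracted, and the finiteness of the spaces of forms.
-/

set_option autoImplicit false
set_option linter.overlappingInstances false
set_option linter.unusedSectionVars false

open FF MvPolynomial Pool.Agent.W603.LV Pool.Agent.W619.PQ Pool.Agent.Y174.BR
  Pool.Agent.W619.TW Pool.Agent.TH143.HE

namespace Pool.Agent.H917

section

variable {C L : Type} [Field C] [Field L] [Algebra C L]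

/-- The place `P` is not contracted by the map given by `y`. -/
def VP {n : ℕ} (y : Fin n → L) (e : ℕ) : Set (Place C L) :=
  {P | ∃ j, y j ≠ 0 ∧ (∀ i, P.Reg (y i / y j)) ∧ ∃ x : Fin (e - 1) → L,
    (∀ i, ∃ a ∈ Algebra.adjoin C (Set.range fun l => y l / y j),
      ∃ b ∈ Algebra.adjoin C (Set.range fun l => y l / y j), b ≠ 0 ∧ P.ord b = 0 ∧ x i = a / b) ∧
    ∀ p : MvPolynomial (Fin (e - 1)) C, p ≠ 0 → aeval x p ≠ 0 ∧ P.ord (aeval x p) = 0}

theorem VP_div {n : ℕ} {y : Fin n → L} {e : ℕ} {P : Place C L} (h : P ∈ VP y e) :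
    IsDivisorial P e := by
  obtain ⟨j, _, _, x, _, hx⟩ := h
  exact ⟨x, hx⟩

/-- the order of the derivative -/
theorem pres_ge {P : Place C L} {E : Derivation C L L} (hE : Pres P E) {N : ℤ} {f : L}
    (hf : Ge P N f) : Ge P (N - 1) (E f) := by
  by_cases hf0 : f = 0
  · rw [hf0, map_zero]
    exact Ge.zero
  obtain ⟨t, ht0, ht⟩ := P.surj
  obtain ⟨u, hu⟩ : ∃ u, u = f * t ^ (- P.ord f) := ⟨_, rfl⟩
  have htn : t ^ (- P.ord f) ≠ 0 := zpow_ne_zero _ ht0
  have hu0 : P.ord u = 0 := by
    rw [hu, P.ord_mul hf0 htn, P.ord_zpow, ht]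
    ring
  have hune : u ≠ 0 := by
    rw [hu]
    exact mul_ne_zero hf0 htn
  have h1 := der_unit hE hu0
  have h2 : E u / u = E f / f + (- P.ord f : ℤ) * (E t / t) := by
    rw [hu, dlog_mul E hf0 htn, dlog_zpow E ht0]
  have h3 : E f = f * (E u / u) + f * ((P.ord f : ℤ) * (E t / t)) := by
    rw [h2]
    push_cast
    field_simp
    ring
  have hfo : Ge P (P.ord f) f := Or.inr le_rfl
  have h4 : Ge P 0 (E t) := hE t (Or.inr (by rw [ht]; norm_num))
  have h5 : Ge P (-1) t⁻¹ := Or.inr (by rw [P.ord_inv, ht])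
  have h6 : Ge P (0 + -1) (E t / t) := by
    rw [div_eq_mul_inv]
    exact h4.mul h5
  have hN : N ≤ P.ord f := hf.resolve_left hf0
  rw [h3]
  refine Ge.add ((hfo.mul h1).mono (by omega)) ((hfo.mul ((Ge.intCast (P.ord f)).mul h6)).mono ?_)
  omega

/-- Where all `T i / T c` are regular, the map `y` is defined and the functions are fractions of
functions on the chart. -/
theorem PNorm.chart {n r : ℕ} {y : Fin n → L} {T : Fin r → L} (hT : PNorm (C := C) y T)
    {P : Place C L} {c : Fin r} (hc : T c ≠ 0) (hreg : ∀ i, P.Reg (T i / T c)) :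
    ∃ j, y j ≠ 0 ∧ (∀ i, P.Reg (y i / y j)) ∧ ∀ i,
      ∃ a ∈ Algebra.adjoin C (Set.range fun l => y l / y j),
      ∃ b ∈ Algebra.adjoin C (Set.range fun l => y l / y j), b ≠ 0 ∧ P.ord b = 0 ∧
        T i / T c = a / b := by
  classical
  have h1 : ∀ j, Ge P (P.ord (T c)) (y j) := by
    refine hT.reg P _ fun i => ?_
    have h2 : T i = (T i / T c) * T c := by rw [div_mul_cancel₀ _ hc]
    rw [h2]
    have h3 : Ge P 0 (T i / T c) := hreg i
    have h4 : Ge P (P.ord (T c)) (T c) := Or.inr le_rfl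
    have h5 := h3.mul h4
    rwa [zero_add] at h5
  -- some `y j` has the order of `T c`
  obtain ⟨j, hj0, hj⟩ : ∃ j, y j ≠ 0 ∧ P.ord (y j) = P.ord (T c) := by
    by_contra hcon
    push Not at hcon
    have h2 : ∀ j, Ge P (P.ord (T c) + 1) (y j) := by
      intro j
      by_cases hj : y j = 0
      · exact Or.inl hj
      · right
        have h3 := (h1 j).resolve_left hj
        have h4 := hcon j hj
        omega
    have h3 : ∀ z ∈ Submodule.span C (Set.range y), Ge P (P.ord (T c) + 1) z := by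
      intro z hz
      induction hz using Submodule.span_induction with
      | mem x hx => obtain ⟨j, rfl⟩ := hx; exact h2 j
      | zero => exact Ge.zero
      | add x y _ _ hx hy => exact hx.add hy
      | smul a x _ hx =>
        rw [Algebra.smul_def]
        have := (Ge.const (P := P) a).mul hx
        rwa [zero_add] at this
    have h4 := (h3 _ (hT.mem c)).resolve_left hc
    omega
  have hlin : ∀ z ∈ Submodule.span C (Set.range y), z / y j ∈
      Algebra.adjoin C (Set.range fun l => y l / y j) := by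
    intro z hz
    induction hz using Submodule.span_induction with
    | mem x hx => obtain ⟨l, rfl⟩ := hx; exact Algebra.subset_adjoin ⟨l, rfl⟩
    | zero => rw [zero_div]; exact Subalgebra.zero_mem _
    | add x y _ _ hx hy => rw [add_div]; exact Subalgebra.add_mem _ hx hy
    | smul a x _ hx =>
      rw [smul_div_assoc]
      exact Subalgebra.smul_mem _ hx a
  refine ⟨j, hj0, fun i => ?_, fun i => ⟨_, hlin _ (hT.mem i), _, hlin _ (hT.mem c), ?_, ?_, ?_⟩⟩
  · have h2 : Ge P (P.ord (T c) + - P.ord (y j)) (y i / y j) := by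
      rw [div_eq_mul_inv]
      exact (h1 i).mul (Or.inr (by rw [P.ord_inv]))
    rw [hj, add_neg_cancel] at h2
    exact h2
  · exact div_ne_zero hc hj0
  · rw [P.ord_div hc hj0, hj, sub_self]
  · field_simp

end

section

variable {C L : Type} [Field C] [Field L] [Algebra C L]

theorem degB_eq {d : ℕ} {f : MvPolynomial (Fin (d + 1)) C} {N : ℕ} (hf : f.IsHomogeneous N)
    (hf0 : f ≠ 0) : Pool.Agent.TH756.PN.degB Finset.univ f = N := by
  unfold Pool.Agent.TH756.PN.degB
  have h1 : ∀ m ∈ f.support, ∑ b ∈ Finset.univ, m b = N := by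
    intro m hm
    have h5 := hf (mem_support_iff.1 hm)
    rw [Finsupp.weight_apply, Finsupp.sum_fintype _ _ (fun _ => by simp)] at h5
    simpa using h5
  apply le_antisymm
  · exact Finset.sup_le fun m hm => (h1 m hm).le
  · obtain ⟨m, hm⟩ := support_nonempty.2 hf0
    have h2 := Finset.le_sup (f := fun m : Fin (d + 1) →₀ ℕ => ∑ b ∈ Finset.univ, m b) hm
    rw [h1 m hm] at h2
    exact h2

/-- the affine coordinates -/
def Zc {r : ℕ} (T : Fin (r + 1) → L) : Fin r → L := fun i => T i.succ / T 0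

theorem indep_adic [CharZero C] {e : ℕ} {Z : Fin (e + 1) → L} (hZ : AlgebraicIndependent C Z)
    {p : MvPolynomial (Fin (e + 1)) C} (hp : Irreducible p) {P : Place C L}
    (hP : Pool.Agent.Y173.QA.Adic Z p P) : ∃ b : Fin (e + 1), ∀ q : MvPolynomial (Fin e) C, q ≠ 0 →
      aeval (fun j => Z (b.succAbove j)) q ≠ 0 ∧
      P.ord (aeval (fun j => Z (b.succAbove j)) q) = 0 := by
  classical
  obtain ⟨b, hb0, hb⟩ := Pool.Agent.TH122.AB.exists_pderiv hp
  refine ⟨b, fun R hR => ?_⟩
  obtain ⟨Q, hQ⟩ : ∃ Q, Q = rename b.succAbove R := ⟨_, rfl⟩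
  have hQ0 : Q ≠ 0 := by
    rw [hQ]
    intro h0
    apply hR
    have h1 : rename b.succAbove R = rename b.succAbove (0 : MvPolynomial (Fin e) C) := by
      rw [h0, map_zero]
    exact rename_injective _ (Fin.succAbove_right_injective) h1
  have h1 : aeval (fun j => Z (b.succAbove j)) R = aeval Z Q := by
    rw [hQ, aeval_rename]
    rfl
  have hpQ : ¬ p ∣ Q := by
    rintro ⟨T, hT⟩
    have hT0 : T ≠ 0 := by
      rintro rfl
      apply hQ0
      rw [hT, mul_zero]
    have h2 : degreeOf b Q = degreeOf b p + degreeOf b T := by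
      rw [hT, degreeOf_mul_eq hp.ne_zero hT0]
    have h3 : degreeOf b Q = 0 := by
      rw [hQ]
      by_contra h4
      have h5 : b ∈ (rename b.succAbove R).vars := by
        rw [mem_vars_iff_mem_support]
        obtain ⟨m, hm, hmb⟩ : ∃ m ∈ (rename b.succAbove R).support, m b ≠ 0 := by
          by_contra hcon
          push Not at hcon
          apply h4
          rw [degreeOf_eq_sup]
          apply Nat.eq_zero_of_le_zero
          refine Finset.sup_le fun m hm => ?_
          rw [hcon m hm]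
        exact ⟨m, hm, Finsupp.mem_support_iff.2 hmb⟩
      have h6 := vars_rename b.succAbove R h5
      rw [Finset.mem_image] at h6
      obtain ⟨j, -, hj⟩ := h6
      exact Fin.succAbove_ne b j hj
    have h4 : degreeOf b p = 0 := by omega
    apply hb0
    ext m
    rw [coeff_pderiv, coeff_zero]
    have h5 : coeff (m + Finsupp.single b 1) p = 0 := by
      by_contra h6
      have h7 := monomial_le_degreeOf b (mem_support_iff.2 h6)
      rw [h4] at h7
      simp at h7
    rw [h5, zero_mul]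
  rw [h1]
  exact ⟨fun h0 => hQ0 ((injective_iff_map_eq_zero _).1 hZ _ h0), (hP Q hQ0).2.2 hpQ⟩

theorem VP_adic [CharZero C] {n e : ℕ} {y : Fin n → L} {T : Fin (e + 2) → L}
    (hT : PNorm (C := C) y T) (hI : HI (C := C) T) {p : MvPolynomial (Fin (e + 1)) C}
    (hp : Irreducible p) {P : Place C L} (hP : Pool.Agent.Y173.QA.Adic (Zc T) p P) :
    P ∈ VP y (e + 1) := by
  obtain ⟨b, hb⟩ := indep_adic hI.ind hp hP
  obtain ⟨j, hj, hreg, hfr⟩ := hT.chart (P := P) (hI.ne 0) (fun i => by
    rcases Fin.eq_zero_or_eq_succ i with rfl | ⟨i', rfl⟩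
    · rw [div_self (hI.ne 0)]
      exact P.reg_one
    · have h1 := (hP (X i') (X_ne_zero i')).1
      rw [aeval_X] at h1
      exact Or.inr h1)
  exact ⟨j, hj, hreg, fun j => Zc T (b.succAbove j), fun i => hfr _, hb⟩

theorem VP_deg {n e : ℕ} {y : Fin n → L} {T : Fin (e + 2) → L}
    (hT : PNorm (C := C) y T) (hI : HI (C := C) T) {P : Place C L} {e0 : ℕ}
    (hP : ∀ f : MvPolynomial (Fin (e + 1)) C, f ≠ 0 →
      P.ord (aeval (Zc T) f) = - ((e0 : ℤ) * (Pool.Agent.TH756.PN.degB Finset.univ f : ℤ))) :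
    P ∈ VP y (e + 1) := by
  have hZ0 : ∀ i, Zc T i ≠ 0 := fun i => div_ne_zero (hI.ne _) (hI.ne _)
  have hZ : ∀ i, P.ord (Zc T i) = - (e0 : ℤ) := by
    intro i
    have h1 := hP (X i) (X_ne_zero i)
    rw [aeval_X, degB_eq (isHomogeneous_X C i) (X_ne_zero i)] at h1
    rw [h1]
    push_cast
    ring
  have hrat : ∀ i : Fin (e + 1), T i.succ / T (Fin.succ 0) = Zc T i / Zc T 0 := by
    intro i
    unfold Zc
    rw [div_div_div_cancel_right₀ (hI.ne 0)]
  obtain ⟨j, hj, hreg, hfr⟩ := hT.chart (P := P) (c := Fin.succ 0) (hI.ne _) (fun i => by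
    rcases Fin.eq_zero_or_eq_succ i with rfl | ⟨i', rfl⟩
    · right
      have h1 : T 0 / T (Fin.succ 0) = (Zc T 0)⁻¹ := by
        unfold Zc
        rw [inv_div]
      rw [h1, P.ord_inv, hZ, neg_neg]
      exact_mod_cast Nat.zero_le e0
    · right
      rw [hrat, P.ord_div (hZ0 _) (hZ0 _), hZ, hZ, sub_self])
  refine ⟨j, hj, hreg, fun i : Fin e => Zc T i.succ / Zc T 0, fun i => ?_, fun q hq => ?_⟩
  · have h1 := hfr i.succ.succ
    rw [hrat] at h1
    exact h1
  · have h1 := hP (hmg q) (hmg_ne hq)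
    rw [degB_eq (hmg_homog q) (hmg_ne hq), aeval_hmg _ (hZ0 0)] at h1
    have h2 : aeval (Zc T) (hmg q) ≠ 0 := fun h0 =>
      hmg_ne hq ((injective_iff_map_eq_zero _).1 hI.ind _ h0)
    rw [aeval_hmg _ (hZ0 0)] at h2
    have h3 : aeval (fun i : Fin e => Zc T i.succ / Zc T 0) q ≠ 0 := right_ne_zero_of_mul h2
    refine ⟨h3, ?_⟩
    rw [P.ord_mul (pow_ne_zero _ (hZ0 0)) h3, P.ord_pow, hZ] at h1
    linarith

end

section

variable {C L : Type} [Field C] [Field L] [Algebra C L] [CharZero C]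

theorem basis_Zc {n r : ℕ} {y : Fin n → L} {T : Fin (r + 1) → L} (hT : PNorm (C := C) y T)
    (hI : HI (C := C) T)
    (halg : Algebra.IsAlgebraic (IntermediateField.adjoin C {z | ∃ i j, z = y i / y j}) L) :
    IsTranscendenceBasis C (Zc T) := by
  have h1 : AlgebraicIndependent C (Zc T) := hI.ind
  rw [h1.isTranscendenceBasis_iff_isAlgebraic]
  refine Pool.Agent.W619.PQ.alg_adjoin fun z => ?_
  have h2 : ∀ i : Fin r, T i.succ / T 0 ∈ IntermediateField.adjoin C (Set.range (Zc T)) := fun i =>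
    IntermediateField.subset_adjoin C _ ⟨i, rfl⟩
  have h3 : ∀ i, T i / T 0 ∈ IntermediateField.adjoin C (Set.range (Zc T)) := by
    intro i
    rcases Fin.eq_zero_or_eq_succ i with rfl | ⟨i', rfl⟩
    · rw [div_self (hI.ne 0)]
      exact one_mem _
    · exact h2 i'
  have h4 : IntermediateField.adjoin C {z | ∃ k l, z = T k / T l} ≤
      IntermediateField.adjoin C (Set.range (Zc T)) := by
    rw [IntermediateField.adjoin_le_iff]
    rintro _ ⟨i, j, rfl⟩
    have h5 : T i / T j = (T i / T 0) / (T j / T 0) := by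
      rw [div_div_div_cancel_right₀ (hI.ne 0)]
    rw [h5]
    exact div_mem (h3 i) (h3 j)
  refine alg_trans ?_ (halg.isAlgebraic z)
  rintro _ ⟨i, j, rfl⟩
  exact alg_mono h4 (hT.alg i j)

theorem fin_WN {n e : ℕ} {y : Fin n → L} {T : Fin (e + 2) → L} (hT : PNorm (C := C) y T)
    (hI : HI (C := C) T) (hZ : IsTranscendenceBasis C (Zc T))
    (hfd : FiniteDimensional (IntermediateField.adjoin C (Set.range (Zc T))) L)
    {t : Fin (e + 1) → L} (ht : IsTranscendenceBasis C t) {N : ℕ} (hN : 1 ≤ N) :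
    Module.Finite C (WN (C := C) (VP y (e + 1)) t N) := by
  classical
  obtain ⟨E, hE0⟩ := Pool.Agent.W602.GT.exists_dual hZ
  have hE : ∀ i j, E i (Zc T j) = if i = j then 1 else 0 := by
    intro i j
    have h1 := congrFun (congrFun hE0 i) j
    rw [Matrix.of_apply, Matrix.one_apply] at h1
    exact h1
  have hclr : ∀ b, ∃ Q : MvPolynomial (Fin (e + 1)) C, Q ≠ 0 ∧ ∀ p : MvPolynomial (Fin (e + 1)) C,
      Irreducible p → ∀ P : Place C L, Pool.Agent.Y173.QA.Adic (Zc T) p P →
      Pres P (aeval (Zc T) Q • E b) := fun b => Pool.Agent.Y173.QA.exists_clear hZ hfd (E b)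
  choose Q hQ0 hQ using hclr
  have hder : ∀ b (f : MvPolynomial (Fin (e + 1)) C), E b (aeval (Zc T) f) =
      aeval (Zc T) (pderiv b f) := by
    intro b f
    exact Pool.Agent.TH122.AB.der_aeval (hE b) f
  have hnu := Pool.Agent.TH756.PN.numLe_pairs (κ := Unit) (α := Fin (e + 1)) hZ hfd
    (fun _ => Finset.univ) (fun _ => 0) (fun _ => Finset.mem_univ _) (fun _ => e)
    (fun _ => by simp) (fun _ => ()) (fun _ => Finset.mem_univ _) (fun _ => True)
    Q hQ0 (fun _ => ()) (fun t a h => absurd rfl h) (fun _ h => absurd trivial h)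
    (VP y (e + 1)) (fun _ => 0) ?_ ?_
  · obtain ⟨c, hc⟩ := hnu {1}
    obtain ⟨F, hF0⟩ := Pool.Agent.W602.GT.exists_dual ht
    rw [← Module.rank_lt_aleph0_iff]
    refine lt_of_le_of_lt (rank_le (n := c * N ^ (Finset.univ.filter fun _ : Fin (e + 1) =>
      True).card) fun s hs => ?_) (Cardinal.natCast_lt_aleph0)
    refine hc N s.card hN ⟨fun l G => (Matrix.of fun i j => G i (t j)).det ^ N *
      ((s.equivFin.symm l).1 : L), ?_, fun l => ⟨?_, ?_⟩⟩
    · rw [Fintype.linearIndependent_iff]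
      intro a ha
      have h1 := congrFun ha F
      rw [Finset.sum_apply, Pi.zero_apply] at h1
      simp only [Pi.smul_apply, hF0, Matrix.det_one, one_pow, one_mul] at h1
      have h2 := Fintype.linearIndependent_iff.1 hs (fun i => a (s.equivFin i)) (by
        apply Subtype.ext
        rw [Submodule.coe_sum, Submodule.coe_zero, ← h1, ← s.equivFin.symm.sum_comp]
        refine Finset.sum_congr rfl fun l _ => ?_
        rw [Equiv.apply_symm_apply]
        rfl)
      intro l
      have h3 := h2 (s.equivFin.symm l)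
      rwa [Equiv.apply_symm_apply] at h3
    · intro A G
      have h1 : (Matrix.of fun i j => (∑ l, A i l • G l) (t j)) =
          A * (Matrix.of fun i j => G i (t j)) := by
        ext i j
        rw [Matrix.of_apply, der_sum, Matrix.mul_apply]
        rfl
      change (Matrix.of fun i j => (∑ l, A i l • G l) (t j)).det ^ N * _ = _ * (_ * _)
      rw [h1, Matrix.det_mul, mul_pow, mul_assoc]
    · intro P hP _ G hG
      have h1 := (s.equivFin.symm l).1.2 P hP G hG
      rcases h1 with h1 | h1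
      · exact Or.inl h1
      · right
        refine ⟨1, Finset.mem_singleton_self _, one_ne_zero, ?_⟩
        rw [P.ord_one, mul_zero, sub_zero]
        exact_mod_cast h1
  · intro p hp P hP
    have hA : Pool.Agent.Y173.QA.Adic (Zc T) p P := hP
    refine ⟨VP_adic hT hI hp hA, ?_⟩
    by_cases hdvd : ∃ a, p ∣ Q a
    · obtain ⟨a, ha⟩ := hdvd
      exact Or.inr ⟨a, ha, by norm_num, fun h => absurd trivial h⟩
    · left
      push Not at hdvd
      refine ⟨?_, le_rfl⟩
      obtain ⟨b, hb0, hb⟩ := Pool.Agent.TH122.AB.exists_pderiv hp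
      have h1 := hP p hp.ne_zero
      have h2 : P.ord (aeval (Zc T) p) ≠ 0 := fun h0 => (h1.2.1 h0) dvd_rfl
      have h3 : P.ord (aeval (Zc T) (Q b)) = 0 := (hP (Q b) (hQ0 b)).2.2 (hdvd b)
      have h4 : P.ord (aeval (Zc T) (pderiv b p)) = 0 := (hP _ hb0).2.2 hb
      have hne : aeval (Zc T) (Q b) ≠ 0 := fun h0 =>
        hQ0 b ((injective_iff_map_eq_zero _).1 hZ.1 _ h0)
      have hne' : aeval (Zc T) (pderiv b p) ≠ 0 := fun h0 =>
        hb0 ((injective_iff_map_eq_zero _).1 hZ.1 _ h0)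
      have h5 := pres_ge (hQ b p hp P hA) (f := aeval (Zc T) p)
        (N := P.ord (aeval (Zc T) p)) (Or.inr le_rfl)
      rw [Derivation.smul_apply, smul_eq_mul, hder] at h5
      have h6 := h5.resolve_left (mul_ne_zero hne hne')
      rw [P.ord_mul hne hne', h3, h4] at h6
      omega
  · intro _ P e0 _ hP
    exact ⟨VP_deg hT hI hP, by norm_num, fun h => absurd trivial h⟩

end

end Pool.Agent.H917
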