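import Pool.Agent.H917.A4

/-!
The derivation is regular at the prime divisors which are not contracted.
-/

set_option autoImplicit false
set_option linter.overlappingInstances false
set_option linter.unusedSectionVars false

open FF MvPolynomial Pool.Agent.W603.LV Pool.Agent.W619.PQ Pool.Agent.Y174.BR
  Pool.Agent.W619.TW Pool.Agent.TH143.HE

namespace Pool.Agent.H917

section

variable {k C L : Type} [Field k] [Field C] [Field L] [Algebra k C] [Algebra C L] [Algebra k L]
  [IsScalarTower k C L]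

/-- the chart coordinates -/
def ch {n : ℕ} (y : Fin n → L) (j : Fin n) : Fin n → L := fun i => y i / y j

/-- the chart coordinates and their derivatives -/
def ch2 {n : ℕ} (D : Derivation k L L) (y : Fin n → L) (j : Fin n) : Fin n ⊕ Fin n → L :=
  Sum.elim (ch y j) fun i => D (y i / y j)

variable (C) in
/-- The values of generating symmetric differentials of degree `m` are constants. -/
structure SD (D : Derivation k L L) {n : ℕ} (y : Fin n → L) (m : ℕ) : Prop where
  rel : ∀ j, y j ≠ 0 → ∃ (N : ℕ) (q : Fin N → MvPolynomial (Fin n ⊕ Fin n) k),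
    (∀ l (u v : Fin n → L) (c : L), aeval (Sum.elim u fun i => c * v i) (q l) =
      c ^ m * aeval (Sum.elim u v) (q l)) ∧
    (∀ l, ∃ c : C, aeval (ch2 D y j) (q l) = algebraMap C L c) ∧
    ∀ I : Fin m → Fin n, ∃ b : Fin N → MvPolynomial (Fin n) k,
      ∏ i, D (y (I i) / y j) = ∑ l, aeval (ch y j) (b l) * aeval (ch2 D y j) (q l)

variable {D : Derivation k L L} {n m : ℕ} {y : Fin n → L}

/-- values of polynomials are regular -/
theorem reg_aeval {σ : Type} {P : Place C L} (f : MvPolynomial σ k) {u : σ → L}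
    (hu : ∀ i, P.Reg (u i)) : P.Reg (aeval u f) := by
  induction f using MvPolynomial.induction_on with
  | C a =>
    rw [aeval_C, IsScalarTower.algebraMap_apply k C L]
    exact P.reg_const _
  | add p q hp hq => rw [map_add]; exact P.reg_add hp hq
  | mul_X p i hp => rw [map_mul, aeval_X]; exact P.reg_mul hp (hu i)

theorem reg_of_pow {P : Place C L} {m : ℕ} (hm : 1 ≤ m) {z : L} (h : P.Reg (z ^ m)) : P.Reg z := by
  by_cases hz : z = 0
  · exact Or.inl hz
  right
  have h1 := h.resolve_left (pow_ne_zero _ hz)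
  rw [P.ord_pow] at h1
  have h2 : (0 : ℤ) < m := by exact_mod_cast hm
  exact nonneg_of_mul_nonneg_right h1 h2

theorem SD.reg (h : SD C D y m) (hm : 1 ≤ m) {P : Place C L} {j : Fin n} (hj : y j ≠ 0)
    (hreg : ∀ i, P.Reg (y i / y j)) (i : Fin n) : P.Reg (D (y i / y j)) := by
  apply reg_of_pow hm
  obtain ⟨N, q, -, hc, hb⟩ := h.rel j hj
  obtain ⟨b, hb⟩ := hb fun _ => i
  rw [Finset.prod_const, Finset.card_univ, Fintype.card_fin] at hb
  rw [hb]
  refine Ge.sum _ _ fun l _ => ?_
  obtain ⟨c, hc⟩ := hc l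
  rw [hc]
  exact P.reg_mul (reg_aeval (b l) hreg) (P.reg_const c)

theorem SD.unit (h : SD C D y m) (hm : 1 ≤ m) {P : Place C L} {j : Fin n} (hj : y j ≠ 0)
    (hreg : ∀ i, P.Reg (y i / y j)) (hD : ∃ i, D (y i / y j) ≠ 0) :
    ∃ i, D (y i / y j) ≠ 0 ∧ P.ord (D (y i / y j)) = 0 := by
  by_contra hall
  push Not at hall
  obtain ⟨t, ht0, ht⟩ := P.surj
  have hG' : ∀ i, P.Reg (t⁻¹ * D (y i / y j)) := by
    intro i
    by_cases ha : D (y i / y j) = 0
    · rw [ha, mul_zero]
      exact P.reg_zero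
    · have h1 := (P.reg_iff ha).1 (h.reg hm hj hreg i)
      have h2 := hall i ha
      refine Or.inr ?_
      rw [P.ord_mul (inv_ne_zero ht0) ha, P.ord_inv, ht]
      omega
  obtain ⟨N, q, hq, hc, hb⟩ := h.rel j hj
  have hzero : ∀ l, aeval (ch2 D y j) (q l) = 0 := by
    intro l
    by_contra hne
    have h1 : P.Reg (aeval (Sum.elim (ch y j) fun i => t⁻¹ * D (y i / y j)) (q l)) := by
      refine reg_aeval (q l) ?_
      rintro (i | i)
      · exact hreg i
      · exact hG' i
    have h2 := hq l (ch y j) (fun i => t⁻¹ * D (y i / y j)) t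
    have h3 : (fun i => t * (t⁻¹ * D (y i / y j))) = fun i => D (y i / y j) := by
      funext i
      rw [← mul_assoc, mul_inv_cancel₀ ht0, one_mul]
    rw [h3] at h2
    change aeval (ch2 D y j) (q l) = _ at h2
    obtain ⟨c, hc⟩ := hc l
    have hc0 : c ≠ 0 := by
      rintro rfl
      rw [map_zero] at hc
      exact hne hc
    have h4 : aeval (Sum.elim (ch y j) fun i => t⁻¹ * D (y i / y j)) (q l) ≠ 0 := fun h0 =>
      hne (by rw [h2, h0, mul_zero])
    have h5 := (P.reg_iff h4).1 h1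
    have h6 : P.ord (aeval (ch2 D y j) (q l)) = 0 := by
      rw [hc, P.ord_const hc0]
    rw [h2, P.ord_mul (pow_ne_zero m ht0) h4, P.ord_pow, ht] at h6
    have h7 : (1 : ℤ) ≤ m := by exact_mod_cast hm
    omega
  obtain ⟨i, hi⟩ := hD
  apply hi
  obtain ⟨b, hb⟩ := hb fun _ => i
  rw [Finset.prod_const, Finset.card_univ, Fintype.card_fin] at hb
  rw [Finset.sum_eq_zero fun l _ => by rw [hzero, mul_zero]] at hb
  exact (pow_eq_zero_iff (by omega)).1 hb

/-- `y` and its derivatives generate the field -/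
def GenBy (C : Type) {L : Type} [Field C] [Field L] [Algebra C L] [Algebra k L]
    (D : Derivation k L L) {n : ℕ} (y : Fin n → L) : Prop :=
  ∀ S : Subfield L, (∀ c : C, algebraMap C L c ∈ S) → (∀ i j, y i / y j ∈ S) →
    (∀ i j, D (y i / y j) ∈ S) → S = ⊤

/-- **The derivation is regular at the prime divisors which are not contracted.** -/
theorem SD.pres [CharZero k] [CharZero C] (h : SD C D y m) (hm : 1 ≤ m)
    (hDC : ∀ c : C, ∃ c' : C, D (algebraMap C L c) = algebraMap C L c')
    (hess : Algebra.EssFiniteType C L) {e : ℕ} (he : Algebra.trdeg C L = (e + 1 : ℕ))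
    (hD : ∃ i j, D (y i / y j) ≠ 0) (hgen : GenBy C D y) {P : Place C L} (hP : P ∈ VP y (e + 1)) :
    ∀ z, P.Reg z → P.Reg (D z) := by
  obtain ⟨j, hj, hreg, x, hx, hxi⟩ := hP
  have hL0 : CharZero L := charZero_of_injective_algebraMap (algebraMap C L).injective
  have hquot : ∀ i l, y i / y l = (y i / y j) / (y l / y j) := by
    intro i l
    rw [div_div_div_cancel_right₀ hj]
  have hD' : ∃ i, D (y i / y j) ≠ 0 := by
    by_contra hcon
    push Not at hcon
    obtain ⟨a, b, hab⟩ := hD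
    apply hab
    rw [hquot a b, div_eq_mul_inv, D.leibniz, D.leibniz_inv, hcon, hcon]
    simp
  obtain ⟨i0, hi0, hi1⟩ := h.unit hm hj hreg hD'
  obtain ⟨m', rfl⟩ : ∃ m', m = m' + 1 := ⟨m - 1, by omega⟩
  have hrel : ∀ z ∈ Set.range (fun l => y l / y j), D z * D (y i0 / y j) ^ m' ∈
      Algebra.adjoin C (Set.range fun l => y l / y j) := by
    rintro _ ⟨a, rfl⟩
    obtain ⟨N, q, -, hc, hb⟩ := h.rel j hj
    obtain ⟨b, hb⟩ := hb (Fin.cons a fun _ => i0)
    rw [Fin.prod_univ_succ] at hb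
    simp only [Fin.cons_zero, Fin.cons_succ, Finset.prod_const, Finset.card_univ,
      Fintype.card_fin] at hb
    rw [hb]
    refine sum_mem fun l _ => ?_
    obtain ⟨c, hc'⟩ := hc l
    rw [hc']
    refine mul_mem ?_ (Subalgebra.algebraMap_mem _ c)
    have h1 : ∀ f : MvPolynomial (Fin n) k, aeval (ch y j) f ∈
        Algebra.adjoin C (Set.range fun l => y l / y j) := by
      intro f
      induction f using MvPolynomial.induction_on with
      | C a =>
        rw [aeval_C, IsScalarTower.algebraMap_apply k C L]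
        exact Subalgebra.algebraMap_mem _ _
      | add p q hp hq => rw [map_add]; exact add_mem hp hq
      | mul_X p i hp =>
        rw [map_mul, aeval_X]
        exact mul_mem hp (Algebra.subset_adjoin ⟨i, rfl⟩)
    exact h1 (b l)
  obtain ⟨hR, hu⟩ := chart_RC (v := P) (D := D) (Set.range fun l => y l / y j) hDC
    (by rintro _ ⟨a, rfl⟩; exact hreg a) ⟨i0, rfl⟩ hi0 hi1 hrel
  have hR' : ∀ a, y a / y j ∈ RCinf P D := fun a => hR _ (Algebra.subset_adjoin ⟨a, rfl⟩)
  have hfrac : Subfield.closure (RCinf P D : Set L) = ⊤ := by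
    have h1 : ∀ a, y a / y j ∈ Subfield.closure (RCinf P D : Set L) := fun a =>
      Subfield.subset_closure (hR' a)
    have h2 : ∀ a, D (y a / y j) ∈ Subfield.closure (RCinf P D : Set L) := fun a =>
      Subfield.subset_closure (RCinf_der (hR' a))
    refine hgen _ (fun c => Subfield.subset_closure (mem_RCinf.2 fun j => RC_const hDC j c))
      (fun a b => ?_) fun a b => ?_
    · rw [hquot]
      exact Subfield.div_mem _ (h1 a) (h1 b)
    · rw [hquot, div_eq_mul_inv, D.leibniz, D.leibniz_inv]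
      simp only [smul_eq_mul]
      exact Subfield.add_mem _ (Subfield.mul_mem _ (h1 _) (Subfield.mul_mem _
        (Subfield.neg_mem _ (Subfield.pow_mem _ (Subfield.inv_mem _ (h1 _)) 2)) (h2 _)))
        (Subfield.mul_mem _ (Subfield.inv_mem _ (h1 _)) (h2 _))
  refine pres_of_ringC hess he P D hDC (RCinf P D) (fun z hz => RC_reg 0 (mem_RCinf.1 hz 0))
    (fun z hz => RCinf_der hz) hfrac (x := x) (fun i => ?_) hxi
  obtain ⟨a, ha, b, hb, hb0, hb1, hab⟩ := hx i
  rw [hab, div_eq_mul_inv]
  refine Subring.mul_mem _ (hR a ha) (mem_RCinf.2 fun j => ?_)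
  exact RC_inv (Or.inr (by rw [P.ord_inv, hb1]; norm_num)) j (mem_RCinf.1 (hR b hb) j)

end

section

variable {C L : Type} [Field C] [CharZero C] [Field L] [Algebra C L]

/-- coordinates at a prime divisor -/
theorem exists_frmAt {e : ℕ} (htr : Algebra.trdeg C L = (e + 1 : ℕ))
    (hess : Algebra.EssFiniteType C L) {P : Place C L} (hP : IsDivisorial P (e + 1)) :
    ∃ (s : L) (u : Fin e → L) (E : Fin (e + 1) → Derivation C L L), s ≠ 0 ∧ P.ord s = 1 ∧
      (∀ p : MvPolynomial (Fin e) C, p ≠ 0 → aeval u p ≠ 0 ∧ P.ord (aeval u p) = 0) ∧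
      FrmAt P (Fin.cons s u : Fin (e + 1) → L) E := by
  obtain ⟨u, hu⟩ := hP
  obtain ⟨s, hs0, hs⟩ := P.surj
  obtain ⟨E, hbas, hE, hpres⟩ := frame' htr
    (fun y hy => Pool.Agent.W824.PG.fin_adj hess y hy) P hs0 hs (y' := u) hu
  refine ⟨s, u, E, hs0, hs, hu, ⟨⟨hbas, hE⟩, fun i => ?_, hpres⟩⟩
  refine Fin.cases ?_ (fun j => ?_) i
  · rw [Fin.cons_zero]
    exact Or.inr (by rw [hs]; norm_num)
  · rw [Fin.cons_succ]
    have h1 := (hu (X j) (X_ne_zero j)).2
    rw [aeval_X] at h1
    exact Or.inr h1.ge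

end

end Pool.Agent.H917
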