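import Pool.Agent.H917.A5

/-!
The restriction of a prime divisor over an extension of the field of constants.
-/

set_option autoImplicit false
set_option linter.overlappingInstances false
set_option linter.unusedSectionVars false

open FF MvPolynomial Pool.Agent.W603.LV Pool.Agent.W619.PQ Pool.Agent.Y174.BR
  Pool.Agent.W619.TW Pool.Agent.TH143.HE Pool.Agent.W619.Y

namespace Pool.Agent.H917

section alg

theorem isAlg_iff {A L : Type} [Field A] [Field L] [Algebra A L] {x : L} :
    IsAlgebraic A x ↔ ∃ p : Polynomial L, p ≠ 0 ∧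
      (∀ i, p.coeff i ∈ Set.range (algebraMap A L)) ∧ p.eval x = 0 := by
  constructor
  · rintro ⟨p, hp, h0⟩
    refine ⟨p.map (algebraMap A L), (Polynomial.map_ne_zero_iff (algebraMap A L).injective).2 hp,
      fun i => ?_, ?_⟩
    · rw [Polynomial.coeff_map]
      exact ⟨_, rfl⟩
    · rw [Polynomial.eval_map_algebraMap]
      exact h0
  · rintro ⟨p, hp, hc, h0⟩
    have h1 : p ∈ Polynomial.lifts (algebraMap A L) := by
      rw [Polynomial.lifts_iff_coeff_lifts]
      exact hc
    obtain ⟨q, hq⟩ := (Polynomial.mem_lifts _).1 h1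
    refine ⟨q, ?_, ?_⟩
    · rintro rfl
      rw [Polynomial.map_zero] at hq
      exact hp hq.symm
    · rw [← Polynomial.eval_map_algebraMap, hq]
      exact h0

theorem alg_of_range {A B L : Type} [Field A] [Field B] [Field L] [Algebra A L] [Algebra B L]
    (h : ∀ a : A, ∃ b : B, algebraMap B L b = algebraMap A L a) {x : L} (hx : IsAlgebraic A x) :
    IsAlgebraic B x := by
  rw [isAlg_iff] at hx ⊢
  obtain ⟨p, hp, hc, h0⟩ := hx
  refine ⟨p, hp, fun i => ?_, h0⟩
  obtain ⟨a, ha⟩ := hc i
  obtain ⟨b, hb⟩ := h a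
  exact ⟨b, hb.trans ha⟩

theorem fin_support {F L : Type} [Field F] [Field L] [Algebra F L] {S : Set L} {x : L}
    (h : IsAlgebraic (IntermediateField.adjoin F S) x) :
    ∃ T : Finset L, (T : Set L) ⊆ S ∧ IsAlgebraic (IntermediateField.adjoin F (T : Set L)) x := by
  classical
  rw [isAlg_iff] at h
  obtain ⟨p, hp, hc, h0⟩ := h
  have h1 : ∀ i, ∃ T : Finset L, (T : Set L) ⊆ S ∧
      p.coeff i ∈ IntermediateField.adjoin F (T : Set L) := by
    intro i
    obtain ⟨a, ha⟩ := hc i
    have h2 : p.coeff i ∈ IntermediateField.adjoin F S := by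
      rw [← ha]
      exact a.2
    exact IntermediateField.exists_finset_of_mem_adjoin h2
  choose T hTS hT using h1
  refine ⟨p.support.biUnion T, ?_, ?_⟩
  · intro z hz
    rw [Finset.mem_coe, Finset.mem_biUnion] at hz
    obtain ⟨i, _, hi⟩ := hz
    exact hTS i hi
  · rw [isAlg_iff]
    refine ⟨p, hp, fun i => ?_, h0⟩
    by_cases hi : i ∈ p.support
    · have h2 : p.coeff i ∈ IntermediateField.adjoin F ((p.support.biUnion T : Finset L) : Set L) := by
        refine IntermediateField.adjoin.mono F _ _ ?_ (hT i)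
        intro z hz
        rw [Finset.mem_coe, Finset.mem_biUnion]
        exact ⟨i, hi, hz⟩
      exact ⟨⟨_, h2⟩, rfl⟩
    · rw [Polynomial.notMem_support_iff.1 hi]
      exact ⟨0, map_zero _⟩

variable {k L : Type} [Field k] [Field L] [Algebra k L]

/-- a transcendence basis of an intermediate field -/
theorem basis_in {ι : Type} {F : IntermediateField k L} {Z : ι → F}
    (hind : AlgebraicIndependent k fun i => (Z i : L))
    (halg : ∀ f : F, IsAlgebraic (IntermediateField.adjoin k (Set.range fun i => (Z i : L)))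
      (f : L)) : IsTranscendenceBasis k Z := by
  have h1 : AlgebraicIndependent k Z := hind.of_comp F.val
  rw [h1.isTranscendenceBasis_iff_isAlgebraic]
  refine Pool.Agent.W619.PQ.alg_adjoin fun f => ?_
  have h2 : IsAlgebraic (IntermediateField.adjoin k (Set.range Z)) (f : L) := by
    refine alg_of_range ?_ (halg f)
    rintro ⟨a, ha⟩
    have h3 : IntermediateField.adjoin k (Set.range fun i => (Z i : L)) ≤
        IntermediateField.lift (IntermediateField.adjoin k (Set.range Z)) := by
      rw [IntermediateField.adjoin_le_iff]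
      rintro _ ⟨i, rfl⟩
      exact (IntermediateField.mem_lift _).2
        (IntermediateField.subset_adjoin k _ ⟨i, rfl⟩)
    have h4 := h3 ha
    have h5 : a ∈ F := IntermediateField.lift_le _ h4
    have h6 : (⟨a, h5⟩ : F) ∈ IntermediateField.adjoin k (Set.range Z) := by
      have h7 : ((⟨a, h5⟩ : F) : L) ∈
        IntermediateField.lift (IntermediateField.adjoin k (Set.range Z)) := h4
      exact (IntermediateField.mem_lift _).1 h7
    exact ⟨⟨⟨a, h5⟩, h6⟩, rfl⟩
  exact (isAlgebraic_algebraMap_iff (algebraMap F L).injective).1 h2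

end alg

section

variable {k C L : Type} [Field k] [CharZero k] [Field C] [CharZero C] [Field L]
  [Algebra k C] [Algebra C L] [Algebra k L] [IsScalarTower k C L]

/-- independence over the small field of constants of the residues of constants and functions -/
theorem indep_both {a e : ℕ} {P : Place C L} {c0 : Fin a → C} (hc0 : AlgebraicIndependent k c0)
    {u : Fin e → L}
    (hu : ∀ p : MvPolynomial (Fin e) C, p ≠ 0 → aeval u p ≠ 0 ∧ P.ord (aeval u p) = 0)
    {p : MvPolynomial (Fin (a + e)) k} (hp : p ≠ 0) :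
    aeval (Fin.append (fun i => algebraMap C L (c0 i)) u : Fin (a + e) → L) p ≠ 0 ∧
    P.ord (aeval (Fin.append (fun i => algebraMap C L (c0 i)) u : Fin (a + e) → L) p) = 0 := by
  have h1 : AlgebraicIndependent k (Sum.elim (X : Fin e → MvPolynomial (Fin e) C)
      (algebraMap C (MvPolynomial (Fin e) C) ∘ c0)) :=
    hc0.sumElim_comp (MvPolynomial.algebraicIndependent_X _ _)
  obtain ⟨p', hp'⟩ : ∃ p' : MvPolynomial (Fin e ⊕ Fin a) k,
      p' = rename (fun i => Sum.swap (finSumFinEquiv.symm i)) p := ⟨_, rfl⟩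
  have hinj : Function.Injective fun i : Fin (a + e) => Sum.swap (finSumFinEquiv.symm i) :=
    (Sum.swap_leftInverse.injective).comp finSumFinEquiv.symm.injective
  have hp0 : p' ≠ 0 := by
    rw [hp']
    exact (map_ne_zero_iff _ (rename_injective _ hinj)).2 hp
  obtain ⟨q, hq⟩ : ∃ q, q = aeval (Sum.elim (X : Fin e → MvPolynomial (Fin e) C)
      (algebraMap C (MvPolynomial (Fin e) C) ∘ c0)) p' := ⟨_, rfl⟩
  have hq0 : q ≠ 0 := by
    rw [hq]
    intro h0
    exact hp0 ((injective_iff_map_eq_zero _).1 h1 _ h0)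
  have h2 : aeval (Fin.append (fun i => algebraMap C L (c0 i)) u : Fin (a + e) → L) p =
      aeval u q := by
    have h3 : aeval u q = ((aeval u : MvPolynomial (Fin e) C →ₐ[C] L).restrictScalars k) q := rfl
    rw [h3, hq, comp_aeval_apply, hp', aeval_rename]
    congr 2
    funext i
    refine Fin.addCases (fun i => ?_) (fun i => ?_) i
    · simp
    · simp
  rw [h2]
  exact hu q hq0

variable {K : Type} [Field K] [Algebra k K] [Algebra K L] [IsScalarTower k K L]

/-- **The restriction of a prime divisor to a field of functions over the small field of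
constants.** -/
theorem div_restrict {w e : ℕ} (htrK : Algebra.trdeg k K = w) {P : Place C L} {s : L}
    {u : Fin e → L} (hs0 : s ≠ 0) (hs : P.ord s = 1)
    (hu : ∀ p : MvPolynomial (Fin e) C, p ≠ 0 → aeval u p ≠ 0 ∧ P.ord (aeval u p) = 0)
    (hz : IsTranscendenceBasis C (Fin.cons s u : Fin (e + 1) → L)) {v : Place k K} {e0 : ℕ}
    (hv : Over (resPlace P : Place k L) v e0) : IsDivisorial v w := by
  classical
  obtain ⟨B, hB⟩ := exists_isTranscendenceBasis k C
  obtain ⟨z, hzd⟩ : ∃ z : Fin (e + 1) → L, z = Fin.cons s u := ⟨_, rfl⟩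
  rw [← hzd] at hz
  have hbas := hB.sumElim_comp hz
  obtain ⟨BK, hBK⟩ := exists_isTranscendenceBasis k K
  have hfinBK : Finite BK := by
    have h1 := hBK.cardinalMk_eq_trdeg
    rw [htrK] at h1
    rw [← Cardinal.lt_aleph0_iff_finite, h1]
    exact Cardinal.natCast_lt_aleph0
  have hfin1 : ∀ b : BK, ∃ T : Finset L,
      (T : Set L) ⊆ Set.range (Sum.elim z (algebraMap C L ∘ (Subtype.val : B → C))) ∧
      IsAlgebraic (IntermediateField.adjoin k (T : Set L)) (algebraMap K L (b : K)) := fun b =>
    fin_support ((hbas.isAlgebraic_field).isAlgebraic _)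
  choose T hTS hT using hfin1
  have hfinT : (⋃ b, (T b : Set L)).Finite := Set.finite_iUnion fun b => (T b).finite_toSet
  obtain ⟨S0, hS0⟩ : ∃ S0 : Set B, S0 = {c : B | algebraMap C L (c : C) ∈ ⋃ b, (T b : Set L)} :=
    ⟨_, rfl⟩
  have hfinS : S0.Finite := by
    rw [hS0]
    refine Set.Finite.preimage ?_ hfinT
    exact fun a _ b _ hab => Subtype.ext ((algebraMap C L).injective hab)
  have hfinS' : Finite S0 := hfinS
  obtain ⟨a, ⟨φ⟩⟩ := Finite.exists_equiv_fin S0
  obtain ⟨c0, hc0⟩ : ∃ c0 : Fin a → C, ∀ i, c0 i = ((φ.symm i : B) : C) := ⟨_, fun _ => rfl⟩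
  have hc0i : AlgebraicIndependent k c0 := by
    have h1 : c0 = (Subtype.val : B → C) ∘ (fun i => ((φ.symm i : S0) : B)) := by
      funext i
      rw [hc0]
      rfl
    rw [h1]
    exact hB.1.comp _ (Subtype.val_injective.comp φ.symm.injective)
  -- the small field
  obtain ⟨Z0, hZ0⟩ : ∃ Z0 : Fin (e + 1) ⊕ Fin a → L, Z0 = Sum.elim z (algebraMap C L ∘ c0) :=
    ⟨_, rfl⟩
  have hZ0i : AlgebraicIndependent k Z0 := by
    rw [hZ0]
    exact hc0i.sumElim_comp hz.1
  obtain ⟨E, hE⟩ : ∃ E : IntermediateField k L, E = IntermediateField.adjoin k (Set.range Z0) :=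
    ⟨_, rfl⟩
  have hsubE : (⋃ b, (T b : Set L)) ⊆ Set.range Z0 := by
    intro t ht
    obtain ⟨b, hb⟩ := Set.mem_iUnion.1 ht
    obtain ⟨i, hi⟩ := hTS b hb
    rcases i with i | c
    · exact ⟨Sum.inl i, by rw [hZ0, ← hi]; rfl⟩
    · have h1 : c ∈ S0 := by
        rw [hS0]
        change algebraMap C L (c : C) ∈ ⋃ b, (T b : Set L)
        have h2 : algebraMap C L (c : C) = t := hi
        rw [h2]
        exact ht
      refine ⟨Sum.inr (φ ⟨c, h1⟩), ?_⟩
      rw [hZ0, ← hi]
      change algebraMap C L (c0 (φ ⟨c, h1⟩)) = algebraMap C L (c : C)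
      rw [hc0, Equiv.symm_apply_apply]
  let L0 : IntermediateField k L := (algebraicClosure E L).restrictScalars k
  have hL0 : ∀ f : L, f ∈ L0 ↔ IsAlgebraic E f := fun f =>
    (mem_algebraicClosure_iff (F := E) (E := L) (x := f))
  have hKL0 : ∀ f : K, algebraMap K L f ∈ L0 := by
    intro f
    rw [hL0]
    have h1 : IsAlgebraic (IntermediateField.adjoin k (algebraMap K L '' (Set.range
        (Subtype.val : BK → K)))) (algebraMap K L f) := by
      have h2 : IsAlgebraic (IntermediateField.adjoin k (Set.range (Subtype.val : BK → K)))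
        (algebraMap K L f) := ((hBK.isAlgebraic_field).isAlgebraic f).algebraMap
      refine alg_of_range ?_ h2
      intro a
      have h3 : algebraMap K L (a : K) ∈ IntermediateField.adjoin k (algebraMap K L '' (Set.range
        (Subtype.val : BK → K))) := by
        have h4 := IntermediateField.adjoin_map k (Set.range (Subtype.val : BK → K))
          (IsScalarTower.toAlgHom k K L)
        have h5 : algebraMap K L (a : K) ∈ (IntermediateField.adjoin k (Set.range
            (Subtype.val : BK → K))).map (IsScalarTower.toAlgHom k K L) := ⟨_, a.2, rfl⟩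
        rw [h4] at h5
        exact h5
      exact ⟨⟨_, h3⟩, rfl⟩
    refine alg_trans ?_ h1
    rintro _ ⟨_, ⟨b, rfl⟩, rfl⟩
    refine alg_mono ?_ (hT b)
    rw [hE]
    refine IntermediateField.adjoin.mono k _ _ ?_
    exact fun t ht => hsubE (Set.mem_iUnion.2 ⟨b, ht⟩)
  let iK : Algebra K L0 := RingHom.toAlgebra
    { toFun := fun f => ⟨algebraMap K L f, hKL0 f⟩
      map_one' := Subtype.ext (map_one _)
      map_mul' := fun _ _ => Subtype.ext (map_mul _ _ _)
      map_zero' := Subtype.ext (map_zero _)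
      map_add' := fun _ _ => Subtype.ext (map_add _ _ _) }
  have hT1 : IsScalarTower k K L0 := IsScalarTower.of_algebraMap_eq fun c => by
    apply Subtype.ext
    change algebraMap k L c = algebraMap K L (algebraMap k K c)
    rw [← IsScalarTower.algebraMap_apply]
  have hEL0 : ∀ f ∈ E, f ∈ L0 := fun f hf => by
    rw [hL0]
    exact isAlgebraic_algebraMap (⟨f, hf⟩ : E)
  have hZL0 : ∀ i, Z0 i ∈ L0 := fun i => hEL0 _ (by
    rw [hE]
    exact IntermediateField.subset_adjoin k _ ⟨i, rfl⟩)
  have hbasL0 : IsTranscendenceBasis k fun i => (⟨Z0 i, hZL0 i⟩ : L0) := by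
    refine basis_in (F := L0) hZ0i fun f => ?_
    have h1 := (hL0 f).1 f.2
    rw [hE] at h1
    exact h1
  have htrL0 : Algebra.trdeg k L0 = ((a + e + 1 : ℕ) : Cardinal) := by
    rw [← hbasL0.cardinalMk_eq_trdeg]
    simp only [Cardinal.mk_sum, Cardinal.mk_fin, Cardinal.lift_natCast]
    norm_cast
    ring
  have hz0 : z 0 = s := by
    rw [hzd, Fin.cons_zero]
  have hsL0 : s ∈ L0 := by
    have := hZL0 (Sum.inl 0)
    rw [hZ0] at this
    rw [← hz0]
    exact this
  let P0 : Place k L0 :=
    { ord := fun f => P.ord (f : L)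
      ord_zero := P.ord_zero
      ord_mul := fun {f g} hf hg => P.ord_mul (fun h => hf (Subtype.ext h))
        (fun h => hg (Subtype.ext h))
      ord_add := fun {f g} hf hg hfg => P.ord_add (fun h => hf (Subtype.ext h))
        (fun h => hg (Subtype.ext h)) (fun h => hfg (Subtype.ext h))
      ord_const := fun {c} hc => by
        change P.ord (algebraMap k L c) = 0
        rw [IsScalarTower.algebraMap_apply k C L]
        exact P.ord_const ((map_ne_zero _).2 hc)
      surj := ⟨⟨s, hsL0⟩, fun h => hs0 (congrArg Subtype.val h), hs⟩ }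
  have hdiv : IsDivisorial P0 (a + e + 1) := by
    have hmem : ∀ i, (Fin.append (fun i => algebraMap C L (c0 i)) u : Fin (a + e) → L) i ∈ L0 := by
      intro i
      refine Fin.addCases (fun i => ?_) (fun i => ?_) i
      · rw [Fin.append_left]
        have := hZL0 (Sum.inr i)
        rw [hZ0] at this
        exact this
      · rw [Fin.append_right]
        have := hZL0 (Sum.inl i.succ)
        rw [hZ0, hzd] at this
        simpa using this
    refine ⟨fun i : Fin (a + e) => ⟨_, hmem i⟩, fun p hp => ?_⟩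
    obtain ⟨h1, h2⟩ := indep_both (P := P) hc0i hu (p := p) hp
    have h3 : ((aeval (fun i : Fin (a + e) => (⟨_, hmem i⟩ : L0)) p : L0) : L) =
        aeval (Fin.append (fun i => algebraMap C L (c0 i)) u : Fin (a + e) → L) p := by
      have h4 := comp_aeval_apply (fun i : Fin (a + e) => (⟨_, hmem i⟩ : L0)) L0.val p
      exact h4
    refine ⟨fun h0 => h1 ?_, ?_⟩
    · rw [← h3, h0]
      rfl
    · change P.ord ((aeval (fun i : Fin (a + e) => (⟨_, hmem i⟩ : L0)) p : L0) : L) = 0
      rw [h3]
      exact h2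
  exact pDIVR k K L0 w (a + e + 1) v P0 e0 htrK htrL0 ⟨hv.1, hv.2⟩ hdiv

end

end Pool.Agent.H917
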