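import Pool.Agent.H917.A6

/-!
The descent of pluricanonical forms to the field over an extension of the field of constants.
-/

set_option autoImplicit false
set_option linter.overlappingInstances false
set_option linter.unusedSectionVars false

open FF MvPolynomial Pool.Agent.W603.LV Pool.Agent.W619.PQ Pool.Agent.Y174.BR
  Pool.Agent.W619.TW Pool.Agent.TH143.HE Pool.Agent.W619.Y

namespace Pool.Agent.H917

section

variable {k C L : Type} [Field k] [CharZero k] [Field C] [CharZero C] [Field L]
  [Algebra k C] [Algebra C L] [Algebra k L] [IsScalarTower k C L]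

theorem der_zero_of_alg (D : Derivation k L L) {f : L}
    (hf : IsAlgebraic (Pool.Agent.W602.GT.consts D) f) : D f = 0 := by
  have hL0 : CharZero L := charZero_of_injective_algebraMap (algebraMap k L).injective
  have hint : IsIntegral (Pool.Agent.W602.GT.consts D) f := hf.isIntegral
  have hchar : CharZero (Pool.Agent.W602.GT.consts D) := charZero_of_injective_algebraMap
    (algebraMap k (Pool.Agent.W602.GT.consts D)).injective
  have h1 : Pool.Agent.W602.GT.overConsts D
      (Polynomial.aeval f (minpoly (Pool.Agent.W602.GT.consts D) f)) = 0 := by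
    rw [minpoly.aeval, map_zero]
  rw [Derivation.map_aeval] at h1
  have h2 : Polynomial.aeval f
      (Polynomial.derivative (minpoly (Pool.Agent.W602.GT.consts D) f)) ≠ 0 :=
    (minpoly.irreducible hint).separable.aeval_derivative_ne_zero (minpoly.aeval _ _)
  rcases smul_eq_zero.1 h1 with h | h
  · exact absurd h h2
  · exact h

/-- a derivation which maps a transcendence basis of the constants to constants preserves the
constants -/
theorem der_const {ι : Type} {c : ι → C} (hc : IsTranscendenceBasis k c) (G : Derivation k L L)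
    (h : ∀ i, ∃ c' : C, G (algebraMap C L (c i)) = algebraMap C L c') (x : C) :
    ∃ c' : C, G (algebraMap C L x) = algebraMap C L c' := by
  choose c' hc' using h
  obtain ⟨G', hG'⟩ := Pool.Agent.W602.GT.exists_der c hc c'
  have h1 := der_zero ((G.compAlgebraMap C) - ((Algebra.linearMap C L).compDer G')) c hc
    (fun i => by
      rw [Derivation.sub_apply]
      change G (algebraMap C L (c i)) - algebraMap C L (G' (c i)) = 0
      rw [hG', hc', sub_self]) x
  rw [Derivation.sub_apply] at h1
  change G (algebraMap C L x) - algebraMap C L (G' x) = 0 at h1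
  exact ⟨G' x, sub_eq_zero.1 h1⟩

variable {K : Type} [Field K] [Algebra k K] [Algebra K L] [IsScalarTower k K L]

/-- The pull-back of a regular pluricanonical form takes regular values on regular vector
fields. -/
theorem reg_form {w N : ℕ} (htrK : Algebra.trdeg k K = w)
    (hfinK : ∀ y : Fin w → K, IsTranscendenceBasis k y →
      FiniteDimensional (IntermediateField.adjoin k (Set.range y)) K)
    {ω : (Fin w → Derivation k K K) → K} (hω : IsPluriForm k K w N ω)
    (hreg : ∀ v : Place k K, IsDivisorial v w → RegularAt v w ω) {x : Fin w → K}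
    (hx : IsTranscendenceBasis k x) {E : Fin w → Derivation k K K}
    (hE : ∀ i j, E i (x j) = if i = j then 1 else 0) {P : Place C L}
    (hdiv : ∀ (v : Place k K) (e0 : ℕ), Over (resPlace P : Place k L) v e0 → IsDivisorial v w)
    {G : Fin w → Derivation k L L} (hG : ∀ i z, P.Reg z → P.Reg (G i z)) :
    P.Reg ((Matrix.of fun i j => G i (algebraMap K L (x j))).det ^ N * algebraMap K L (ω E)) := by
  by_cases htriv : ∃ f : K, (resPlace P : Place k L).ord (algebraMap K L f) ≠ 0
  · obtain ⟨e0, v, hv⟩ := exists_over (resPlace P : Place k L) htriv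
    have hdv := hdiv v e0 hv
    obtain ⟨y', E', i0, hy', hE', -, hyr, hpres⟩ := pFRAME k K w htrK hfinK v hdv
    have hregL : ∀ f : K, v.Reg f → P.Reg (algebraMap K L f) := fun f hf => (hv.reg).2 hf
    obtain ⟨A, hA⟩ : ∃ A : Matrix (Fin w) (Fin w) K, A = Matrix.of fun c l => E' c (x l) :=
      ⟨_, rfl⟩
    have h1 : ω E' = A.det ^ N * ω E := by
      have h2 := hω A E
      have h3 : (fun i => ∑ j, A i j • E j) = E' := by
        funext i
        rw [hA]
        exact (Pool.Agent.W308.PG.YLOC.expandK x E hx hE (E' i)).symm
      rw [h3] at h2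
      exact h2
    have h2 : (Matrix.of fun i j => G i (algebraMap K L (x j))) =
        (Matrix.of fun i c => G i (algebraMap K L (y' c))) * A.map (algebraMap K L) := by
      ext i j
      rw [Matrix.of_apply, Matrix.mul_apply,
        Pool.Agent.W308.PG.YLOC.expand y' E' hy' hE' (G i) (x j)]
      refine Finset.sum_congr rfl fun c _ => ?_
      rw [Matrix.of_apply, Matrix.map_apply, hA, Matrix.of_apply, mul_comm]
    have h3 : (A.map (algebraMap K L)).det = algebraMap K L A.det :=
      ((algebraMap K L).map_det A).symm
    rw [h2, Matrix.det_mul, h3, mul_pow, mul_assoc, ← map_pow, ← map_mul, ← h1]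
    refine P.reg_mul (reg_pow' ?_ N) (hregL _ (hreg v hdv E' hpres))
    exact ge_det P _ fun i j => hG i _ (hregL _ (hyr j))
  · push Not at htriv
    have hregL : ∀ f : K, P.Reg (algebraMap K L f) := fun f => Or.inr (htriv f).ge
    refine P.reg_mul (reg_pow' ?_ N) (hregL _)
    exact ge_det P _ fun i j => hG i _ (hregL _)

/-- **The descent.** -/
theorem descend_form {e r N : ℕ} (htrK : Algebra.trdeg k K = ((e + 1 + r : ℕ) : Cardinal))
    (hfinK : ∀ y : Fin (e + 1 + r) → K, IsTranscendenceBasis k y →
      FiniteDimensional (IntermediateField.adjoin k (Set.range y)) K)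
    {x : Fin (e + 1 + r) → K} (hx : IsTranscendenceBasis k x)
    {E : Fin (e + 1 + r) → Derivation k K K}
    (hE : ∀ i j, E i (x j) = if i = j then 1 else 0)
    (htr : Algebra.trdeg C L = (e + 1 : ℕ)) (hess : Algebra.EssFiniteType C L)
    (ht : IsTranscendenceBasis C fun i : Fin (e + 1) => algebraMap K L (x (Fin.castAdd r i))) :
    ∃ J : L, J ≠ 0 ∧ ∀ ω : (Fin (e + 1 + r) → Derivation k K K) → K,
      IsPluriForm k K (e + 1 + r) N ω →
      (∀ v : Place k K, IsDivisorial v (e + 1 + r) → RegularAt v (e + 1 + r) ω) →
      J ^ N * algebraMap K L (ω E) ∈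
        WN (C := C) {P : Place C L | IsDivisorial P (e + 1)}
          (fun i : Fin (e + 1) => algebraMap K L (x (Fin.castAdd r i))) N := by
  classical
  obtain ⟨t, htd⟩ : ∃ t : Fin (e + 1) → L, t = fun i => algebraMap K L (x (Fin.castAdd r i)) :=
    ⟨_, rfl⟩
  rw [← htd] at ht ⊢
  obtain ⟨x', hx'⟩ : ∃ x' : Fin r → L, x' = fun i => algebraMap K L (x (Fin.natAdd (e + 1) i)) :=
    ⟨_, rfl⟩
  obtain ⟨B, hB⟩ := exists_isTranscendenceBasis k C
  obtain ⟨c, hc⟩ : ∃ c : B → C, c = Subtype.val := ⟨_, rfl⟩
  rw [← hc] at hB
  have hbas := hB.sumElim_comp ht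
  obtain ⟨Δ0, hΔ0⟩ := Pool.Agent.Y173.QA.exists_duals hbas
  obtain ⟨Δ, hΔ⟩ : ∃ Δ : B → Derivation k L L, ∀ β, Δ β = Δ0 (Sum.inr β) := ⟨_, fun _ => rfl⟩
  have hΔt : ∀ β i, Δ β (t i) = 0 := by
    intro β i
    have := hΔ0 (Sum.inr β) (Sum.inl i)
    rw [if_neg (by simp)] at this
    rw [hΔ]
    exact this
  have hΔc : ∀ β γ, Δ β (algebraMap C L (c γ)) = if β = γ then 1 else 0 := by
    intro β γ
    have := hΔ0 (Sum.inr β) (Sum.inr γ)
    rw [hΔ]
    refine this.trans ?_
    simp
  -- the minor
  obtain ⟨α, hα⟩ : ∃ α : Fin r → B, (Matrix.of fun i j => Δ (α i) (x' j)).det ≠ 0 := by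
    refine Pool.Agent.Y174.exists_det (fun β j => Δ β (x' j)) ?_
    by_contra hcon
    obtain ⟨f, hf0, hf⟩ := Submodule.exists_le_ker_of_lt_top _ (lt_top_iff_ne_top.2 hcon)
    apply hf0
    obtain ⟨lam, hlam⟩ : ∃ lam : Fin r → L, ∀ j, lam j = f (Pi.single j 1) := ⟨_, fun _ => rfl⟩
    have hfl : ∀ v : Fin r → L, f v = ∑ j, v j * lam j := by
      intro v
      have h1 : v = ∑ j, v j • (Pi.single j (1 : L) : Fin r → L) := by
        funext i
        rw [Finset.sum_apply, Finset.sum_eq_single i]
        · simp
        · intro b _ hb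
          simp [Pi.single_apply, Ne.symm hb]
        · intro hi
          exact absurd (Finset.mem_univ _) hi
      conv_lhs => rw [h1]
      rw [map_sum]
      refine Finset.sum_congr rfl fun j _ => ?_
      rw [map_smul, hlam, smul_eq_mul]
    have hker : ∀ β, ∑ j, Δ β (x' j) * lam j = 0 := by
      intro β
      rw [← hfl]
      exact hf (Submodule.subset_span ⟨β, rfl⟩)
    -- all derivations which kill `t` satisfy the relation
    have hall : ∀ G : Derivation k L L, (∀ i, G (t i) = 0) → ∑ j, G (x' j) * lam j = 0 := by
      intro G hGt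
      -- finitely many constants are enough for `x'`
      have hsup : ∀ j, ∃ S : Finset B, ∀ H : Derivation k L L, (∀ i, H (t i) = 0) →
          (∀ β ∈ S, H (algebraMap C L (c β)) = 0) → H (x' j) = 0 := by
        intro j
        obtain ⟨T, hTS, hT⟩ := fin_support ((hbas.isAlgebraic_field).isAlgebraic (x' j))
        refine ⟨(T.finite_toSet.preimage (f := fun β : B => algebraMap C L (c β))
          (fun a _ b _ hab => ?_)).toFinset, fun H hHt hHS => ?_⟩
        · have h1 := (algebraMap C L).injective hab
          rw [hc] at h1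
          exact Subtype.ext h1
        · have hcon : ∀ z ∈ (T : Set L), H z = 0 := by
            intro z hz
            obtain ⟨i, hi⟩ := hTS hz
            rcases i with i | β
            · rw [← hi]
              exact hHt i
            · have h2 : algebraMap C L (c β) = z := hi
              rw [← h2]
              refine hHS β ?_
              rw [Set.Finite.mem_toFinset]
              change algebraMap C L (c β) ∈ (T : Set L)
              rw [h2]
              exact hz
          have h3 : ∀ z ∈ IntermediateField.adjoin k (T : Set L), H z = 0 := by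
            intro z hz
            have h4 : IntermediateField.adjoin k (T : Set L) ≤
                Pool.Agent.W602.GT.consts H := by
              rw [IntermediateField.adjoin_le_iff]
              intro s hs
              exact hcon s hs
            exact h4 hz
          have h5 : IsAlgebraic (Pool.Agent.W602.GT.consts H) (x' j) := by
            refine alg_of_range ?_ hT
            rintro ⟨a, ha⟩
            exact ⟨⟨a, h3 a ha⟩, rfl⟩
          exact der_zero_of_alg H h5
      choose S hS using hsup
      obtain ⟨S', hS'⟩ : ∃ S' : Finset B, S' = Finset.univ.biUnion S := ⟨_, rfl⟩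
      have hexp : ∀ j, G (x' j) = ∑ β ∈ S', G (algebraMap C L (c β)) * Δ β (x' j) := by
        intro j
        have h1 := hS j (G - ∑ β ∈ S', G (algebraMap C L (c β)) • Δ β) (fun i => by
          rw [Derivation.sub_apply, hGt, Pool.Agent.TH122.AB.sum_der,
            Finset.sum_eq_zero fun β _ => by rw [hΔt, mul_zero], sub_zero]) (fun γ hγ => by
          have hγ' : γ ∈ S' := by
            rw [hS']
            exact Finset.mem_biUnion.2 ⟨j, Finset.mem_univ j, hγ⟩
          rw [Derivation.sub_apply, Pool.Agent.TH122.AB.sum_der, Finset.sum_eq_single γ]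
          · rw [hΔc, if_pos rfl, mul_one, sub_self]
          · intro β _ hβ
            rw [hΔc, if_neg hβ, mul_zero]
          · intro h
            exact absurd hγ' h)
        rw [Derivation.sub_apply, Pool.Agent.TH122.AB.sum_der] at h1
        exact sub_eq_zero.1 h1
      have h2 : ∑ j, G (x' j) * lam j =
          ∑ β ∈ S', G (algebraMap C L (c β)) * ∑ j, Δ β (x' j) * lam j := by
        simp only [Finset.mul_sum]
        rw [Finset.sum_comm]
        refine Finset.sum_congr rfl fun j _ => ?_
        rw [hexp j, Finset.sum_mul]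
        refine Finset.sum_congr rfl fun β _ => ?_
        ring
      rw [h2]
      exact Finset.sum_eq_zero fun β _ => by rw [hker, mul_zero]
    have hlam0 : ∀ j, lam j = 0 := by
      intro j
      -- a derivation with given values on the coordinates
      have hxL : AlgebraicIndependent k fun i => algebraMap K L (x i) :=
        hx.1.map' (f := IsScalarTower.toAlgHom k K L) (algebraMap K L).injective
      obtain ⟨S, hxS, hS⟩ := exists_isTranscendenceBasis_superset hxL.to_subtype_range
      obtain ⟨G, hG⟩ := Pool.Agent.W602.GT.exists_der (fun s : S => (s : L)) hS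
        (fun s => if (s : L) = x' j then 1 else 0)
      have hval : ∀ i, G (algebraMap K L (x i)) = if algebraMap K L (x i) = x' j then 1 else 0 := by
        intro i
        exact hG ⟨_, hxS ⟨i, rfl⟩⟩
      have hinj : Function.Injective fun i => algebraMap K L (x i) := hxL.injective
      have h1 := hall G (fun i => by
        rw [htd]
        change G (algebraMap K L (x (Fin.castAdd r i))) = 0
        rw [hval, if_neg]
        intro h
        rw [hx'] at h
        have h2 := hinj h
        have h3 := congrArg Fin.val h2
        simp only [Fin.val_castAdd, Fin.val_natAdd] at h3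
        omega)
      rw [Finset.sum_eq_single j] at h1
      · have h2 : G (x' j) = 1 := by
          have h3 := hval (Fin.natAdd (e + 1) j)
          rw [hx']
          rw [hx', if_pos rfl] at h3
          exact h3
        rwa [h2, one_mul] at h1
      · intro b _ hb
        have h3 := hval (Fin.natAdd (e + 1) b)
        rw [if_neg] at h3
        · have h4 : G (x' b) = 0 := by
            rw [hx']
            exact h3
          rw [h4, zero_mul]
        · intro h
          rw [hx'] at h
          have h4 := hinj h
          exact hb (Fin.natAdd_injective _ _ h4)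
      · intro h
        exact absurd (Finset.mem_univ _) h
    apply LinearMap.ext
    intro v
    rw [hfl, LinearMap.zero_apply]
    exact Finset.sum_eq_zero fun j _ => by rw [hlam0, mul_zero]
  refine ⟨(Matrix.of fun i j => Δ (α i) (x' j)).det, hα, fun ω hω hreg => ?_⟩
  intro P hP
  obtain ⟨s, u, F, hs0, hs, hu, hfr⟩ := exists_frmAt htr hess hP
  obtain ⟨z, hz⟩ : ∃ z : Fin (e + 1) → L, z = Fin.cons s u := ⟨_, rfl⟩
  rw [← hz] at hfr
  have hbas' := hB.sumElim_comp hfr.frm.bas
  obtain ⟨Δ0', hΔ0'⟩ := Pool.Agent.Y173.QA.exists_duals hbas'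
  obtain ⟨Δ', hΔ'⟩ : ∃ Δ' : B → Derivation k L L, ∀ β, Δ' β = Δ0' (Sum.inr β) :=
    ⟨_, fun _ => rfl⟩
  have hΔz : ∀ β i, Δ' β (z i) = 0 := by
    intro β i
    have := hΔ0' (Sum.inr β) (Sum.inl i)
    rw [if_neg (by simp)] at this
    rw [hΔ']
    exact this
  have hΔc' : ∀ β γ, Δ' β (algebraMap C L (c γ)) = if β = γ then 1 else 0 := by
    intro β γ
    have := hΔ0' (Sum.inr β) (Sum.inr γ)
    rw [hΔ']
    refine this.trans ?_
    simp
  have hpres : ∀ β w, P.Reg w → P.Reg (Δ' β w) := by
    intro β
    refine presG (k0 := k) htr (fun y hy => Pool.Agent.W824.PG.fin_adj hess y hy) P hs0 hs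
      (y' := u) hu (Δ' β) (der_const hB (Δ' β) fun γ => ?_) ?_ fun i => ?_
    · rw [hΔc']
      split_ifs
      · exact ⟨1, (map_one _).symm⟩
      · exact ⟨0, (map_zero _).symm⟩
    · have h1 := hΔz β 0
      rw [hz, Fin.cons_zero] at h1
      rw [h1]
      exact P.reg_zero
    · have h1 := hΔz β i.succ
      rw [hz, Fin.cons_succ] at h1
      rw [h1]
      exact P.reg_zero
  -- the difference
  have hdiff : ∀ β f, Δ' β f = Δ β f - ∑ a, Δ β (z a) * F a f := by
    intro β f
    have h1 := der_zero (Δ' β - Δ β + ∑ a, Δ β (z a) • (F a).restrictScalars k) _ hbas'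
      (fun i => by
        rw [Derivation.add_apply, Derivation.sub_apply, Pool.Agent.TH122.AB.sum_der]
        rcases i with i | γ
        · change Δ' β (z i) - Δ β (z i) + ∑ a, Δ β (z a) * F a (z i) = 0
          rw [hΔz, Finset.sum_eq_single i]
          · rw [hfr.frm.dual, if_pos rfl]
            ring
          · intro a _ ha
            rw [hfr.frm.dual, if_neg ha, mul_zero]
          · intro h
            exact absurd (Finset.mem_univ _) h
        · change Δ' β (algebraMap C L (c γ)) - Δ β (algebraMap C L (c γ)) +
            ∑ a, Δ β (z a) * F a (algebraMap C L (c γ)) = 0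
          rw [hΔc, hΔc', Finset.sum_eq_zero fun a _ => by
            rw [(F a).map_algebraMap, mul_zero]]
          ring) f
    rw [Derivation.add_apply, Derivation.sub_apply, Pool.Agent.TH122.AB.sum_der] at h1
    change Δ' β f - Δ β f + ∑ a, Δ β (z a) * F a f = 0 at h1
    linear_combination h1
  obtain ⟨G, hG⟩ : ∃ G : Fin (e + 1 + r) → Derivation k L L,
      G = Fin.append (fun a => (F a).restrictScalars k) fun i => Δ' (α i) := ⟨_, rfl⟩
  have hGreg : ∀ i w, P.Reg w → P.Reg (G i w) := by
    intro i
    rw [hG]
    refine Fin.addCases (fun i => ?_) (fun i => ?_) i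
    · rw [Fin.append_left]
      exact hfr.pres i
    · rw [Fin.append_right]
      exact hpres (α i)
  have hmain := reg_form htrK hfinK hω hreg hx hE (P := P)
    (fun v e0 hv => div_restrict htrK hs0 hs hu (by
      have := hfr.frm.bas
      rwa [hz] at this) hv) hGreg
  -- the determinant
  have hdet : (Matrix.of fun i j => G i (algebraMap K L (x j))).det =
      (Matrix.of fun i j => F i (t j)).det * (Matrix.of fun i j => Δ (α i) (x' j)).det := by
    have h1 : (Matrix.of fun i j => G i (algebraMap K L (x j))).det =
        (Matrix.fromBlocks (1 : Matrix (Fin (e + 1)) (Fin (e + 1)) L) 0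
          (Matrix.of fun i a => - Δ (α i) (z a)) (1 : Matrix (Fin r) (Fin r) L) *
        Matrix.fromBlocks (Matrix.of fun i j => F i (t j)) (Matrix.of fun i j => F i (x' j)) 0
          (Matrix.of fun i j => Δ (α i) (x' j))).det := by
      rw [← Matrix.det_reindex_self (finSumFinEquiv (m := e + 1) (n := r)).symm]
      congr 1
      rw [Matrix.fromBlocks_multiply]
      ext i j
      rw [Matrix.reindex_apply, Matrix.submatrix_apply]
      rcases i with i | i <;> rcases j with j | j
      · simp [hG, htd, Matrix.mul_apply]
      · simp [hG, hx', Matrix.mul_apply]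
      · have h2 : ∑ a, - Δ (α i) (z a) * F a (t j) = - ∑ a, Δ (α i) (z a) * F a (t j) := by
          simp
        simp only [hG, Equiv.symm_symm, finSumFinEquiv_apply_right, finSumFinEquiv_apply_left,
          Matrix.of_apply, Fin.append_right, Matrix.fromBlocks_apply₂₁, Matrix.add_apply,
          Matrix.mul_apply, Matrix.mul_zero, Matrix.zero_apply, add_zero]
        rw [h2]
        have h3 := hdiff (α i) (t j)
        rw [hΔt, zero_sub] at h3
        rw [← h3, htd]
      · have h2 : ∑ a, - Δ (α i) (z a) * F a (x' j) = - ∑ a, Δ (α i) (z a) * F a (x' j) := by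
          simp
        simp only [hG, Equiv.symm_symm, finSumFinEquiv_apply_right,
          Matrix.of_apply, Fin.append_right, Matrix.fromBlocks_apply₂₂, Matrix.add_apply,
          Matrix.mul_apply, Matrix.one_mul]
        rw [h2]
        have h3 := hdiff (α i) (x' j)
        rw [hx'] at h3 ⊢
        rw [h3]
        ring
    rw [h1, Matrix.det_mul, Matrix.det_fromBlocks_zero₁₂, Matrix.det_fromBlocks_zero₂₁,
      Matrix.det_one, Matrix.det_one, one_mul, one_mul]
  rw [hdet, mul_pow, mul_assoc] at hmain
  intro G' hG'
  exact reg_of_frm hfr hmain hG'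

end

end Pool.Agent.H917
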