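import Pool.Agent.H917.A7

/-!
Ratios of forms; transcendence bases.
-/

set_option autoImplicit false
set_option linter.overlappingInstances false
set_option linter.unusedSectionVars false

open FF MvPolynomial Pool.Agent.W603.LV Pool.Agent.W619.PQ Pool.Agent.Y174.BR
  Pool.Agent.W619.TW Pool.Agent.TH143.HE Pool.Agent.W619.Y

namespace Pool.Agent.H917

section

variable {C L : Type} [Field C] [CharZero C] [Field L] [Algebra C L]
variable {V : Set (Place C L)} {e : ℕ} {t : Fin e → L} {N : ℕ}

theorem WN_one : (1 : L) ∈ WN (C := C) V t 0 := by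
  intro P _ _ _
  rw [pow_zero, one_mul]
  exact P.reg_one

theorem WN_prod {ι : Type} (s : Finset ι) (g : ι → L) (n : ι → ℕ)
    (h : ∀ i ∈ s, g i ∈ WN (C := C) V t (n i)) : ∏ i ∈ s, g i ∈ WN (C := C) V t (∑ i ∈ s, n i) := by
  classical
  induction s using Finset.induction_on with
  | empty =>
    rw [Finset.prod_empty, Finset.sum_empty]
    exact WN_one
  | insert i s hi ih =>
    rw [Finset.prod_insert hi, Finset.sum_insert hi]
    exact WN_mul (h i (Finset.mem_insert_self i s))
      (ih fun j hj => h j (Finset.mem_insert_of_mem hj))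

theorem WN_hom {w : ℕ} {g : Fin w → L} (hg : ∀ j, g j ∈ WN (C := C) V t N) {F : MvPolynomial (Fin w) C}
    {d : ℕ} (hF : F.IsHomogeneous d) : aeval g F ∈ WN (C := C) V t (d * N) := by
  rw [aeval_def, eval₂_eq']
  refine Submodule.sum_mem _ fun m hm => ?_
  rw [← Algebra.smul_def]
  refine Submodule.smul_mem _ _ ?_
  have h1 := WN_prod (V := V) (t := t) Finset.univ (fun j => g j ^ m j) (fun j => m j * N)
    (fun j _ => WN_pow (hg j) (m j))
  have h5 := hF (mem_support_iff.1 hm)
  rw [Finsupp.weight_apply, Finsupp.sum_fintype _ _ (fun _ => by simp)] at h5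
  simp only [Pi.one_apply, smul_eq_mul, mul_one] at h5
  rw [← Finset.sum_mul, h5] at h1
  exact h1

/-- **Multipliers.** -/
theorem exists_mul {w : ℕ} {g : Fin (w + 1) → L} (hg : ∀ j, g j ∈ WN (C := C) V t N)
    (hg0 : g 0 ≠ 0) {z : L}
    (hz : IsAlgebraic (IntermediateField.adjoin C (Set.range fun i : Fin w => g i.succ / g 0)) z) :
    ∃ (N1 : ℕ) (a : L), a ≠ 0 ∧ a ∈ WN (C := C) V t N1 ∧ a * z ∈ WN (C := C) V t N1 := by
  classical
  obtain ⟨ρ, hρ⟩ : ∃ ρ : Fin w → L, ρ = fun i => g i.succ / g 0 := ⟨_, rfl⟩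
  rw [← hρ] at hz
  have hz2 : IsAlgebraic (Algebra.adjoin C (Set.range ρ)) z := by
    open scoped IntermediateField.algebraAdjoinAdjoin in
    have h4 : Algebra.IsAlgebraic (Algebra.adjoin C (Set.range ρ))
      (IntermediateField.adjoin C (Set.range ρ)) := inferInstance
    open scoped IntermediateField.algebraAdjoinAdjoin in
    exact hz.restrictScalars (Algebra.adjoin C (Set.range ρ))
  obtain ⟨p, hp, h0⟩ := hz2
  have hF : ∀ i, ∃ F : MvPolynomial (Fin w) C, aeval ρ F = ((p.coeff i : L)) := by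
    intro i
    have h1 : (p.coeff i : L) ∈ (aeval ρ : MvPolynomial (Fin w) C →ₐ[C] L).range := by
      rw [← Algebra.adjoin_range_eq_range_aeval]
      exact (p.coeff i).2
    exact h1
  choose F hF using hF
  obtain ⟨d, hd⟩ : ∃ d, d = p.natDegree := ⟨_, rfl⟩
  obtain ⟨δ, hδ⟩ : ∃ δ, δ = (Finset.range (d + 1)).sup fun i => (F i).totalDegree := ⟨_, rfl⟩
  have hδi : ∀ i ≤ d, (F i).totalDegree ≤ δ := by
    intro i hi
    rw [hδ]
    exact Finset.le_sup (f := fun i => (F i).totalDegree) (Finset.mem_range.2 (by omega))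
  obtain ⟨a, ha⟩ : ∃ a : ℕ → L, ∀ i, a i = g 0 ^ δ * (p.coeff i : L) := ⟨_, fun _ => rfl⟩
  have hai : ∀ i ≤ d, a i ∈ WN (C := C) V t (δ * N) := by
    intro i hi
    have h1 : a i = g 0 ^ (δ - (F i).totalDegree) * aeval g (hmg (F i)) := by
      rw [aeval_hmg g hg0, ha, ← hF, ← mul_assoc, ← pow_add, Nat.sub_add_cancel (hδi i hi), hρ]
    rw [h1]
    have h2 := WN_mul (WN_pow (hg 0) (δ - (F i).totalDegree)) (WN_hom hg (hmg_homog (F i)))
    rw [← Nat.add_mul, Nat.sub_add_cancel (hδi i hi)] at h2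
    exact h2
  have had : a d ≠ 0 := by
    rw [ha]
    refine mul_ne_zero (pow_ne_zero _ hg0) ?_
    intro h
    apply hp
    have h1 : p.leadingCoeff = 0 := by
      rw [Polynomial.leadingCoeff, ← hd]
      exact Subtype.ext h
    exact Polynomial.leadingCoeff_eq_zero.1 h1
  have hsum : ∑ i ∈ Finset.range (d + 1), a i * z ^ i = 0 := by
    rw [Polynomial.aeval_eq_sum_range, ← hd] at h0
    have h1 : ∀ i, a i * z ^ i = g 0 ^ δ * (p.coeff i • z ^ i) := by
      intro i
      rw [ha, Algebra.smul_def, mul_assoc]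
      rfl
    rw [Finset.sum_congr rfl fun i _ => h1 i, ← Finset.mul_sum, h0, mul_zero]
  exact ⟨δ * N, a d, had, hai d le_rfl, WN_int hai had hsum⟩

/-- **Common multipliers.** -/
theorem exists_mul_all {w : ℕ} {g : Fin (w + 1) → L} (hg : ∀ j, g j ∈ WN (C := C) V t N)
    (hg0 : g 0 ≠ 0) {n : ℕ} (z : Fin n → L)
    (hz : ∀ l, IsAlgebraic (IntermediateField.adjoin C
      (Set.range fun i : Fin w => g i.succ / g 0)) (z l)) (hN : 1 ≤ N) :
    ∃ (N1 : ℕ) (a : L), 1 ≤ N1 ∧ a ≠ 0 ∧ a ∈ WN (C := C) V t N1 ∧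
      ∀ l, a * z l ∈ WN (C := C) V t N1 := by
  classical
  choose N1 a ha0 ha haz using fun l => exists_mul hg hg0 (hz l)
  refine ⟨N + ∑ l, N1 l, g 0 * ∏ l, a l, by omega,
    mul_ne_zero hg0 (Finset.prod_ne_zero_iff.2 fun l _ => ha0 l),
    WN_mul (hg 0) (WN_prod _ _ _ fun l _ => ha l), fun l => ?_⟩
  have h1 : g 0 * (∏ l, a l) * z l = g 0 * ∏ i, (if i = l then a l * z l else a i) := by
    rw [mul_assoc]
    congr 1
    rw [← Finset.mul_prod_erase Finset.univ a (Finset.mem_univ l),
      ← Finset.mul_prod_erase Finset.univ (fun i => if i = l then a l * z l else a i)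
        (Finset.mem_univ l), if_pos rfl]
    have h2 : ∏ i ∈ Finset.univ.erase l, (if i = l then a l * z l else a i) =
        ∏ i ∈ Finset.univ.erase l, a i :=
      Finset.prod_congr rfl fun i hi => if_neg (Finset.ne_of_mem_erase hi)
    rw [h2]
    ring
  rw [h1]
  refine WN_mul (hg 0) (WN_prod _ _ _ fun i _ => ?_)
  split_ifs with h
  · subst h
    exact haz i
  · exact ha i

end

section

variable {k C K L : Type} [Field k] [CharZero k] [Field C] [CharZero C] [Field K] [Field L]
  [Algebra k C] [Algebra C L] [Algebra k L] [IsScalarTower k C L] [Algebra k K] [Algebra K L]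
  [IsScalarTower k K L]

/-- A transcendence basis of `K` which contains a transcendence basis of `L` over `C`. -/
theorem exists_split {w e : ℕ} (htrK : Algebra.trdeg k K = w) (htr : Algebra.trdeg C L = e)
    (halg : ∀ z : L, IsAlgebraic (IntermediateField.adjoin C (Set.range (algebraMap K L))) z) :
    ∃ (r : ℕ) (_ : w = e + r) (x : Fin (e + r) → K), IsTranscendenceBasis k x ∧
      IsTranscendenceBasis C fun i : Fin e => algebraMap K L (x (Fin.castAdd r i)) := by
  classical
  have h1 : Algebra.IsAlgebraic (Algebra.adjoin C (Set.range (algebraMap K L))) L :=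
    Pool.Agent.W619.PQ.alg_adjoin halg
  obtain ⟨S, hS, hSb⟩ := exists_isTranscendenceBasis_subset (R := C)
    (Set.range (algebraMap K L))
  have hfinS : Finite S := by
    have h1 := hSb.cardinalMk_eq_trdeg
    rw [htr] at h1
    rw [← Cardinal.lt_aleph0_iff_finite, h1]
    exact Cardinal.natCast_lt_aleph0
  have hcardS : Nat.card S = e := by
    rw [Nat.card, hSb.cardinalMk_eq_trdeg, htr]
    exact Cardinal.toNat_natCast e
  obtain ⟨φ⟩ : Nonempty (Fin e ≃ S) := by
    have := Finite.equivFin S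
    rw [hcardS] at this
    exact ⟨this.symm⟩
  have ht0 : ∀ i : Fin e, ∃ y : K, algebraMap K L y = (φ i : L) := fun i => hS (φ i).2
  choose t0 ht0 using ht0
  have hb : IsTranscendenceBasis C fun i : Fin e => algebraMap K L (t0 i) := by
    have h2 : (fun i : Fin e => algebraMap K L (t0 i)) = (Subtype.val : S → L) ∘ φ := by
      funext i
      exact ht0 i
    rw [h2]
    exact hSb.comp_equiv φ
  have hind : AlgebraicIndependent k t0 := by
    have h2 : AlgebraicIndependent k fun i : Fin e => algebraMap K L (t0 i) :=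
      AlgebraicIndependent.restrictScalars (algebraMap k C).injective hb.1
    exact h2.of_comp (IsScalarTower.toAlgHom k K L)
  obtain ⟨B, htB, hB⟩ := exists_isTranscendenceBasis_superset hind.to_subtype_range
  have hfinB : Finite B := by
    have h1 := hB.cardinalMk_eq_trdeg
    rw [htrK] at h1
    rw [← Cardinal.lt_aleph0_iff_finite, h1]
    exact Cardinal.natCast_lt_aleph0
  obtain ⟨R, hR⟩ : ∃ R : Set K, R = B \ Set.range t0 := ⟨_, rfl⟩
  have hR' : ∀ b, b ∈ R → b ∈ B ∧ b ∉ Set.range t0 := by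
    intro b hb
    rw [hR] at hb
    exact hb
  have hfinR : Finite R := by
    rw [hR]
    exact (Set.toFinite B).subset Set.sdiff_subset
  obtain ⟨r, ⟨ψ⟩⟩ := Finite.exists_equiv_fin R
  let η : Fin e ⊕ Fin r → B := Sum.elim (fun i => ⟨t0 i, htB ⟨i, rfl⟩⟩)
    fun j => ⟨ψ.symm j, (hR' _ (ψ.symm j).2).1⟩
  have hη : Function.Bijective η := by
    constructor
    · rintro (i | i) (j | j) hij
      · have h2 : t0 i = t0 j := congrArg Subtype.val hij
        exact congrArg Sum.inl (hind.injective h2)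
      · exfalso
        have h2 : t0 i = ((ψ.symm j : R) : K) := congrArg Subtype.val hij
        exact (hR' _ (ψ.symm j).2).2 ⟨i, h2⟩
      · exfalso
        have h2 : ((ψ.symm i : R) : K) = t0 j := congrArg Subtype.val hij
        exact (hR' _ (ψ.symm i).2).2 ⟨j, h2.symm⟩
      · have h2 : ((ψ.symm i : R) : K) = ((ψ.symm j : R) : K) :=
          congrArg (fun b : B => (b : K)) hij
        exact congrArg Sum.inr (ψ.symm.injective (Subtype.ext h2))
    · rintro ⟨b, hb⟩
      by_cases h : b ∈ Set.range t0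
      · obtain ⟨i, rfl⟩ := h
        exact ⟨Sum.inl i, rfl⟩
      · have h2 : b ∈ R := by
          rw [hR]
          exact ⟨hb, h⟩
        refine ⟨Sum.inr (ψ ⟨b, h2⟩), ?_⟩
        apply Subtype.ext
        change ((ψ.symm (ψ ⟨b, h2⟩) : R) : K) = b
        rw [Equiv.symm_apply_apply]
  obtain ⟨x, hx⟩ : ∃ x : Fin (e + r) → K, x = Fin.append t0 fun j => ((ψ.symm j : R) : K) :=
    ⟨_, rfl⟩
  have hxb : IsTranscendenceBasis k x := by
    have h2 : x = (Subtype.val : B → K) ∘ (finSumFinEquiv.symm.trans (Equiv.ofBijective η hη)) := by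
      funext i
      rw [hx]
      refine Fin.addCases (fun i => ?_) (fun i => ?_) i
      · simp [η]
      · simp [η]
    rw [h2]
    exact hB.comp_equiv _
  refine ⟨r, ?_, x, hxb, ?_⟩
  · have h2 := hxb.cardinalMk_eq_trdeg
    rw [htrK, Cardinal.mk_fin] at h2
    exact_mod_cast h2.symm
  · have h2 : (fun i : Fin e => algebraMap K L (x (Fin.castAdd r i))) =
        fun i => algebraMap K L (t0 i) := by
      funext i
      rw [hx, Fin.append_left]
    rw [h2]
    exact hb

end

end Pool.Agent.H917
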