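import Pool.Agent.H917.A8

/-!
The derivation is a linear vector field.
-/

set_option autoImplicit false
set_option linter.overlappingInstances false
set_option linter.unusedSectionVars false

open FF MvPolynomial Pool.Agent.W603.LV Pool.Agent.W619.PQ Pool.Agent.Y174.BR
  Pool.Agent.W619.TW Pool.Agent.TH143.HE Pool.Agent.W619.Y

namespace Pool.Agent.H917

section

variable {k C L : Type} [Field k] [Field C] [Field L] [Algebra C L] [Algebra k L]

/-- The point `y` moves by linear maps with coefficients in `C` under the derivation `D`. -/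
def LinSys (C : Type) {L : Type} [Field C] [Field L] [Algebra C L] [Algebra k L]
    (D : Derivation k L L) {n : ℕ} (y : Fin n → L) (i0 : Fin n) : Prop :=
  ∃ (r : ℕ) (h : Fin r → L) (δ : L) (A : Fin r → Fin r → C) (b : Fin n → Fin r → C),
    (∀ i, D (h i) = δ * h i + ∑ j, algebraMap C L (A i j) * h j) ∧
    ∑ j, algebraMap C L (b i0 j) * h j ≠ 0 ∧
    ∀ i, y i * ∑ j, algebraMap C L (b i0 j) * h j = y i0 * ∑ j, algebraMap C L (b i j) * h j

/-- a finite-dimensional space with an operator -/
theorem linSys_of_fin {D : Derivation k L L} (W : Submodule C L) (hfin : Module.Finite C W) {δ : L}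
    (hW : ∀ g ∈ W, D g - δ * g ∈ W) {n : ℕ} {y : Fin n → L} {i0 : Fin n} (hy0 : y i0 ≠ 0) {a : L}
    (ha0 : a ≠ 0) (ha : ∀ i, a * (y i / y i0) ∈ W) : LinSys C D y i0 := by
  classical
  obtain ⟨h, hh⟩ : ∃ h : Module.Basis (Fin (Module.finrank C W)) C W, h = Module.finBasis C W :=
    ⟨_, rfl⟩
  have hexp : ∀ g ∈ W, ∃ c : Fin (Module.finrank C W) → C,
      g = ∑ j, algebraMap C L (c j) * (h j : L) := by
    intro g hg
    refine ⟨h.repr ⟨g, hg⟩, ?_⟩
    have h1 := congrArg Subtype.val (h.sum_repr ⟨g, hg⟩)
    rw [Submodule.coe_sum] at h1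
    refine h1.symm.trans (Finset.sum_congr rfl fun j _ => ?_)
    rw [Submodule.coe_smul, Algebra.smul_def]
  choose A hA using fun i => hexp _ (hW (h i) (h i).2)
  choose b hb using fun i => hexp _ (ha i)
  refine ⟨Module.finrank C W, fun i => (h i : L), δ, A, b, fun i => ?_, ?_, fun i => ?_⟩
  · rw [← hA i]
    ring
  · rw [← hb i0, div_self hy0, mul_one]
    exact ha0
  · rw [← hb i0, ← hb i, div_self hy0]
    field_simp

end

section

variable {k C K L : Type} [Field k] [CharZero k] [Field C] [CharZero C] [Field K] [Field L]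
  [Algebra k C] [Algebra C L] [Algebra k L] [IsScalarTower k C L] [Algebra k K] [Algebra K L]
  [IsScalarTower k K L]

theorem alg_of_pow {A : Type} [Field A] [Algebra A L] {z : L} {m : ℕ} (hm : 1 ≤ m)
    (h : IsAlgebraic A (z ^ m)) : IsAlgebraic A z :=
  IsAlgebraic.of_pow (by omega) h

/-- the field is algebraic over the field of the ratios -/
theorem SD.alg {D : Derivation k L L} {n m : ℕ} {y : Fin n → L} (h : SD C D y m) (hm : 1 ≤ m)
    (hgen : GenBy C D y) (z : L) :
    IsAlgebraic (IntermediateField.adjoin C {z | ∃ i j, z = y i / y j}) z := by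
  obtain ⟨E, hE⟩ : ∃ E, E = IntermediateField.adjoin C {z | ∃ i j, z = y i / y j} := ⟨_, rfl⟩
  rw [← hE]
  have hr : ∀ i j, y i / y j ∈ E := fun i j => by
    rw [hE]
    exact IntermediateField.subset_adjoin C _ ⟨i, j, rfl⟩
  have h1 := hgen (algebraicClosure E L).toSubfield (fun c => ?_) (fun i j => ?_) fun i j => ?_
  · have h2 : z ∈ (algebraicClosure E L).toSubfield := by
      rw [h1]
      trivial
    exact (mem_algebraicClosure_iff (F := E) (E := L)).1 h2
  · refine (mem_algebraicClosure_iff (F := E) (E := L)).2 ?_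
    exact isAlgebraic_algebraMap (algebraMap C E c)
  · refine (mem_algebraicClosure_iff (F := E) (E := L)).2 ?_
    exact isAlgebraic_algebraMap (⟨_, hr i j⟩ : E)
  · refine (mem_algebraicClosure_iff (F := E) (E := L)).2 ?_
    by_cases hj : y j = 0
    · rw [hj, div_zero, map_zero]
      exact isAlgebraic_zero
    · obtain ⟨N, q, -, hc, hb⟩ := h.rel j hj
      obtain ⟨b, hb⟩ := hb fun _ => i
      rw [Finset.prod_const, Finset.card_univ, Fintype.card_fin] at hb
      refine alg_of_pow hm ?_
      rw [hb]
      have h2 : ∑ l, aeval (ch y j) (b l) * aeval (ch2 D y j) (q l) ∈ E := by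
        refine sum_mem fun l _ => ?_
        obtain ⟨c, hc⟩ := hc l
        rw [hc]
        refine mul_mem ?_ (E.algebraMap_mem c)
        have h3 : ∀ f : MvPolynomial (Fin n) k, aeval (ch y j) f ∈ E := by
          intro f
          induction f using MvPolynomial.induction_on with
          | C a =>
            rw [aeval_C, IsScalarTower.algebraMap_apply k C L]
            exact E.algebraMap_mem _
          | add p q hp hq => rw [map_add]; exact add_mem hp hq
          | mul_X p i hp => rw [map_mul, aeval_X]; exact mul_mem hp (hr i j)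
        exact h3 (b l)
      exact isAlgebraic_algebraMap (⟨_, h2⟩ : E)

/-- **The derivation is a linear vector field.** -/
theorem linSys_of_SD {D : Derivation k L L} {n m w : ℕ} {y : Fin n → K} {i0 : Fin n}
    (hy0 : y i0 ≠ 0) (h : SD C D (fun i => algebraMap K L (y i)) m) (hm : 1 ≤ m)
    (hDC : ∀ c : C, ∃ c' : C, D (algebraMap C L c) = algebraMap C L c')
    (hess : Algebra.EssFiniteType C L) (hessK : Algebra.EssFiniteType k K)
    (hD : ∃ i j, D (algebraMap K L (y i) / algebraMap K L (y j)) ≠ 0)
    (hgen : GenBy C D fun i => algebraMap K L (y i))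
    (hGT : Pool.Agent.W602.GT.GeneralType k K w) :
    LinSys C D (fun i => algebraMap K L (y i)) i0 := by
  classical
  have hL0 : CharZero L := charZero_of_injective_algebraMap (algebraMap k L).injective
  have hK0 : CharZero K := charZero_of_injective_algebraMap (algebraMap k K).injective
  obtain ⟨yL, hyL⟩ : ∃ yL : Fin n → L, yL = fun i => algebraMap K L (y i) := ⟨_, rfl⟩
  rw [← hyL] at h hgen ⊢
  have hyL0 : yL i0 ≠ 0 := by
    rw [hyL]
    exact (map_ne_zero _).2 hy0
  have hD' : ∃ i j, D (yL i / yL j) ≠ 0 := by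
    rw [hyL]
    exact hD
  obtain ⟨e, he⟩ : ∃ e : ℕ, Algebra.trdeg C L = e := by
    obtain ⟨S, hS⟩ := IntermediateField.fg_top C L
    have h1 : Algebra.IsAlgebraic (Algebra.adjoin C (S : Set L)) L :=
      Pool.Agent.W619.PQ.alg_adjoin fun z => by
        rw [hS]
        exact isAlgebraic_algebraMap (⟨z, trivial⟩ : (⊤ : IntermediateField C L))
    obtain ⟨T, hT, hTb⟩ := exists_isTranscendenceBasis_subset (R := C) (S : Set L)
    have hfin : Finite T := (S.finite_toSet.subset hT)
    refine ⟨Nat.card T, ?_⟩
    rw [← hTb.cardinalMk_eq_trdeg, Nat.card]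
    exact (Cardinal.cast_toNat_of_lt_aleph0 (Cardinal.lt_aleph0_of_finite T)).symm
  have halg := h.alg hm hgen
  rcases Nat.eq_zero_or_pos e with he0 | he0
  · -- an algebraic extension
    subst he0
    have halgL : Algebra.IsAlgebraic C L := by
      rw [← trdeg_eq_zero_iff]
      exact_mod_cast he
    have hfin : FiniteDimensional C L := by
      obtain ⟨S, hS⟩ := IntermediateField.fg_top C L
      have h1 : FiniteDimensional C (IntermediateField.adjoin C (S : Set L)) :=
        IntermediateField.finiteDimensional_adjoin fun x _ => (halgL.isAlgebraic x).isIntegral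
      rw [hS] at h1
      exact Module.Finite.equiv (IntermediateField.topEquiv (F := C) (E := L)).toLinearEquiv
    refine linSys_of_fin (⊤ : Submodule C L) (by infer_instance) (δ := 0) (fun g _ => trivial)
      hyL0 one_ne_zero fun i => trivial
  · obtain ⟨e, rfl⟩ := Nat.exists_eq_succ_of_ne_zero he0.ne'
    -- the projection
    have hinf : Infinite C := inferInstance
    obtain ⟨r, T, hT, hI⟩ := exists_pnorm (C := C) yL
    obtain ⟨r, rfl⟩ : ∃ r', r = r' + 1 := by
      rcases Nat.eq_zero_or_pos r with h0 | h0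
      · exfalso
        subst h0
        have h1 : Algebra.IsAlgebraic C L := by
          constructor
          intro z
          have h2 : ∀ i j, IsAlgebraic (IntermediateField.adjoin C (∅ : Set L)) (yL i / yL j) := by
            intro i j
            have h3 := hT.alg i j
            have h4 : {z : L | ∃ k l, z = T k / T l} = ∅ := by
              ext z
              simp only [Set.mem_ofPred_eq, Set.mem_empty_iff_false, iff_false]
              rintro ⟨k, -⟩
              exact k.elim0
            rwa [h4] at h3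
          have h3 : IsAlgebraic (IntermediateField.adjoin C (∅ : Set L)) z :=
            alg_trans (S := {z | ∃ i j, z = yL i / yL j}) (by
              rintro _ ⟨i, j, rfl⟩
              exact h2 i j) (halg z)
          refine alg_of_range ?_ h3
          rintro ⟨a, ha⟩
          rw [IntermediateField.adjoin_empty, IntermediateField.mem_bot] at ha
          exact ha
        have h2 : Algebra.trdeg C L = 0 := trdeg_eq_zero_iff.2 h1
        rw [he] at h2
        norm_cast at h2
      · exact ⟨r - 1, by omega⟩
    have hZ := basis_Zc hT hI ⟨halg⟩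
    obtain rfl : r = e + 1 := by
      have h1 := hZ.cardinalMk_eq_trdeg
      rw [he, Cardinal.mk_fin] at h1
      exact_mod_cast h1
    have hfd := Pool.Agent.W824.PG.fin_adj hess _ hZ
    -- the basis
    have halgK : ∀ z : L, IsAlgebraic (IntermediateField.adjoin C (Set.range (algebraMap K L))) z := by
      intro z
      refine alg_mono ?_ (halg z)
      rw [IntermediateField.adjoin_le_iff]
      rintro _ ⟨i, j, rfl⟩
      rw [hyL]
      exact IntermediateField.subset_adjoin C _ ⟨y i / y j, map_div₀ _ _ _⟩
    obtain ⟨htrK, N, hN, ω, hω, hωreg, D0, hD0, hind⟩ := hGT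
    obtain ⟨r', rfl, x, hx, ht⟩ := exists_split htrK he halgK
    obtain ⟨E, hE0⟩ := Pool.Agent.W602.GT.exists_dual hx
    have hE : ∀ i j, E i (x j) = if i = j then 1 else 0 := by
      intro i j
      have h1 := congrFun (congrFun hE0 i) j
      rw [Matrix.of_apply, Matrix.one_apply] at h1
      exact h1
    obtain ⟨J, hJ0, hJ⟩ := descend_form (N := N) htrK
      (fun y hy => Pool.Agent.W824.PG.fin_adj hessK y hy) hx hE he hess ht
    obtain ⟨t, htd⟩ : ∃ t : Fin (e + 1) → L,
      t = fun i => algebraMap K L (x (Fin.castAdd r' i)) := ⟨_, rfl⟩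
    rw [← htd] at ht hJ
    obtain ⟨g, hg⟩ : ∃ g : Fin (e + 1 + r' + 1) → L,
      ∀ j, g j = J ^ N * algebraMap K L (ω j E) := ⟨_, fun _ => rfl⟩
    have hgW : ∀ j, g j ∈ WN (C := C) {P : Place C L | IsDivisorial P (e + 1)} t N := by
      intro j
      rw [hg]
      exact hJ (ω j) (hω j) fun v hv => hωreg v hv j
    -- the ratios
    have hωE : ∀ j, ω j D0 = (Matrix.of fun i l => D0 i (x l)).det ^ N * ω j E := by
      intro j
      have h2 := hω j (Matrix.of fun i l => D0 i (x l)) E
      have h3 : (fun i => ∑ l, (Matrix.of fun i l => D0 i (x l)) i l • E l) = D0 := by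
        funext i
        exact (Pool.Agent.W308.PG.YLOC.expandK x E hx hE (D0 i)).symm
      rw [h3] at h2
      exact h2
    have hωE0 : ω 0 E ≠ 0 := fun h0 => hD0 (by rw [hωE, h0, mul_zero])
    have hdet0 : (Matrix.of fun i l => D0 i (x l)).det ^ N ≠ 0 := fun h0 =>
      hD0 (by rw [hωE, h0, zero_mul])
    have hg0 : g 0 ≠ 0 := by
      rw [hg]
      exact mul_ne_zero (pow_ne_zero _ hJ0) ((map_ne_zero _).2 hωE0)
    have hrat : ∀ i : Fin (e + 1 + r'), g i.succ / g 0 =
        algebraMap K L (ω i.succ D0 / ω 0 D0) := by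
      intro i
      rw [hg, hg, hωE, hωE, mul_div_mul_left _ _ (pow_ne_zero _ hJ0), mul_div_mul_left _ _ hdet0,
        map_div₀]
    have hbasK : IsTranscendenceBasis k fun i : Fin (e + 1 + r') => ω i.succ D0 / ω 0 D0 := by
      apply hind.isTranscendenceBasis_of_lift_trdeg_le_of_finite
      rw [htrK]
      simp
    have halgg : ∀ z : L, IsAlgebraic (IntermediateField.adjoin C
        (Set.range fun i : Fin (e + 1 + r') => g i.succ / g 0)) z := by
      intro z
      refine alg_trans (S := Set.range (algebraMap K L)) ?_ (halgK z)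
      rintro _ ⟨f, rfl⟩
      have h1 : IsAlgebraic (IntermediateField.adjoin k
        (Set.range fun i : Fin (e + 1 + r') => ω i.succ D0 / ω 0 D0)) (algebraMap K L f) :=
        ((hbasK.isAlgebraic_field).isAlgebraic f).algebraMap
      refine alg_of_range ?_ h1
      rintro ⟨a, ha⟩
      have h4 := IntermediateField.adjoin_map k
        (Set.range fun i : Fin (e + 1 + r') => ω i.succ D0 / ω 0 D0)
          (IsScalarTower.toAlgHom k K L)
      have h5 : algebraMap K L a ∈ (IntermediateField.adjoin k
        (Set.range fun i : Fin (e + 1 + r') => ω i.succ D0 / ω 0 D0)).map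
          (IsScalarTower.toAlgHom k K L) := ⟨_, ha, rfl⟩
      rw [h4] at h5
      have h6 : IntermediateField.adjoin k ((IsScalarTower.toAlgHom k K L) ''
          (Set.range fun i : Fin (e + 1 + r') => ω i.succ D0 / ω 0 D0)) ≤
          (IntermediateField.adjoin C
            (Set.range fun i : Fin (e + 1 + r') => g i.succ / g 0)).restrictScalars k := by
        rw [IntermediateField.adjoin_le_iff]
        rintro _ ⟨_, ⟨i, rfl⟩, rfl⟩
        change algebraMap K L (ω i.succ D0 / ω 0 D0) ∈ IntermediateField.adjoin C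
            (Set.range fun i : Fin (e + 1 + r') => g i.succ / g 0)
        rw [← hrat]
        exact IntermediateField.subset_adjoin C _ ⟨i, rfl⟩
      exact ⟨⟨_, h6 h5⟩, rfl⟩
    obtain ⟨N1, a, hN1, ha0, ha, haz⟩ := exists_mul_all hgW hg0 (fun i => yL i / yL i0)
      (fun l => halgg _) hN
    -- the space
    obtain ⟨F, hF0⟩ := Pool.Agent.W602.GT.exists_dual ht
    have hF : Frm t F := ⟨ht, fun i j => by
      have h1 := congrFun (congrFun hF0 i) j
      rw [Matrix.of_apply, Matrix.one_apply] at h1
      exact h1⟩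
    have hfinW := fin_WN hT hI hZ hfd ht hN1
    have hV : ∀ P ∈ VP yL (e + 1), ∃ (y : Fin (e + 1) → L) (E : Fin (e + 1) → Derivation C L L),
        FrmAt P y E := by
      intro P hP
      obtain ⟨s, u, E, -, -, -, hfr⟩ := exists_frmAt he hess (VP_div hP)
      exact ⟨_, E, hfr⟩
    have hsub : ∀ g, g ∈ WN (C := C) {P : Place C L | IsDivisorial P (e + 1)} t N1 →
        g ∈ WN (C := C) (VP yL (e + 1)) t N1 := fun g hg P hP G hG => hg P (VP_div hP) G hG
    refine linSys_of_fin (WN (C := C) (VP yL (e + 1)) t N1) hfinW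
      (δ := - (N1 * dvg D t F)) (fun g hg => ?_) hyL0 ha0 fun i => hsub _ (haz i)
    have h1 := WN_lie hDC hV (fun P hP => h.pres hm hDC hess he hD' hgen hP) hF hg
    have h2 : D g - -(N1 * dvg D t F) * g = D g + N1 * dvg D t F * g := by ring
    rw [h2]
    exact h1

end

end Pool.Agent.H917
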