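import Pool.Agent.H917.A9
import Pool.Graph.R_pool_sql_team_seeded_1e53cb71.Helper4K9.BW.Thr

/-!
Symmetric differentials on projective varieties, in coordinates.
-/

set_option autoImplicit false
set_option linter.overlappingInstances false
set_option linter.unusedSectionVars false

open MvPolynomial

namespace Pool.Agent.H917

/-- `x'` is a tangent vector at the point `x` of the variety with the homogeneous ideal `p`, in
homogeneous coordinates. -/
structure TanVec {n : ℕ} (p : Ideal (MvPolynomial (Fin (n + 1)) ℂ)) {R : Type} [Field R] [Algebra ℂ R]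
    (x x' : Fin (n + 1) → R) : Prop where
  ne : x ≠ 0
  mem : ∀ H ∈ p, aeval x H = 0
  tan : ∀ H ∈ p, ∑ i, aeval x (pderiv i H) * x' i = 0

/-- The coordinates of a tangent vector in the chart where the `j`-th coordinate is one. -/
def loc {n : ℕ} {R : Type} [Field R] (j : Fin (n + 1)) (x x' : Fin (n + 1) → R) :
    Fin (n + 1) ⊕ Fin (n + 1) → R :=
  Sum.elim (fun i => x i / x j) fun i => (x' i * x j - x i * x' j) / x j ^ 2

/-- A symmetric differential of degree `m` on the variety with the homogeneous ideal `p`: a function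
on the tangent vectors which, in each standard chart, is given by a polynomial which is homogeneous
of degree `m` in the coordinates of the tangent vector. -/
structure SymDiff {n : ℕ} (p : Ideal (MvPolynomial (Fin (n + 1)) ℂ)) (m : ℕ) where
  pol : Fin (n + 1) → MvPolynomial (Fin (n + 1) ⊕ Fin (n + 1)) ℂ
  hom : ∀ j, (pol j).IsWeightedHomogeneous (Sum.elim (fun _ => 0) fun _ => 1) m
  compat : ∀ i j, ∀ x x' : Fin (n + 1) → ℂ, TanVec p x x' → x i ≠ 0 → x j ≠ 0 →
    eval (loc i x x') (pol i) = eval (loc j x x') (pol j)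

/-- The symmetric differentials of degree `m` generate the `m`-th symmetric power of the cotangent
sheaf: in each standard chart, the products of `m` differentials of coordinates are combinations of
finitely many symmetric differentials with polynomial coefficients. -/
def Generated {n : ℕ} (p : Ideal (MvPolynomial (Fin (n + 1)) ℂ)) (m : ℕ) : Prop :=
  ∃ (N : ℕ) (s : Fin N → SymDiff p m), ∀ (j : Fin (n + 1)) (I : Fin m → Fin (n + 1)),
    ∃ b : Fin N → MvPolynomial (Fin (n + 1)) ℂ, ∀ x x' : Fin (n + 1) → ℂ, TanVec p x x' → x j ≠ 0 →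
      ∏ k, loc j x x' (Sum.inr (I k)) =
        ∑ l, eval (fun i => x i / x j) (b l) * eval (loc j x x') ((s l).pol j)

section scale

variable {σ : Type} {R : Type} [Field R] [Algebra ℂ R]

theorem aeval_scale_inr {q : MvPolynomial (σ ⊕ σ) ℂ} {m : ℕ}
    (h : q.IsWeightedHomogeneous (Sum.elim (fun _ => 0) fun _ => 1) m) (u v : σ → R) (c : R) :
    aeval (Sum.elim u fun i => c * v i) q = c ^ m * aeval (Sum.elim u v) q := by
  classical
  rw [aeval_def, aeval_def, eval₂_eq, eval₂_eq, Finset.mul_sum]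
  refine Finset.sum_congr rfl fun α hα => ?_
  have h1 : ∏ i ∈ α.support, (Sum.elim u fun i => c * v i) i ^ α i =
      (∏ i ∈ α.support, (Sum.elim (fun _ => 1) fun _ => c) i ^ α i) *
        ∏ i ∈ α.support, (Sum.elim u v) i ^ α i := by
    rw [← Finset.prod_mul_distrib]
    refine Finset.prod_congr rfl fun i _ => ?_
    rw [← mul_pow]
    rcases i with i | i <;> simp
  have h2 : ∏ i ∈ α.support, (Sum.elim (fun _ : σ => (1 : R)) fun _ : σ => c) i ^ α i = c ^ m := by
    have h3 := h (mem_support_iff.1 hα)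
    rw [Finsupp.weight_apply, Finsupp.sum] at h3
    rw [← h3, ← Finset.prod_pow_eq_pow_sum]
    refine Finset.prod_congr rfl fun i _ => ?_
    rcases i with i | i <;> simp
  rw [h1, h2]
  ring

end scale

theorem ae {σ : Type} (u : σ → ℂ) (P : MvPolynomial σ ℂ) : aeval u P = eval u P :=
  RingHom.congr_fun (coe_aeval_eq_eval u) P

variable {n : ℕ} {p : Ideal (MvPolynomial (Fin (n + 1)) ℂ)}

section tan

variable {R : Type} [Field R] [Algebra ℂ R] {x x' : Fin (n + 1) → R}

/-- Euler's formula for values -/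
theorem euler_aeval {H : MvPolynomial (Fin (n + 1)) ℂ} {d : ℕ} (hH : H.IsHomogeneous d)
    (x : Fin (n + 1) → R) : ∑ i, aeval x (pderiv i H) * x i = d * aeval x H := by
  have h1 := congrArg (aeval x) hH.sum_X_mul_pderiv
  rw [map_sum, map_nsmul, nsmul_eq_mul] at h1
  rw [← h1]
  refine Finset.sum_congr rfl fun i _ => ?_
  rw [map_mul, aeval_X]
  ring

theorem aeval_pderiv_scale {H : MvPolynomial (Fin (n + 1)) ℂ} {d : ℕ} (hH : H.IsHomogeneous d)
    (x : Fin (n + 1) → R) (c : R) (hc : c ≠ 0) (i : Fin (n + 1)) :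
    aeval (fun k => x k / c) (pderiv i H) = c * (c ^ d)⁻¹ * aeval x (pderiv i H) := by
  have h1 := Pool.Agent.W603.PV.aeval_scale (hH.pderiv (i := i)) x c⁻¹
  have h2 : (fun k => x k / c) = fun k => c⁻¹ * x k := by
    funext k
    rw [div_eq_inv_mul]
  rw [h2, h1]
  rcases Nat.eq_zero_or_pos d with rfl | hd
  · have h3 : pderiv i H = 0 := by
      have h4 := totalDegree_eq_zero_iff_eq_C.1 (Nat.le_zero.1 hH.totalDegree_le)
      rw [h4]
      exact pderiv_C
    rw [h3]
    simp
  · obtain ⟨e, rfl⟩ : ∃ e, d = e + 1 := ⟨d - 1, by omega⟩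
    rw [Nat.add_sub_cancel, pow_succ, inv_pow]
    field_simp

/-- passing to a chart -/
theorem TanVec.loc (hp : Pool.Agent.W603.PV.IsHomog p) (h : TanVec p x x') {j : Fin (n + 1)}
    (hj : x j ≠ 0) : TanVec p (fun i => x i / x j) fun i => (x' i * x j - x i * x' j) / x j ^ 2 := by
  have hc : ∀ H ∈ p, ∀ d, aeval (fun i => x i / x j) (homogeneousComponent d H) = 0 ∧
      ∑ i, aeval (fun i => x i / x j) (pderiv i (homogeneousComponent d H)) *
        ((x' i * x j - x i * x' j) / x j ^ 2) = 0 := by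
    intro H hH d
    have hd := homogeneousComponent_isHomogeneous d H
    have h1 := h.mem _ (hp H hH d)
    have h2 := h.tan _ (hp H hH d)
    constructor
    · have h3 := Pool.Agent.W603.PV.aeval_scale hd x (x j)⁻¹
      have h4 : (fun k => x k / x j) = fun k => (x j)⁻¹ * x k := by
        funext k
        rw [div_eq_inv_mul]
      rw [h4, h3, h1, mul_zero]
    · have h3 := euler_aeval hd x
      rw [h1, mul_zero] at h3
      have h4 : ∀ i, aeval (fun i => x i / x j) (pderiv i (homogeneousComponent d H)) *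
          ((x' i * x j - x i * x' j) / x j ^ 2) =
          (x j ^ d)⁻¹ * (aeval x (pderiv i (homogeneousComponent d H)) * x' i) -
            (x j ^ d)⁻¹ * (x j)⁻¹ * x' j * (aeval x (pderiv i (homogeneousComponent d H)) * x i) := by
        intro i
        rw [aeval_pderiv_scale hd x (x j) hj i]
        field_simp
      rw [Finset.sum_congr rfl fun i _ => h4 i, Finset.sum_sub_distrib, ← Finset.mul_sum,
        ← Finset.mul_sum, h2, h3]
      ring
  refine ⟨fun h0 => ?_, fun H hH => ?_, fun H hH => ?_⟩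
  · have h1 := congrFun h0 j
    simp only [div_self hj, Pi.zero_apply] at h1
    exact one_ne_zero h1
  · rw [← sum_homogeneousComponent H, map_sum]
    exact Finset.sum_eq_zero fun d _ => (hc H hH d).1
  · have h1 : ∀ i, aeval (fun i => x i / x j) (pderiv i H) =
        ∑ d ∈ Finset.range (H.totalDegree + 1),
          aeval (fun i => x i / x j) (pderiv i (homogeneousComponent d H)) := by
      intro i
      conv_lhs => rw [← sum_homogeneousComponent H]
      rw [map_sum, map_sum]
    simp only [h1, Finset.sum_mul]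
    rw [Finset.sum_comm]
    exact Finset.sum_eq_zero fun d _ => (hc H hH d).2

end tan

/-- the equations of the tangent vectors in the chart `j` -/
def chartEqs (p : Ideal (MvPolynomial (Fin (n + 1)) ℂ)) (j : Fin (n + 1)) :
    Set (MvPolynomial (Fin (n + 1) ⊕ Fin (n + 1)) ℂ) :=
  {F | F = X (Sum.inl j) - 1 ∨ F = X (Sum.inr j) ∨ ∃ H ∈ p, F = rename Sum.inl H ∨
    F = ∑ i, rename Sum.inl (pderiv i H) * X (Sum.inr i)}

theorem chart_point {R : Type} [Field R] [Algebra ℂ R] {j : Fin (n + 1)} {u v : Fin (n + 1) → R} :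
    (∀ F ∈ chartEqs p j, aeval (Sum.elim u v) F = 0) ↔ u j = 1 ∧ v j = 0 ∧
      (∀ H ∈ p, aeval u H = 0) ∧ ∀ H ∈ p, ∑ i, aeval u (pderiv i H) * v i = 0 := by
  have h0 : ∀ H : MvPolynomial (Fin (n + 1)) ℂ, aeval (Sum.elim u v) (rename Sum.inl H) =
      aeval u H := by
    intro H
    rw [aeval_rename]
    rfl
  constructor
  · intro h
    refine ⟨?_, ?_, fun H hH => ?_, fun H hH => ?_⟩
    · have h1 := h _ (Or.inl rfl)
      rw [map_sub, map_one, aeval_X, Sum.elim_inl, sub_eq_zero] at h1
      exact h1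
    · have h1 := h _ (Or.inr (Or.inl rfl))
      rwa [aeval_X, Sum.elim_inr] at h1
    · have h1 := h _ (Or.inr (Or.inr ⟨H, hH, Or.inl rfl⟩))
      rwa [h0] at h1
    · have h1 := h _ (Or.inr (Or.inr ⟨H, hH, Or.inr rfl⟩))
      rw [map_sum] at h1
      simpa only [map_mul, h0, aeval_X, Sum.elim_inr] using h1
  · rintro ⟨h1, h2, h3, h4⟩ F hF
    rcases hF with rfl | rfl | ⟨H, hH, rfl | rfl⟩
    · rw [map_sub, map_one, aeval_X, Sum.elim_inl, h1, sub_self]
    · rw [aeval_X, Sum.elim_inr, h2]
    · rw [h0, h3 H hH]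
    · rw [map_sum]
      simpa only [map_mul, h0, aeval_X, Sum.elim_inr] using h4 H hH

/-- **Transfer** of the vanishing on complex tangent vectors to tangent vectors over fields. -/
theorem transfer {j : Fin (n + 1)} {F : MvPolynomial (Fin (n + 1) ⊕ Fin (n + 1)) ℂ}
    (hF : ∀ u v : Fin (n + 1) → ℂ, TanVec p u v → u j = 1 → v j = 0 → eval (Sum.elim u v) F = 0)
    {R : Type} [Field R] [Algebra ℂ R] {u v : Fin (n + 1) → R} (h : TanVec p u v) (hu : u j = 1)
    (hv : v j = 0) : aeval (Sum.elim u v) F = 0 := by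
  have h1 : F ∈ (Ideal.span (chartEqs p j)).radical := by
    rw [← vanishingIdeal_zeroLocus_eq_radical (K := ℂ), mem_vanishingIdeal_iff]
    intro z hz
    rw [mem_zeroLocus_iff] at hz
    have h2 : z = Sum.elim (fun i => z (Sum.inl i)) fun i => z (Sum.inr i) := by
      funext i
      rcases i with i | i <;> rfl
    obtain ⟨e1, e2, e3, e4⟩ := (chart_point (p := p) (j := j) (u := fun i => z (Sum.inl i))
      (v := fun i => z (Sum.inr i))).1 fun F hF => by
        rw [← h2]
        exact hz F (Ideal.subset_span hF)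
    have h3 := hF _ _ ⟨fun h0 => by
      have := congrFun h0 j
      rw [e1] at this
      exact one_ne_zero this, e3, e4⟩ e1 e2
    rw [h2, ← coe_aeval_eq_eval] at *
    exact h3
  obtain ⟨k, hk⟩ := h1
  have h2 : Ideal.span (chartEqs p j) ≤ RingHom.ker (aeval (Sum.elim u v) :
      MvPolynomial (Fin (n + 1) ⊕ Fin (n + 1)) ℂ →ₐ[ℂ] R) := by
    rw [Ideal.span_le]
    intro F hF
    exact (chart_point (p := p) (j := j)).2 ⟨hu, hv, h.mem, h.tan⟩ F hF
  have h3 := h2 hk
  rw [RingHom.mem_ker, map_pow] at h3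
  exact (pow_eq_zero_iff (fun h0 => by
    rw [h0, pow_zero] at h3
    exact one_ne_zero h3)).1 h3

/-- clearing denominators -/
theorem clear_den (i : Fin (n + 1)) (q : MvPolynomial (Fin (n + 1) ⊕ Fin (n + 1)) ℂ) :
    ∃ (K : ℕ) (P : MvPolynomial (Fin (n + 1) ⊕ Fin (n + 1)) ℂ), ∀ (R : Type) [Field R]
      [Algebra ℂ R] (u v : Fin (n + 1) → R), u i ≠ 0 →
      aeval (Sum.elim u v) P = u i ^ K * aeval (loc i u v) q := by
  induction q using MvPolynomial.induction_on with
  | C a =>
    refine ⟨0, C a, fun R _ _ u v hu => ?_⟩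
    rw [aeval_C, aeval_C, pow_zero, one_mul]
  | add q1 q2 h1 h2 =>
    obtain ⟨K1, P1, h1⟩ := h1
    obtain ⟨K2, P2, h2⟩ := h2
    refine ⟨K1 + K2, X (Sum.inl i) ^ K2 * P1 + X (Sum.inl i) ^ K1 * P2, fun R _ _ u v hu => ?_⟩
    rw [map_add, map_mul, map_mul, map_pow, map_pow, aeval_X, Sum.elim_inl, h1 R u v hu,
      h2 R u v hu, map_add]
    ring
  | mul_X q a h =>
    obtain ⟨K, P, h⟩ := h
    rcases a with a | a
    · refine ⟨K + 1, P * X (Sum.inl a), fun R _ _ u v hu => ?_⟩
      rw [map_mul, aeval_X, Sum.elim_inl, h R u v hu, map_mul, aeval_X]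
      change _ = u i ^ (K + 1) * (_ * (u a / u i))
      field_simp
      ring
    · refine ⟨K + 2, P * (X (Sum.inr a) * X (Sum.inl i) - X (Sum.inl a) * X (Sum.inr i)),
        fun R _ _ u v hu => ?_⟩
      rw [map_mul, map_sub, map_mul, map_mul, aeval_X, aeval_X, aeval_X, aeval_X, Sum.elim_inl,
        Sum.elim_inr, Sum.elim_inl, Sum.elim_inr, h R u v hu, map_mul, aeval_X]
      change _ = u i ^ (K + 2) * (_ * ((v a * u i - u a * v i) / u i ^ 2))
      field_simp
      ring

theorem loc_loc {R : Type} [Field R] {i j : Fin (n + 1)} {x x' : Fin (n + 1) → R} (hi : x i ≠ 0)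
    (hj : x j ≠ 0) : loc i (fun k => x k / x j) (fun k => (x' k * x j - x k * x' j) / x j ^ 2) =
      loc i x x' := by
  funext k
  rcases k with k | k
  · change x k / x j / (x i / x j) = x k / x i
    field_simp
  · change ((x' k * x j - x k * x' j) / x j ^ 2 * (x i / x j) -
      x k / x j * ((x' i * x j - x i * x' j) / x j ^ 2)) / (x i / x j) ^ 2 =
      (x' k * x i - x k * x' i) / x i ^ 2
    field_simp
    ring

theorem loc_self {R : Type} [Field R] {j : Fin (n + 1)} {u v : Fin (n + 1) → R} (hu : u j = 1)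
    (hv : v j = 0) : loc j u v = Sum.elim u v := by
  funext k
  rcases k with k | k
  · change u k / u j = u k
    rw [hu, div_one]
  · change (v k * u j - u k * v j) / u j ^ 2 = v k
    rw [hu, hv]
    ring

/-- the compatibility over fields -/
theorem SymDiff.compatR (hp : Pool.Agent.W603.PV.IsHomog p) {m : ℕ} (s : SymDiff p m) {R : Type}
    [Field R] [Algebra ℂ R] {x x' : Fin (n + 1) → R} (h : TanVec p x x') {i j : Fin (n + 1)}
    (hi : x i ≠ 0) (hj : x j ≠ 0) : aeval (loc i x x') (s.pol i) = aeval (loc j x x') (s.pol j) := by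
  obtain ⟨K, P, hP⟩ := clear_den i (s.pol i)
  have h1 := transfer (p := p) (j := j) (F := X (Sum.inl i) *
    (P - X (Sum.inl i) ^ K * s.pol j)) (fun u v huv hu hv => by
      rw [map_mul, eval_X, Sum.elim_inl]
      by_cases h0 : u i = 0
      · rw [h0, zero_mul]
      · have h2 := hP ℂ u v h0
        have h3 := s.compat i j u v huv h0 (by rw [hu]; exact one_ne_zero)
        rw [loc_self hu hv] at h3
        rw [ae, ae] at h2
        rw [map_sub, map_mul, map_pow, eval_X, Sum.elim_inl]
        rw [h2, h3, sub_self, mul_zero]) (h.loc hp hj) (div_self hj) (by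
        rw [mul_comm (x' j), sub_self, zero_div])
  rw [map_mul, aeval_X, Sum.elim_inl, map_sub, map_mul, map_pow, aeval_X, Sum.elim_inl] at h1
  have h2 := hP R (fun k => x k / x j) (fun k => (x' k * x j - x k * x' j) / x j ^ 2)
    (div_ne_zero hi hj)
  rw [loc_loc hi hj] at h2
  rw [h2, ← mul_sub] at h1
  have h3 : x i / x j ≠ 0 := div_ne_zero hi hj
  have h4 := (mul_eq_zero.1 ((mul_eq_zero.1 h1).resolve_left h3)).resolve_left (pow_ne_zero _ h3)
  rw [sub_eq_zero] at h4
  exact h4

/-- the value of a symmetric differential on a tangent vector -/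
noncomputable def SymDiff.val {m : ℕ} (s : SymDiff p m) {R : Type} [Field R] [Algebra ℂ R]
    (x x' : Fin (n + 1) → R) : R := by
  classical
  exact if h : ∃ j, x j ≠ 0 then aeval (loc h.choose x x') (s.pol h.choose) else 0

theorem SymDiff.val_eq (hp : Pool.Agent.W603.PV.IsHomog p) {m : ℕ} (s : SymDiff p m) {R : Type}
    [Field R] [Algebra ℂ R] {x x' : Fin (n + 1) → R} (h : TanVec p x x') {j : Fin (n + 1)}
    (hj : x j ≠ 0) : s.val x x' = aeval (loc j x x') (s.pol j) := by
  unfold SymDiff.val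
  have h0 : ∃ j, x j ≠ 0 := ⟨j, hj⟩
  rw [dif_pos h0]
  exact s.compatR hp h h0.choose_spec hj

/-- generating symmetric differentials -/
structure Gens (p : Ideal (MvPolynomial (Fin (n + 1)) ℂ)) (m : ℕ) {N : ℕ}
    (s : Fin N → SymDiff p m) : Prop where
  gen : ∀ (j : Fin (n + 1)) (I : Fin m → Fin (n + 1)),
    ∃ b : Fin N → MvPolynomial (Fin (n + 1)) ℂ, ∀ x x' : Fin (n + 1) → ℂ, TanVec p x x' → x j ≠ 0 →
      ∏ k, H917.loc j x x' (Sum.inr (I k)) =
        ∑ l, eval (fun i => x i / x j) (b l) * eval (H917.loc j x x') ((s l).pol j)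

/-- the relations over fields -/
theorem Gens.genR (hp : Pool.Agent.W603.PV.IsHomog p) {m N : ℕ} {s : Fin N → SymDiff p m}
    (hs : Gens p m s) (j : Fin (n + 1)) (I : Fin m → Fin (n + 1)) :
    ∃ b : Fin N → MvPolynomial (Fin (n + 1)) ℂ, ∀ (R : Type) [Field R] [Algebra ℂ R]
      (x x' : Fin (n + 1) → R), TanVec p x x' → x j ≠ 0 →
      ∏ k, H917.loc j x x' (Sum.inr (I k)) =
        ∑ l, aeval (fun i => x i / x j) (b l) * aeval (H917.loc j x x') ((s l).pol j) := by
  obtain ⟨b, hb⟩ := hs.gen j I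
  refine ⟨b, fun R _ _ x x' h hj => ?_⟩
  have h1 := transfer (p := p) (j := j) (F := ∏ k, X (Sum.inr (I k)) -
    ∑ l, rename Sum.inl (b l) * (s l).pol j) (fun u v huv hu hv => by
      have h2 := hb u v huv (by rw [hu]; exact one_ne_zero)
      rw [loc_self hu hv] at h2
      rw [map_sub, map_prod, map_sum, sub_eq_zero]
      simp only [eval_X, map_mul, eval_rename]
      refine h2.trans (Finset.sum_congr rfl fun l _ => ?_)
      congr 2
      have h3 : (fun i => u i / u j) = u := by
        funext i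
        rw [hu, div_one]
      rw [h3]
      rfl) (h.loc hp hj) (div_self hj) (by rw [mul_comm (x' j), sub_self, zero_div])
  rw [map_sub, map_prod, map_sum, sub_eq_zero] at h1
  simp only [aeval_X, map_mul, aeval_rename] at h1
  exact h1

end Pool.Agent.H917
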