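import Pool.Agent.H917.B1

/-!
Symmetric differentials and derivations; symmetric differentials along holomorphic curves.
-/

set_option autoImplicit false
set_option linter.overlappingInstances false
set_option linter.unusedSectionVars false

open MvPolynomial Metric Set Filter Topology Pool.Agent.W603.BP Pool.Agent.Helper4K9.IP
  Pool.Agent.Helper4K9.AP Pool.Agent.Helper4K9.MP Pool.Agent.TH143.GT

namespace Pool.Agent.H917

theorem der_aeval' {k L σ : Type} [Field k] [Field L] [Algebra k L] [Fintype σ]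
    (D : Derivation k L L) (y : σ → L) (H : MvPolynomial σ k) :
    D (aeval y H) = ∑ i, aeval y (pderiv i H) * D (y i) := by
  classical
  induction H using MvPolynomial.induction_on with
  | C a =>
    rw [aeval_C, D.map_algebraMap]
    simp
  | add p q hp hq =>
    rw [map_add, map_add, hp, hq, ← Finset.sum_add_distrib]
    refine Finset.sum_congr rfl fun i _ => ?_
    rw [map_add, map_add, add_mul]
  | mul_X p j hp =>
    rw [map_mul, aeval_X, D.leibniz, hp]
    simp only [smul_eq_mul, Derivation.leibniz, map_add, map_mul, aeval_X, pderiv_X]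
    rw [Finset.sum_congr rfl fun i _ => add_mul _ _ _, Finset.sum_add_distrib]
    congr 1
    · rw [Finset.sum_eq_single j]
      · simp
      · intro b _ hb
        simp [hb.symm]
      · simp
    · rw [Finset.mul_sum]
      refine Finset.sum_congr rfl fun i _ => ?_
      ring

variable {n : ℕ} {p : Ideal (MvPolynomial (Fin (n + 1)) ℂ)}

/-- the tangent vector given by a derivation -/
theorem tanVec_der {L : Type} [Field L] [Algebra ℂ L] (D : Derivation ℂ L L) {y : Fin (n + 1) → L}
    (hy : y ≠ 0) (hm : ∀ H ∈ p, aeval y H = 0) : TanVec p y fun i => D (y i) :=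
  ⟨hy, hm, fun H hH => by rw [← der_aeval', hm H hH, map_zero]⟩

theorem loc_der {L : Type} [Field L] [Algebra ℂ L] (D : Derivation ℂ L L) (y : Fin (n + 1) → L)
    {j : Fin (n + 1)} (hj : y j ≠ 0) : loc j y (fun i => D (y i)) = ch2 D y j := by
  funext k
  rcases k with k | k
  · rfl
  · change (D (y k) * y j - y k * D (y j)) / y j ^ 2 = D (y k / y j)
    rw [div_eq_mul_inv (y k), D.leibniz, D.leibniz_inv]
    simp only [smul_eq_mul]
    field_simp
    ring

/-- generating symmetric differentials with constant values -/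
theorem sd_of_gens (hp : Pool.Agent.W603.PV.IsHomog p) {m N : ℕ} {s : Fin N → SymDiff p m}
    (hs : Gens p m s) {C L : Type} [Field C] [Field L] [Algebra C L] [Algebra ℂ C] [Algebra ℂ L]
    [IsScalarTower ℂ C L] (D : Derivation ℂ L L) {y : Fin (n + 1) → L}
    (hy : y ≠ 0) (hm : ∀ H ∈ p, aeval y H = 0)
    (hc : ∀ l, ∃ c : C, (s l).val y (fun i => D (y i)) = algebraMap C L c) : SD C D y m := by
  have ht := tanVec_der (p := p) D hy hm
  refine ⟨fun j hj => ⟨N, fun l => (s l).pol j, fun l u v c => aeval_scale_inr ((s l).hom j) u v c,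
    fun l => ?_, fun I => ?_⟩⟩
  · obtain ⟨c, hc⟩ := hc l
    refine ⟨c, ?_⟩
    rw [← hc, (s l).val_eq hp ht hj, loc_der D y hj]
  · obtain ⟨b, hb⟩ := hs.genR hp j I
    refine ⟨b, ?_⟩
    have h1 := hb L y _ ht hj
    rw [loc_der D y hj] at h1
    exact h1

section curve

variable {f : ℂ → Fin (n + 1) → ℂ} {Ω : Set ℂ}

/-- the derivative of the vector of the homogeneous coordinates -/
noncomputable def dv (f : ℂ → Fin (n + 1) → ℂ) (z : ℂ) : Fin (n + 1) → ℂ := fun i =>
  deriv (fun w => f w i) z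

theorem hasDeriv_eval {σ : Type} [Fintype σ] {g : ℂ → σ → ℂ} {z : ℂ}
    (hg : ∀ j, DifferentiableAt ℂ (fun w => g w j) z) (H : MvPolynomial σ ℂ) :
    HasDerivAt (fun w => eval (g w) H)
      (∑ i, eval (g z) (pderiv i H) * deriv (fun w => g w i) z) z := by
  classical
  induction H using MvPolynomial.induction_on with
  | C a =>
    simp only [eval_C, pderiv_C, map_zero, zero_mul, Finset.sum_const_zero]
    exact hasDerivAt_const z a
  | add p q hp hq =>
    simp only [map_add, add_mul, Finset.sum_add_distrib]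
    exact hp.add hq
  | mul_X p j hp =>
    simp only [map_mul, eval_X]
    refine (hp.mul (hg j).hasDerivAt).congr_deriv ?_
    simp only [smul_eq_mul, Derivation.leibniz, map_add, map_mul, eval_X, pderiv_X]
    rw [Finset.sum_congr rfl fun i _ => add_mul _ _ _, Finset.sum_add_distrib, add_comm]
    congr 1
    · rw [Finset.sum_eq_single j]
      · simp
      · intro b _ hb
        simp [hb.symm]
      · simp
    · rw [Finset.sum_mul]
      refine Finset.sum_congr rfl fun i _ => ?_
      ring

/-- the tangent vectors of a curve -/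
theorem tanVec_curve (hΩ : IsOpen Ω) (han : ∀ j, AnalyticOnNhd ℂ (fun w => f w j) Ω)
    (hne : ∀ z ∈ Ω, f z ≠ 0) (hm : ∀ z ∈ Ω, ∀ H ∈ p, eval (f z) H = 0) {z : ℂ} (hz : z ∈ Ω) :
    TanVec p (f z) (dv f z) := by
  refine ⟨hne z hz, fun H hH => by rw [ae]; exact hm z hz H hH, fun H hH => ?_⟩
  have h1 := (hasDeriv_eval (fun j => (han j z hz).differentiableAt) H).deriv
  have h2 : (fun w => eval (f w) H) =ᶠ[𝓝 z] fun _ => 0 := by
    filter_upwards [hΩ.mem_nhds hz] with w hw
    exact hm w hw H hH
  rw [h2.deriv_eq, deriv_const] at h1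
  simp only [ae]
  exact h1.symm

/-- the value of a symmetric differential along a curve -/
noncomputable def SymDiff.along {m : ℕ} (s : SymDiff p m) (f : ℂ → Fin (n + 1) → ℂ) (z : ℂ) : ℂ :=
  s.val (f z) (dv f z)

/-- the local coordinates of a curve -/
theorem loc_curve {z : ℂ} (hd : ∀ j, DifferentiableAt ℂ (fun w => f w j) z) {j : Fin (n + 1)}
    (hj : f z j ≠ 0) : loc j (f z) (dv f z) =
      Sum.elim (fun i => f z i / f z j) fun i => deriv (fun w => f w i / f w j) z := by
  funext k
  rcases k with k | k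
  · rfl
  · change (dv f z k * f z j - f z k * dv f z j) / f z j ^ 2 = deriv (fun w => f w k / f w j) z
    rw [deriv_fun_div (hd k) (hd j) hj]
    rfl

theorem along_eq (hp : Pool.Agent.W603.PV.IsHomog p) {m : ℕ} (s : SymDiff p m) (hΩ : IsOpen Ω)
    (han : ∀ j, AnalyticOnNhd ℂ (fun w => f w j) Ω)
    (hne : ∀ z ∈ Ω, f z ≠ 0) (hm : ∀ z ∈ Ω, ∀ H ∈ p, eval (f z) H = 0) {z : ℂ} (hz : z ∈ Ω)
    {j : Fin (n + 1)} (hj : f z j ≠ 0) : s.along f z = eval
      (Sum.elim (fun i => f z i / f z j) fun i => deriv (fun w => f w i / f w j) z) (s.pol j) := by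
  unfold SymDiff.along
  rw [s.val_eq hp (tanVec_curve hΩ han hne hm hz) hj, ae,
    loc_curve (fun j => (han j z hz).differentiableAt) hj]

theorem eval_an2 {σ : Type} [Fintype σ] {g : ℂ → σ → ℂ} {z : ℂ}
    (hg : ∀ j, AnalyticAt ℂ (fun w => g w j) z) (G : MvPolynomial σ ℂ) :
    AnalyticAt ℂ (fun w => eval (g w) G) z := by
  have : (fun w => eval (g w) G) = fun w => ∑ α ∈ G.support, G.coeff α * ∏ j, g w j ^ α j := by
    funext w
    rw [eval_eq']
  rw [this]
  apply Finset.analyticAt_fun_sum
  intro α _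
  apply analyticAt_const.fun_mul
  apply Finset.analyticAt_fun_prod
  intro j _
  exact (hg j).fun_pow _

/-- the values along a curve are holomorphic -/
theorem along_an (hp : Pool.Agent.W603.PV.IsHomog p) {m : ℕ} (s : SymDiff p m) (hΩ : IsOpen Ω)
    (han : ∀ j, AnalyticOnNhd ℂ (fun w => f w j) Ω)
    (hne : ∀ z ∈ Ω, f z ≠ 0) (hm : ∀ z ∈ Ω, ∀ H ∈ p, eval (f z) H = 0) :
    AnalyticOnNhd ℂ (s.along f) Ω := by
  intro z hz
  obtain ⟨j, hj⟩ := Function.ne_iff.1 (hne z hz)
  have hj' : f z j ≠ 0 := hj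
  have h1 : AnalyticAt ℂ (fun w => eval (Sum.elim (fun i => f w i / f w j) fun i =>
      deriv (fun w => f w i / f w j) w) (s.pol j)) z := by
    apply eval_an2
    rintro (i | i)
    · exact (han i z hz).fun_div (han j z hz) hj'
    · exact ((han i z hz).fun_div (han j z hz) hj').deriv
  refine h1.congr ?_
  filter_upwards [hΩ.mem_nhds hz, (han j z hz).continuousAt.eventually_ne hj'] with w hw hw2
  exact (along_eq hp s hΩ han hne hm hw hw2).symm

end curve

section small

/-- a bound for polynomials -/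
theorem eval_bound {σ : Type} [Fintype σ] (q : MvPolynomial (σ ⊕ σ) ℂ) : ∃ (C : ℝ) (d : ℕ), 1 ≤ C ∧
    ∀ u v : σ → ℂ, (∀ i, ‖u i‖ ≤ 1) → ‖eval (Sum.elim u v) q‖ ≤ C * ∏ i, (1 + ‖v i‖) ^ d := by
  classical
  refine ⟨1 + ∑ α ∈ q.support, ‖q.coeff α‖, q.totalDegree, by
    have : 0 ≤ ∑ α ∈ q.support, ‖q.coeff α‖ := Finset.sum_nonneg fun _ _ => norm_nonneg _
    linarith, fun u v hu => ?_⟩
  rw [eval_eq']
  refine (norm_sum_le _ _).trans ?_
  have h0 : 0 ≤ ∏ i, (1 + ‖v i‖) ^ q.totalDegree :=
    Finset.prod_nonneg fun i _ => by positivity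
  rw [add_mul, Finset.sum_mul]
  refine le_add_of_nonneg_of_le (by positivity) (Finset.sum_le_sum fun α hα => ?_)
  rw [norm_mul, norm_prod]
  refine mul_le_mul_of_nonneg_left ?_ (norm_nonneg _)
  rw [Fintype.prod_sum_type]
  have h1 : ∏ i, ‖Sum.elim u v (Sum.inl i) ^ α (Sum.inl i)‖ ≤ 1 := by
    refine Finset.prod_le_one (fun i _ => norm_nonneg _) fun i _ => ?_
    rw [norm_pow]
    exact pow_le_one₀ (norm_nonneg _) (hu i)
  have h2 : ∏ i, ‖Sum.elim u v (Sum.inr i) ^ α (Sum.inr i)‖ ≤
      ∏ i, (1 + ‖v i‖) ^ q.totalDegree := by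
    refine Finset.prod_le_prod (fun i _ => norm_nonneg _) fun i _ => ?_
    rw [norm_pow]
    have h3 : α (Sum.inr i) ≤ q.totalDegree := by
      refine le_trans ?_ (le_totalDegree hα)
      exact Finsupp.le_degree _ _
    calc ‖v i‖ ^ α (Sum.inr i) ≤ (1 + ‖v i‖) ^ α (Sum.inr i) :=
          pow_le_pow_left₀ (norm_nonneg _) (by linarith) _
      _ ≤ (1 + ‖v i‖) ^ q.totalDegree := pow_le_pow_right₀ (by linarith [norm_nonneg (v i)]) h3
  calc _ ≤ 1 * ∏ i, ‖Sum.elim u v (Sum.inr i) ^ α (Sum.inr i)‖ :=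
        mul_le_mul_of_nonneg_right h1 (Finset.prod_nonneg fun i _ => norm_nonneg _)
    _ ≤ _ := by rw [one_mul]; exact h2

variable {f : ℂ → Fin (n + 1) → ℂ}

/-- the sum of the growth functions -/
theorem gr_sum {G : (ℝ → ℝ) → Prop} (hG : Gr G) {ι : Type} (s : Finset ι) (φ : ι → ℝ → ℝ)
    (h : ∀ i ∈ s, G (φ i)) : G fun r => ∑ i ∈ s, φ i r := by
  classical
  induction s using Finset.induction_on with
  | empty => simpa using hG.zero
  | insert a s ha ih =>
    simp only [Finset.sum_insert ha]
    exact hG.add _ _ (h a (Finset.mem_insert_self a s)) (ih fun i hi =>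
      h i (Finset.mem_insert_of_mem hi))

theorem gr_nsmul {G : (ℝ → ℝ) → Prop} (hG : Gr G) (d : ℕ) (φ : ℝ → ℝ) (h : G φ) :
    G fun r => d * φ r := by
  have h1 := gr_sum hG (Finset.range d) (fun _ => φ) fun _ _ => h
  simpa using h1

/-- **The values of symmetric differentials along a curve near a puncture are small.** -/
theorem along_small (hp : Pool.Agent.W603.PV.IsHomog p) {m : ℕ} (s : SymDiff p m)
    (han : ∀ j, AnalyticOnNhd ℂ (fun w => f w j) (PB 1))
    (hne : ∀ z ∈ PB 1, f z ≠ 0) (hm : ∀ z ∈ PB 1, ∀ H ∈ p, eval (f z) H = 0) :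
    s.along f ∈ smallRing one_pos f := by
  classical
  have hA := along_an hp s (PB_open 1) han hne hm
  refine ⟨by rw [pb_eq]; exact hA, ?_⟩
  -- the logarithmic derivatives
  let T : Finset (Fin (n + 1) × Fin (n + 1)) := Finset.univ.filter fun a =>
    (∃ w ∈ PB 1, f w a.1 ≠ 0) ∧ ∃ w ∈ PB 1, f w a.2 ≠ 0
  have hT : ∀ a ∈ T, SS 1 f (logDeriv fun z => f z a.1 / f z a.2) := by
    intro a ha
    obtain ⟨h1, h2⟩ := (Finset.mem_filter.1 ha).2
    have h3 : OO 1 f fun z => f z a.1 / f z a.2 :=
      oo_quot one_pos le_rfl han hne (han a.1) (han a.2) h2 (k := 1) (C := 1) le_rfl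
        (fun w _ => by
          rw [one_mul, pow_one]
          exact norm_le_pi_norm (f w) a.1) (fun w _ => by
          rw [one_mul, pow_one]
          exact norm_le_pi_norm (f w) a.2)
    refine h3.logDeriv one_pos le_rfl fun h4 => ?_
    obtain ⟨w, hw, e1, e2, e3⟩ := cd_exists (PB_open 1) (PB_nonempty one_pos)
      ((an_ne one_pos (han a.1) h1).and ((an_ne one_pos (han a.2) h2).and h4))
    exact div_ne_zero e1 e2 e3
  choose C d hC hb using fun j => eval_bound (s.pol j)
  obtain ⟨C', hC'⟩ : ∃ C' : ℝ, ∀ j, Real.log (C j) ≤ C' :=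
    ⟨∑ j, Real.log (C j), fun j => Finset.single_le_sum (f := fun j => Real.log (C j))
      (fun j _ => Real.log_nonneg (hC j)) (Finset.mem_univ j)⟩
  have hl2 : 0 ≤ Real.log 2 := Real.log_nonneg (by norm_num)
  let e : ℕ := ∑ j, d j
  have hde : ∀ j, d j ≤ e := fun j => Finset.single_le_sum (f := d) (fun j _ => Nat.zero_le _)
    (Finset.mem_univ j)
  let K : ℝ := |C'| + e * (n + 1) * Real.log 2
  have key : ∀ r, (1 : ℝ)⁻¹ < r → mP (s.along f) r ≤
      (e * ∑ a ∈ T, mP (logDeriv fun z => f z a.1 / f z a.2) r) + K := by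
    intro r hr
    have hr0 : 0 < r := lt_trans (by norm_num) hr
    have ci : ∀ a ∈ T, CircleIntegrable (fun z => Real.posLog
        ‖logDeriv (fun z => f z a.1 / f z a.2) z⁻¹‖) 0 r := fun a ha =>
      ci_mPm one_pos ((hT a ha).oo.den.mero one_pos) hr
    have ciS : CircleIntegrable (fun z => ∑ a ∈ T, Real.posLog
        ‖logDeriv (fun z => f z a.1 / f z a.2) z⁻¹‖) 0 r := by
      have := CircleIntegrable.fun_sum T (f := fun a z => Real.posLog
        ‖logDeriv (fun z => f z a.1 / f z a.2) z⁻¹‖) ci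
      exact this
    have ciE : CircleIntegrable (fun z => (e : ℝ) * ∑ a ∈ T, Real.posLog
        ‖logDeriv (fun z => f z a.1 / f z a.2) z⁻¹‖) 0 r := by
      have := ciS.const_fun_smul (a := (e : ℝ))
      simpa [smul_eq_mul] using this
    have h1 : mP (s.along f) r ≤ Real.circleAverage (fun z => ((e : ℝ) * ∑ a ∈ T, Real.posLog
        ‖logDeriv (fun z => f z a.1 / f z a.2) z⁻¹‖) + K) 0 r := by
      unfold mP
      apply Pool.Agent.H159R3.NV.avg_le_cod (ci_mP one_pos hA hr)
        (ciE.add (circleIntegrable_const _ _ _)) hr0.ne'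
      have hnz : ∀ᶠ w in codiscreteWithin (PB 1), ∀ i, (∃ w ∈ PB 1, f w i ≠ 0) → f w i ≠ 0 := by
        rw [eventually_all]
        intro i
        by_cases hi : ∃ w ∈ PB 1, f w i ≠ 0
        · filter_upwards [an_ne one_pos (han i) hi] with w hw _
          exact hw
        · exact Eventually.of_forall fun w h => absurd h hi
      filter_upwards [cd_circle one_pos hnz hr, cd_circle one_pos (cd_self (Ω := PB 1)) hr]
        with z hz hzΩ
      obtain ⟨j, -, hjmax⟩ := Finset.exists_max_image Finset.univ (fun j => ‖f z⁻¹ j‖)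
        ⟨0, Finset.mem_univ _⟩
      have hj0 : f z⁻¹ j ≠ 0 := by
        intro h0
        apply hne _ hzΩ
        funext i
        have h2 := hjmax i (Finset.mem_univ i)
        rw [h0, norm_zero] at h2
        exact norm_le_zero_iff.1 h2
      have hjT : ∃ w ∈ PB 1, f w j ≠ 0 := ⟨_, hzΩ, hj0⟩
      have e1 := along_eq hp s (PB_open 1) han hne hm hzΩ hj0
      have hu : ∀ i, ‖f z⁻¹ i / f z⁻¹ j‖ ≤ 1 := by
        intro i
        rw [norm_div, div_le_one (norm_pos_iff.2 hj0)]
        exact hjmax i (Finset.mem_univ i)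
      have e2 := hb j _ (fun i => deriv (fun w => f w i / f w j) z⁻¹) hu
      rw [← e1] at e2
      have hv : ∀ i, Real.log (1 + ‖deriv (fun w => f w i / f w j) z⁻¹‖) ≤ Real.log 2 +
          if (i, j) ∈ T then Real.posLog ‖logDeriv (fun w => f w i / f w j) z⁻¹‖ else 0 := by
        intro i
        by_cases hi : ∃ w ∈ PB 1, f w i ≠ 0
        · rw [if_pos (Finset.mem_filter.2 ⟨Finset.mem_univ _, hi, hjT⟩)]
          have e3 : ‖deriv (fun w => f w i / f w j) z⁻¹‖ ≤
              ‖logDeriv (fun w => f w i / f w j) z⁻¹‖ := by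
            have h5 : deriv (fun w => f w i / f w j) z⁻¹ =
                logDeriv (fun w => f w i / f w j) z⁻¹ * (f z⁻¹ i / f z⁻¹ j) := by
              rw [logDeriv_apply, div_mul_cancel₀]
              exact div_ne_zero (hz i hi) hj0
            rw [h5, norm_mul]
            exact mul_le_of_le_one_right (norm_nonneg _) (hu i)
          have e4 : Real.log (1 + ‖deriv (fun w => f w i / f w j) z⁻¹‖) ≤
              Real.posLog (1 + ‖logDeriv (fun w => f w i / f w j) z⁻¹‖) := by
            refine (Real.log_le_log (by positivity) (add_le_add le_rfl e3)).trans ?_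
            exact Pool.Agent.H159R3.NV.log_le_posLog _
          refine e4.trans ?_
          have e5 := Real.posLog_add (x := 1)
            (y := ‖logDeriv (fun w => f w i / f w j) z⁻¹‖)
          have e6 : Real.posLog (1 : ℝ) = 0 := by simp
          linarith
        · have h5 : deriv (fun w => f w i / f w j) z⁻¹ = 0 := by
            have h6 : (fun w => f w i / f w j) =ᶠ[𝓝 z⁻¹] fun _ => 0 := by
              filter_upwards [(PB_open 1).mem_nhds hzΩ] with w hw
              push Not at hi
              rw [hi w hw, zero_div]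
            rw [h6.deriv_eq, deriv_const]
          rw [h5, norm_zero, add_zero, Real.log_one]
          refine add_nonneg hl2 ?_
          split_ifs
          · exact Real.posLog_nonneg
          · exact le_rfl
      have hprod : 1 ≤ ∏ i, (1 + ‖deriv (fun w => f w i / f w j) z⁻¹‖) ^ d j := by
        refine Finset.prod_induction _ (fun x : ℝ => 1 ≤ x)
          (fun a b ha hb => one_le_mul_of_one_le_of_one_le ha hb) le_rfl fun i _ => ?_
        exact one_le_pow₀ (by linarith [norm_nonneg (deriv (fun w => f w i / f w j) z⁻¹)])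
      have e7 : Real.posLog ‖s.along f z⁻¹‖ ≤ Real.log (C j) +
          d j * ∑ i, Real.log (1 + ‖deriv (fun w => f w i / f w j) z⁻¹‖) := by
        have h5 : Real.posLog ‖s.along f z⁻¹‖ ≤ Real.posLog (C j *
            ∏ i, (1 + ‖deriv (fun w => f w i / f w j) z⁻¹‖) ^ d j) :=
          Real.posLog_le_posLog (norm_nonneg _) e2
        refine h5.trans ?_
        have h6 : 1 ≤ C j * ∏ i, (1 + ‖deriv (fun w => f w i / f w j) z⁻¹‖) ^ d j :=
          one_le_mul_of_one_le_of_one_le (hC j) hprod
        rw [Real.posLog_apply, max_eq_right (Real.log_nonneg h6),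
          Real.log_mul (by linarith [hC j]) (by linarith), Real.log_prod]
        · rw [Finset.mul_sum]
          refine add_le_add le_rfl (Finset.sum_le_sum fun i _ => ?_)
          rw [Real.log_pow]
        · intro i _
          positivity
      change Real.posLog ‖s.along f z⁻¹‖ ≤ ((e : ℝ) * ∑ a ∈ T, Real.posLog
        ‖logDeriv (fun z => f z a.1 / f z a.2) z⁻¹‖) + K
      have h8 : ∑ i, Real.log (1 + ‖deriv (fun w => f w i / f w j) z⁻¹‖) ≤
          (n + 1) * Real.log 2 + ∑ a ∈ T, Real.posLog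
            ‖logDeriv (fun z => f z a.1 / f z a.2) z⁻¹‖ := by
        refine (Finset.sum_le_sum fun i _ => hv i).trans ?_
        rw [Finset.sum_add_distrib, Finset.sum_const, Finset.card_univ, Fintype.card_fin,
          nsmul_eq_mul]
        push_cast
        refine add_le_add le_rfl ?_
        have h9 : ∑ i, (if (i, j) ∈ T then
            Real.posLog ‖logDeriv (fun w => f w i / f w j) z⁻¹‖ else 0) =
            ∑ a ∈ (Finset.univ.image fun i => (i, j)), if a ∈ T then
              Real.posLog ‖logDeriv (fun w => f w a.1 / f w a.2) z⁻¹‖ else 0 := by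
          rw [Finset.sum_image]
          intro a _ b _ hab
          exact congrArg Prod.fst hab
        rw [h9, ← Finset.sum_filter]
        refine Finset.sum_le_sum_of_subset_of_nonneg ?_ fun _ _ _ => Real.posLog_nonneg
        intro a ha
        exact (Finset.mem_filter.1 ha).2
      have h10 : 0 ≤ ∑ i, Real.log (1 + ‖deriv (fun w => f w i / f w j) z⁻¹‖) :=
        Finset.sum_nonneg fun i _ => Real.log_nonneg
          (by linarith [norm_nonneg (deriv (fun w => f w i / f w j) z⁻¹)])
      have h11 : (d j : ℝ) * ∑ i, Real.log (1 + ‖deriv (fun w => f w i / f w j) z⁻¹‖) ≤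
          e * ((n + 1) * Real.log 2 + ∑ a ∈ T, Real.posLog
            ‖logDeriv (fun z => f z a.1 / f z a.2) z⁻¹‖) := by
        refine mul_le_mul ?_ h8 h10 (Nat.cast_nonneg _)
        exact_mod_cast hde j
      have h12 : Real.log (C j) ≤ |C'| := (hC' j).trans (le_abs_self _)
      have h13 : (e : ℝ) * ((n + 1) * Real.log 2 + ∑ a ∈ T, Real.posLog
            ‖logDeriv (fun z => f z a.1 / f z a.2) z⁻¹‖) = e * (n + 1) * Real.log 2 +
            e * ∑ a ∈ T, Real.posLog ‖logDeriv (fun z => f z a.1 / f z a.2) z⁻¹‖ := by ring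
      have h14 : K = |C'| + e * (n + 1) * Real.log 2 := rfl
      linarith
    rw [Real.circleAverage_fun_add ciE (circleIntegrable_const _ _ _),
      Real.circleAverage_const] at h1
    have h2 : Real.circleAverage (fun z => (e : ℝ) * ∑ a ∈ T, Real.posLog
        ‖logDeriv (fun z => f z a.1 / f z a.2) z⁻¹‖) 0 r =
        e * ∑ a ∈ T, mP (logDeriv fun z => f z a.1 / f z a.2) r := by
      have h3 := Real.circleAverage_fun_smul (a := (e : ℝ)) (c := 0) (R := r)
        (f := fun z => ∑ a ∈ T, Real.posLog ‖logDeriv (fun z => f z a.1 / f z a.2) z⁻¹‖)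
      simp only [smul_eq_mul] at h3
      rw [h3, Real.circleAverage_fun_sum ci]
      rfl
    rw [h2] at h1
    exact h1
  have hsml : Sml f (mP (s.along f)) := by
    refine (gr_sml f).mono _ _ (gr_nsmul (gr_sml f) e _ (gr_sum (gr_sml f) T _ fun a ha =>
      (hT a ha).sml)) ⟨|K|, ?_⟩
    filter_upwards [cofin_gt 1] with r hr
    have h1 := key r (by rw [inv_one]; exact hr)
    have h2 : 0 ≤ |K| * Real.log r := mul_nonneg (abs_nonneg _) (Real.log_nonneg hr.le)
    have h3 := le_abs_self K
    have h4 : |K| * (1 + Real.log r) = |K| + |K| * Real.log r := by ring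
    rw [h4]
    linarith
  exact hsml

end small

end Pool.Agent.H917
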