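import Pool.Agent.H917.B2

/-!
Linear systems for points of varieties with generating symmetric differentials over a differential
field.
-/

set_option autoImplicit false
set_option linter.overlappingInstances false
set_option linter.unusedSectionVars false

open MvPolynomial Pool.Agent.W602.GT

namespace Pool.Agent.H917

section restrict

variable {M : Type} [Field M] [Algebra ℂ M]

/-- the restriction of a derivation to a stable subfield -/
noncomputable def resDer (D : Derivation ℂ M M) {C : IntermediateField ℂ M} (L : IntermediateField C M)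
    (h : ∀ z ∈ L, D z ∈ L) : Derivation ℂ L L :=
  Derivation.mk' (A := L) (M := L)
    { toFun := fun z => ⟨D z, h z z.2⟩
      map_add' := fun a b => Subtype.ext (D.map_add (a : M) b)
      map_smul' := fun c a => Subtype.ext (D.map_smul c (a : M)) }
    fun a b => Subtype.ext (D.leibniz (a : M) b)

theorem resDer_coe (D : Derivation ℂ M M) {C : IntermediateField ℂ M} (L : IntermediateField C M)
    (h : ∀ z ∈ L, D z ∈ L) (z : L) : ((resDer D L h z : L) : M) = D z := rfl

end restrict

variable {n : ℕ} {p : Ideal (MvPolynomial (Fin (n + 1)) ℂ)}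

/-- values of symmetric differentials and homomorphisms -/
theorem val_map (hp : Pool.Agent.W603.PV.IsHomog p) {m : ℕ} (s : SymDiff p m) {R R' : Type}
    [Field R] [Algebra ℂ R] [Field R'] [Algebra ℂ R'] (ψ : R →ₐ[ℂ] R')
    {x x' : Fin (n + 1) → R} {y y' : Fin (n + 1) → R'} (hx : TanVec p x x') (hy : TanVec p y y')
    {j : Fin (n + 1)} (hxj : x j ≠ 0) (hyj : y j ≠ 0)
    (h : ∀ k, ψ (loc j x x' k) = loc j y y' k) : ψ (s.val x x') = s.val y y' := by
  rw [s.val_eq hp hx hxj, s.val_eq hp hy hyj, comp_aeval_apply]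
  have h1 : (fun k => ψ (loc j x x' k)) = loc j y y' := funext h
  rw [h1]

/-- **Linear systems in an ambient differential field.** -/
theorem linSys_amb {M : Type} [Field M] [Algebra ℂ M] (D : Derivation ℂ M M)
    (C : IntermediateField ℂ M) (hC : ∀ c ∈ C, D c ∈ C) (hp : Pool.Agent.W603.PV.IsHomog p)
    {m N : ℕ} {s : Fin N → SymDiff p m} (hs : Gens p m s) (hm : 1 ≤ m) {x : Fin (n + 1) → M}
    {j0 : Fin (n + 1)} (hx : x j0 ≠ 0) (hX : ∀ H ∈ p, aeval x H = 0)
    (hval : ∀ l, (s l).val x (fun i => D (x i)) ∈ C) (hnc : ∃ i j, D (x i / x j) ≠ 0)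
    {K : Type} [Field K] [Algebra ℂ K] {w : ℕ} {y : Fin (n + 1) → K}
    (hgen : coords ℂ y = ⊤)
    (hrel : ∀ G : MvPolynomial (Fin (n + 1)) ℂ, IsForm G → (val y G = 0 ↔ val x G = 0))
    (hGT : GeneralType ℂ K w) :
    ∃ (r : ℕ) (h : Fin r → M) (δ : M) (A : Fin r → Fin r → M) (b : Fin (n + 1) → Fin r → M),
      (∀ i j, A i j ∈ C) ∧ (∀ i j, b i j ∈ C) ∧ (∀ i, D (h i) = δ * h i + ∑ j, A i j * h j) ∧
      ∑ j, b j0 j * h j ≠ 0 ∧
      ∀ i, x i * ∑ j, b j0 j * h j = x j0 * ∑ j, b i j * h j := by
  classical
  have hM0 : CharZero M := charZero_of_injective_algebraMap (algebraMap ℂ M).injective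
  have hxne : x ≠ 0 := fun h0 => hx (congrFun h0 j0)
  have hC0 : ∀ c : C, ∃ c' : C, D (algebraMap C M c) = algebraMap C M c' := fun c =>
    ⟨⟨D c, hC c c.2⟩, rfl⟩
  have hSD : SD C D x m := sd_of_gens hp hs D hxne hX fun l => ⟨⟨_, hval l⟩, rfl⟩
  -- the field `L`
  let S : Set M := {z | ∃ i j, z = x i / x j} ∪ {z | ∃ i j, z = D (x i / x j)}
  let L : IntermediateField C M := IntermediateField.adjoin C S
  have hSL : ∀ z ∈ S, z ∈ L := fun z hz => IntermediateField.subset_adjoin C S hz
  have hq : ∀ i j, x i / x j ∈ L := fun i j => hSL _ (Or.inl ⟨i, j, rfl⟩)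
  have hdq : ∀ i j, D (x i / x j) ∈ L := fun i j => hSL _ (Or.inr ⟨i, j, rfl⟩)
  have hCL : ∀ c ∈ C, c ∈ L := fun c hc => L.algebraMap_mem ⟨c, hc⟩
  have hkL : ∀ c : ℂ, algebraMap ℂ M c ∈ L := fun c => hCL _ (C.algebraMap_mem c)
  have haev : ∀ (j : Fin (n + 1)) (f : MvPolynomial (Fin (n + 1)) ℂ), aeval (ch x j) f ∈ L := by
    intro j f
    induction f using MvPolynomial.induction_on with
    | C a =>
      rw [aeval_C]
      exact hkL a
    | add p q hp hq => rw [map_add]; exact add_mem hp hq
    | mul_X p i hp =>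
      rw [map_mul, aeval_X]
      exact mul_mem hp (hq i j)
  have hLD : ∀ z ∈ L, D z ∈ L := by
    intro z hz
    induction hz using IntermediateField.adjoin_induction with
    | mem z hz =>
      rcases hz with ⟨i, j, rfl⟩ | ⟨i, j, rfl⟩
      · exact hdq i j
      · by_cases hj : x j = 0
        · rw [hj, div_zero, map_zero, map_zero]
          exact L.zero_mem
        by_cases ha : D (x i / x j) = 0
        · rw [ha, map_zero]
          exact L.zero_mem
        obtain ⟨N', q, -, hc, hb⟩ := hSD.rel j hj
        obtain ⟨b, hb⟩ := hb fun _ => i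
        rw [Finset.prod_const, Finset.card_univ, Fintype.card_fin] at hb
        have h1 : D (D (x i / x j) ^ m) ∈ L := by
          rw [hb, map_sum]
          refine sum_mem fun l _ => ?_
          obtain ⟨c, hc⟩ := hc l
          rw [hc, D.leibniz, smul_eq_mul, smul_eq_mul, der_aeval' D]
          refine add_mem (mul_mem (haev j _) (hCL _ (hC c c.2))) (mul_mem (hCL c c.2) ?_)
          exact sum_mem fun k _ => mul_mem (haev j _) (hdq k j)
        rw [D.leibniz_pow] at h1
        simp only [smul_eq_mul, nsmul_eq_mul] at h1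
        have h2 : D (D (x i / x j)) = ((m : M) * (D (x i / x j) ^ (m - 1) * D (D (x i / x j)))) /
            ((m : M) * D (x i / x j) ^ (m - 1)) := by
          have h3 : (m : M) ≠ 0 := by exact_mod_cast (by omega : m ≠ 0)
          have h4 : D (x i / x j) ^ (m - 1) ≠ 0 := pow_ne_zero _ ha
          field_simp
        rw [h2]
        exact div_mem h1 (mul_mem (natCast_mem L m) (pow_mem (hdq i j) _))
    | algebraMap c =>
      obtain ⟨c', hc'⟩ := hC0 c
      rw [hc']
      exact L.algebraMap_mem c'
    | add a b ha hb iha ihb => rw [map_add]; exact add_mem iha ihb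
    | inv a ha iha =>
      rw [D.leibniz_inv]
      simp only [smul_eq_mul]
      exact mul_mem (neg_mem (pow_mem (inv_mem ha) 2)) iha
    | mul a b ha hb iha ihb =>
      rw [D.leibniz]
      simp only [smul_eq_mul]
      exact add_mem (mul_mem ha ihb) (mul_mem hb iha)
  -- the embedding
  obtain ⟨i1, hi1⟩ : ∃ i1, y i1 ≠ 0 := by
    by_contra hcon
    push Not at hcon
    have h1 := (hrel (X j0) ⟨1, isHomogeneous_X ℂ j0⟩).1 (by
      unfold val
      rw [aeval_X]
      exact hcon j0)
    unfold val at h1
    rw [aeval_X] at h1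
    exact hx h1
  have hyj0 : y j0 ≠ 0 := by
    intro h0
    have h1 := (hrel (X j0) ⟨1, isHomogeneous_X ℂ j0⟩).1 (by
      unfold val
      rw [aeval_X]
      exact h0)
    unfold val at h1
    rw [aeval_X] at h1
    exact hx h1
  obtain ⟨φ, hφ⟩ := exists_embedding (L := M) hyj0 hx hgen hrel
  have hφL : ∀ z : K, φ z ∈ L := by
    intro z
    have hz : z ∈ coords ℂ y := by
      rw [hgen]
      trivial
    have h1 : coords ℂ y ≤ (L.restrictScalars ℂ).comap φ := by
      unfold coords
      rw [IntermediateField.adjoin_le_iff]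
      rintro _ ⟨i, j, hj, rfl⟩
      change φ (y i / y j) ∈ L
      have h2 : y i / y j = (y i / y j0) / (y j / y j0) := by
        rw [div_div_div_cancel_right₀ hyj0]
      rw [h2, map_div₀, hφ, hφ]
      exact div_mem (hq i j0) (hq j j0)
    exact h1 hz
  let φ' : K →ₐ[ℂ] L := AlgHom.mk (RingHom.codRestrict (φ : K →+* M) L.toSubring hφL)
    fun c => Subtype.ext (φ.commutes c)
  have hφ' : ∀ z, ((φ' z : L) : M) = φ z := fun z => rfl
  let _ : Algebra K L := (φ' : K →+* L).toAlgebra
  have hKL : ∀ z, algebraMap K L z = φ' z := fun z => rfl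
  have _ : IsScalarTower ℂ K L := IsScalarTower.of_algebraMap_eq fun c => (φ'.commutes c).symm
  let D' : Derivation ℂ L L := resDer D L hLD
  have hD' : ∀ z : L, ((D' z : L) : M) = D z := fun z => rfl
  let ι : L →ₐ[ℂ] M := AlgHom.mk (algebraMap L M) fun c => rfl
  have hι : ∀ z : L, ι z = (z : M) := fun z => rfl
  have hιi : ∀ a b : L, ι a = ι b → a = b := fun a b h => Subtype.ext h
  let yL : Fin (n + 1) → L := fun i => algebraMap K L (y i)
  have hyL : ∀ i, ι (yL i) = φ (y i) := fun i => rfl
  have hyLj0 : yL j0 ≠ 0 := (map_ne_zero (algebraMap K L)).2 hyj0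
  have hrat : ∀ i j, ι (yL i / yL j) = x i / x j := by
    intro i j
    rw [map_div₀, hyL, hyL, ← map_div₀]
    have h2 : y i / y j = (y i / y j0) / (y j / y j0) := by
      rw [div_div_div_cancel_right₀ hyj0]
    rw [h2, map_div₀, hφ, hφ, div_div_div_cancel_right₀ hx]
  have hy0 : ∀ H ∈ p, aeval y H = 0 := by
    intro H hH
    rw [← sum_homogeneousComponent H, map_sum]
    refine Finset.sum_eq_zero fun d _ => ?_
    exact (hrel _ ⟨d, homogeneousComponent_isHomogeneous d H⟩).2 (hX _ (hp H hH d))
  have hyL0 : ∀ H ∈ p, aeval yL H = 0 := by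
    intro H hH
    have h1 : aeval yL H = algebraMap K L (aeval y H) := (aeval_algebraMap_apply L y H)
    rw [h1, hy0 H hH, map_zero]
  have hyLne : yL ≠ 0 := fun h0 => hyLj0 (congrFun h0 j0)
  have htx := tanVec_der (p := p) D hxne hX
  have hty := tanVec_der (p := p) D' hyLne hyL0
  have hlin := linSys_of_SD (k := ℂ) (C := C) (K := K) (L := L) (D := D') (m := m) (w := w)
    (y := y) (i0 := j0) hyj0
    (sd_of_gens hp hs D' hyLne hyL0 fun l => ?_) hm (fun c => ?_) ?_ ?_ ?_ ?_ hGT
  · obtain ⟨r, h, δ, A, b, h1, h2, h3⟩ := hlin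
    refine ⟨r, fun i => (h i : M), (δ : M), fun i j => (A i j : M), fun i j => (b i j : M),
      fun i j => (A i j).2, fun i j => (b i j).2, fun i => ?_, fun h0 => ?_, fun i => ?_⟩
    · have e1 := congrArg ι (h1 i)
      rw [map_add, map_mul, map_sum] at e1
      simp only [map_mul] at e1
      exact e1
    · apply h2
      apply hιi
      rw [map_zero, map_sum]
      simp only [map_mul]
      exact h0
    · have e1 := congrArg ι (h3 i)
      rw [map_mul, map_mul, map_sum, map_sum] at e1
      simp only [map_mul] at e1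
      have e2 : ι (algebraMap K L (y i)) = (x i / x j0) * ι (algebraMap K L (y j0)) := by
        have e3 := hrat i j0
        rw [map_div₀, div_eq_iff ((map_ne_zero ι).2 hyLj0)] at e3
        exact e3
      rw [e2] at e1
      have e4 : ι (algebraMap K L (y j0)) ≠ 0 := (map_ne_zero ι).2 hyLj0
      have e5 : x i / x j0 * ∑ j, ι (algebraMap C L (b j0 j)) * ι (h j) =
          ∑ j, ι (algebraMap C L (b i j)) * ι (h j) := by
        apply mul_left_cancel₀ e4
        rw [← e1]
        ring
      rw [div_mul_eq_mul_div, div_eq_iff hx] at e5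
      rw [mul_comm (x j0)]
      exact e5
  · refine ⟨⟨_, hval l⟩, ?_⟩
    apply hιi
    refine val_map hp (s l) ι hty htx hyLj0 hx fun k => ?_
    rw [loc_der D' yL hyLj0, loc_der D x hx]
    rcases k with k | k
    · exact hrat k j0
    · change D (ι (yL k / yL j0)) = D (x k / x j0)
      rw [hrat]
  · exact ⟨⟨D c, hC c c.2⟩, Subtype.ext rfl⟩
  · rw [IntermediateField.essFiniteType_iff]
    have hfin : S.Finite := by
      apply Set.Finite.union
      · have : {z | ∃ i j, z = x i / x j} = Set.range fun a : Fin (n + 1) × Fin (n + 1) =>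
          x a.1 / x a.2 := by
          ext z
          constructor
          · rintro ⟨i, j, rfl⟩
            exact ⟨(i, j), rfl⟩
          · rintro ⟨a, rfl⟩
            exact ⟨a.1, a.2, rfl⟩
        rw [this]
        exact Set.finite_range _
      · have : {z | ∃ i j, z = D (x i / x j)} = Set.range fun a : Fin (n + 1) × Fin (n + 1) =>
          D (x a.1 / x a.2) := by
          ext z
          constructor
          · rintro ⟨i, j, rfl⟩
            exact ⟨(i, j), rfl⟩
          · rintro ⟨a, rfl⟩
            exact ⟨a.1, a.2, rfl⟩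
        rw [this]
        exact Set.finite_range _
    exact ⟨hfin.toFinset, by rw [Set.Finite.coe_toFinset]⟩
  · have h1 : (⊤ : IntermediateField ℂ K).FG := by
      rw [← hgen]
      unfold coords
      have hfin : {z | ∃ i j, y j ≠ 0 ∧ z = y i / y j}.Finite := by
        have : {z | ∃ i j, y j ≠ 0 ∧ z = y i / y j} ⊆
            Set.range fun a : Fin (n + 1) × Fin (n + 1) => y a.1 / y a.2 := by
          rintro _ ⟨i, j, -, rfl⟩
          exact ⟨(i, j), rfl⟩
        exact (Set.finite_range _).subset this
      exact ⟨hfin.toFinset, by rw [Set.Finite.coe_toFinset]⟩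
    exact IntermediateField.fg_top_iff.1 h1
  · obtain ⟨i, j, hij⟩ := hnc
    refine ⟨i, j, fun h0 => hij ?_⟩
    have h1 := congrArg ι h0
    rw [map_zero] at h1
    rw [← hrat]
    exact h1
  · intro T hT1 hT2 hT3
    have key : ∀ z (hz : z ∈ L), (⟨z, hz⟩ : L) ∈ T := by
      intro z hz
      induction hz using IntermediateField.adjoin_induction with
      | mem z hz =>
        rcases hz with ⟨i, j, rfl⟩ | ⟨i, j, rfl⟩
        · have h1 : (⟨x i / x j, hq i j⟩ : L) = yL i / yL j := by
            apply hιi
            rw [hrat]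
            rfl
          have h2 := hT2 i j
          change yL i / yL j ∈ T at h2
          rw [← h1] at h2
          exact h2
        · have h1 : (⟨D (x i / x j), hdq i j⟩ : L) = D' (yL i / yL j) := by
            apply hιi
            change D (x i / x j) = D (ι (yL i / yL j))
            rw [hrat]
          have h2 := hT3 i j
          change D' (yL i / yL j) ∈ T at h2
          rw [← h1] at h2
          exact h2
      | algebraMap c => exact hT1 c
      | add a b ha hb iha ihb =>
        exact T.add_mem iha ihb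
      | inv a ha iha =>
        exact T.inv_mem iha
      | mul a b ha hb iha ihb =>
        exact T.mul_mem iha ihb
    rw [eq_top_iff]
    rintro ⟨z, hz⟩ -
    exact key z hz

end Pool.Agent.H917
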