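import Pool.Agent.H917.B3

/-!
Holomorphic curves with small symmetric differentials in varieties of general type.
-/

set_option autoImplicit false
set_option linter.overlappingInstances false
set_option linter.unusedSectionVars false

open MvPolynomial Metric Set Filter Topology FF Pool.Agent.W602.GT Pool.Agent.W603.BP
  Pool.Agent.Helper4K9.IP Pool.Agent.Helper4K9.AP Pool.Agent.Helper4K9.MP Pool.Agent.TH143
  Pool.Agent.TH143.GT Pool.Agent.Y377.EL Pool.Agent.Y377.IL Pool.Agent.W603.GR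

namespace Pool.Agent.H917

/-- general type and logarithmic general type for projective varieties -/
theorem log_of_gt' {K : Type} [Field K] [Algebra ℂ K] {w : ℕ} (Bd : Place ℂ K → Prop)
    (h : GeneralType ℂ K w) : LogGeneralType ℂ K w Bd := by
  obtain ⟨h1, M, hM, ω, h2, h3, h4⟩ := h
  refine ⟨h1, M, hM, ω, h2, fun P hP j D hD => ?_, fun P hP _ j => h3 P hP j, h4⟩
  apply h3 P hP j D
  intro i f hf
  have h5 := P.reg_mul hf (hD i f)
  by_cases h0 : f = 0
  · rw [h0, map_zero]
    exact P.reg_zero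
  · rwa [mul_div_cancel₀ _ h0] at h5

/-- common denominators -/
theorem common_frac {K ι : Type} [Field K] [Algebra ℂ K] [Fintype ι] (R : Subalgebra ℂ K)
    (c : ι → K) (h : ∀ i, c i ∈ frac R) : ∃ r ∈ R, r ≠ 0 ∧ ∀ i, r * c i ∈ R := by
  classical
  choose r hr hr0 hrc using h
  refine ⟨∏ i, r i, Subalgebra.prod_mem _ fun i _ => hr i,
    Finset.prod_ne_zero_iff.2 fun i _ => hr0 i, fun i => ?_⟩
  rw [← Finset.mul_prod_erase _ _ (Finset.mem_univ i), mul_comm (r i), mul_assoc]
  exact Subalgebra.mul_mem _ (Subalgebra.prod_mem _ fun j _ => hr j) (hrc i)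

variable {n : ℕ} {p : Ideal (MvPolynomial (Fin (n + 1)) ℂ)} {f : ℂ → Fin (n + 1) → ℂ} {Ω : Set ℂ}

theorem hol_zero {g : ℂ → ℂ} (hg : AnalyticOnNhd ℂ g Ω) :
    toHol g hg = 0 ↔ ∀ z ∈ Ω, g z = 0 := by
  constructor
  · intro h z hz
    have h1 := congrArg (evz (⟨z, hz⟩ : Ω)) h
    rwa [evz_toHol, map_zero] at h1
  · intro h
    apply hol_ext
    intro z
    rw [evz_toHol, h z z.2, map_zero]

/-- **The generic part**: curves whose symmetric differentials lie in a ring of functions. -/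
theorem alg_of_gt (hΩ : IsOpen Ω) (hΩc : IsPreconnected Ω) (hΩn : Ω.Nonempty)
    (B : Subalgebra ℂ (ℂ → ℂ)) (hBan : ∀ b ∈ B, AnalyticOnNhd ℂ b Ω) (hBd : ∀ b ∈ B, deriv b ∈ B)
    (hp : Pool.Agent.W603.PV.IsHomog p) {m N : ℕ} {s : Fin N → SymDiff p m} (hs : Gens p m s)
    (hm : 1 ≤ m) (han : ∀ j, AnalyticOnNhd ℂ (fun w => f w j) Ω) (hne : ∀ z ∈ Ω, f z ≠ 0)
    (hX : ∀ z ∈ Ω, ∀ H ∈ p, eval (f z) H = 0) (hS : ∀ l, (s l).along f ∈ B)
    {K : Type} [Field K] [Algebra ℂ K] {w : ℕ} {y : Fin (n + 1) → K} (hy : GenPt f Ω K w y)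
    (hGT : GeneralType ℂ K w) :
    (∃ j0, ∀ j, ∃ c : ℂ, ∀ z ∈ Ω, f z j = c * f z j0) ∨
      ∀ i j, AlgRatioOn Ω B (fun z => f z i) fun z => f z j := by
  classical
  have hdom : IsDomain (Hol Ω) := hol_domain hΩc hΩn
  obtain ⟨d, hd⟩ := exists_holDer hΩ
  obtain ⟨D, hD⟩ := exists_derFrac d
  let M := FractionRing (Hol Ω)
  let i : Hol Ω →ₐ[ℂ] M := IsScalarTower.toAlgHom ℂ (Hol Ω) M
  have hi : Function.Injective i := IsFractionRing.injective (Hol Ω) M
  have hDi : ∀ (g : ℂ → ℂ) (hg : AnalyticOnNhd ℂ g Ω), D (i (toHol g hg)) =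
      i (toHol (deriv g) hg.deriv) := by
    intro g hg
    have h1 : D (i (toHol g hg)) = i (d (toHol g hg)) := hD _
    rw [h1]
    congr 1
    apply hol_ext
    intro z
    rw [hd (toHol g hg) g hg (fun z => rfl) z, evz_toHol]
  have hi0 : ∀ (g : ℂ → ℂ) (hg : AnalyticOnNhd ℂ g Ω), i (toHol g hg) = 0 ↔ ∀ z ∈ Ω, g z = 0 :=
    fun g hg => (map_eq_zero_iff i hi).trans (hol_zero hg)
  have hieq : ∀ (g g' : ℂ → ℂ) (hg : AnalyticOnNhd ℂ g Ω) (hg' : AnalyticOnNhd ℂ g' Ω),
      i (toHol g hg) = i (toHol g' hg') → ∀ z ∈ Ω, g z = g' z := by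
    intro g g' hg hg' h z hz
    have h1 := congrArg (evz (⟨z, hz⟩ : Ω)) (hi h)
    rwa [evz_toHol, evz_toHol] at h1
  let F : Fin (n + 1) → Hol Ω := fun j => toHol (fun w => f w j) (han j)
  let x : Fin (n + 1) → M := fun j => i (F j)
  have hxa : ∀ G : MvPolynomial (Fin (n + 1)) ℂ, aeval x G = i (aeval F G) := fun G =>
    (comp_aeval_apply F i G).symm
  have hev : ∀ (G : MvPolynomial (Fin (n + 1)) ℂ) (z : Ω), evz z (aeval F G) = eval (f z) G := by
    intro G z
    rw [comp_aeval_apply F (evz z) G, ← ae]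
    rfl
  have hx0 : ∀ G : MvPolynomial (Fin (n + 1)) ℂ, aeval x G = 0 ↔ ∀ z ∈ Ω, eval (f z) G = 0 := by
    intro G
    rw [hxa, map_eq_zero_iff i hi]
    constructor
    · intro h z hz
      rw [← hev G ⟨z, hz⟩, h, map_zero]
    · intro h
      apply hol_ext
      intro z
      rw [hev, h z z.2, map_zero]
  obtain ⟨z0, hz0⟩ := hΩn
  obtain ⟨j0, hj0⟩ := Function.ne_iff.1 (hne z0 hz0)
  have hj0' : f z0 j0 ≠ 0 := hj0
  have hxj0 : x j0 ≠ 0 := fun h0 => hj0' ((hi0 _ (han j0)).1 h0 z0 hz0)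
  -- the constant case
  by_cases hnc : ∃ a b, D (x a / x b) ≠ 0
  swap
  · left
    push Not at hnc
    refine ⟨j0, fun j => ⟨f z0 j / f z0 j0, ?_⟩⟩
    have h1 := hnc j j0
    have h2 : D (x j) * x j0 - x j * D (x j0) = 0 := by
      have h3 : x j = x j / x j0 * x j0 := (div_mul_cancel₀ _ hxj0).symm
      have h4 : D (x j) = x j / x j0 * D (x j0) := by
        conv_lhs => rw [h3]
        rw [D.leibniz, h1]
        simp
      rw [h4]
      field_simp
      ring
    have h3 : ∀ z ∈ Ω, deriv (fun w => f w j) z * f z j0 - f z j * deriv (fun w => f w j0) z = 0 := by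
      have h4 : D (x j) * x j0 - x j * D (x j0) = i (toHol (fun z => deriv (fun w => f w j) z * f z j0 -
          f z j * deriv (fun w => f w j0) z)
          (((han j).deriv.mul (han j0)).sub ((han j).mul (han j0).deriv))) := by
        change D (i (toHol _ (han j))) * i (toHol _ (han j0)) - i (toHol _ (han j)) *
          D (i (toHol _ (han j0))) = _
        rw [hDi, hDi, ← map_mul, ← map_mul, ← map_sub]
        rfl
      rw [h4, hi0] at h2
      exact h2
    have h5 : AnalyticOnNhd ℂ (fun z => f z j - f z0 j / f z0 j0 * f z j0) Ω :=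
      (han j).sub (analyticOnNhd_const.mul (han j0))
    have h6 : ∀ᶠ z in 𝓝 z0, f z j - f z0 j / f z0 j0 * f z j0 = 0 := by
      obtain ⟨r, hr, hrs⟩ := Metric.mem_nhds_iff.1 (Filter.inter_mem (hΩ.mem_nhds hz0)
        ((han j0 z0 hz0).continuousAt.eventually_ne hj0'))
      filter_upwards [ball_mem_nhds z0 hr] with z hz
      have h7 : f z j / f z j0 = f z0 j / f z0 j0 := by
        have h8 : ∀ w ∈ ball z0 r, HasDerivWithinAt (fun w => f w j / f w j0) 0 (ball z0 r) w := by
          intro w hw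
          have h9 := ((han j w (hrs hw).1).differentiableAt.hasDerivAt.div
            (han j0 w (hrs hw).1).differentiableAt.hasDerivAt (hrs hw).2)
          rw [h3 w (hrs hw).1, zero_div] at h9
          exact h9.hasDerivWithinAt
        have h9 := (convex_ball z0 r).norm_image_sub_le_of_norm_hasDerivWithin_le
          (f := fun w => f w j / f w j0) (f' := fun _ => 0) (C := 0) h8 (fun w _ => by simp)
          (mem_ball_self hr) hz
        rw [zero_mul] at h9
        exact sub_eq_zero.1 (norm_le_zero_iff.1 h9)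
      rw [← h7, div_mul_cancel₀ _ (hrs hz).2, sub_self]
    intro z hz
    have h7 := h5.eqOn_zero_of_preconnected_of_eventuallyEq_zero hΩc hz0 h6 hz
    exact sub_eq_zero.1 h7
  right
  -- the constants
  let A0 : Subalgebra ℂ M :=
    { carrier := {z | ∃ (g : ℂ → ℂ) (hg : g ∈ B), z = i (toHol g (hBan g hg))}
      mul_mem' := by
        rintro _ _ ⟨g, hg, rfl⟩ ⟨h, hh, rfl⟩
        exact ⟨g * h, B.mul_mem hg hh, (map_mul i _ _).symm⟩
      add_mem' := by
        rintro _ _ ⟨g, hg, rfl⟩ ⟨h, hh, rfl⟩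
        exact ⟨g + h, B.add_mem hg hh, (map_add i _ _).symm⟩
      algebraMap_mem' := by
        intro c
        exact ⟨algebraMap ℂ (ℂ → ℂ) c, B.algebraMap_mem c, (i.commutes c).symm⟩ }
  have hA0D : Stab D A0 := by
    rintro _ ⟨g, hg, rfl⟩
    exact ⟨deriv g, hBd g hg, hDi g (hBan g hg)⟩
  -- the values of the symmetric differentials
  have hxm : ∀ H ∈ p, aeval x H = 0 := fun H hH => (hx0 H).2 fun z hz => hX z hz H hH
  have hxne : x ≠ 0 := fun h0 => hxj0 (congrFun h0 j0)
  have htx := tanVec_der (p := p) D hxne hxm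
  have hSan : ∀ l, AnalyticOnNhd ℂ ((s l).along f) Ω := fun l => along_an hp (s l) hΩ han hne hX
  have hvalx : ∀ l, (s l).val x (fun j => D (x j)) = i (toHol _ (hSan l)) := by
    intro l
    obtain ⟨k, P, hP⟩ := clear_den j0 ((s l).pol j0)
    have h1 := hP M x (fun j => D (x j)) hxj0
    rw [← (s l).val_eq hp htx hxj0] at h1
    -- the polynomial as a function
    let G : Fin (n + 1) ⊕ Fin (n + 1) → Hol Ω := Sum.elim F fun j =>
      toHol (deriv fun w => f w j) (han j).deriv
    have hG : (fun a => i (G a)) = Sum.elim x fun j => D (x j) := by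
      funext a
      rcases a with a | a
      · rfl
      · exact (hDi _ (han a)).symm
    have h2 : aeval (Sum.elim x fun j => D (x j)) P = i (aeval G P) := by
      rw [comp_aeval_apply G i P, hG]
    have h3 : ∀ z : Ω, evz z (aeval G P) = eval (Sum.elim (f z) (dv f z)) P := by
      intro z
      rw [comp_aeval_apply G (evz z) P, ← ae]
      congr 2
      funext a
      rcases a with a | a <;> rfl
    have h4 : aeval G P = F j0 ^ k * toHol _ (hSan l) := by
      have h5 : F j0 * (aeval G P - F j0 ^ k * toHol _ (hSan l)) = 0 := by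
        apply hol_ext
        intro z
        rw [map_mul, map_sub, map_mul, map_pow, map_zero, h3]
        change f z j0 * (_ - f z j0 ^ k * (s l).along f z) = 0
        by_cases hz : f z j0 = 0
        · rw [hz, zero_mul]
        · have h6 := hP ℂ (f z) (dv f z) hz
          rw [ae, ae, loc_curve (fun j => (han j z z.2).differentiableAt) hz,
            ← along_eq hp (s l) hΩ han hne hX z.2 hz] at h6
          rw [h6, sub_self, mul_zero]
      have h6 : F j0 ≠ 0 := fun h0 => hxj0 (by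
        change i (F j0) = 0
        rw [h0, map_zero])
      exact sub_eq_zero.1 ((mul_eq_zero.1 h5).resolve_left h6)
    rw [h2, h4, map_mul, map_pow] at h1
    exact (mul_left_cancel₀ (pow_ne_zero k hxj0) h1).symm
  have hrel : ∀ G : MvPolynomial (Fin (n + 1)) ℂ, IsForm G →
      (W602.GT.val y G = 0 ↔ W602.GT.val x G = 0) := fun G hG =>
    (hy.rel G hG).trans (hx0 G).symm
  obtain ⟨r, h, δ, A, b, hA, hb, h1, h2, h3⟩ := linSys_amb D (frac A0)
    (fun c hc => stab_frac hA0D hc) hp hs hm hxj0 hxm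
    (fun l => le_frac _ ⟨(s l).along f, hS l, hvalx l⟩) hnc hy.gen hrel hGT
  -- denominators
  obtain ⟨q', hq', hq0, hqc⟩ := common_frac A0 (fun a : (Fin r × Fin r) ⊕ (Fin (n + 1) × Fin r) =>
    Sum.elim (fun a => A a.1 a.2) (fun a => b a.1 a.2) a) (by
      rintro (a | a)
      · exact hA _ _
      · exact hb _ _)
  obtain ⟨q, hq, rfl⟩ := hq'
  have hqA : ∀ a c, ∃ (g : ℂ → ℂ) (hg : g ∈ B), i (toHol q (hBan q hq)) * A a c =
      i (toHol g (hBan g hg)) := fun a c => hqc (Sum.inl (a, c))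
  have hqb : ∀ a c, ∃ (g : ℂ → ℂ) (hg : g ∈ B), i (toHol q (hBan q hq)) * b a c =
      i (toHol g (hBan g hg)) := fun a c => hqc (Sum.inr (a, c))
  choose α hα hαe using hqA
  choose β hβ hβe using hqb
  obtain ⟨Q', ⟨Q0, hQ0⟩, hQne, hQc⟩ := common_frac i.range (fun a : Fin r ⊕ Unit =>
    Sum.elim h (fun _ => δ) a) (by
      intro a
      obtain ⟨u, v, hv, huv⟩ := IsFractionRing.div_surjective (A := Hol Ω)
        (Sum.elim h (fun _ => δ) a)
      refine ⟨i v, ⟨v, rfl⟩, ?_, ⟨u, ?_⟩⟩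
      · rw [Ne, map_eq_zero_iff i hi]
        exact nonZeroDivisors.ne_zero hv
      · rw [← huv]
        change i u = i v * (i u / i v)
        have hv0 : i v ≠ 0 := by
          rw [Ne, map_eq_zero_iff i hi]
          exact nonZeroDivisors.ne_zero hv
        rw [mul_div_assoc', mul_div_cancel_left₀ _ hv0])
  have hho : ∀ H : Hol Ω, ∃ (g : ℂ → ℂ) (hg : AnalyticOnNhd ℂ g Ω), H = toHol g hg := by
    intro H
    obtain ⟨g, hg, hgH⟩ := hol_an H
    exact ⟨g, hg, hol_ext fun z => by rw [hgH z, evz_toHol]⟩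
  obtain ⟨Q, hQan, rfl⟩ := hho Q0
  have hQ0' : i (toHol Q hQan) = Q' := hQ0
  subst hQ0'
  have hPa : ∀ a, ∃ (g : ℂ → ℂ) (hg : AnalyticOnNhd ℂ g Ω), i (toHol Q hQan) * h a =
      i (toHol g hg) := by
    intro a
    obtain ⟨H, hH⟩ := hQc (Sum.inl a)
    obtain ⟨g, hg, rfl⟩ := hho H
    exact ⟨g, hg, hH.symm⟩
  choose P hPan hPe using hPa
  obtain ⟨E, hEan, hEe⟩ : ∃ (E : ℂ → ℂ) (hE : AnalyticOnNhd ℂ E Ω), i (toHol Q hQan) * δ =
      i (toHol E hE) := by
    obtain ⟨H, hH⟩ := hQc (Sum.inr ())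
    obtain ⟨g, hg, rfl⟩ := hho H
    exact ⟨g, hg, hH.symm⟩
  -- the identities between functions
  have hid1 : ∀ a, ∀ z ∈ Ω, q z * (deriv (P a) z * Q z - P a z * deriv Q z) =
      q z * (E z * P a z) + Q z * ∑ c, α a c z * P c z := by
    intro a
    have e1 : D (i (toHol Q hQan) * h a) = i (toHol (deriv (P a)) (hPan a).deriv) := by
      rw [hPe, hDi]
    rw [D.leibniz, hDi] at e1
    simp only [smul_eq_mul] at e1
    have e2 : i (toHol q (hBan q hq)) * (i (toHol (deriv (P a)) (hPan a).deriv) * i (toHol Q hQan) -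
        i (toHol _ (hPan a)) * i (toHol (deriv Q) hQan.deriv)) =
        i (toHol q (hBan q hq)) * (i (toHol E hEan) * i (toHol _ (hPan a))) +
          i (toHol Q hQan) * ∑ c, i (toHol (α a c) (hBan _ (hα a c))) * i (toHol _ (hPan c)) := by
      rw [← e1, ← hPe a, ← hEe]
      have e3 : ∀ c, i (toHol (α a c) (hBan _ (hα a c))) * i (toHol _ (hPan c)) =
          i (toHol q (hBan q hq)) * i (toHol Q hQan) * (A a c * h c) := by
        intro c
        rw [← hαe, ← hPe]
        ring
      rw [Finset.sum_congr rfl fun c _ => e3 c, ← Finset.mul_sum, h1 a]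
      ring
    have e4 := hieq (fun z => q z * (deriv (P a) z * Q z - P a z * deriv Q z))
      (fun z => q z * (E z * P a z) + Q z * ∑ c, α a c z * P c z)
      ((hBan q hq).mul (((hPan a).deriv.mul hQan).sub ((hPan a).mul hQan.deriv)))
      (fun z hz => ((hBan q hq z hz).fun_mul ((hEan z hz).fun_mul (hPan a z hz))).fun_add
        ((hQan z hz).fun_mul (Finset.analyticAt_fun_sum _ fun c _ =>
          (hBan _ (hα a c) z hz).fun_mul (hPan c z hz)))) ?_
    · exact e4
    · have e5 : toHol (fun z => q z * (deriv (P a) z * Q z - P a z * deriv Q z))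
          ((hBan q hq).mul (((hPan a).deriv.mul hQan).sub ((hPan a).mul hQan.deriv))) =
          toHol q (hBan q hq) * (toHol (deriv (P a)) (hPan a).deriv * toHol Q hQan -
            toHol _ (hPan a) * toHol (deriv Q) hQan.deriv) := rfl
      have e6 : toHol (fun z => q z * (E z * P a z) + Q z * ∑ c, α a c z * P c z)
          (fun z hz => ((hBan q hq z hz).fun_mul ((hEan z hz).fun_mul (hPan a z hz))).fun_add
        ((hQan z hz).fun_mul (Finset.analyticAt_fun_sum _ fun c _ =>
          (hBan _ (hα a c) z hz).fun_mul (hPan c z hz)))) =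
          toHol q (hBan q hq) * (toHol E hEan * toHol _ (hPan a)) + toHol Q hQan *
            ∑ c, toHol (α a c) (hBan _ (hα a c)) * toHol _ (hPan c) := by
        apply hol_ext
        intro z
        simp only [map_add, map_mul, map_sum, evz_toHol]
      rw [e5, e6]
      simp only [map_add, map_mul, map_sub, map_sum]
      exact e2
  have hid2 : ∀ a, ∀ z ∈ Ω, f z a * ∑ c, β j0 c z * P c z = f z j0 * ∑ c, β a c z * P c z := by
    intro a
    have han1 : ∀ a' c', AnalyticOnNhd ℂ (fun z => f z a' * ∑ c, β c' c z * P c z) Ω :=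
      fun a' c' z hz => (han a' z hz).fun_mul (Finset.analyticAt_fun_sum _ fun c _ =>
        (hBan _ (hβ c' c) z hz).fun_mul (hPan c z hz))
    refine hieq _ _ (han1 a j0) (han1 j0 a) ?_
    have e5 : ∀ a' c', i (toHol _ (han1 a' c')) = i (toHol q (hBan q hq)) * i (toHol Q hQan) *
        (x a' * ∑ c, b c' c * h c) := by
      intro a' c'
      have e6 : toHol _ (han1 a' c') = toHol _ (han a') *
          ∑ c, toHol (β c' c) (hBan _ (hβ c' c)) * toHol _ (hPan c) := by
        apply hol_ext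
        intro z
        simp only [map_mul, map_sum, evz_toHol]
      rw [e6]
      simp only [map_mul, map_sum]
      have e7 : ∀ c, i (toHol (β c' c) (hBan _ (hβ c' c))) * i (toHol _ (hPan c)) =
          i (toHol q (hBan q hq)) * i (toHol Q hQan) * (b c' c * h c) := by
        intro c
        rw [← hβe, ← hPe]
        ring
      rw [Finset.sum_congr rfl fun c _ => e7 c, ← Finset.mul_sum]
      change x a' * _ = _
      ring
    rw [e5, e5, h3 a]
  have hid3 : ∃ z ∈ Ω, ∑ c, β j0 c z * P c z ≠ 0 := by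
    by_contra hcon
    push Not at hcon
    have han1 : AnalyticOnNhd ℂ (fun z => ∑ c, β j0 c z * P c z) Ω := fun z hz =>
      Finset.analyticAt_fun_sum _ fun c _ => (hBan _ (hβ j0 c) z hz).fun_mul (hPan c z hz)
    have e1 := (hi0 _ han1).2 hcon
    have e6 : toHol _ han1 = ∑ c, toHol (β j0 c) (hBan _ (hβ j0 c)) * toHol _ (hPan c) := by
      apply hol_ext
      intro z
      simp only [map_mul, map_sum, evz_toHol]
    rw [e6, map_sum] at e1
    simp only [map_mul] at e1
    have e7 : ∀ c, i (toHol (β j0 c) (hBan _ (hβ j0 c))) * i (toHol _ (hPan c)) =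
        i (toHol q (hBan q hq)) * i (toHol Q hQan) * (b j0 c * h c) := by
      intro c
      rw [← hβe, ← hPe]
      ring
    rw [Finset.sum_congr rfl fun c _ => e7 c, ← Finset.mul_sum] at e1
    exact mul_ne_zero (mul_ne_zero hq0 hQne) h2 e1
  -- a good point
  have hgood : ∃ z ∈ Ω, q z ≠ 0 ∧ Q z ≠ 0 ∧ f z j0 ≠ 0 ∧ ∑ c, β j0 c z * P c z ≠ 0 := by
    have hcdne : ∀ g : ℂ → ℂ, AnalyticOnNhd ℂ g Ω → (∃ z ∈ Ω, g z ≠ 0) →
        ∀ᶠ z in codiscreteWithin Ω, g z ≠ 0 := by
      intro g hg h0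
      apply mer_ne hΩc fun z hz => (hg z hz).meromorphicAt
      intro h5
      obtain ⟨z, hz, hz2⟩ := h0
      exact hz2 (near_zero hΩ hz (hg z hz) h5).self_of_nhds
    have c1 := hcdne q (hBan q hq) (by
      by_contra hcon
      push Not at hcon
      exact hq0 ((hi0 _ _).2 hcon))
    have c2 := hcdne Q hQan (by
      by_contra hcon
      push Not at hcon
      exact hQne ((hi0 _ _).2 hcon))
    have c3 := hcdne _ (han j0) ⟨z0, hz0, hj0'⟩
    have c4 := hcdne (fun z => ∑ c, β j0 c z * P c z) (fun z hz =>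
      Finset.analyticAt_fun_sum _ fun c _ => (hBan _ (hβ j0 c) z hz).fun_mul (hPan c z hz)) hid3
    exact cd_exists hΩ ⟨z0, hz0⟩ (c1.and (c2.and (c3.and c4)))
  obtain ⟨z1, hz1, g1, g2, g3, g4⟩ := hgood
  have hcont4 : ContinuousAt (fun z => ∑ c, β j0 c z * P c z) z1 :=
    (Finset.analyticAt_fun_sum _ fun c _ =>
      (hBan _ (hβ j0 c) z1 hz1).fun_mul (hPan c z1 hz1)).continuousAt
  obtain ⟨ρ, hρ, hρs⟩ := Metric.mem_nhds_iff.1 (Filter.inter_mem (hΩ.mem_nhds hz1)
    (((hBan q hq z1 hz1).continuousAt.eventually_ne g1).and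
      (((hQan z1 hz1).continuousAt.eventually_ne g2).and
        (((han j0 z1 hz1).continuousAt.eventually_ne g3).and (hcont4.eventually_ne g4)))))
  let U : Set ℂ := ball z1 ρ
  have hUΩ : U ⊆ Ω := fun z hz => (hρs hz).1
  have hUq : ∀ z ∈ U, q z ≠ 0 := fun z hz => (hρs hz).2.1
  have hUQ : ∀ z ∈ U, Q z ≠ 0 := fun z hz => (hρs hz).2.2.1
  have hUf : ∀ z ∈ U, f z j0 ≠ 0 := fun z hz => (hρs hz).2.2.2.1
  have hUb : ∀ z ∈ U, ∑ c, β j0 c z * P c z ≠ 0 := fun z hz => (hρs hz).2.2.2.2
  have hUo : IsOpen U := isOpen_ball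
  have hUc : IsPreconnected U := (convex_ball z1 ρ).isPreconnected
  have hUn : U.Nonempty := ⟨z1, mem_ball_self hρ⟩
  obtain ⟨Δ, -, hΔ⟩ := exists_prim (a := z1) (r := ρ) (fun z => E z / Q z) (fun z hz =>
    ((hEan z (hUΩ hz)).differentiableAt.fun_div (hQan z (hUΩ hz)).differentiableAt
      (hUQ z hz)).differentiableWithinAt)
  let g : Fin r → ℂ → ℂ := fun a z => Complex.exp (-Δ z) * (P a z / Q z)
  have hgder : ∀ a, ∀ z ∈ U, HasDerivAt (g a) (∑ c, α a c z / q z * g c z) z := by
    intro a z hz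
    have e1 := (hΔ z hz).neg.cexp
    have e2 := ((hPan a z (hUΩ hz)).differentiableAt.hasDerivAt).div
      ((hQan z (hUΩ hz)).differentiableAt.hasDerivAt) (hUQ z hz)
    refine (e1.mul e2).congr_deriv ?_
    have e3 := hid1 a z (hUΩ hz)
    have q0 := hUq z hz
    have Q0 := hUQ z hz
    have e4 : ∑ c, α a c z / q z * g c z = Complex.exp (-Δ z) / (q z * Q z) *
        ∑ c, α a c z * P c z := by
      rw [Finset.mul_sum]
      refine Finset.sum_congr rfl fun c _ => ?_
      change α a c z / q z * (Complex.exp (-Δ z) * (P c z / Q z)) = _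
      field_simp
    rw [e4]
    simp only [Pi.div_apply, Pi.neg_apply]
    have e5 : ∑ c, α a c z * P c z = (q z * (deriv (P a) z * Q z - P a z * deriv Q z) -
        q z * (E z * P a z)) / Q z := by
      rw [eq_div_iff Q0, e3]
      ring
    rw [e5]
    field_simp
    ring
  have hBU : DBOn U B := ⟨fun b hb z hz => (hBan b hb z (hUΩ hz)).meromorphicAt, hBd⟩
  have hgan : ∀ a, ∀ z ∈ U, AnalyticAt ℂ (g a) z := by
    intro a z hz
    have h5 : DifferentiableOn ℂ (g a) U := fun z hz =>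
      (hgder a z hz).differentiableAt.differentiableWithinAt
    exact h5.analyticAt (hUo.mem_nhds hz)
  have hgI : ∀ a, IterOn U B (g a) := by
    refine IterOn.ode (fun a c z => α a c z / q z) g (fun a c => IterOn.quot (hα a c) hq)
      (fun a z hz => (hgan a z hz).meromorphicAt) ?_
    filter_upwards [cd_self (Ω := U)] with z hz a
    exact hgder a z hz
  have hcurve : IterCurve U B 1 0 f := by
    refine ⟨fun _ => ⟨fun a z => ∑ c, (β a c z / q z) * g c z, fun a => ?_, ?_⟩,
      fun h0 => absurd rfl h0⟩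
    · exact iter_sum Finset.univ (fun c z => (β a c z / q z) * g c z) fun c _ =>
        IterOn.mul (IterOn.quot (hβ a c) hq) (hgI c)
    · filter_upwards [cd_self (Ω := U)] with z hz
      have q0 := hUq z hz
      have Q0 := hUQ z hz
      have f0 := hUf z hz
      refine ⟨Complex.exp (-Δ z) / (q z * Q z) * (∑ c, β j0 c z * P c z) / f z j0,
        div_ne_zero (mul_ne_zero (div_ne_zero (Complex.exp_ne_zero _) (mul_ne_zero q0 Q0))
          (hUb z hz)) f0, fun a => ?_⟩
      have e1 : ∑ c, (β a c z / q z) * g c z = Complex.exp (-Δ z) / (q z * Q z) *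
          ∑ c, β a c z * P c z := by
        rw [Finset.mul_sum]
        refine Finset.sum_congr rfl fun c _ => ?_
        change β a c z / q z * (Complex.exp (-Δ z) * (P c z / Q z)) = _
        field_simp
      have e2 : ∑ c, β a c z * P c z = f z a * (∑ c, β j0 c z * P c z) / f z j0 := by
        rw [hid2 a z (hUΩ hz), mul_div_cancel_left₀ _ f0]
      rw [e1, e2]
      ring
  have hext : ∀ g' : ℂ → ℂ, AnalyticOnNhd ℂ g' Ω → (∀ᶠ z in codiscreteWithin U, g' z = 0) →
      ∀ z ∈ Ω, g' z = 0 := by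
    intro g' hg' h5
    have h6 := near_zero hUo (mem_ball_self hρ) (hg' z1 hz1) h5
    exact fun z hz => hg'.eqOn_zero_of_preconnected_of_eventuallyEq_zero hΩc hz1 h6 hz
  have hQ1 : (1 : MvPolynomial (Fin (n + 1)) ℂ).IsHomogeneous 0 := isHomogeneous_one _ _
  rcases log_mainOn hUo hUc hUn hQ1 hBU (fun j => (han j).mono hUΩ) (fun z hz => hne z (hUΩ hz))
    (fun z _ => by rw [map_one]; exact one_ne_zero) hcurve with halg | ⟨M', i1, i2, P', k1, k2, k3⟩
  · intro a c
    obtain ⟨k, bb, hbb, ⟨e, he, hbe⟩, hsum⟩ := halg a c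
    refine ⟨k, bb, hbb, ⟨e, he, fun h0 => hbe ?_⟩, ?_⟩
    · have h5 : ∀ z ∈ Ω, bb e z = 0 := fun z hz =>
        (near_zero hΩ hz (hBan _ (hbb e) z hz) h0).self_of_nhds
      filter_upwards [cd_self (Ω := U)] with z hz
      exact h5 z (hUΩ hz)
    · have h5 := hext (fun z => ∑ l ∈ Finset.range (k + 1), bb l z * f z a ^ l * f z c ^ (k - l))
        (fun z hz => Finset.analyticAt_fun_sum _ fun l _ =>
          ((hBan _ (hbb l) z hz).fun_mul ((han a z hz).fun_pow l)).fun_mul
            ((han c z hz).fun_pow _)) hsum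
      filter_upwards [cd_self (Ω := Ω)] with z hz
      exact h5 z hz
  · exfalso
    refine not_lgt hQ1 hy.ne hy.gen hy.dim P' (fun G hG => ?_) k2 k3 (log_of_gt' _ hGT)
    rw [k1 G hG, hy.rel G hG]
    constructor
    · intro h5 z hz
      exact h5 z (hUΩ hz)
    · intro h5
      refine hext (fun z => eval (f z) G) (eval_an' han G) ?_
      filter_upwards [cd_self (Ω := U)] with z hz
      exact h5 z hz

/-- **P-curves**: maps from the punctured disc to varieties with generating symmetric differentials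
whose Zariski closure is of general type extend. -/
theorem pcurve_ext (hp : Pool.Agent.W603.PV.IsHomog p) {m N : ℕ} {s : Fin N → SymDiff p m}
    (hs : Gens p m s) (hm : 1 ≤ m) (han : ∀ j, AnalyticOnNhd ℂ (fun w => f w j) (PB 1))
    (hne : ∀ z ∈ PB 1, f z ≠ 0) (hX : ∀ z ∈ PB 1, ∀ H ∈ p, eval (f z) H = 0)
    {K : Type} [Field K] [Algebra ℂ K] {w : ℕ} {y : Fin (n + 1) → K} (hy : GenPt f (PB 1) K w y)
    (hGT : GeneralType ℂ K w) : Extends f := by
  rcases alg_of_gt (PB_open 1) (PB_preconn one_pos) (PB_nonempty one_pos) (smallRing one_pos f)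
    (fun b hb => by
      have h1 := hb.1
      rwa [pb_eq] at h1) (fun b hb => (db_small one_pos le_rfl f).der b hb) hp hs hm han hne hX
    (fun l => along_small hp (s l) han hne hX) hy hGT with ⟨j0, h⟩ | h
  · exact extends_of_const han hne h
  · obtain ⟨C, -, hC⟩ := Pool.Agent.Helper4K9.AP.growth_of_alg one_pos le_rfl han hne h
    exact extends_of_growth han hne hC

end Pool.Agent.H917
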