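import Pool.Agent.H917.B4

/-!
Entire curves in varieties with generating symmetric differentials.
-/

set_option autoImplicit false
set_option linter.overlappingInstances false
set_option linter.unusedSectionVars false

open MvPolynomial Metric Set Filter Topology FF Pool.Agent.W602.GT Pool.Agent.W603.BP
  Pool.Agent.TH143.GT

namespace Pool.Agent.H917

variable {n : ℕ} {p : Ideal (MvPolynomial (Fin (n + 1)) ℂ)} {f : ℂ → Fin (n + 1) → ℂ} {Ω : Set ℂ}

/-- functions with a vanishing derivative of the quotient -/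
theorem const_of_deriv (hΩ : IsOpen Ω) (hΩc : IsPreconnected Ω) {a b : ℂ → ℂ}
    (ha : AnalyticOnNhd ℂ a Ω) (hb : AnalyticOnNhd ℂ b Ω) {z0 : ℂ} (hz0 : z0 ∈ Ω) (hb0 : b z0 ≠ 0)
    (h : ∀ z ∈ Ω, b z ≠ 0 → deriv (fun w => a w / b w) z = 0) :
    ∃ c : ℂ, ∀ z ∈ Ω, a z = c * b z := by
  refine ⟨a z0 / b z0, ?_⟩
  have h5 : AnalyticOnNhd ℂ (fun z => a z - a z0 / b z0 * b z) Ω :=
    ha.sub (analyticOnNhd_const.mul hb)
  have h6 : ∀ᶠ z in 𝓝 z0, a z - a z0 / b z0 * b z = 0 := by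
    obtain ⟨r, hr, hrs⟩ := Metric.mem_nhds_iff.1 (Filter.inter_mem (hΩ.mem_nhds hz0)
      ((hb z0 hz0).continuousAt.eventually_ne hb0))
    filter_upwards [ball_mem_nhds z0 hr] with z hz
    have h7 : a z / b z = a z0 / b z0 := by
      have h8 : ∀ w ∈ ball z0 r, HasDerivWithinAt (fun w => a w / b w) 0 (ball z0 r) w := by
        intro w hw
        have h9 := ((ha w (hrs hw).1).differentiableAt.fun_div
          (hb w (hrs hw).1).differentiableAt (hrs hw).2).hasDerivAt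
        rw [h w (hrs hw).1 (hrs hw).2] at h9
        exact h9.hasDerivWithinAt
      have h9 := (convex_ball z0 r).norm_image_sub_le_of_norm_hasDerivWithin_le
        (f := fun w => a w / b w) (f' := fun _ => 0) (C := 0) h8 (fun w _ => by simp)
        (mem_ball_self hr) hz
      rw [zero_mul] at h9
      exact sub_eq_zero.1 (norm_le_zero_iff.1 h9)
    rw [← h7, div_mul_cancel₀ _ (hrs hz).2, sub_self]
  intro z hz
  have h7 := h5.eqOn_zero_of_preconnected_of_eventuallyEq_zero hΩc hz0 h6 hz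
  exact sub_eq_zero.1 h7

/-- curves along which the symmetric differentials vanish -/
theorem const_of_along (hp : Pool.Agent.W603.PV.IsHomog p) {m N : ℕ} {s : Fin N → SymDiff p m}
    (hs : Gens p m s) (hΩ : IsOpen Ω) (hΩc : IsPreconnected Ω)
    (han : ∀ j, AnalyticOnNhd ℂ (fun w => f w j) Ω) (hne : ∀ z ∈ Ω, f z ≠ 0)
    (hX : ∀ z ∈ Ω, ∀ H ∈ p, eval (f z) H = 0) (h : ∀ l, ∀ z ∈ Ω, (s l).along f z = 0)
    {z0 : ℂ} (hz0 : z0 ∈ Ω) {j0 : Fin (n + 1)} (hj0 : f z0 j0 ≠ 0) (i : Fin (n + 1)) :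
    ∃ c : ℂ, ∀ z ∈ Ω, f z i = c * f z j0 := by
  refine const_of_deriv hΩ hΩc (han i) (han j0) hz0 hj0 fun z hz hz' => ?_
  obtain ⟨b, hb⟩ := hs.gen j0 fun _ => i
  have h1 := hb (f z) (dv f z) (tanVec_curve hΩ han hne hX hz) hz'
  rw [loc_curve (fun j => (han j z hz).differentiableAt) hz', Finset.prod_const,
    Finset.card_univ, Fintype.card_fin] at h1
  rw [Finset.sum_eq_zero fun l _ => by
    rw [← along_eq hp (s l) hΩ han hne hX hz hz', h l z hz, mul_zero]] at h1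
  exact pow_eq_zero_iff_of_pos' h1
where
  pow_eq_zero_iff_of_pos' {a : ℂ} {m : ℕ} (h : a ^ m = 0) : a = 0 := by
    by_contra h0
    exact pow_ne_zero m h0 h

/-- the values of symmetric differentials and inversion -/
theorem along_inv (hp : Pool.Agent.W603.PV.IsHomog p) {m : ℕ} (s : SymDiff p m)
    (hf : ∀ j, Differentiable ℂ fun z => f z j) (hne : ∀ z, f z ≠ 0)
    (hX : ∀ z, ∀ H ∈ p, eval (f z) H = 0) {g : ℂ → Fin (n + 1) → ℂ}
    (hg : ∀ j, AnalyticOnNhd ℂ (fun w => g w j) (ball 0 1)) (hgne : ∀ z ∈ ball (0 : ℂ) 1, g z ≠ 0)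
    (hgX : ∀ z ∈ ball (0 : ℂ) 1, ∀ H ∈ p, eval (g z) H = 0)
    (hfg : ∀ w ∈ PB 1, ∃ c : ℂ, f w⁻¹ = c • g w) {z : ℂ} (hz : 1 < ‖z‖) :
    s.along f z = (-(z ^ 2)⁻¹) ^ m * s.along g z⁻¹ := by
  have hfan : ∀ j, AnalyticOnNhd ℂ (fun w => f w j) univ := fun j z _ => (hf j).analyticAt z
  have hz0 : z ≠ 0 := by
    intro h0
    rw [h0, norm_zero] at hz
    linarith
  have hzi : z⁻¹ ∈ PB 1 := ⟨inv_ne_zero hz0, by
    rw [norm_inv]
    exact inv_lt_one_of_one_lt₀ hz⟩
  have hzb : z⁻¹ ∈ ball (0 : ℂ) 1 := by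
    rw [mem_ball_zero_iff]
    exact hzi.2
  obtain ⟨c, hc⟩ := hfg _ hzi
  rw [inv_inv] at hc
  obtain ⟨j, hj⟩ := Function.ne_iff.1 (hne z)
  have hj' : f z j ≠ 0 := hj
  have hgj : g z⁻¹ j ≠ 0 := by
    intro h0
    apply hj'
    rw [hc, Pi.smul_apply, h0, smul_zero]
  rw [along_eq hp s isOpen_univ hfan (fun z _ => hne z) (fun z _ => hX z) (mem_univ z) hj',
    along_eq hp s isOpen_ball hg hgne hgX hzb hgj, ← ae, ← ae,
    ← aeval_scale_inr (s.hom j)]
  have hU : {w : ℂ | 1 < ‖w‖ ∧ f w j ≠ 0} ∈ 𝓝 z := by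
    refine Filter.inter_mem ((isOpen_lt continuous_const continuous_norm).mem_nhds hz) ?_
    exact (hf j).continuous.continuousAt.eventually_ne hj'
  have hq : ∀ i, (fun w => f w i / f w j) =ᶠ[𝓝 z] fun w => g w⁻¹ i / g w⁻¹ j := by
    intro i
    filter_upwards [hU] with w hw
    have hw0 : w ≠ 0 := by
      intro h0
      have := hw.1
      rw [h0, norm_zero] at this
      linarith
    obtain ⟨c, hc⟩ := hfg w⁻¹ ⟨inv_ne_zero hw0, by
      rw [norm_inv]
      exact inv_lt_one_of_one_lt₀ hw.1⟩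
    rw [inv_inv] at hc
    have hc0 : c ≠ 0 := by
      rintro rfl
      apply hw.2
      rw [hc, Pi.smul_apply, zero_smul]
    rw [hc, Pi.smul_apply, Pi.smul_apply, smul_eq_mul, smul_eq_mul, mul_div_mul_left _ _ hc0]
  congr 2
  funext k
  rcases k with k | k
  · exact (hq k).self_of_nhds
  · change deriv (fun w => f w k / f w j) z = -(z ^ 2)⁻¹ * deriv (fun w => g w k / g w j) z⁻¹
    rw [(hq k).deriv_eq]
    have h1 : HasDerivAt (fun w => g w k / g w j) (deriv (fun w => g w k / g w j) z⁻¹) z⁻¹ :=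
      ((hg k _ hzb).differentiableAt.fun_div (hg j _ hzb).differentiableAt hgj).hasDerivAt
    have h2 := h1.comp z (hasDerivAt_inv hz0)
    refine h2.deriv.trans ?_
    ring

/-- **Entire curves** whose Zariski closure is of general type are constant. -/
theorem entire_not_gt (hp : Pool.Agent.W603.PV.IsHomog p) {m N : ℕ} {s : Fin N → SymDiff p m}
    (hs : Gens p m s) (hm : 1 ≤ m) (hf : ∀ j, Differentiable ℂ fun z => f z j)
    (hne : ∀ z, f z ≠ 0) (hX : ∀ z, ∀ H ∈ p, eval (f z) H = 0)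
    (hnc : ∃ z w, ∀ c : ℂ, f z ≠ c • f w)
    {K : Type} [Field K] [Algebra ℂ K] {w : ℕ} {y : Fin (n + 1) → K} (hy : GenPt f univ K w y) :
    ¬ GeneralType ℂ K w := by
  intro hGT
  have hfan : ∀ j, AnalyticOnNhd ℂ (fun w => f w j) univ := fun j z _ => (hf j).analyticAt z
  have hinv : ∀ w ∈ PB 1, w ≠ 0 := fun w hw => hw.1
  have han : ∀ j, AnalyticOnNhd ℂ (fun w => f w⁻¹ j) (PB 1) := fun j w hw =>
    ((hf j).analyticAt w⁻¹).fun_comp (analyticAt_inv (hinv w hw))
  have hy' : GenPt (fun w => f w⁻¹) (PB 1) K w y := by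
    refine ⟨hy.ne, hy.gen, hy.dim, fun G hG => (hy.rel G hG).trans
      ⟨fun h z _ => h _ (mem_univ _), fun h z _ => ?_⟩⟩
    have h1 : AnalyticOnNhd ℂ (fun z => eval (f z) G) univ := eval_an' hfan G
    refine h1.eqOn_zero_of_preconnected_of_eventuallyEq_zero isPreconnected_univ
      (z₀ := 2) (mem_univ _) ?_ (mem_univ z)
    have h2 : {w : ℂ | 1 < ‖w‖} ∈ 𝓝 (2 : ℂ) :=
      (isOpen_lt continuous_const continuous_norm).mem_nhds (by simp)
    filter_upwards [h2] with w hw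
    have hw0 : w ≠ 0 := by
      intro h0
      have : 1 < ‖w‖ := hw
      rw [h0, norm_zero] at this
      linarith
    have h3 := h w⁻¹ ⟨inv_ne_zero hw0, by
      rw [norm_inv]
      exact inv_lt_one_of_one_lt₀ hw⟩
    rw [inv_inv] at h3
    exact h3
  obtain ⟨g, hgd, hgne, hgf⟩ := pcurve_ext hp hs hm han (fun z _ => hne _) (fun z _ => hX _) hy' hGT
  have hgf' : ∀ w ∈ PB 1, ∃ c : ℂ, f w⁻¹ = c • g w := by
    intro w hw
    exact hgf w (by rw [Pool.Agent.Helper4K9.IP.pb_eq]; exact hw)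
  have hgan : ∀ j, AnalyticOnNhd ℂ (fun w => g w j) (ball 0 1) := fun j =>
    (differentiableOn_pi.1 hgd j).analyticOnNhd isOpen_ball
  have hgX1 : ∀ z ∈ PB 1, ∀ H ∈ p, eval (g z) H = 0 := by
    intro z hz H hH
    obtain ⟨c, hc⟩ := hgf' z hz
    have hc0 : c ≠ 0 := by
      rintro rfl
      rw [zero_smul] at hc
      exact hne _ hc
    rw [← sum_homogeneousComponent H, map_sum]
    refine Finset.sum_eq_zero fun d _ => ?_
    have h1 := hX z⁻¹ _ (hp H hH d)
    rw [hc] at h1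
    have h2 := Pool.Agent.W603.PV.aeval_scale (homogeneousComponent_isHomogeneous d H) (g z) c
    rw [ae, ae] at h2
    have h3 : (fun j => c * g z j) = c • g z := rfl
    rw [h3, h1] at h2
    exact (mul_eq_zero.1 h2.symm).resolve_left (pow_ne_zero _ hc0)
  have hgX : ∀ z ∈ ball (0 : ℂ) 1, ∀ H ∈ p, eval (g z) H = 0 := by
    intro z hz H hH
    by_cases h0 : z = 0
    · have h1 : AnalyticOnNhd ℂ (fun z => eval (g z) H) (ball 0 1) := eval_an' hgan H
      have h2 : (fun z => eval (g z) H) =ᶠ[𝓝[≠] (0 : ℂ)] fun _ => 0 := by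
        filter_upwards [nhdsWithin_le_nhds (ball_mem_nhds (0 : ℂ) one_pos),
          self_mem_nhdsWithin] with w hw hw0
        exact hgX1 w ⟨hw0, by rwa [mem_ball_zero_iff] at hw⟩ H hH
      rw [h0]
      exact ((h1 0 (mem_ball_self one_pos)).continuousAt.eventuallyEq_nhds_iff_eventuallyEq_nhdsNE
        continuousAt_const).1 h2 |>.self_of_nhds
    · exact hgX1 z ⟨h0, by rwa [mem_ball_zero_iff] at hz⟩ H hH
  -- the values of the symmetric differentials vanish
  have hzero : ∀ l, ∀ z ∈ univ, (s l).along f z = 0 := by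
    intro l
    have h1 : AnalyticOnNhd ℂ ((s l).along f) univ :=
      along_an hp (s l) isOpen_univ hfan (fun z _ => hne z) fun z _ => hX z
    have h2 : Differentiable ℂ ((s l).along f) := fun z => (h1 z (mem_univ z)).differentiableAt
    have h3 : AnalyticOnNhd ℂ ((s l).along g) (ball 0 1) :=
      along_an hp (s l) isOpen_ball hgan hgne hgX
    have h4 : Tendsto ((s l).along f) (cocompact ℂ) (𝓝 0) := by
      have h5 : Tendsto (fun z : ℂ => z⁻¹) (cocompact ℂ) (𝓝 0) := by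
        rw [← Metric.cobounded_eq_cocompact]
        exact tendsto_inv₀_cobounded
      have h6 : Tendsto (fun z : ℂ => (-(z⁻¹ ^ 2)) ^ m * (s l).along g z⁻¹) (cocompact ℂ)
          (𝓝 ((-((0 : ℂ) ^ 2)) ^ m * (s l).along g 0)) :=
        (((h5.pow 2).neg).pow m).mul
          ((h3 0 (mem_ball_self one_pos)).continuousAt.tendsto.comp h5)
      have h7 : (-((0 : ℂ) ^ 2)) ^ m * (s l).along g 0 = 0 := by
        rw [zero_pow two_ne_zero, neg_zero, zero_pow (by omega), zero_mul]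
      rw [h7] at h6
      refine h6.congr' ?_
      have h8 : ∀ᶠ z : ℂ in cocompact ℂ, 1 < ‖z‖ := tendsto_norm_cocompact_atTop.eventually_gt_atTop 1
      filter_upwards [h8] with z hz
      rw [along_inv hp (s l) hf hne hX hgan hgne hgX hgf' hz, inv_pow]
    intro z _
    rw [h2.eq_const_of_tendsto_cocompact h4]
    rfl
  obtain ⟨z1, w1, hzw⟩ := hnc
  obtain ⟨j0, hj0⟩ := Function.ne_iff.1 (hne w1)
  have hj0' : f w1 j0 ≠ 0 := hj0
  choose c hc using const_of_along hp hs isOpen_univ isPreconnected_univ hfan (fun z _ => hne z)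
    (fun z _ => hX z) hzero (mem_univ w1) hj0'
  apply hzw (f z1 j0 / f w1 j0)
  funext i
  rw [Pi.smul_apply, smul_eq_mul, hc i z1 (mem_univ _), hc i w1 (mem_univ _)]
  field_simp

end Pool.Agent.H917
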