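import Pool.Agent.H917.A8
import Pool.Graph.R_seed8.Y174.T2
import Pool.Graph.R_seed8.W602.GT.Defs

/-!
Forms given by determinants of symmetric differentials along a foliation.
-/

set_option autoImplicit false
set_option linter.overlappingInstances false
set_option linter.unusedSectionVars false

open FF MvPolynomial Pool.Agent.W603.LV Pool.Agent.W619.PQ Pool.Agent.W619.TW Pool.Agent.Y174
  Pool.Agent.Y174.T Pool.Agent.W619.Y

namespace Pool.Agent.H917

section minor

variable {k F : Type} [Field k] [Field F] [Algebra k F]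

theorem reg_sub' {P : Place k F} {a b : F} (ha : P.Reg a) (hb : P.Reg b) : P.Reg (a - b) := by
  rw [sub_eq_add_neg]
  exact P.reg_add ha (P.reg_neg hb)

theorem reg_quot {P : Place k F} {a b : F} (hb : b ≠ 0) (h : a ≠ 0 → P.ord b ≤ P.ord a) :
    P.Reg (a / b) := by
  by_cases ha : a = 0
  · rw [ha, zero_div]
    exact P.reg_zero
  · refine Or.inr ?_
    rw [div_eq_mul_inv, P.ord_mul ha (inv_ne_zero hb), P.ord_inv]
    have := h ha
    omega

/-- the minor of the smallest order -/
theorem exists_minor (P : Place k F) {κ r : ℕ} (g : Fin (κ + r) → Fin κ → F)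
    (h : ∃ a : Fin κ → Fin (κ + r), (Matrix.of fun i j => g (a i) j).det ≠ 0) :
    ∃ (e : Fin κ ⊕ Fin r ≃ Fin (κ + r)) (lam : Fin r → Fin κ → F),
      (Matrix.of fun i j => g (e (Sum.inl i)) j).det ≠ 0 ∧ (∀ c i, P.Reg (lam c i)) ∧
      ∀ c j, g (e (Sum.inr c)) j = ∑ i, lam c i * g (e (Sum.inl i)) j := by
  classical
  let S : Finset (Fin κ → Fin (κ + r)) := Finset.univ.filter fun a =>
    (Matrix.of fun i j => g (a i) j).det ≠ 0
  have hS : S.Nonempty := by
    obtain ⟨a, ha⟩ := h
    exact ⟨a, Finset.mem_filter.2 ⟨Finset.mem_univ _, ha⟩⟩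
  obtain ⟨a, haS, hmin⟩ := Finset.exists_min_image S
    (fun a => P.ord (Matrix.of fun i j => g (a i) j).det) hS
  have ha := (Finset.mem_filter.1 haS).2
  have hinj : Function.Injective a := by
    intro i i' hii
    by_contra hne
    apply ha
    refine Matrix.det_zero_of_row_eq hne ?_
    funext j
    rw [Matrix.of_apply, Matrix.of_apply, hii]
  have hcard : Fintype.card ((Set.range a)ᶜ : Set (Fin (κ + r))) = r := by
    rw [Fintype.card_compl_set, Set.card_range_of_injective hinj, Fintype.card_fin,
      Fintype.card_fin]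
    omega
  let e1 : Fin κ ≃ Set.range a := Equiv.ofInjective a hinj
  let e2 : Fin r ≃ ((Set.range a)ᶜ : Set (Fin (κ + r))) := (Fintype.equivFinOfCardEq hcard).symm
  let e : Fin κ ⊕ Fin r ≃ Fin (κ + r) := (Equiv.sumCongr e1 e2).trans (Equiv.Set.sumCompl _)
  have he : ∀ i, e (Sum.inl i) = a i := fun i => rfl
  let A : Matrix (Fin κ) (Fin κ) F := Matrix.of fun i j => g (a i) j
  refine ⟨e, fun c i => (A.updateRow i (g (e (Sum.inr c)))).det / A.det, ha, fun c i => ?_,
    fun c j => ?_⟩
  · refine reg_quot ha fun h0 => ?_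
    have h1 : A.updateRow i (g (e (Sum.inr c))) =
        Matrix.of fun i' j => g (Function.update a i (e (Sum.inr c)) i') j := by
      ext i' j
      by_cases hi : i' = i
      · rw [hi, Matrix.updateRow_self, Matrix.of_apply, Function.update_self]
      · rw [Matrix.updateRow_ne hi, Matrix.of_apply, Function.update_of_ne hi]
        rfl
    rw [h1] at h0 ⊢
    exact hmin _ (Finset.mem_filter.2 ⟨Finset.mem_univ _, h0⟩)
  · have h1 := congrFun (Matrix.mulVec_cramer A.transpose (g (e (Sum.inr c)))) j
    rw [Matrix.mulVec, dotProduct, Pi.smul_apply, smul_eq_mul, Matrix.det_transpose] at h1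
    simp only [Matrix.cramer_transpose_apply, Matrix.transpose_apply] at h1
    have h2 : A.det ≠ 0 := ha
    have h3 : ∑ i, (A.updateRow i (g (e (Sum.inr c)))).det / A.det * g (e (Sum.inl i)) j =
        (∑ i, A i j * (A.updateRow i (g (e (Sum.inr c)))).det) / A.det := by
      rw [Finset.sum_div]
      refine Finset.sum_congr rfl fun i _ => ?_
      have h4 : A i j = g (e (Sum.inl i)) j := rfl
      rw [← h4]
      ring
    rw [h3, h1, mul_div_cancel_left₀ _ h2]

/-- block matrices and the sign -/
theorem det_perm {ι κ' : Type} [Fintype ι] [DecidableEq ι] [Fintype κ'] [DecidableEq κ']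
    (M : Matrix κ' κ' F) (e f : ι ≃ κ') :
    ∃ ε : F, (ε = 1 ∨ ε = -1) ∧ M.det = ε * (M.submatrix e f).det := by
  have h1 : M.submatrix e f = (M.submatrix (f.symm.trans e) id).submatrix f f := by
    ext i j
    simp
  rw [h1, Matrix.det_submatrix_equiv_self, Matrix.det_permute]
  rcases Int.units_eq_one_or (Equiv.Perm.sign (f.symm.trans e)) with h | h
  · exact ⟨1, Or.inl rfl, by rw [h]; simp⟩
  · exact ⟨-1, Or.inr rfl, by rw [h]; simp⟩

end minor

section form

variable {k F : Type} [Field k] [CharZero k] [Field F] [Algebra k F]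

/-- the polynomial `p` gives a symmetric differential along the foliation `t = const` which is
regular at the places in `V` -/
def RegSym (V : Set (Place k F)) {κ r : ℕ} (t : Fin κ → F) (η : Fin r → F)
    (q : MvPolynomial (Fin r) F) : Prop :=
  ∀ P ∈ V, ∀ D : Derivation k F F, Pres P D → (∀ i, D (t i) = 0) →
    P.Reg (eval (fun c => D (η c)) q)

theorem RegSym.mul {V : Set (Place k F)} {κ r : ℕ} {t : Fin κ → F} {η : Fin r → F}
    {q q' : MvPolynomial (Fin r) F} (h : RegSym V t η q) (h' : RegSym V t η q') :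
    RegSym V t η (q * q') := by
  intro P hP D hD hDt
  rw [map_mul]
  exact P.reg_mul (h P hP D hD hDt) (h' P hP D hD hDt)

theorem RegSym.prod {V : Set (Place k F)} {κ r : ℕ} {t : Fin κ → F} {η : Fin r → F} {ι : Type}
    (s : Finset ι) {q : ι → MvPolynomial (Fin r) F} (h : ∀ i ∈ s, RegSym V t η (q i)) :
    RegSym V t η (∏ i ∈ s, q i) := by
  classical
  induction s using Finset.induction_on with
  | empty =>
    intro P hP D hD hDt
    rw [Finset.prod_empty, map_one]
    exact P.reg_one
  | insert a s ha ih =>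
    rw [Finset.prod_insert ha]
    exact (h a (Finset.mem_insert_self a s)).mul (ih fun i hi => h i (Finset.mem_insert_of_mem hi))

theorem pres_comb {P : Place k F} {ι : Type} (s : Finset ι) (c : ι → F) (D : ι → Derivation k F F)
    (hc : ∀ i ∈ s, P.Reg (c i)) (hD : ∀ i ∈ s, Pres P (D i)) : Pres P (∑ i ∈ s, c i • D i) := by
  intro f hf
  rw [der_sum]
  exact Ge.sum _ _ fun i hi => P.reg_mul (hc i hi) (hD i hi f hf)

/-- **The pluricanonical forms given by symmetric differentials along a foliation.** -/
theorem form_of_sym {V : Set (Place k F)} {κ r q' N w : ℕ} {t : Fin κ → F} {η : Fin r → F}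
    (hw : ∀ A : Matrix (Fin r) (Fin r) F, chi q' A = A.det ^ w) (hw1 : 1 ≤ w)
    {z : Fin (κ + r) → F} (hz : z = Fin.append t η) {g0 : F}
    (hg0 : g0 ∈ WN V z N) (hg : ∀ i, t i * g0 ∈ WN V z N)
    (J : Ex r q' → homogeneousSubmodule (Fin r) F q')
    (hJ : ∀ j, RegSym V t η (J j : MvPolynomial (Fin r) F)) :
    haveI : DecidableEq (Ex r q') := Classical.decEq _
    (cf J).det * g0 ^ (2 * κ * w) ∈ WN V z (w + 2 * κ * w * N) := by
  classical
  intro P hP G hG
  obtain ⟨Δ, hΔ⟩ : ∃ Δ, Δ = (cf J).det := ⟨_, rfl⟩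
  have hcf : @Matrix.det _ (Classical.decEq _) _ _ _ (cf J) = Δ := by
    rw [hΔ]
    exact congrArg (fun i => @Matrix.det _ i _ _ _ (cf J)) (Subsingleton.elim _ _)
  rw [hcf]
  obtain ⟨M, hM⟩ : ∃ M : Matrix (Fin (κ + r)) (Fin (κ + r)) F, M = Matrix.of fun i j => G i (z j) :=
    ⟨_, rfl⟩
  rw [← hM]
  by_cases hcase : ∃ a : Fin κ → Fin (κ + r), (Matrix.of fun i j => G (a i) (t j)).det ≠ 0
  swap
  · -- all minors vanish
    have hdet : M.det = 0 := by
      by_contra hne
      apply hcase
      -- the columns are independent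
      have h1 : LinearIndependent F (fun j => M.transpose j) := by
        have h2 : M.transpose.det ≠ 0 := by rwa [Matrix.det_transpose]
        exact Matrix.linearIndependent_rows_iff_isUnit.2
          ((Matrix.isUnit_iff_isUnit_det _).2 (isUnit_iff_ne_zero.2 h2))
      have h2 : LinearIndependent F fun (j : Fin κ) (i : Fin (κ + r)) => G i (t j) := by
        have h3 := h1.comp (Fin.castAdd r) (Fin.castAdd_injective κ r)
        have h4 : (fun (j : Fin κ) (i : Fin (κ + r)) => G i (t j)) =
            (fun j => M.transpose j) ∘ Fin.castAdd r := by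
          funext j i
          simp only [Function.comp_apply, Matrix.transpose_apply, hM, Matrix.of_apply, hz,
            Fin.append_left]
        rw [h4]
        exact h3
      -- the row space is everything
      have h4 : Submodule.span F (Set.range fun (i : Fin (κ + r)) (j : Fin κ) => G i (t j)) = ⊤ := by
        by_contra hcon
        obtain ⟨φ, hφ0, hφ⟩ := Submodule.exists_le_ker_of_lt_top _ (lt_top_iff_ne_top.2 hcon)
        apply hφ0
        let c : Fin κ → F := fun j => φ (Pi.single j 1)
        have hφc : ∀ x : Fin κ → F, φ x = ∑ j, x j * c j := by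
          intro x
          have h5 : x = ∑ j, x j • (Pi.single j (1 : F) : Fin κ → F) := by
            funext i
            rw [Finset.sum_apply]
            simp [Pi.single_apply]
          conv_lhs => rw [h5]
          rw [map_sum]
          refine Finset.sum_congr rfl fun j _ => ?_
          rw [map_smul, smul_eq_mul]
        have h5 : ∑ j, c j • (fun i : Fin (κ + r) => G i (t j)) = 0 := by
          funext i
          rw [Finset.sum_apply, Pi.zero_apply]
          have h6 := hφ (Submodule.subset_span ⟨i, rfl⟩)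
          change φ _ = 0 at h6
          rw [hφc] at h6
          rw [← h6]
          refine Finset.sum_congr rfl fun j _ => ?_
          rw [Pi.smul_apply, smul_eq_mul, mul_comm]
        have h6 := Fintype.linearIndependent_iff.1 h2 c h5
        apply LinearMap.ext
        intro x
        rw [hφc, LinearMap.zero_apply]
        exact Finset.sum_eq_zero fun j _ => by rw [h6 j, mul_zero]
      obtain ⟨β, hβ⟩ := exists_det (I := Fin κ)
        (fun (i : Fin (κ + r)) (j : Fin κ) => G i (t j)) h4
      exact ⟨β, hβ⟩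
    rw [hdet, zero_pow (by omega), zero_mul]
    exact P.reg_zero
  obtain ⟨e, lam, hδ, hlam, hrel⟩ := exists_minor P (fun i j => G i (t j)) hcase
  -- the adapted vector fields
  let T : Fin r → Derivation k F F := fun c => G (e (Sum.inr c)) -
    ∑ i, lam c i • G (e (Sum.inl i))
  have hTp : ∀ c, Pres P (T c) := by
    intro c f hf
    have h1 := pres_comb (P := P) Finset.univ (lam c) (fun i => G (e (Sum.inl i)))
      (fun i _ => hlam c i) (fun i _ => hG _) f hf
    change P.Reg ((G (e (Sum.inr c)) - ∑ i, lam c i • G (e (Sum.inl i))) f)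
    rw [Derivation.sub_apply]
    exact reg_sub' (hG _ f hf) h1
  have hTa : ∀ c f, T c f = G (e (Sum.inr c)) f - ∑ i, lam c i * G (e (Sum.inl i)) f := by
    intro c f
    change (G (e (Sum.inr c)) - ∑ i, lam c i • G (e (Sum.inl i))) f = _
    rw [Derivation.sub_apply, der_sum]
  have hTt : ∀ c j, T c (t j) = 0 := by
    intro c j
    rw [hTa, hrel c j, sub_self]
  obtain ⟨δ, hδd⟩ : ∃ δ, δ = (Matrix.of fun i j => G (e (Sum.inl i)) (t j)).det := ⟨_, rfl⟩
  obtain ⟨A, hA⟩ : ∃ A : Matrix (Fin r) (Fin r) F, A = Matrix.of fun c j => T c (η j) := ⟨_, rfl⟩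
  -- the determinant
  obtain ⟨ε, hε, hdet⟩ := det_perm M e (finSumFinEquiv (m := κ) (n := r))
  have hblock : M.submatrix e (finSumFinEquiv (m := κ) (n := r)) = Matrix.fromBlocks
      (Matrix.of fun i j => G (e (Sum.inl i)) (t j)) (Matrix.of fun i j => G (e (Sum.inl i)) (η j))
      (Matrix.of fun i j => G (e (Sum.inr i)) (t j))
      (Matrix.of fun i j => G (e (Sum.inr i)) (η j)) := by
    ext i j
    rcases i with i | i <;> rcases j with j | j <;>
      simp [hM, hz]
  have hschur : (Matrix.fromBlocks
      (Matrix.of fun i j => G (e (Sum.inl i)) (t j)) (Matrix.of fun i j => G (e (Sum.inl i)) (η j))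
      (Matrix.of fun i j => G (e (Sum.inr i)) (t j))
      (Matrix.of fun i j => G (e (Sum.inr i)) (η j))).det = δ * A.det := by
    have h1 : Matrix.fromBlocks (1 : Matrix (Fin κ) (Fin κ) F) 0 (-(Matrix.of lam))
        (1 : Matrix (Fin r) (Fin r) F) * (Matrix.fromBlocks
      (Matrix.of fun i j => G (e (Sum.inl i)) (t j)) (Matrix.of fun i j => G (e (Sum.inl i)) (η j))
      (Matrix.of fun i j => G (e (Sum.inr i)) (t j))
      (Matrix.of fun i j => G (e (Sum.inr i)) (η j))) = Matrix.fromBlocks
        (Matrix.of fun i j => G (e (Sum.inl i)) (t j))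
        (Matrix.of fun i j => G (e (Sum.inl i)) (η j)) 0 A := by
      rw [Matrix.fromBlocks_multiply]
      congr 1
      · simp
      · simp
      · ext c j
        rw [Matrix.add_apply, Matrix.mul_apply, Matrix.one_mul, Matrix.of_apply, Matrix.zero_apply,
          hrel c j]
        simp
      · ext c j
        rw [Matrix.add_apply, Matrix.mul_apply, Matrix.one_mul, Matrix.of_apply, hA,
          Matrix.of_apply, hTa]
        simp only [Matrix.neg_apply, Matrix.of_apply, neg_mul, Finset.sum_neg_distrib]
        ring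
    have h2 := congrArg Matrix.det h1
    rw [Matrix.det_mul, Matrix.det_fromBlocks_zero₁₂, Matrix.det_one, Matrix.det_one, one_mul,
      one_mul, Matrix.det_fromBlocks_zero₂₁, ← hδd] at h2
    exact h2
  have hMdet : M.det = ε * (δ * A.det) := by rw [hdet, hblock, hschur]
  -- the base form
  obtain ⟨b0, hb0⟩ : ∃ b0, b0 = M.det ^ N * g0 := ⟨_, rfl⟩
  have hb0r : P.Reg b0 := by
    rw [hb0, hM]
    exact hg0 P hP G hG
  have hb1r : ∀ i, P.Reg (t i * b0) := by
    intro i
    have h1 := hg i P hP G hG
    rw [← hM] at h1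
    rw [hb0, show t i * (M.det ^ N * g0) = M.det ^ N * (t i * g0) by ring]
    exact h1
  have hpart1 : P.Reg (δ * b0 ^ (2 * κ)) := by
    have h1 : δ * b0 ^ (2 * κ) =
        (Matrix.of fun i j => b0 ^ 2 * G (e (Sum.inl i)) (t j)).det := by
      have h2 : (Matrix.of fun i j => b0 ^ 2 * G (e (Sum.inl i)) (t j)) =
          b0 ^ 2 • (Matrix.of fun i j => G (e (Sum.inl i)) (t j)) := by
        ext i j
        simp
      rw [h2, Matrix.det_smul, Fintype.card_fin, ← hδd, ← pow_mul, mul_comm]
    rw [h1]
    refine Pool.Agent.W619.PQ.ge_det P _ fun i j => ?_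
    have h2 : b0 ^ 2 * G (e (Sum.inl i)) (t j) = b0 * G (e (Sum.inl i)) (t j * b0) -
        (t j * b0) * G (e (Sum.inl i)) b0 := by
      rw [Derivation.leibniz]
      simp only [smul_eq_mul]
      ring
    rw [Matrix.of_apply, h2]
    exact reg_sub' (P.reg_mul hb0r (hG _ _ (hb1r j))) (P.reg_mul (hb1r j) (hG _ _ hb0r))
  -- the symmetric differentials
  obtain ⟨β, hβ⟩ := exists_points k F r q'
  have hpart2 : P.Reg (A.det ^ w * Δ) := by
    have h1 := det_sub (fun l i => algebraMap k F (β l i)) A J
    rw [hw A, ← hΔ] at h1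
    obtain ⟨c, hc⟩ : ∃ c : k, algebraMap k F c = (Matrix.of fun (l d : Ex r q') =>
        eval (fun i => algebraMap k F (β l i)) (mono F r q' d : MvPolynomial (Fin r) F)).det := by
      refine ⟨(Matrix.of fun (l d : Ex r q') =>
        eval (β l) (mono k r q' d : MvPolynomial (Fin r) k)).det, ?_⟩
      rw [RingHom.map_det]
      congr 1
      ext l d
      rw [RingHom.mapMatrix_apply, Matrix.map_apply, Matrix.of_apply, Matrix.of_apply]
      change algebraMap k F (eval (β l) (monomial d.1 1)) =
        eval (fun i => algebraMap k F (β l i)) (monomial d.1 1)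
      rw [eval_monomial, eval_monomial, one_mul, one_mul, Finsupp.prod, Finsupp.prod, map_prod]
      refine Finset.prod_congr rfl fun i _ => ?_
      rw [map_pow]
    have hc0 : c ≠ 0 := by
      rintro rfl
      rw [map_zero] at hc
      exact hβ hc.symm
    have h2 : P.Reg (Matrix.of fun l j : Ex r q' => eval (fun i => algebraMap k F (β l i))
        (sub A (J j : MvPolynomial (Fin r) F))).det := by
      refine Pool.Agent.W619.PQ.ge_det P _ fun l j => ?_
      rw [Matrix.of_apply, Pool.Agent.Y174.T.eval_sub]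
      have h3 := hJ j P hP (∑ i, algebraMap k F (β l i) • T i)
        (pres_comb Finset.univ _ T (fun i _ => P.reg_const _) fun i _ => hTp i) (fun i => by
          rw [der_sum]
          exact Finset.sum_eq_zero fun c _ => by rw [hTt, mul_zero])
      have h4 : (fun c => (∑ i, algebraMap k F (β l i) • T i) (η c)) =
          fun c => ∑ i, algebraMap k F (β l i) * A i c := by
        funext c
        rw [der_sum, hA]
        rfl
      rw [h4] at h3
      exact h3
    rw [h1, ← hc, mul_assoc] at h2
    have h3 := P.reg_mul (P.reg_const c⁻¹) h2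
    rw [← mul_assoc, ← map_mul, inv_mul_cancel₀ hc0, map_one, one_mul] at h3
    exact h3
  have hfin : M.det ^ (w + 2 * κ * w * N) * (Δ * g0 ^ (2 * κ * w)) =
      ε ^ w * ((δ * b0 ^ (2 * κ)) ^ w * (A.det ^ w * Δ)) := by
    have h1 : M.det ^ (w + 2 * κ * w * N) * (Δ * g0 ^ (2 * κ * w)) =
        M.det ^ w * (M.det ^ N * g0) ^ (2 * κ * w) * Δ := by
      rw [mul_pow, pow_add, show 2 * κ * w * N = N * (2 * κ * w) by ring, pow_mul]
      ring
    rw [h1, ← hb0, hMdet, mul_pow, mul_pow, mul_pow, pow_mul]
    ring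
  rw [hfin]
  refine P.reg_mul ?_ (P.reg_mul (reg_pow' hpart1 w) hpart2)
  refine reg_pow' ?_ w
  rcases hε with rfl | rfl
  · exact P.reg_one
  · exact P.reg_neg P.reg_one

end form

end Pool.Agent.H917
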