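import Pool.Agent.H917.C1

/-!
Varieties which are not of general type: the Iitaka fibration.
-/

set_option autoImplicit false
set_option linter.overlappingInstances false
set_option linter.unusedSectionVars false

open FF MvPolynomial Pool.Agent.W603.LV Pool.Agent.W619.PQ Pool.Agent.W602.GT
  Pool.Agent.W619.TW Pool.Agent.W619.Y

namespace Pool.Agent.H917

section

variable {k F : Type} [Field k] [CharZero k] [Field F] [Algebra k F]

/-- change of the frame -/
theorem WN_change {V : Set (Place k F)} {d N : ℕ} {z z' : Fin d → F}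
    {E' : Fin d → Derivation k F F} (hz' : Frm z' E') {g : F} (hg : g ∈ WN V z N) :
    (Matrix.of fun i j => E' i (z j)).det ^ N * g ∈ WN V z' N := by
  intro P hP G hG
  have h1 := hg P hP G hG
  rw [hz'.det_chain G z, mul_pow, mul_assoc] at h1
  exact h1

theorem Frm.det_ne {d : ℕ} {z z' : Fin d → F} {E E' : Fin d → Derivation k F F}
    (hz : Frm z E) (hz' : Frm z' E') : (Matrix.of fun i j => E' i (z j)).det ≠ 0 := by
  intro h
  have h1 := hz'.det_chain E z
  rw [h, mul_zero] at h1
  have h2 : (Matrix.of fun i j => E i (z j)) = 1 := by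
    ext i j
    rw [Matrix.of_apply, hz.dual, Matrix.one_apply]
  rw [h2, Matrix.det_one] at h1
  exact one_ne_zero h1

/-- There are `κ + 1` pluricanonical forms with algebraically independent ratios. -/
def HasForms (V : Set (Place k F)) (d κ : ℕ) : Prop :=
  ∃ (z : Fin d → F) (E : Fin d → Derivation k F F) (N : ℕ) (g : Fin (κ + 1) → F), Frm z E ∧
    1 ≤ N ∧ (∀ j, g j ∈ WN V z N) ∧ g 0 ≠ 0 ∧
    AlgebraicIndependent k fun i : Fin κ => g i.succ / g 0

theorem gt_of_forms {d : ℕ} (htr : Algebra.trdeg k F = d)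
    (h : HasForms {P : Place k F | Divisorial d P} d d) : GeneralType k F d := by
  obtain ⟨z, E, N, g, hz, hN, hg, hg0, hind⟩ := h
  have hE : (Matrix.of fun i j => E i (z j)).det = 1 := by
    have h2 : (Matrix.of fun i j => E i (z j)) = 1 := by
      ext i j
      rw [Matrix.of_apply, hz.dual, Matrix.one_apply]
    rw [h2, Matrix.det_one]
  refine ⟨htr, N, hN, fun j D => (Matrix.of fun i l => D i (z l)).det ^ N * g j,
    fun j A D => ?_, fun P hP j D hD => hg j P hP D hD, E, ?_, ?_⟩
  · have h1 : (Matrix.of fun i l => (∑ j, A i j • D j) (z l)) =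
        A * Matrix.of fun i l => D i (z l) := by
      ext i l
      rw [Matrix.of_apply, der_sum, Matrix.mul_apply]
      rfl
    change (Matrix.of fun i l => (∑ j, A i j • D j) (z l)).det ^ N * g j =
      A.det ^ N * ((Matrix.of fun i l => D i (z l)).det ^ N * g j)
    rw [h1, Matrix.det_mul, mul_pow, mul_assoc]
  · change (Matrix.of fun i l => E i (z l)).det ^ N * g 0 ≠ 0
    rw [hE, one_pow, one_mul]
    exact hg0
  · have h1 : (fun i : Fin d => (Matrix.of fun i l => E i (z l)).det ^ N * g i.succ /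
        ((Matrix.of fun i l => E i (z l)).det ^ N * g 0)) = fun i : Fin d => g i.succ / g 0 := by
      funext i
      rw [hE, one_pow, one_mul, one_mul]
    change AlgebraicIndependent k (fun i : Fin d => (Matrix.of fun i l => E i (z l)).det ^ N *
      g i.succ / ((Matrix.of fun i l => E i (z l)).det ^ N * g 0))
    rw [h1]
    exact hind

theorem indep_cons {κ : ℕ} {t : Fin κ → F} (ht : AlgebraicIndependent k t) {x : F}
    (hx : ¬ IsAlgebraic (IntermediateField.adjoin k (Set.range t)) x) :
    AlgebraicIndependent k (Fin.cons x t : Fin (κ + 1) → F) := by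
  have h1 : Transcendental (Algebra.adjoin k (Set.range t)) x := by
    intro h
    apply hx
    have h2 : Algebra.adjoin k (Set.range t) ≤
        (IntermediateField.adjoin k (Set.range t)).toSubalgebra := by
      rw [Algebra.adjoin_le_iff]
      exact IntermediateField.subset_adjoin k _
    obtain ⟨p, hp, hp0⟩ := h
    refine ⟨p.map (Subalgebra.inclusion h2).toRingHom, ?_, ?_⟩
    · rw [Ne, Polynomial.map_eq_zero_iff (Subalgebra.inclusion_injective h2)]
      exact hp
    · rw [Polynomial.aeval_def, Polynomial.eval₂_map]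
      exact hp0
  have h2 := (ht.option_iff_transcendental x).2 h1
  have h3 := h2.comp (finSuccEquiv κ) (finSuccEquiv κ).injective
  have h4 : (fun o : Option (Fin κ) => o.elim x t) ∘ finSuccEquiv κ = Fin.cons x t := by
    funext i
    refine Fin.cases ?_ (fun i => ?_) i
    · simp
    · simp
  rw [← h4]
  exact h3

/-- a transcendence basis which contains given independent elements -/
theorem extend_basis {d κ : ℕ} (htr : Algebra.trdeg k F = d) {t0 : Fin κ → F}
    (hind : AlgebraicIndependent k t0) : ∃ (r : ℕ) (_ : d = κ + r) (η : Fin r → F),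
      IsTranscendenceBasis k (Fin.append t0 η) := by
  classical
  obtain ⟨B, htB, hB⟩ := exists_isTranscendenceBasis_superset hind.to_subtype_range
  have hfinB : Finite B := by
    have h1 := hB.cardinalMk_eq_trdeg
    rw [htr] at h1
    rw [← Cardinal.lt_aleph0_iff_finite, h1]
    exact Cardinal.natCast_lt_aleph0
  obtain ⟨R, hR⟩ : ∃ R : Set F, R = B \ Set.range t0 := ⟨_, rfl⟩
  have hR' : ∀ b, b ∈ R → b ∈ B ∧ b ∉ Set.range t0 := by
    intro b hb
    rw [hR] at hb
    exact hb
  have hfinR : Finite R := by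
    rw [hR]
    exact (Set.toFinite B).subset Set.sdiff_subset
  obtain ⟨r, ⟨ψ⟩⟩ := Finite.exists_equiv_fin R
  let η : Fin κ ⊕ Fin r → B := Sum.elim (fun i => ⟨t0 i, htB ⟨i, rfl⟩⟩)
    fun j => ⟨ψ.symm j, (hR' _ (ψ.symm j).2).1⟩
  have hη : Function.Bijective η := by
    constructor
    · rintro (i | i) (j | j) hij
      · have h2 : t0 i = t0 j := congrArg Subtype.val hij
        exact congrArg Sum.inl (hind.injective h2)
      · exfalso
        have h2 : t0 i = ((ψ.symm j : R) : F) := congrArg Subtype.val hij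
        exact (hR' _ (ψ.symm j).2).2 ⟨i, h2⟩
      · exfalso
        have h2 : ((ψ.symm i : R) : F) = t0 j := congrArg Subtype.val hij
        exact (hR' _ (ψ.symm i).2).2 ⟨j, h2.symm⟩
      · have h2 : ((ψ.symm i : R) : F) = ((ψ.symm j : R) : F) :=
          congrArg (fun b : B => (b : F)) hij
        exact congrArg Sum.inr (ψ.symm.injective (Subtype.ext h2))
    · rintro ⟨b, hb⟩
      by_cases h : b ∈ Set.range t0
      · obtain ⟨i, rfl⟩ := h
        exact ⟨Sum.inl i, rfl⟩
      · have h2 : b ∈ R := by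
          rw [hR]
          exact ⟨hb, h⟩
        refine ⟨Sum.inr (ψ ⟨b, h2⟩), ?_⟩
        apply Subtype.ext
        change ((ψ.symm (ψ ⟨b, h2⟩) : R) : F) = b
        rw [Equiv.symm_apply_apply]
  obtain ⟨x, hx⟩ : ∃ x : Fin (κ + r) → F, x = Fin.append t0 fun j => ((ψ.symm j : R) : F) :=
    ⟨_, rfl⟩
  have hxb : IsTranscendenceBasis k x := by
    have h2 : x = (Subtype.val : B → F) ∘ (finSumFinEquiv.symm.trans (Equiv.ofBijective η hη)) := by
      funext i
      rw [hx]
      refine Fin.addCases (fun i => ?_) (fun i => ?_) i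
      · simp [η]
      · simp [η]
    rw [h2]
    exact hB.comp_equiv _
  refine ⟨r, ?_, fun j => ((ψ.symm j : R) : F), by rw [← hx]; exact hxb⟩
  have h2 := hxb.cardinalMk_eq_trdeg
  rw [htr, Cardinal.mk_fin] at h2
  exact_mod_cast h2.symm

/-- the coordinate vector fields -/
theorem exists_frm {d : ℕ} {z : Fin d → F} (hz : IsTranscendenceBasis k z) :
    ∃ E : Fin d → Derivation k F F, Frm z E := by
  choose E hE using fun i : Fin d => exists_der z hz fun j => if i = j then (1 : F) else 0
  exact ⟨E, hz, hE⟩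

theorem iitaka_core {d κ : ℕ} (htr : Algebra.trdeg k F = d) (hκ : κ < d) {V : Set (Place k F)}
    {t : Fin κ → F} (ht : AlgebraicIndependent k t)
    (h1 : ∀ (z : Fin d → F) (E : Fin d → Derivation k F F), Frm z E →
      ∃ (N : ℕ) (g0 : F), g0 ≠ 0 ∧ g0 ∈ WN V z N ∧ ∀ i : Fin κ, t i * g0 ∈ WN V z N)
    (h2 : ∀ (z : Fin d → F) (E : Fin d → Derivation k F F), Frm z E →
      ∀ N' : ℕ, 1 ≤ N' → ∀ a ∈ WN V z N', ∀ b ∈ WN V z N', a ≠ 0 →
        IsAlgebraic (IntermediateField.adjoin k (Set.range t)) (b / a)) :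
    ∃ (κ r : ℕ) (_ : d = κ + r) (t : Fin κ → F) (η : Fin r → F)
      (E : Fin (κ + r) → Derivation k F F), 1 ≤ r ∧ Frm (Fin.append t η) E ∧
      (∃ (N : ℕ) (g0 : F), g0 ≠ 0 ∧
        g0 ∈ WN V (Fin.append t η) N ∧
        ∀ i : Fin κ, t i * g0 ∈ WN V (Fin.append t η) N) ∧
      ∀ N' : ℕ, 1 ≤ N' → ∀ a ∈ WN V (Fin.append t η) N',
        ∀ b ∈ WN V (Fin.append t η) N', a ≠ 0 →
        IsAlgebraic (IntermediateField.adjoin k (Set.range t)) (b / a) := by
  obtain ⟨r, hr, η, hη⟩ := extend_basis htr ht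
  subst hr
  obtain ⟨E, hE⟩ := exists_frm hη
  exact ⟨κ, r, rfl, t, η, E, by omega, hE, h1 _ E hE, h2 _ E hE⟩

/-- **The Iitaka fibration.** -/
theorem exists_iitaka {d : ℕ} (hd1 : 1 ≤ d) (htr : Algebra.trdeg k F = d)
    (hngt : ¬ GeneralType k F d) :
    ∃ (κ r : ℕ) (_ : d = κ + r) (t : Fin κ → F) (η : Fin r → F)
      (E : Fin (κ + r) → Derivation k F F), 1 ≤ r ∧ Frm (Fin.append t η) E ∧
      (∃ (N : ℕ) (g0 : F), g0 ≠ 0 ∧
        g0 ∈ WN {P : Place k F | Divisorial d P} (Fin.append t η) N ∧
        ∀ i : Fin κ, t i * g0 ∈ WN {P : Place k F | Divisorial d P} (Fin.append t η) N) ∧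
      ∀ N' : ℕ, 1 ≤ N' → ∀ a ∈ WN {P : Place k F | Divisorial d P} (Fin.append t η) N',
        ∀ b ∈ WN {P : Place k F | Divisorial d P} (Fin.append t η) N', a ≠ 0 →
        IsAlgebraic (IntermediateField.adjoin k (Set.range t)) (b / a) := by
  classical
  obtain ⟨V, hV⟩ : ∃ V : Set (Place k F), V = {P : Place k F | Divisorial d P} := ⟨_, rfl⟩
  have hd : ¬ HasForms V d d := fun h => hngt (gt_of_forms htr (by rw [← hV]; exact h))
  rw [← hV]
  -- the smallest number
  have hex : ∃ κ, ¬ HasForms V d κ := ⟨d, hd⟩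
  obtain ⟨κ0, hκ0⟩ : ∃ κ0, κ0 = Nat.find hex := ⟨_, rfl⟩
  have h0 : ¬ HasForms V d κ0 := by
    rw [hκ0]
    exact Nat.find_spec hex
  have hle : κ0 ≤ d := by
    rw [hκ0]
    exact Nat.find_min' hex hd
  have hmin : ∀ κ, κ < κ0 → HasForms V d κ := by
    intro κ hκ
    rw [hκ0] at hκ
    exact not_not.1 (Nat.find_min hex hκ)
  rcases κ0 with _ | κ
  · refine iitaka_core (κ := 0) htr (by omega) (t := Fin.elim0) ?_ (fun z E hE => ?_)
      fun z E hE N' hN' a ha b hb ha0 => ?_
    · rw [algebraicIndependent_empty_type_iff]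
      exact (algebraMap k F).injective
    · exact ⟨0, 1, one_ne_zero, WN_one, fun i => i.elim0⟩
    · exfalso
      apply h0
      refine ⟨z, E, N', fun _ => a, hE, hN', fun _ => ha, ha0, ?_⟩
      rw [algebraicIndependent_empty_type_iff]
      exact (algebraMap k F).injective
  · obtain ⟨z0, E0, N, g, hz0, hN, hg, hg0, hind⟩ := hmin κ (by omega)
    -- the forms in another frame
    have hch : ∀ (z : Fin d → F) (E : Fin d → Derivation k F F), Frm z E →
        ∃ c : F, c ≠ 0 ∧ ∀ j, c * g j ∈ WN V z N := by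
      intro z E hE
      exact ⟨_, pow_ne_zero N (hz0.det_ne hE), fun j => WN_change hE (hg j)⟩
    refine iitaka_core (κ := κ) htr (by omega) hind (fun z E hE => ?_)
      fun z E hE N' hN' a ha b hb ha0 => ?_
    · obtain ⟨c, hc, hcg⟩ := hch z E hE
      refine ⟨N, c * g 0, mul_ne_zero hc hg0, hcg 0, fun i => ?_⟩
      rw [show g i.succ / g 0 * (c * g 0) = c * g i.succ by field_simp]
      exact hcg _
    · obtain ⟨c, hc, hcg⟩ := hch z E hE
      by_contra hna
      apply h0
      refine ⟨z, E, N + N', Fin.cons (c * g 0 * a) (Fin.cons (c * g 0 * b)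
        fun i => c * g i.succ * a), hE, by omega, fun j => ?_, ?_, ?_⟩
      · refine Fin.cases ?_ (fun j => ?_) j
        · rw [Fin.cons_zero]
          exact WN_mul (hcg 0) ha
        · rw [Fin.cons_succ]
          refine Fin.cases ?_ (fun j => ?_) j
          · rw [Fin.cons_zero]
            exact WN_mul (hcg 0) hb
          · rw [Fin.cons_succ]
            exact WN_mul (hcg _) ha
      · rw [Fin.cons_zero]
        exact mul_ne_zero (mul_ne_zero hc hg0) ha0
      · have h1 := indep_cons hind hna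
        have h2 : (fun i : Fin (κ + 1) => (Fin.cons (c * g 0 * a) (Fin.cons (c * g 0 * b)
            fun i => c * g i.succ * a) : Fin (κ + 1 + 1) → F) i.succ /
            (Fin.cons (c * g 0 * a) (Fin.cons (c * g 0 * b)
            fun i => c * g i.succ * a) : Fin (κ + 1 + 1) → F) 0) =
            Fin.cons (b / a) fun i : Fin κ => g i.succ / g 0 := by
          funext i
          refine Fin.cases ?_ (fun j => ?_) i
          · simp only [Fin.cons_succ, Fin.cons_zero]
            field_simp
          · simp only [Fin.cons_succ, Fin.cons_zero]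
            field_simp
        rw [h2]
        exact h1

end

end Pool.Agent.H917
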