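import Pool.Agent.H917.C2
import Pool.Agent.H917.B2

/-!
The symmetric differentials in the directions of a foliation.
-/

set_option autoImplicit false
set_option linter.overlappingInstances false
set_option linter.unusedSectionVars false

open FF MvPolynomial Pool.Agent.W603.LV Pool.Agent.W619.PQ Pool.Agent.W602.GT
  Pool.Agent.W619.TW Pool.Agent.W619.Y

namespace Pool.Agent.H917

variable {n : ℕ} {p : Ideal (MvPolynomial (Fin (n + 1)) ℂ)}

section

variable {F : Type} [Field F] [Algebra ℂ F]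

/-- the differentials of the affine coordinates in the directions of the foliation -/
noncomputable def Lf {r : ℕ} (E' : Fin r → Derivation ℂ F F) (y : Fin (n + 1) → F)
    (j0 i : Fin (n + 1)) : MvPolynomial (Fin r) F := ∑ c, C (E' c (y i / y j0)) * X c

/-- a symmetric differential in the directions of the foliation -/
noncomputable def Sf {r : ℕ} (E' : Fin r → Derivation ℂ F F) (y : Fin (n + 1) → F)
    (j0 : Fin (n + 1)) {m : ℕ} (s : SymDiff p m) : MvPolynomial (Fin r) F :=
  aeval (Sum.elim (fun i => C (y i / y j0)) fun i => Lf E' y j0 i) (s.pol j0)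

theorem eval_Lf {r : ℕ} (E' : Fin r → Derivation ℂ F F) (y : Fin (n + 1) → F)
    (j0 i : Fin (n + 1)) (v : Fin r → F) :
    eval v (Lf E' y j0 i) = (∑ c, v c • E' c) (y i / y j0) := by
  rw [der_sum, Lf, map_sum]
  refine Finset.sum_congr rfl fun c _ => ?_
  rw [map_mul, eval_C, eval_X, mul_comm]

theorem eval_aeval' {σ : Type} {r : ℕ} (v : Fin r → F) (g : σ → MvPolynomial (Fin r) F)
    (q : MvPolynomial σ ℂ) : eval v (aeval g q) = aeval (fun i => eval v (g i)) q := by
  have h1 := MvPolynomial.comp_aeval_apply (f := g) ((aeval v : MvPolynomial (Fin r) F →ₐ[F] F).restrictScalars ℂ) q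
  have h2 : ∀ P : MvPolynomial (Fin r) F,
      ((aeval v : MvPolynomial (Fin r) F →ₐ[F] F).restrictScalars ℂ) P = eval v P := fun P =>
    RingHom.congr_fun (coe_aeval_eq_eval v) P
  rw [h2] at h1
  rw [h1]
  congr 2

theorem eval_Sf {r : ℕ} (E' : Fin r → Derivation ℂ F F) (y : Fin (n + 1) → F)
    {j0 : Fin (n + 1)} {m : ℕ} (s : SymDiff p m) (v : Fin r → F) :
    eval v (Sf E' y j0 s) = aeval (ch2 (∑ c, v c • E' c) y j0) (s.pol j0) := by
  rw [Sf, eval_aeval']
  congr 2
  funext k
  rcases k with k | k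
  · rw [Sum.elim_inl, eval_C]
    rfl
  · rw [Sum.elim_inr, eval_Lf]
    rfl

theorem Sf_hom {r : ℕ} (E' : Fin r → Derivation ℂ F F) (y : Fin (n + 1) → F)
    (j0 : Fin (n + 1)) {m : ℕ} (s : SymDiff p m) : (Sf E' y j0 s).IsHomogeneous m := by
  classical
  rw [Sf, aeval_def, eval₂_eq]
  refine IsHomogeneous.sum _ _ _ fun α hα => ?_
  have h3 := s.hom j0 (mem_support_iff.1 hα)
  rw [Finsupp.weight_apply, Finsupp.sum] at h3
  have h4 : ∀ i : Fin (n + 1) ⊕ Fin (n + 1), ((Sum.elim (fun i => C (y i / y j0))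
      fun i => Lf E' y j0 i) i : MvPolynomial (Fin r) F).IsHomogeneous
      ((Sum.elim (fun _ => 0) fun _ => 1 : Fin (n + 1) ⊕ Fin (n + 1) → ℕ) i) := by
    rintro (i | i)
    · exact isHomogeneous_C (Fin r) (y i / y j0)
    · change (∑ c, C (E' c (y i / y j0)) * X c : MvPolynomial (Fin r) F).IsHomogeneous 1
      refine IsHomogeneous.sum _ _ _ fun c _ => ?_
      have := (isHomogeneous_C (Fin r) (E' c (y i / y j0))).mul (isHomogeneous_X F c)
      rwa [zero_add] at this
  have h5 := IsHomogeneous.prod α.support (fun i => (Sum.elim (fun i => C (y i / y j0))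
      (fun i => Lf E' y j0 i) i : MvPolynomial (Fin r) F) ^ α i)
      (fun i => α i * (Sum.elim (fun _ => 0) fun _ => 1 : Fin (n + 1) ⊕ Fin (n + 1) → ℕ) i)
      (fun i _ => by
        rw [mul_comm]
        exact (h4 i).pow (α i))
  have h6 : ∑ i ∈ α.support, α i *
      (Sum.elim (fun _ => 0) fun _ => 1 : Fin (n + 1) ⊕ Fin (n + 1) → ℕ) i = m := by
    rw [← h3]
    refine Finset.sum_congr rfl fun i _ => ?_
    rw [smul_eq_mul]
  rw [h6] at h5
  have h7 := (isHomogeneous_C (Fin r) (algebraMap ℂ F (coeff α (s.pol j0)))).mul h5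
  rw [zero_add] at h7
  exact h7

/-- a chart at a place -/
theorem exists_chart (P : Place ℂ F) {y : Fin (n + 1) → F} (hy : y ≠ 0) :
    ∃ j, y j ≠ 0 ∧ ∀ i, P.Reg (y i / y j) := by
  classical
  obtain ⟨j0, hj0⟩ := Function.ne_iff.1 hy
  obtain ⟨j, hj, hmin⟩ := Finset.exists_min_image (Finset.univ.filter fun j => y j ≠ 0)
    (fun j => P.ord (y j)) ⟨j0, Finset.mem_filter.2 ⟨Finset.mem_univ _, hj0⟩⟩
  have hj' := (Finset.mem_filter.1 hj).2
  exact ⟨j, hj', fun i => reg_quot hj' fun h0 =>
    hmin i (Finset.mem_filter.2 ⟨Finset.mem_univ _, h0⟩)⟩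

/-- the vertical derivations -/
theorem Frm.vert {κ r : ℕ} {t : Fin κ → F} {η : Fin r → F} {E : Fin (κ + r) → Derivation ℂ F F}
    (hE : Frm (Fin.append t η) E) {D : Derivation ℂ F F} (hD : ∀ i, D (t i) = 0) :
    ∑ c, D (η c) • E (Fin.natAdd κ c) = D := by
  conv_rhs => rw [hE.expand D, Fin.sum_univ_add]
  simp only [Fin.append_left, Fin.append_right, hD, zero_smul, Finset.sum_const_zero, zero_add]

/-- the symmetric differentials are regular at all places -/
theorem Sf_reg (hp : Pool.Agent.W603.PV.IsHomog p) {κ r : ℕ} {t : Fin κ → F} {η : Fin r → F}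
    {E : Fin (κ + r) → Derivation ℂ F F} (hE : Frm (Fin.append t η) E) {y : Fin (n + 1) → F}
    (hm : ∀ H ∈ p, aeval y H = 0) {j0 : Fin (n + 1)} (hj0 : y j0 ≠ 0)
    {m : ℕ} (s : SymDiff p m) (V : Set (Place ℂ F)) :
    RegSym V t η (Sf (fun c => E (Fin.natAdd κ c)) y j0 s) := by
  intro P _ D hD hDt
  have hy : y ≠ 0 := fun h => hj0 (by rw [h]; rfl)
  rw [eval_Sf, hE.vert hDt]
  obtain ⟨j, hj, hreg⟩ := exists_chart P hy
  have ht := tanVec_der (p := p) D hy hm
  rw [← loc_der D y hj0, s.compatR hp ht hj0 hj, loc_der D y hj]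
  refine reg_aeval (k := ℂ) (C := ℂ) _ ?_
  rintro (i | i)
  · exact hreg i
  · exact hD _ (hreg i)

/-- the differentials of the affine coordinates generate -/
theorem Lf_span {κ r : ℕ} {t : Fin κ → F} {η : Fin r → F}
    {E : Fin (κ + r) → Derivation ℂ F F} (hE : Frm (Fin.append t η) E) {y : Fin (n + 1) → F}
    {j0 : Fin (n + 1)} (hj0 : y j0 ≠ 0) (hgen : coords ℂ y = ⊤) :
    Submodule.span F (Set.range (Lf (fun c => E (Fin.natAdd κ c)) y j0)) =
      homogeneousSubmodule (Fin r) F 1 := by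
  classical
  obtain ⟨Λ, hΛ⟩ : ∃ Λ : (Fin r → F) →ₗ[F] MvPolynomial (Fin r) F,
      ∀ x, Λ x = ∑ c, C (x c) * X c :=
    ⟨{ toFun := fun x => ∑ c, C (x c) * X c
       map_add' := fun x y => by
        simp only [Pi.add_apply, map_add, add_mul, Finset.sum_add_distrib]
       map_smul' := fun a x => by
        simp only [Pi.smul_apply, smul_eq_mul, map_mul, RingHom.id_apply, Finset.smul_sum,
          smul_eq_C_mul, mul_assoc] }, fun x => rfl⟩
  have hspan : Submodule.span F (Set.range fun (i : Fin (n + 1)) (c : Fin r) =>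
      E (Fin.natAdd κ c) (y i / y j0)) = ⊤ := by
    by_contra hcon
    obtain ⟨φ, hφ0, hφ⟩ := Submodule.exists_le_ker_of_lt_top _ (lt_top_iff_ne_top.2 hcon)
    apply hφ0
    let c : Fin r → F := fun j => φ (Pi.single j 1)
    have hφc : ∀ x : Fin r → F, φ x = ∑ j, x j * c j := by
      intro x
      have h5 : x = ∑ j, x j • (Pi.single j (1 : F) : Fin r → F) := by
        funext i
        rw [Finset.sum_apply]
        simp [Pi.single_apply]
      conv_lhs => rw [h5]
      rw [map_sum]
      refine Finset.sum_congr rfl fun j _ => ?_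
      rw [map_smul, smul_eq_mul]
    -- the derivation
    obtain ⟨D, hD⟩ : ∃ D : Derivation ℂ F F, D = ∑ j, c j • E (Fin.natAdd κ j) := ⟨_, rfl⟩
    have hDu : ∀ i, D (y i / y j0) = 0 := by
      intro i
      have h6 := hφ (Submodule.subset_span ⟨i, rfl⟩)
      change φ _ = 0 at h6
      rw [hφc] at h6
      rw [hD, der_sum, ← h6]
      exact Finset.sum_congr rfl fun j _ => mul_comm _ _
    have hD0 : ∀ f : F, D f = 0 := by
      intro f
      have h1 : coords ℂ y ≤ consts D := by
        unfold coords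
        rw [IntermediateField.adjoin_le_iff]
        rintro z ⟨i, j, hj, rfl⟩
        change D (y i / y j) = 0
        have h2 : y i / y j = (y i / y j0) / (y j / y j0) := by
          field_simp
        rw [h2, div_eq_mul_inv, D.leibniz, D.leibniz_inv, hDu, hDu]
        simp
      rw [hgen] at h1
      exact h1 (IntermediateField.mem_top (x := f))
    have hc0 : ∀ j, c j = 0 := by
      intro j
      have h1 := hD0 (η j)
      rw [hD, der_sum, Finset.sum_eq_single j] at h1
      · have h2 := hE.dual (Fin.natAdd κ j) (Fin.natAdd κ j)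
        rw [Fin.append_right, if_pos rfl] at h2
        rw [h2, mul_one] at h1
        exact h1
      · intro b _ hb
        have h2 := hE.dual (Fin.natAdd κ b) (Fin.natAdd κ j)
        rw [Fin.append_right, if_neg (fun h => hb (Fin.natAdd_injective _ _ h))] at h2
        rw [h2, mul_zero]
      · intro h
        exact absurd (Finset.mem_univ _) h
    apply LinearMap.ext
    intro x
    rw [hφc, LinearMap.zero_apply]
    exact Finset.sum_eq_zero fun j _ => by rw [hc0 j, mul_zero]
  have h1 : Set.range (Lf (fun c => E (Fin.natAdd κ c)) y j0) =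
      Λ '' Set.range fun (i : Fin (n + 1)) (c : Fin r) => E (Fin.natAdd κ c) (y i / y j0) := by
    rw [← Set.range_comp]
    congr 1
    funext i
    rw [Function.comp_apply, hΛ]
    rfl
  rw [h1, ← Submodule.map_span, hspan, homogeneousSubmodule_one_eq_span_X]
  apply le_antisymm
  · rintro _ ⟨x, -, rfl⟩
    rw [hΛ]
    refine Submodule.sum_mem _ fun c _ => ?_
    rw [← smul_eq_C_mul]
    exact Submodule.smul_mem _ _ (Submodule.subset_span ⟨c, rfl⟩)
  · rw [Submodule.span_le]
    rintro _ ⟨c, rfl⟩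
    refine ⟨Pi.single c 1, Submodule.mem_top, ?_⟩
    rw [hΛ, Finset.sum_eq_single c]
    · rw [Pi.single_eq_same, C_1, one_mul]
    · intro b _ hb
      rw [Pi.single_eq_of_ne hb, C_0, zero_mul]
    · intro h
      exact absurd (Finset.mem_univ _) h

/-- powers of the span of finitely many elements -/
theorem span_pow_le {A ι : Type} [CommRing A] [Algebra F A] (x : ι → A) (m : ℕ)
    (S : Submodule F A) (h : ∀ I : Fin m → ι, ∏ k, x (I k) ∈ S) :
    Submodule.span F (Set.range x) ^ m ≤ S := by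
  rw [Submodule.span_pow, Submodule.span_le]
  intro a ha
  rw [Set.mem_pow] at ha
  obtain ⟨f, rfl⟩ := ha
  have h1 : ∀ i, ∃ k, x k = f i := fun i => (f i).2
  choose I hI using h1
  rw [List.prod_ofFn]
  have h2 : ∏ i, (f i : A) = ∏ i, x (I i) := Finset.prod_congr rfl fun i _ => (hI i).symm
  rw [h2]
  exact h I

/-- **The symmetric differentials generate the symmetric power.** -/
theorem Sf_span (hp : Pool.Agent.W603.PV.IsHomog p) {m N : ℕ} {s : Fin N → SymDiff p m}
    (hs : Gens p m s) {κ r : ℕ} {t : Fin κ → F} {η : Fin r → F}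
    {E : Fin (κ + r) → Derivation ℂ F F} (hE : Frm (Fin.append t η) E) {y : Fin (n + 1) → F}
    (hm : ∀ H ∈ p, aeval y H = 0) {j0 : Fin (n + 1)} (hj0 : y j0 ≠ 0) (hgen : coords ℂ y = ⊤) :
    Submodule.span F (Set.range fun l => Sf (fun c => E (Fin.natAdd κ c)) y j0 (s l)) =
      homogeneousSubmodule (Fin r) F m := by
  classical
  have hy : y ≠ 0 := fun h => hj0 (by rw [h]; rfl)
  have hinf : Infinite F := Infinite.of_injective _ (algebraMap ℂ F).injective
  apply le_antisymm
  · rw [Submodule.span_le]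
    rintro _ ⟨l, rfl⟩
    exact Sf_hom _ y j0 (s l)
  · rw [← homogeneousSubmodule_one_pow, ← Lf_span hE hj0 hgen]
    refine span_pow_le _ _ _ fun I => ?_
    obtain ⟨b, hb⟩ := hs.genR hp j0 I
    have h1 : ∏ k, Lf (fun c => E (Fin.natAdd κ c)) y j0 (I k) =
        ∑ l, aeval (fun i => y i / y j0) (b l) •
          Sf (fun c => E (Fin.natAdd κ c)) y j0 (s l) := by
      apply MvPolynomial.funext
      intro v
      rw [map_prod, map_sum]
      have h2 := hb F y _ (tanVec_der (p := p) (∑ c, v c • E (Fin.natAdd κ c)) hy hm) hj0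
      rw [loc_der _ y hj0] at h2
      have h3 : ∀ k, eval v (Lf (fun c => E (Fin.natAdd κ c)) y j0 (I k)) =
          ch2 (∑ c, v c • E (Fin.natAdd κ c)) y j0 (Sum.inr (I k)) := by
        intro k
        rw [eval_Lf]
        rfl
      rw [Finset.prod_congr rfl fun k _ => h3 k, h2]
      refine Finset.sum_congr rfl fun l _ => ?_
      rw [smul_eval, eval_Sf]
    rw [h1]
    exact Submodule.sum_mem _ fun l _ => Submodule.smul_mem _ _ (Submodule.subset_span ⟨l, rfl⟩)

/-- the products of the symmetric differentials -/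
theorem Sf_span_pow (hp : Pool.Agent.W603.PV.IsHomog p) {m N : ℕ} {s : Fin N → SymDiff p m}
    (hs : Gens p m s) {κ r : ℕ} {t : Fin κ → F} {η : Fin r → F}
    {E : Fin (κ + r) → Derivation ℂ F F} (hE : Frm (Fin.append t η) E) {y : Fin (n + 1) → F}
    (hm : ∀ H ∈ p, aeval y H = 0) {j0 : Fin (n + 1)} (hj0 : y j0 ≠ 0) (hgen : coords ℂ y = ⊤)
    (q : ℕ) :
    Submodule.span F (Set.range fun μ : Fin q → Fin N =>
      ∏ a, Sf (fun c => E (Fin.natAdd κ c)) y j0 (s (μ a))) =
      homogeneousSubmodule (Fin r) F (m * q) := by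
  apply le_antisymm
  · rw [Submodule.span_le]
    rintro _ ⟨μ, rfl⟩
    have h1 := IsHomogeneous.prod Finset.univ
      (fun a => Sf (fun c => E (Fin.natAdd κ c)) y j0 (s (μ a))) (fun _ => m)
      (fun a _ => Sf_hom _ y j0 (s (μ a)))
    rw [Finset.sum_const, Finset.card_univ, Fintype.card_fin, smul_eq_mul, mul_comm] at h1
    exact h1
  · rw [← homogeneousSubmodule_one_pow, pow_mul, homogeneousSubmodule_one_pow,
      ← Sf_span hp hs hE hm hj0 hgen]
    exact span_pow_le _ _ _ fun I => Submodule.subset_span ⟨I, rfl⟩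

end

end Pool.Agent.H917
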