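import Pool.Agent.H917.C3

/-!
The coefficients of the relations between the symmetric differentials.
-/

set_option autoImplicit false
set_option linter.overlappingInstances false
set_option linter.unusedSectionVars false

open FF MvPolynomial Pool.Agent.W603.LV Pool.Agent.W619.PQ Pool.Agent.W602.GT
  Pool.Agent.W619.TW Pool.Agent.W619.Y Pool.Agent.Y174 Pool.Agent.Y174.T

namespace Pool.Agent.H917

section

variable {k F : Type} [Field k] [CharZero k] [Field F] [Algebra k F]

/-- **The coefficients of the relations are algebraic over the base of the Iitaka fibration.** -/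
theorem coeff_alg {V : Set (Place k F)} {κ r q' N : ℕ} {t : Fin κ → F} {η : Fin r → F}
    (hr : 1 ≤ r) (hq : 1 ≤ q') {g0 : F} (hg00 : g0 ≠ 0)
    (hg0 : g0 ∈ WN V (Fin.append t η) N) (hg : ∀ i, t i * g0 ∈ WN V (Fin.append t η) N)
    (halg : ∀ N' : ℕ, 1 ≤ N' → ∀ a ∈ WN V (Fin.append t η) N',
        ∀ b ∈ WN V (Fin.append t η) N', a ≠ 0 →
        IsAlgebraic (IntermediateField.adjoin k (Set.range t)) (b / a))
    [DecidableEq (Ex r q')]
    (J : Ex r q' → homogeneousSubmodule (Fin r) F q')
    (hJ : ∀ j, RegSym V t η (J j : MvPolynomial (Fin r) F)) (hJ0 : (cf J).det ≠ 0)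
    (s : homogeneousSubmodule (Fin r) F q') (hs : RegSym V t η (s : MvPolynomial (Fin r) F)) :
    ∃ x : Ex r q' → F, (∀ j, IsAlgebraic (IntermediateField.adjoin k (Set.range t)) (x j)) ∧
      s = ∑ j, x j • J j := by
  have hF0 : CharZero F := charZero_of_injective_algebraMap (algebraMap k F).injective
  obtain ⟨w, hw1, hw⟩ := chi_eq (K := F) r q'
  have hw1 := hw1 hr hq
  have hinst : (Classical.decEq (Ex r q') : DecidableEq (Ex r q')) = ‹DecidableEq (Ex r q')› :=
    Subsingleton.elim _ _
  have hform : ∀ J' : Ex r q' → homogeneousSubmodule (Fin r) F q',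
      (∀ j, RegSym V t η (J' j : MvPolynomial (Fin r) F)) →
      (cf J').det * g0 ^ (2 * κ * w) ∈ WN V (Fin.append t η) (w + 2 * κ * w * N) := by
    intro J' hJ'
    have h1 := form_of_sym hw hw1 rfl hg0 hg J' hJ'
    rw [hinst] at h1
    exact h1
  -- the coefficients
  let x : Ex r q' → F := (cf J)⁻¹.mulVec fun d => (T.basis F r q').repr s d
  have hu : IsUnit (cf J).det := isUnit_iff_ne_zero.2 hJ0
  have hx : (cf J).mulVec x = fun d => (T.basis F r q').repr s d := by
    rw [Matrix.mulVec_mulVec, Matrix.mul_nonsing_inv _ hu, Matrix.one_mulVec]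
  have hsx : s = ∑ j, x j • J j := by
    apply (T.basis F r q').repr.injective
    ext d
    rw [← congrFun hx d, map_sum, Finsupp.finsetSum_apply]
    refine Finset.sum_congr rfl fun j _ => ?_
    rw [map_smul, Finsupp.smul_apply, smul_eq_mul, mul_comm]
    rfl
  refine ⟨x, fun j => ?_, hsx⟩
  let J' : Ex r q' → homogeneousSubmodule (Fin r) F q' := Function.update J j s
  have hdet' : (cf J').det = x j * (cf J).det := by
    have h1 : cf J' = (cf J).updateCol j ((cf J).mulVec x) := by
      ext d i
      rw [Matrix.updateCol_apply]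
      by_cases hi : i = j
      · subst hi
        rw [if_pos rfl, hx]
        change (T.basis F r q').repr (Function.update J i s i) d = _
        rw [Function.update_self]
      · rw [if_neg hi]
        change (T.basis F r q').repr (Function.update J j s i) d = _
        rw [Function.update_of_ne hi]
        rfl
    rw [h1]
    have h2 : (cf J).mulVec x = fun d => ∑ i, x i • cf J d i := by
      funext d
      refine Finset.sum_congr rfl fun i _ => ?_
      rw [smul_eq_mul, mul_comm]
    rw [h2, Matrix.det_updateCol_sum]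
    rfl
  have hJ'r : ∀ i, RegSym V t η (J' i : MvPolynomial (Fin r) F) := by
    intro i
    by_cases hi : i = j
    · subst hi
      have : J' i = s := Function.update_self ..
      rw [this]
      exact hs
    · have : J' i = J i := Function.update_of_ne hi ..
      rw [this]
      exact hJ i
  have h1 := halg (w + 2 * κ * w * N) (by omega) _ (hform J hJ) _ (hform J' hJ'r)
    (mul_ne_zero hJ0 (pow_ne_zero _ hg00))
  rw [hdet'] at h1
  have h2 : x j * (cf J).det * g0 ^ (2 * κ * w) / ((cf J).det * g0 ^ (2 * κ * w)) = x j := by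
    have h3 : g0 ^ (2 * κ * w) ≠ 0 := pow_ne_zero _ hg00
    field_simp
  rw [h2] at h1
  exact h1

/-- a basis consisting of elements of a spanning family -/
theorem exists_subbasis {α : Type} {r q' : ℕ} (S : α → MvPolynomial (Fin r) F)
    (hS : Submodule.span F (Set.range S) = homogeneousSubmodule (Fin r) F q')
    [DecidableEq (Ex r q')] :
    ∃ (hm : ∀ a, S a ∈ homogeneousSubmodule (Fin r) F q') (β : Ex r q' → α),
      (cf fun j => (⟨S (β j), hm (β j)⟩ : homogeneousSubmodule (Fin r) F q')).det ≠ 0 := by
  have hm : ∀ a, S a ∈ homogeneousSubmodule (Fin r) F q' := fun a => by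
    rw [← hS]
    exact Submodule.subset_span ⟨a, rfl⟩
  obtain ⟨β, hβ⟩ := exists_det (K := F) (I := Ex r q')
    (fun (a : α) (d : Ex r q') => (T.basis F r q').repr ⟨S a, hm a⟩ d) (by
    have h1 : Submodule.span F (Set.range fun a => (⟨S a, hm a⟩ :
        homogeneousSubmodule (Fin r) F q')) = ⊤ := by
      rw [eq_top_iff]
      rintro ⟨x, hx⟩ -
      rw [← hS] at hx
      have h2 : Set.range S = (homogeneousSubmodule (Fin r) F q').subtype '' (Set.range fun a =>
          (⟨S a, hm a⟩ : homogeneousSubmodule (Fin r) F q')) := by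
        rw [← Set.range_comp]
        rfl
      rw [h2, ← Submodule.map_span] at hx
      obtain ⟨z, hz, hzx⟩ := hx
      have h3 : z = ⟨x, by rw [← hzx]; exact z.2⟩ := Subtype.ext hzx
      rw [h3] at hz
      exact hz
    have h2 : Set.range (fun (a : α) (d : Ex r q') => (T.basis F r q').repr ⟨S a, hm a⟩ d) =
        (T.basis F r q').equivFun '' (Set.range fun a => (⟨S a, hm a⟩ :
          homogeneousSubmodule (Fin r) F q')) := by
      rw [← Set.range_comp]
      rfl
    have h3 := congrArg (Submodule.map ((T.basis F r q').equivFun :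
      homogeneousSubmodule (Fin r) F q' →ₗ[F] (Ex r q' → F))) h1
    rw [Submodule.map_span, Submodule.map_top, LinearEquiv.range] at h3
    rw [h2]
    exact h3)
  refine ⟨hm, β, ?_⟩
  rw [← Matrix.det_transpose]
  exact hβ

end

end Pool.Agent.H917
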