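import Pool.Agent.H917.C3

/-!
Points of the algebras generated by forms over a subfield.
-/

set_option autoImplicit false
set_option linter.overlappingInstances false
set_option linter.unusedSectionVars false

open MvPolynomial

namespace Pool.Agent.H917

section

variable {C M : Type} [Field C] [IsAlgClosed C] [Field M] [IsAlgClosed M] [Algebra C M]

/-- powers of the span of finitely many elements -/
theorem span_pow_le' {A ι : Type} [CommRing A] [Algebra M A] (x : ι → A) (m : ℕ)
    (S : Submodule M A) (h : ∀ I : Fin m → ι, ∏ k, x (I k) ∈ S) :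
    Submodule.span M (Set.range x) ^ m ≤ S := by
  rw [Submodule.span_pow, Submodule.span_le]
  intro a ha
  rw [Set.mem_pow] at ha
  obtain ⟨f, rfl⟩ := ha
  have h1 : ∀ i, ∃ k, x k = f i := fun i => (f i).2
  choose I hI using h1
  rw [List.prod_ofFn]
  have h2 : ∏ i, (f i : A) = ∏ i, x (I i) := Finset.prod_congr rfl fun i _ => (hI i).symm
  rw [h2]
  exact h I

/-- products of the variables span -/
theorem monos_span (N q : ℕ) :
    Submodule.span M (Set.range fun μ : Fin q → Fin N => ∏ a, (X (μ a) : MvPolynomial (Fin N) M)) =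
      homogeneousSubmodule (Fin N) M q := by
  apply le_antisymm
  · rw [Submodule.span_le]
    rintro _ ⟨μ, rfl⟩
    have h1 := IsHomogeneous.prod Finset.univ (fun a => (X (μ a) : MvPolynomial (Fin N) M))
      (fun _ => 1) (fun a _ => isHomogeneous_X M (μ a))
    rw [Finset.sum_const, Finset.card_univ, Fintype.card_fin, smul_eq_mul, mul_one] at h1
    exact h1
  · rw [← homogeneousSubmodule_one_pow, homogeneousSubmodule_one_eq_span_X]
    exact span_pow_le' _ _ _ fun I => Submodule.subset_span ⟨I, rfl⟩

/-- **Points.** Suppose that the relations between the products of the forms `S` have coefficients in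
`C`. Then the forms `S` have values in `C`, not all zero, at some point. -/
theorem exists_point {r m N : ℕ} (hm : 1 ≤ m) (S : Fin N → MvPolynomial (Fin r) M)
    (hS : ∀ l, (S l).IsHomogeneous m)
    (hspan : homogeneousSubmodule (Fin r) M m ≤ Submodule.span M (Set.range S))
    (H : ∀ q, 1 ≤ q → ∃ (ι : Type) (_ : Fintype ι) (J : ι → Fin q → Fin N),
      LinearIndependent M (fun j => ∏ a, S (J j a)) ∧
      ∀ μ : Fin q → Fin N, ∃ c : ι → C,
        ∏ a, S (μ a) = ∑ j, algebraMap C M (c j) • ∏ a, S (J j a))
    {l0 : Fin N} (hl0 : S l0 ≠ 0) :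
    ∃ v : Fin r → M, (∀ l, ∃ c : C, eval v (S l) = algebraMap C M c) ∧ eval v (S l0) ≠ 0 := by
  classical
  -- a point over `C`
  obtain ⟨I, hI⟩ : ∃ I : Ideal (MvPolynomial (Fin N) C), I = RingHom.ker
      (aeval S : MvPolynomial (Fin N) C →ₐ[C] MvPolynomial (Fin r) M) := ⟨_, rfl⟩
  have hIp : I.IsPrime := by
    rw [hI]
    exact RingHom.ker_isPrime _
  obtain ⟨ζ, hζI, hζ0⟩ : ∃ ζ : Fin N → C, (∀ P ∈ I, aeval ζ P = 0) ∧ ζ l0 ≠ 0 := by
    by_contra hcon
    push Not at hcon
    have h1 : X l0 ∈ vanishingIdeal C (zeroLocus C I) := by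
      rw [mem_vanishingIdeal_iff]
      intro ζ hζ
      rw [mem_zeroLocus_iff] at hζ
      rw [aeval_X]
      exact hcon ζ hζ
    rw [vanishingIdeal_zeroLocus_eq_radical, hIp.radical, hI, RingHom.mem_ker, aeval_X] at h1
    exact hl0 h1
  obtain ⟨ζ', hζ'⟩ : ∃ ζ' : Fin N → M, ∀ l, ζ' l = algebraMap C M (ζ l) := ⟨_, fun _ => rfl⟩
  -- the relations over `M`, homogeneous case
  have hhom : ∀ q, ∀ P ∈ homogeneousSubmodule (Fin N) M q, aeval S P = 0 → aeval ζ' P = 0 := by
    intro q P hP hP0
    rcases Nat.eq_zero_or_pos q with hq | hq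
    · subst hq
      rw [homogeneousSubmodule_zero, Submodule.mem_one] at hP
      obtain ⟨a, rfl⟩ := hP
      rw [AlgHom.commutes] at hP0 ⊢
      have h1 : a = 0 := by
        have h2 : (MvPolynomial.C a : MvPolynomial (Fin r) M) = 0 := hP0
        exact C_eq_zero.1 h2
      rw [h1, map_zero]
    · obtain ⟨ι, _, J, hJ, hc⟩ := H q hq
      choose c hc using hc
      rw [← monos_span, Submodule.mem_span_range_iff_exists_fun] at hP
      obtain ⟨b, rfl⟩ := hP
      -- the relations at the point
      have hrel : ∀ μ : Fin q → Fin N, ∏ a, ζ' (μ a) =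
          ∑ j, algebraMap C M (c μ j) * ∏ a, ζ' (J j a) := by
        intro μ
        have h1 : (∏ a, (X (μ a) : MvPolynomial (Fin N) C) -
            ∑ j, MvPolynomial.C (c μ j) * ∏ a, X (J j a)) ∈ I := by
          rw [hI, RingHom.mem_ker, map_sub, map_prod, map_sum]
          simp only [map_mul, map_prod, aeval_X]
          rw [hc μ, sub_eq_zero]
          refine Finset.sum_congr rfl fun j _ => ?_
          have h2 : (aeval S : MvPolynomial (Fin N) C →ₐ[C] MvPolynomial (Fin r) M)
              (MvPolynomial.C (c μ j)) = MvPolynomial.C (algebraMap C M (c μ j)) := by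
            rw [aeval_C]
            rfl
          rw [h2, smul_eq_C_mul]
        have h2 := hζI _ h1
        rw [map_sub, map_prod, map_sum] at h2
        simp only [map_mul, map_prod, aeval_X, aeval_C, Algebra.algebraMap_self, RingHom.id_apply]
          at h2
        rw [sub_eq_zero] at h2
        have h3 := congrArg (algebraMap C M) h2
        rw [map_prod, map_sum] at h3
        simp only [map_mul, map_prod, ← hζ'] at h3
        exact h3
      -- the coefficients
      have h1 : ∑ j, (∑ μ, b μ * algebraMap C M (c μ j)) • ∏ a, S (J j a) = 0 := by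
        rw [map_sum] at hP0
        rw [← hP0]
        have h2 : ∀ μ, aeval S (b μ • ∏ a, (X (μ a) : MvPolynomial (Fin N) M)) =
            ∑ j, (b μ * algebraMap C M (c μ j)) • ∏ a, S (J j a) := by
          intro μ
          rw [map_smul, map_prod]
          simp only [aeval_X]
          rw [hc μ, Finset.smul_sum]
          refine Finset.sum_congr rfl fun j _ => ?_
          rw [smul_smul]
        rw [Finset.sum_congr rfl fun μ _ => h2 μ, Finset.sum_comm]
        refine Finset.sum_congr rfl fun j _ => ?_
        rw [Finset.sum_smul]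
      have h2 := Fintype.linearIndependent_iff.1 hJ _ h1
      rw [map_sum]
      have h3 : ∀ μ, aeval ζ' (b μ • ∏ a, (X (μ a) : MvPolynomial (Fin N) M)) =
          ∑ j, b μ * algebraMap C M (c μ j) * ∏ a, ζ' (J j a) := by
        intro μ
        rw [map_smul, map_prod]
        simp only [aeval_X]
        rw [hrel μ, smul_eq_mul, Finset.mul_sum]
        refine Finset.sum_congr rfl fun j _ => ?_
        rw [mul_assoc]
      rw [Finset.sum_congr rfl fun μ _ => h3 μ, Finset.sum_comm]
      refine Finset.sum_eq_zero fun j _ => ?_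
      rw [← Finset.sum_mul, h2 j, zero_mul]
  -- the relations over `M`
  have hall : ∀ P : MvPolynomial (Fin N) M, aeval S P = 0 → aeval ζ' P = 0 := by
    intro P hP
    have h1 : ∀ q, aeval S (homogeneousComponent q P) = 0 := by
      intro q
      have h2 := congrArg (homogeneousComponent (m * q)) hP
      rw [map_zero] at h2
      conv_lhs at h2 => rw [← sum_homogeneousComponent P]
      rw [map_sum, map_sum] at h2
      have h3 : ∀ i, homogeneousComponent (m * q) (aeval S (homogeneousComponent i P)) =
          if i = q then aeval S (homogeneousComponent q P) else 0 := by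
        intro i
        have h4 := (homogeneousComponent_isHomogeneous i P).aeval S hS
        rw [homogeneousComponent_of_mem h4]
        by_cases hi : i = q
        · rw [if_pos hi, if_pos (by rw [hi]), hi]
        · rw [if_neg hi, if_neg fun h => hi (Nat.eq_of_mul_eq_mul_left hm h).symm]
      rw [Finset.sum_congr rfl fun i _ => h3 i, Finset.sum_ite_eq'] at h2
      split_ifs at h2 with hq
      · exact h2
      · have h4 : homogeneousComponent q P = 0 := by
          refine homogeneousComponent_eq_zero _ _ ?_
          rw [Finset.mem_range] at hq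
          omega
        rw [h4, map_zero]
    conv_lhs => rw [← sum_homogeneousComponent P]
    rw [map_sum]
    exact Finset.sum_eq_zero fun q _ =>
      hhom q _ (homogeneousComponent_isHomogeneous q P) (h1 q)
  -- going up
  let _ : Algebra (MvPolynomial (Fin N) M) (MvPolynomial (Fin r) M) :=
    (aeval S : MvPolynomial (Fin N) M →ₐ[M] MvPolynomial (Fin r) M).toRingHom.toAlgebra
  have halg : ∀ P : MvPolynomial (Fin N) M,
      algebraMap (MvPolynomial (Fin N) M) (MvPolynomial (Fin r) M) P = aeval S P := fun _ => rfl
  have hint : Algebra.IsIntegral (MvPolynomial (Fin N) M) (MvPolynomial (Fin r) M) := by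
    constructor
    intro P
    induction P using MvPolynomial.induction_on with
    | C a =>
      have h1 : (MvPolynomial.C a : MvPolynomial (Fin r) M) =
          algebraMap (MvPolynomial (Fin N) M) (MvPolynomial (Fin r) M) (MvPolynomial.C a) := by
        rw [halg, aeval_C]
        rfl
      rw [h1]
      exact isIntegral_algebraMap
    | add p q hp hq => exact hp.add hq
    | mul_X p i hp =>
      refine hp.mul ?_
      have h1 : (X i : MvPolynomial (Fin r) M) ^ m ∈ Submodule.span M (Set.range S) := by
        apply hspan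
        have := (isHomogeneous_X M i).pow m
        rwa [one_mul] at this
      rw [Submodule.mem_span_range_iff_exists_fun] at h1
      obtain ⟨b, hb⟩ := h1
      have h2 : IsIntegral (MvPolynomial (Fin N) M) ((X i : MvPolynomial (Fin r) M) ^ m) := by
        have h3 : (X i : MvPolynomial (Fin r) M) ^ m =
            algebraMap (MvPolynomial (Fin N) M) (MvPolynomial (Fin r) M)
              (∑ l, b l • X l) := by
          rw [halg, map_sum, ← hb]
          refine Finset.sum_congr rfl fun l _ => ?_
          rw [map_smul, aeval_X]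
        rw [h3]
        exact isIntegral_algebraMap
      exact IsIntegral.of_pow (by omega) h2
  obtain ⟨P0, hP0⟩ : ∃ P0 : Ideal (MvPolynomial (Fin N) M), P0 = RingHom.ker
      (aeval ζ' : MvPolynomial (Fin N) M →ₐ[M] M) := ⟨_, rfl⟩
  have hP0p : P0.IsPrime := by
    rw [hP0]
    exact RingHom.ker_isPrime _
  obtain ⟨Q, -, hQ, hQc⟩ := Ideal.exists_ideal_over_prime_of_isIntegral P0
    (⊥ : Ideal (MvPolynomial (Fin r) M)) (by
      intro P hP
      rw [Ideal.mem_comap, Ideal.mem_bot, halg] at hP
      rw [hP0, RingHom.mem_ker]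
      exact hall P hP)
  obtain ⟨Q', hQ'm, hQQ'⟩ := Ideal.exists_le_maximal Q hQ.ne_top
  obtain ⟨v, hv⟩ := eq_vanishingIdeal_singleton_of_isMaximal M hQ'm
  have hval : ∀ l, eval v (S l) = ζ' l := by
    intro l
    have h1 : (X l - MvPolynomial.C (ζ' l) : MvPolynomial (Fin N) M) ∈ P0 := by
      rw [hP0, RingHom.mem_ker, map_sub, aeval_X, aeval_C]
      exact sub_self _
    rw [← hQc, Ideal.mem_comap, halg, map_sub, aeval_X, aeval_C] at h1
    have h2 := hQQ' h1
    rw [hv, mem_vanishingIdeal_singleton_iff, map_sub] at h2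
    rw [sub_eq_zero] at h2
    have h3 : (aeval v : MvPolynomial (Fin r) M →ₐ[M] M) (S l) = eval v (S l) :=
      RingHom.congr_fun (coe_aeval_eq_eval v) (S l)
    rw [h3] at h2
    rw [h2]
    exact aeval_C (R := M) v (ζ' l)
  refine ⟨v, fun l => ⟨ζ l, by rw [hval, hζ']⟩, ?_⟩
  rw [hval, hζ']
  exact fun h => hζ0 ((map_eq_zero _).1 h)

end

end Pool.Agent.H917
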