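import Pool.Agent.H917.C4
import Pool.Agent.H917.C5

/-!
Derivations with constant symmetric differentials on varieties which are not of general type.
-/

set_option autoImplicit false
set_option linter.overlappingInstances false
set_option linter.unusedSectionVars false

open FF MvPolynomial Pool.Agent.W603.LV Pool.Agent.W619.PQ Pool.Agent.W602.GT
  Pool.Agent.W619.TW Pool.Agent.W619.Y Pool.Agent.Y174 Pool.Agent.Y174.T

namespace Pool.Agent.H917

variable {n : ℕ} {p : Ideal (MvPolynomial (Fin (n + 1)) ℂ)}

section

variable {F M : Type} [Field F] [Field M] [Algebra F M]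

/-- the coefficients with respect to the basis of monomials -/
theorem repr_coeff {r q : ℕ} (P : homogeneousSubmodule (Fin r) F q) (d : Ex r q) :
    (T.basis F r q).repr P d = coeff d.1 (P : MvPolynomial (Fin r) F) := by
  classical
  have h1 := (T.basis F r q).sum_repr P
  conv_rhs => rw [← h1]
  rw [Submodule.coe_sum, coeff_sum, Finset.sum_eq_single d]
  · rw [Submodule.coe_smul, coeff_smul, basis_apply]
    change _ = _ • coeff d.1 (monomial d.1 (1 : F))
    rw [coeff_monomial, if_pos rfl, smul_eq_mul, mul_one]
  · intro b _ hb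
    rw [Submodule.coe_smul, coeff_smul, basis_apply]
    change _ • coeff d.1 (monomial b.1 (1 : F)) = 0
    rw [coeff_monomial, if_neg (fun h => hb (Subtype.ext h)), smul_zero]
  · intro h
    exact absurd (Finset.mem_univ _) h

/-- independence over a larger field -/
theorem indep_map {r q : ℕ} [DecidableEq (Ex r q)] (J : Ex r q → homogeneousSubmodule (Fin r) F q)
    (hJ : (cf J).det ≠ 0) :
    LinearIndependent M fun j => map (algebraMap F M) (J j : MvPolynomial (Fin r) F) := by
  rw [Fintype.linearIndependent_iff]
  intro x hx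
  have h1 : ((cf J).map (algebraMap F M)).mulVec x = 0 := by
    funext d
    have h2 := congrArg (coeff d.1) hx
    rw [coeff_sum, coeff_zero] at h2
    rw [Matrix.mulVec, dotProduct, Pi.zero_apply, ← h2]
    refine Finset.sum_congr rfl fun j _ => ?_
    rw [coeff_smul, coeff_map, smul_eq_mul, mul_comm, Matrix.map_apply]
    change _ * algebraMap F M ((T.basis F r q).repr (J j) d) = _
    rw [repr_coeff]
  have h3 : IsUnit ((cf J).map (algebraMap F M)).det := by
    have h4 : ((cf J).map (algebraMap F M)).det = algebraMap F M (cf J).det :=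
      ((algebraMap F M).map_det _).symm
    rw [h4]
    exact (isUnit_iff_ne_zero.2 hJ).map _
  have h4 : x = 0 := by
    have h5 := congrArg (((cf J).map (algebraMap F M))⁻¹.mulVec) h1
    rw [Matrix.mulVec_mulVec, Matrix.nonsing_inv_mul _ h3, Matrix.one_mulVec,
      Matrix.mulVec_zero] at h5
    exact h5
  intro i
  rw [h4]
  rfl

/-- spanning sets over a larger field -/
theorem span_map {r q : ℕ} {α : Type} (S : α → MvPolynomial (Fin r) F)
    (hS : Submodule.span F (Set.range S) = homogeneousSubmodule (Fin r) F q) :
    homogeneousSubmodule (Fin r) M q ≤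
      Submodule.span M (Set.range fun a => map (algebraMap F M) (S a)) := by
  classical
  intro P hP
  rw [P.as_sum]
  refine Submodule.sum_mem _ fun d hd => ?_
  have hdeg : d.degree = q := by
    have h0 := hP (mem_support_iff.1 hd)
    rw [Finsupp.weight_apply, Finsupp.sum] at h0
    rw [← h0, Finsupp.degree_apply]
    exact Finset.sum_congr rfl fun i _ => by simp
  have h1 : monomial d (1 : F) ∈ Submodule.span F (Set.range S) := by
    rw [hS]
    exact isHomogeneous_monomial 1 hdeg
  have h2 : ∀ Q ∈ Submodule.span F (Set.range S), map (algebraMap F M) Q ∈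
      Submodule.span M (Set.range fun a => map (algebraMap F M) (S a)) := by
    intro Q hQ
    induction hQ using Submodule.span_induction with
    | mem x h =>
      obtain ⟨a, rfl⟩ := h
      exact Submodule.subset_span ⟨a, rfl⟩
    | zero => rw [map_zero]; exact Submodule.zero_mem _
    | add x y _ _ hx hy => rw [map_add]; exact Submodule.add_mem _ hx hy
    | smul a x _ hx =>
      rw [smul_eq_C_mul, map_mul, map_C, ← smul_eq_C_mul]
      exact Submodule.smul_mem _ _ hx
  have h3 := h2 _ h1
  rw [map_monomial, map_one] at h3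
  have h4 := Submodule.smul_mem _ (coeff d P) h3
  rw [smul_monomial, smul_eq_mul, mul_one] at h4
  exact h4

end

/-- **Varieties which are not of general type carry derivations with constant symmetric
differentials.** -/
theorem key_N (hp : Pool.Agent.W603.PV.IsHomog p) {m N : ℕ} {s : Fin N → SymDiff p m}
    (hs : Gens p m s) (hm : 1 ≤ m) {F : Type} [Field F] [Algebra ℂ F] {M : Type} [Field M]
    [Algebra F M] [Algebra ℂ M] [IsScalarTower ℂ F M] [IsAlgClosure F M] {d : ℕ} (hd : 1 ≤ d)
    {y : Fin (n + 1) → F} (hy : y ≠ 0) (hmem : ∀ H ∈ p, aeval y H = 0) (hgen : coords ℂ y = ⊤)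
    (htr : Algebra.trdeg ℂ F = d) (hngt : ¬ GeneralType ℂ F d) :
    ∃ D : Derivation ℂ M M,
      (∀ l, D ((s l).val (fun i => algebraMap F M (y i)) fun i => D (algebraMap F M (y i))) = 0) ∧
      ∃ l, (s l).val (fun i => algebraMap F M (y i)) (fun i => D (algebraMap F M (y i))) ≠ 0 := by
  classical
  have hMc : IsAlgClosed M := IsAlgClosure.isAlgClosed F
  have hMa : Algebra.IsAlgebraic F M := IsAlgClosure.isAlgebraic
  obtain ⟨κ, r, hdr, t, η, E, hr, hE, ⟨Ng, g0, hg00, hg0, hg⟩, halg⟩ := exists_iitaka hd htr hngt
  obtain ⟨V, hV⟩ : ∃ V : Set (Place ℂ F), V = {P : Place ℂ F | Divisorial d P} := ⟨_, rfl⟩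
  rw [← hV] at hg0 hg halg
  obtain ⟨j0, hj0⟩ := Function.ne_iff.1 hy
  have hj0 : y j0 ≠ 0 := hj0
  obtain ⟨E', hE'⟩ : ∃ E' : Fin r → Derivation ℂ F F, E' = fun c => E (Fin.natAdd κ c) := ⟨_, rfl⟩
  obtain ⟨S, hSd⟩ : ∃ S : Fin N → MvPolynomial (Fin r) F, S = fun l => Sf E' y j0 (s l) := ⟨_, rfl⟩
  have hSr : ∀ l, RegSym V t η (S l) := by
    intro l
    rw [hSd, hE']
    exact Sf_reg hp hE hmem hj0 (s l) V
  have hSh : ∀ l, (S l).IsHomogeneous m := by
    intro l
    rw [hSd]
    exact Sf_hom E' y j0 (s l)
  have hSspan : Submodule.span F (Set.range S) = homogeneousSubmodule (Fin r) F m := by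
    rw [hSd, hE']
    exact Sf_span hp hs hE hmem hj0 hgen
  have hSpow : ∀ q, Submodule.span F (Set.range fun μ : Fin q → Fin N => ∏ a, S (μ a)) =
      homogeneousSubmodule (Fin r) F (m * q) := by
    intro q
    rw [hSd, hE']
    exact Sf_span_pow hp hs hE hmem hj0 hgen q
  -- the constants
  let K0 : IntermediateField ℂ F := IntermediateField.adjoin ℂ (Set.range t)
  let C0 : IntermediateField K0 M := algebraicClosure K0 M
  have hC0 : IsAlgClosed C0 := IsAlgClosure.isAlgClosed K0
  -- the forms over `M`
  obtain ⟨SM, hSM⟩ : ∃ SM : Fin N → MvPolynomial (Fin r) M,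
      SM = fun l => map (algebraMap F M) (S l) := ⟨_, rfl⟩
  obtain ⟨l0, hl0⟩ : ∃ l0, SM l0 ≠ 0 := by
    by_contra hcon
    push Not at hcon
    have h1 : (X ⟨0, hr⟩ : MvPolynomial (Fin r) F) ^ m ∈ Submodule.span F (Set.range S) := by
      rw [hSspan]
      have := (isHomogeneous_X F (⟨0, hr⟩ : Fin r)).pow m
      rwa [one_mul] at this
    have h2 : ∀ l, S l = 0 := by
      intro l
      have h3 := hcon l
      rw [hSM] at h3
      exact (map_eq_zero_iff _ (map_injective _ (algebraMap F M).injective)).1 h3
    have h3 : Submodule.span F (Set.range S) ≤ ⊥ := by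
      rw [Submodule.span_le]
      rintro _ ⟨l, rfl⟩
      rw [h2 l]
      exact Submodule.zero_mem _
    exact pow_ne_zero m (X_ne_zero _) ((Submodule.mem_bot F).1 (h3 h1))
  obtain ⟨v, hv, hv0⟩ := exists_point (C := C0) (M := M) hm SM (fun l => by
    rw [hSM]
    exact (hSh l).map _) (by
    rw [hSM]
    exact span_map S hSspan) (fun q hq => by
    obtain ⟨hmq, β, hβ⟩ := exists_subbasis _ (hSpow q)
    refine ⟨Ex r (m * q), inferInstance, β, ?_, fun μ => ?_⟩
    · have h1 := indep_map (M := M) _ hβ
      have h2 : (fun j => ∏ a, SM (β j a)) = fun j => map (algebraMap F M)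
          (∏ a, S (β j a)) := by
        funext j
        rw [map_prod, hSM]
      rw [h2]
      exact h1
    · obtain ⟨x, hx, hsx⟩ := coeff_alg hr (Nat.mul_pos hm hq) hg00 hg0 hg halg
        (fun j => (⟨∏ a, S (β j a), hmq (β j)⟩ : homogeneousSubmodule (Fin r) F (m * q)))
        (fun j => RegSym.prod _ fun a _ => hSr _) hβ ⟨∏ a, S (μ a), hmq μ⟩
        (RegSym.prod _ fun a _ => hSr _)
      have hxC : ∀ j, algebraMap F M (x j) ∈ C0 := by
        intro j
        rw [mem_algebraicClosure_iff]
        exact (hx j).algebraMap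
      refine ⟨fun j => ⟨algebraMap F M (x j), hxC j⟩, ?_⟩
      have h1 := congrArg (fun P : homogeneousSubmodule (Fin r) F (m * q) =>
        map (algebraMap F M) (P : MvPolynomial (Fin r) F)) hsx
      simp only [Submodule.coe_sum, Submodule.coe_smul, map_sum, map_prod, smul_eq_C_mul,
        map_mul, map_C] at h1
      rw [hSM]
      simp only [smul_eq_C_mul]
      exact h1) hl0
  -- the derivation
  have hzM : IsTranscendenceBasis ℂ (algebraMap F M ∘ (Fin.append t η : Fin (κ + r) → F)) :=
    hE.bas.algebraMap_comp
  obtain ⟨D, hD⟩ := exists_der _ hzM (Fin.append (fun _ : Fin κ => (0 : M)) v)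
  have hDt : ∀ i, D (algebraMap F M (t i)) = 0 := by
    intro i
    have h1 := hD (Fin.castAdd r i)
    rw [Function.comp_apply, Fin.append_left, Fin.append_left] at h1
    exact h1
  have hDη : ∀ c, D (algebraMap F M (η c)) = v c := by
    intro c
    have h1 := hD (Fin.natAdd κ c)
    rw [Function.comp_apply, Fin.append_right, Fin.append_right] at h1
    exact h1
  have hDF : ∀ f : F, D (algebraMap F M f) = ∑ c, v c * algebraMap F M (E' c f) := by
    intro f
    have h1 := der_zero ((D.compAlgebraMap F) -
      ∑ c, v c • ((Algebra.linearMap F M).compDer (E' c))) _ hE.bas (fun i => by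
        rw [Derivation.sub_apply]
        have h2 : (∑ c, v c • ((Algebra.linearMap F M).compDer (E' c))) (Fin.append t η i) =
            ∑ c, v c * algebraMap F M (E' c (Fin.append t η i)) := by
          rw [← Derivation.coeFnAddMonoidHom_apply, map_sum, Finset.sum_apply]
          rfl
        rw [h2]
        change D (algebraMap F M (Fin.append t η i)) - _ = 0
        refine Fin.addCases (fun i => ?_) (fun i => ?_) i
        · rw [Fin.append_left, hDt, zero_sub, neg_eq_zero]
          refine Finset.sum_eq_zero fun c _ => ?_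
          have h3 := hE.dual (Fin.natAdd κ c) (Fin.castAdd r i)
          rw [Fin.append_left, if_neg (by
            intro h
            have := congrArg Fin.val h
            simp at this
            omega)] at h3
          rw [hE', h3, map_zero, mul_zero]
        · rw [Fin.append_right, hDη, sub_eq_zero, Finset.sum_eq_single i]
          · have h3 := hE.dual (Fin.natAdd κ i) (Fin.natAdd κ i)
            rw [Fin.append_right, if_pos rfl] at h3
            rw [hE', h3, map_one, mul_one]
          · intro c _ hc
            have h3 := hE.dual (Fin.natAdd κ c) (Fin.natAdd κ i)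
            rw [Fin.append_right, if_neg (fun h => hc (Fin.natAdd_injective _ _ h))] at h3
            rw [hE', h3, map_zero, mul_zero]
          · intro h
            exact absurd (Finset.mem_univ _) h) f
    rw [Derivation.sub_apply] at h1
    have h2 : (∑ c, v c • ((Algebra.linearMap F M).compDer (E' c))) f =
        ∑ c, v c * algebraMap F M (E' c f) := by
      rw [← Derivation.coeFnAddMonoidHom_apply, map_sum, Finset.sum_apply]
      rfl
    rw [h2] at h1
    exact sub_eq_zero.1 h1
  -- the values of the symmetric differentials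
  have hyM : (fun i => algebraMap F M (y i)) ≠ 0 := by
    intro h
    have h1 := congrFun h j0
    exact hj0 ((map_eq_zero _).1 h1)
  have hmemM : ∀ H ∈ p, aeval (fun i => algebraMap F M (y i)) H = 0 := by
    intro H hH
    have h1 := aeval_algebraMap_apply (A := F) M y H
    have h2 : (algebraMap F M ∘ y) = fun i => algebraMap F M (y i) := rfl
    rw [← h2, h1, hmem H hH, map_zero]
  have hval : ∀ l, (s l).val (fun i => algebraMap F M (y i))
      (fun i => D (algebraMap F M (y i))) = eval v (SM l) := by
    intro l
    have hj0M : algebraMap F M (y j0) ≠ 0 := fun h => hj0 ((map_eq_zero _).1 h)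
    rw [(s l).val_eq hp (tanVec_der D hyM hmemM) hj0M, loc_der D _ hj0M, hSM, hSd]
    have h1 : eval v (map (algebraMap F M) (Sf E' y j0 (s l))) =
        ((aeval v : MvPolynomial (Fin r) F →ₐ[F] M).restrictScalars ℂ) (Sf E' y j0 (s l)) := by
      rw [AlgHom.restrictScalars_apply, aeval_def, eval_map]
    change _ = eval v (map (algebraMap F M) (Sf E' y j0 (s l)))
    rw [h1, Sf, comp_aeval_apply]
    congr 2
    funext k
    rcases k with k | k
    · rw [Sum.elim_inl, AlgHom.restrictScalars_apply, aeval_C]
      change algebraMap F M (y k) / algebraMap F M (y j0) = _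
      rw [map_div₀]
    · rw [Sum.elim_inr, AlgHom.restrictScalars_apply, Lf, map_sum]
      change D (algebraMap F M (y k) / algebraMap F M (y j0)) = _
      rw [← map_div₀, hDF]
      refine Finset.sum_congr rfl fun c _ => ?_
      rw [map_mul, aeval_C, aeval_X, mul_comm]
  refine ⟨D, fun l => ?_, l0, ?_⟩
  · rw [hval]
    obtain ⟨c, hc⟩ := hv l
    rw [hc]
    refine der_zero_of_alg (k := ℂ) D ?_
    have h1 : IsAlgebraic K0 (algebraMap C0 M c) := by
      have h2 : (algebraMap C0 M c) ∈ C0 := c.2
      rw [mem_algebraicClosure_iff] at h2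
      exact h2
    refine alg_of_range ?_ h1
    rintro ⟨a, ha⟩
    have h3 : IntermediateField.adjoin ℂ (Set.range t) ≤
        (consts D).comap (IsScalarTower.toAlgHom ℂ F M) := by
      rw [IntermediateField.adjoin_le_iff]
      rintro _ ⟨i, rfl⟩
      exact hDt i
    exact ⟨⟨algebraMap F M a, h3 ha⟩, rfl⟩
  · rw [hval]
    exact hv0

end Pool.Agent.H917
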