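import Pool.Agent.H917.B2

/-!
Ultraproducts of differential fields.
-/

set_option autoImplicit false
set_option linter.overlappingInstances false
set_option linter.unusedSectionVars false

open MvPolynomial Filter

namespace Pool.Agent.H917

section ultra

variable {I : Type} (U : Ultrafilter I) (M : I → Type) [∀ i, Field (M i)] [∀ i, Algebra ℂ (M i)]

/-- the ideal of the functions which are zero almost everywhere -/
def uid : Ideal (∀ i, M i) where
  carrier := {f | ∀ᶠ i in (U : Filter I), f i = 0}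
  add_mem' := by
    intro a b ha hb
    filter_upwards [ha, hb] with i h1 h2
    rw [Pi.add_apply, h1, h2, add_zero]
  zero_mem' := Eventually.of_forall fun _ => rfl
  smul_mem' := by
    intro c a ha
    filter_upwards [ha] with i h1
    rw [smul_eq_mul, Pi.mul_apply, h1, mul_zero]

theorem mem_uid {f : ∀ i, M i} : f ∈ uid U M ↔ ∀ᶠ i in (U : Filter I), f i = 0 := Iff.rfl

theorem uid_maximal : (uid U M).IsMaximal := by
  classical
  rw [Ideal.isMaximal_iff]
  constructor
  · intro h
    rw [mem_uid] at h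
    obtain ⟨i, hi⟩ := h.exists
    exact one_ne_zero hi
  · intro J f hJ hf hfJ
    have h1 : (fun i => f i * (f i)⁻¹ - 1 : ∀ i, M i) ∈ uid U M := by
      rw [mem_uid] at hf ⊢
      rw [← Ultrafilter.eventually_not] at hf
      filter_upwards [hf] with i hi
      rw [mul_inv_cancel₀ hi, sub_self]
    have h2 := J.mul_mem_left (fun i => (f i)⁻¹) hfJ
    have h3 := J.sub_mem h2 (hJ h1)
    have h4 : (fun i => (f i)⁻¹ : ∀ i, M i) * f - (fun i => f i * (f i)⁻¹ - 1) = 1 := by
      funext i
      simp only [Pi.sub_apply, Pi.mul_apply, Pi.one_apply]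
      ring
    rwa [h4] at h3

/-- the ultraproduct -/
def UProd : Type := (∀ i, M i) ⧸ uid U M

noncomputable instance : CommRing (UProd U M) :=
  inferInstanceAs (CommRing ((∀ i, M i) ⧸ uid U M))

noncomputable instance : Algebra ℂ (UProd U M) :=
  inferInstanceAs (Algebra ℂ ((∀ i, M i) ⧸ uid U M))

noncomputable instance : Field (UProd U M) :=
  { (inferInstance : CommRing (UProd U M)) with
    inv := (@Ideal.Quotient.field _ _ (uid U M) (uid_maximal U M)).inv
    exists_pair_ne := (@Ideal.Quotient.field _ _ (uid U M) (uid_maximal U M)).exists_pair_ne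
    mul_inv_cancel := (@Ideal.Quotient.field _ _ (uid U M) (uid_maximal U M)).mul_inv_cancel
    inv_zero := (@Ideal.Quotient.field _ _ (uid U M) (uid_maximal U M)).inv_zero
    nnqsmul := _
    nnqsmul_def := fun _ _ => rfl
    qsmul := _
    qsmul_def := fun _ _ => rfl }

/-- the class of a function -/
noncomputable def um : (∀ i, M i) →ₐ[ℂ] UProd U M :=
  Ideal.Quotient.mkₐ ℂ (uid U M)

variable {U M}

theorem um_surj (z : UProd U M) : ∃ f, um U M f = z := Ideal.Quotient.mk_surjective z

theorem um_eq_zero {f : ∀ i, M i} : um U M f = 0 ↔ ∀ᶠ i in (U : Filter I), f i = 0 := by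
  rw [← mem_uid]
  exact Ideal.Quotient.eq_zero_iff_mem

theorem um_eq {f g : ∀ i, M i} : um U M f = um U M g ↔ ∀ᶠ i in (U : Filter I), f i = g i := by
  rw [← sub_eq_zero, ← map_sub, um_eq_zero]
  refine eventually_congr (Eventually.of_forall fun i => ?_)
  rw [Pi.sub_apply, sub_eq_zero]

theorem um_inv (f : ∀ i, M i) : um U M (fun i => (f i)⁻¹) = (um U M f)⁻¹ := by
  by_cases h : um U M f = 0
  · rw [h, inv_zero, um_eq_zero]
    rw [um_eq_zero] at h
    filter_upwards [h] with i hi
    rw [hi, inv_zero]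
  · apply eq_inv_of_mul_eq_one_left
    rw [← map_mul, ← map_one (um U M), um_eq]
    rw [um_eq_zero, ← Ultrafilter.eventually_not] at h
    filter_upwards [h] with i hi
    exact inv_mul_cancel₀ hi

theorem um_div (f g : ∀ i, M i) : um U M (fun i => f i / g i) = um U M f / um U M g := by
  rw [div_eq_mul_inv, ← um_inv, ← map_mul]
  congr 1
  funext i
  rw [div_eq_mul_inv]
  rfl

theorem um_aeval {σ : Type} (x : ∀ i, σ → M i) (H : MvPolynomial σ ℂ) :
    aeval (fun j => um U M fun i => x i j) H = um U M fun i => aeval (x i) H := by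
  have h1 := comp_aeval_apply (f := fun (j : σ) (i : I) => x i j) (um U M) H
  rw [← h1]
  congr 1
  funext i
  have h2 := comp_aeval_apply (f := fun (j : σ) (i : I) => x i j) (Pi.evalAlgHom ℂ M i) H
  exact h2

/-- a representative -/
noncomputable def ur (z : UProd U M) : ∀ i, M i := Classical.choose (um_surj z)

theorem um_ur (z : UProd U M) : um U M (ur z) = z := Classical.choose_spec (um_surj z)

theorem ur_um (D : ∀ i, Derivation ℂ (M i) (M i)) (f : ∀ i, M i) :
    um U M (fun i => D i (ur (um U M f) i)) = um U M fun i => D i (f i) := by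
  have h1 := um_eq.1 (um_ur (um U M f))
  rw [um_eq]
  filter_upwards [h1] with i hi
  rw [hi]

/-- the derivation of the ultraproduct -/
noncomputable def uder (D : ∀ i, Derivation ℂ (M i) (M i)) :
    Derivation ℂ (UProd U M) (UProd U M) :=
  Derivation.mk'
    { toFun := fun z => um U M fun i => D i (ur z i)
      map_add' := fun x y => by
        obtain ⟨f, rfl⟩ := um_surj x
        obtain ⟨g, rfl⟩ := um_surj y
        rw [← map_add, ur_um, ur_um, ur_um, ← map_add]
        congr 1
        funext i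
        exact (D i).map_add _ _
      map_smul' := fun c x => by
        obtain ⟨f, rfl⟩ := um_surj x
        rw [← map_smul, ur_um, ur_um, RingHom.id_apply, ← map_smul]
        congr 1
        funext i
        exact (D i).map_smul _ _ }
    fun x y => by
      obtain ⟨f, rfl⟩ := um_surj x
      obtain ⟨g, rfl⟩ := um_surj y
      simp only [LinearMap.coe_mk, AddHom.coe_mk]
      rw [← map_mul, ur_um, ur_um, ur_um, smul_eq_mul, smul_eq_mul, ← map_mul, ← map_mul,
        ← map_add]
      congr 1
      funext i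
      exact (D i).leibniz _ _

theorem uder_um (D : ∀ i, Derivation ℂ (M i) (M i)) (f : ∀ i, M i) :
    uder (U := U) D (um U M f) = um U M fun i => D i (f i) := ur_um D f

end ultra

section point

variable {n : ℕ} {p : Ideal (MvPolynomial (Fin (n + 1)) ℂ)}

/-- **The generic point of a family of points with constant symmetric differentials.** -/
theorem exists_ultra (hpp : p.IsPrime) (hp : Pool.Agent.W603.PV.IsHomog p) {m N : ℕ}
    (s : Fin N → SymDiff p m)
    (h : ∀ G : MvPolynomial (Fin (n + 1)) ℂ, (∃ k, G.IsHomogeneous k) → G ∉ p →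
      ∃ (M : Type) (_ : Field M) (_ : Algebra ℂ M) (D : Derivation ℂ M M) (x : Fin (n + 1) → M),
        (∀ H ∈ p, aeval x H = 0) ∧ aeval x G ≠ 0 ∧ x ≠ 0 ∧
        (∀ l, D ((s l).val x fun i => D (x i)) = 0) ∧ ∃ l, (s l).val x (fun i => D (x i)) ≠ 0) :
    ∃ (M : Type) (_ : Field M) (_ : Algebra ℂ M) (D : Derivation ℂ M M) (x : Fin (n + 1) → M),
        (∀ H ∈ p, aeval x H = 0) ∧ (∀ G : MvPolynomial (Fin (n + 1)) ℂ, (∃ k, G.IsHomogeneous k) →
          G ∉ p → aeval x G ≠ 0) ∧ x ≠ 0 ∧
        (∀ l, D ((s l).val x fun i => D (x i)) = 0) ∧ ∃ l, (s l).val x (fun i => D (x i)) ≠ 0 := by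
  classical
  let I : Type := {G : MvPolynomial (Fin (n + 1)) ℂ // (∃ k, G.IsHomogeneous k) ∧ G ∉ p}
  have h' : ∀ G : I, ∃ (M : Type) (_ : Field M) (_ : Algebra ℂ M) (D : Derivation ℂ M M)
      (x : Fin (n + 1) → M), (∀ H ∈ p, aeval x H = 0) ∧ aeval x G.1 ≠ 0 ∧ x ≠ 0 ∧
        (∀ l, D ((s l).val x fun i => D (x i)) = 0) ∧ ∃ l, (s l).val x (fun i => D (x i)) ≠ 0 :=
    fun G => h G.1 G.2.1 G.2.2
  choose M i1 i2 D x h1 h2 h3 h4 h5 using h'
  -- the ultrafilter
  let S : I → Set I := fun G => {G' | G.1 ∣ G'.1}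
  have hI : Nonempty I := ⟨⟨1, ⟨0, isHomogeneous_one _ _⟩, fun h => (Ideal.ne_top_iff_one p).1
    hpp.ne_top h⟩⟩
  have hdir : Directed (· ≥ ·) fun G : I => 𝓟 (S G) := by
    intro G1 G2
    refine ⟨⟨G1.1 * G2.1, ?_, ?_⟩, ?_, ?_⟩
    · obtain ⟨k1, hk1⟩ := G1.2.1
      obtain ⟨k2, hk2⟩ := G2.2.1
      exact ⟨k1 + k2, hk1.mul hk2⟩
    · intro h
      rcases hpp.mem_or_mem h with h | h
      · exact G1.2.2 h
      · exact G2.2.2 h
    · change 𝓟 _ ≤ 𝓟 _
      rw [principal_mono]
      intro G hG
      exact (Dvd.intro _ rfl).trans hG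
    · change 𝓟 _ ≤ 𝓟 _
      rw [principal_mono]
      intro G hG
      exact (Dvd.intro_left _ rfl).trans hG
  have hne : (⨅ G : I, 𝓟 (S G)).NeBot := iInf_neBot_of_directed' hdir fun G =>
    principal_neBot_iff.2 ⟨G, dvd_rfl⟩
  let U : Ultrafilter I := Ultrafilter.of (⨅ G : I, 𝓟 (S G))
  have hU : ∀ G : I, ∀ᶠ G' in (U : Filter I), G.1 ∣ G'.1 := by
    intro G
    have h6 : S G ∈ (⨅ G : I, 𝓟 (S G)) := mem_iInf_of_mem G (mem_principal_self _)
    exact Ultrafilter.of_le _ h6
  -- the point
  let X' : Fin (n + 1) → UProd U M := fun j => um U M fun i => x i j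
  have hXa : ∀ H : MvPolynomial (Fin (n + 1)) ℂ, aeval X' H = um U M fun i => aeval (x i) H :=
    fun H => um_aeval x H
  have hXp : ∀ H ∈ p, aeval X' H = 0 := by
    intro H hH
    rw [hXa, um_eq_zero]
    exact Eventually.of_forall fun i => h1 i H hH
  have hX0 : X' ≠ 0 := by
    intro h0
    have h6 : ∀ j, ∀ᶠ i in (U : Filter I), x i j = 0 := by
      intro j
      have h7 := congrFun h0 j
      exact um_eq_zero.1 h7
    obtain ⟨i, hi⟩ := (eventually_all.2 h6).exists
    exact h3 i (funext hi)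
  obtain ⟨j0, hj0⟩ := Function.ne_iff.1 hX0
  have hj0' : ∀ᶠ i in (U : Filter I), x i j0 ≠ 0 := by
    rw [Ultrafilter.eventually_not]
    intro h0
    exact hj0 (um_eq_zero.2 h0)
  have hval : ∀ l, (s l).val X' (fun i => uder D (X' i)) =
      um U M fun i => (s l).val (x i) fun j => D i (x i j) := by
    intro l
    rw [(s l).val_eq hp (tanVec_der (uder D) hX0 hXp) hj0]
    have h6 : loc j0 X' (fun i => uder D (X' i)) =
        fun k => um U M fun i => loc j0 (x i) (fun j => D i (x i j)) k := by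
      funext k
      rcases k with k | k
      · change um U M _ / um U M _ = um U M fun i => x i k / x i j0
        rw [um_div]
      · change (uder D (um U M _) * um U M _ - um U M _ * uder D (um U M _)) / um U M _ ^ 2 =
          um U M fun i => (D i (x i k) * x i j0 - x i k * D i (x i j0)) / x i j0 ^ 2
        rw [uder_um, uder_um, um_div, ← map_mul, ← map_mul, ← map_sub, ← map_pow]
        rfl
    rw [h6, um_aeval, um_eq]
    filter_upwards [hj0'] with i hi
    rw [(s l).val_eq hp (tanVec_der (D i) (h3 i) (h1 i)) hi]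
  refine ⟨UProd U M, inferInstance, inferInstance, uder D, X', hXp, ?_, hX0, ?_, ?_⟩
  · intro G hG hGp h0
    rw [hXa, um_eq_zero] at h0
    obtain ⟨i, hi1, hi2⟩ := (h0.and (hU ⟨G, hG, hGp⟩)).exists
    apply h2 i
    obtain ⟨Q, hQ⟩ := hi2
    rw [hQ, map_mul]
    change aeval (x i) G * _ = 0
    rw [hi1, zero_mul]
  · intro l
    rw [hval, uder_um, um_eq_zero]
    exact Eventually.of_forall fun i => h4 i l
  · by_contra hcon
    push Not at hcon
    have h6 : ∀ l, ∀ᶠ i in (U : Filter I), (s l).val (x i) (fun j => D i (x i j)) = 0 := by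
      intro l
      have h7 := hcon l
      rw [hval, um_eq_zero] at h7
      exact h7
    obtain ⟨i, hi⟩ := (eventually_all.2 h6).exists
    obtain ⟨l, hl⟩ := h5 i
    exact hl (hi l)

/-- the values of the symmetric differentials of a constant point -/
theorem val_const (hp : Pool.Agent.W603.PV.IsHomog p) {m : ℕ} (hm : 1 ≤ m) (s : SymDiff p m)
    {M : Type} [Field M] [Algebra ℂ M] (D : Derivation ℂ M M) {x : Fin (n + 1) → M} (hx : x ≠ 0)
    (hX : ∀ H ∈ p, aeval x H = 0) (h : ∀ i j, D (x i / x j) = 0) :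
    s.val x (fun i => D (x i)) = 0 := by
  obtain ⟨j0, hj0⟩ := Function.ne_iff.1 hx
  rw [s.val_eq hp (tanVec_der D hx hX) hj0, loc_der D x hj0]
  have h1 : ch2 D x j0 = Sum.elim (ch x j0) fun i => (0 : M) * (fun _ => (0 : M)) i := by
    funext k
    rcases k with k | k
    · rfl
    · change D (x k / x j0) = 0 * 0
      rw [h, mul_zero]
  rw [h1, aeval_scale_inr (s.hom j0), zero_pow (by omega), zero_mul]

end point

end Pool.Agent.H917
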