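import Mathlib

/-!
The exponential of a matrix.
-/

set_option autoImplicit false
set_option linter.overlappingInstances false
set_option linter.unusedSectionVars false

namespace Pool.Agent.H917

attribute [local instance] Matrix.linftyOpNormedRing Matrix.linftyOpNormedAlgebra

theorem exp_entries {r : ℕ} (A : Matrix (Fin r) (Fin r) ℂ) (z : ℂ) (i j : Fin r) :
    HasDerivAt (fun w : ℂ => NormedSpace.exp (w • A) i j)
      (∑ k, A i k * NormedSpace.exp (z • A) k j) z := by
  have h1 := hasDerivAt_exp_smul_const' (𝕂 := ℂ) (𝔸 := Matrix (Fin r) (Fin r) ℂ) A z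
  have h2 := ((LinearMap.toContinuousLinearMap (Matrix.entryLinearMap ℂ ℂ i j)).hasFDerivAt
    (x := NormedSpace.exp (z • A))).comp_hasDerivAt z h1
  exact h2

theorem exists_exp {r : ℕ} (A : Matrix (Fin r) (Fin r) ℂ) :
    ∃ X Y : ℂ → Matrix (Fin r) (Fin r) ℂ, X 0 = 1 ∧ (∀ z, X z * Y z = 1) ∧
      (∀ z i j, HasDerivAt (fun w => X w i j) (∑ k, A i k * X z k j) z) ∧
      ∀ i j, Differentiable ℂ fun z => Y z i j := by
  refine ⟨fun z => NormedSpace.exp (z • A), fun z => NormedSpace.exp (z • (-A)), ?_, fun z => ?_,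
    exp_entries A, fun i j z => (exp_entries (-A) z i j).differentiableAt⟩
  · change NormedSpace.exp ((0 : ℂ) • A) = 1
    rw [zero_smul, NormedSpace.exp_zero]
  · change NormedSpace.exp (z • A) * NormedSpace.exp (z • (-A)) = 1
    rw [smul_neg, ← Matrix.exp_add_of_commute _ _ (Commute.refl (z • A)).neg_right, add_neg_cancel,
      NormedSpace.exp_zero]

end Pool.Agent.H917
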