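import Pool.Agent.H917.D1

/-!
Specialization of linear systems over a differential field.
-/

set_option autoImplicit false
set_option linter.overlappingInstances false
set_option linter.unusedSectionVars false

open MvPolynomial

namespace Pool.Agent.H917

section poly

variable {M : Type} [Field M] [Algebra ℂ M]

/-- the extension of a derivation to polynomials -/
theorem exists_der_poly (D : Derivation ℂ M M) (δ : M) :
    ∃ D' : Derivation ℂ (Polynomial M) (Polynomial M),
      (∀ a, D' (Polynomial.C a) = Polynomial.C (D a)) ∧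
      D' Polynomial.X = Polynomial.C δ * Polynomial.X := by
  obtain ⟨D1, hD1, hD1X⟩ : ∃ D1 : Derivation ℂ (Polynomial M) (Polynomial M),
      (∀ a, D1 (Polynomial.C a) = Polynomial.C (D a)) ∧ D1 Polynomial.X = 0 := by
    refine ⟨(PolynomialModule.equivPolynomialSelf (R := M)).toLinearMap.compDer D.mapCoeffs,
      fun a => ?_, ?_⟩
    · change PolynomialModule.equivPolynomialSelf (D.mapCoeffs (Polynomial.C a)) = _
      rw [Derivation.mapCoeffs_C, PolynomialModule.equivPolynomialSelf_apply_eq,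
        PolynomialModule.equivPolynomial_single]
      rfl
    · change PolynomialModule.equivPolynomialSelf (D.mapCoeffs Polynomial.X) = _
      rw [Derivation.mapCoeffs_X, map_zero]
  refine ⟨D1 + (Polynomial.C δ * Polynomial.X) •
    ((Polynomial.derivative' : Derivation M (Polynomial M) (Polynomial M)).restrictScalars ℂ),
    fun a => ?_, ?_⟩
  · rw [Derivation.add_apply, Derivation.smul_apply, hD1]
    change _ + _ • Polynomial.derivative (Polynomial.C a) = _
    rw [Polynomial.derivative_C, smul_zero, add_zero]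
  · rw [Derivation.add_apply, Derivation.smul_apply, hD1X]
    change _ + _ • Polynomial.derivative Polynomial.X = _
    rw [Polynomial.derivative_X, smul_eq_mul, mul_one, zero_add]

end poly

/-- the variables: the matrix, the coefficients and the solution of a linear system -/
abbrev Vr (n r : ℕ) : Type := (Fin r × Fin r) ⊕ ((Fin (n + 1) × Fin r) ⊕ Fin r)

/-- the linear vector field -/
noncomputable def lvf (n r : ℕ) :
    Derivation ℂ (MvPolynomial (Vr n r) ℂ) (MvPolynomial (Vr n r) ℂ) :=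
  mkDerivation ℂ (Sum.elim (fun _ => 0) (Sum.elim (fun _ => 0)
    fun i => ∑ j, X (Sum.inl (i, j)) * X (Sum.inr (Sum.inr j))))

/-- the coordinates of the curve given by a linear system -/
noncomputable def gcv (n r : ℕ) (i : Fin (n + 1)) : MvPolynomial (Vr n r) ℂ :=
  ∑ j, X (Sum.inr (Sum.inl (i, j))) * X (Sum.inr (Sum.inr j))

variable {n : ℕ} {p : Ideal (MvPolynomial (Fin (n + 1)) ℂ)}

/-- **Specialization of linear systems.** -/
theorem exists_spec (hp : Pool.Agent.W603.PV.IsHomog p) {M : Type} [Field M] [Algebra ℂ M]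
    (D : Derivation ℂ M M) {r : ℕ} {h : Fin r → M} {δ : M} {A : Fin r → Fin r → M}
    {b : Fin (n + 1) → Fin r → M} (hA : ∀ i j, D (A i j) = 0) (hb : ∀ i j, D (b i j) = 0)
    (hh : ∀ i, D (h i) = δ * h i + ∑ j, A i j * h j) {β : Fin (n + 1) → M}
    (hβ : ∀ i, β i = ∑ j, b i j * h j) (hX : ∀ H ∈ p, aeval β H = 0)
    {G : MvPolynomial (Fin (n + 1)) ℂ} (hG : ∃ k, G.IsHomogeneous k) (hGx : aeval β G ≠ 0)
    {i0 j0 : Fin (n + 1)} (hW : β i0 * D (β j0) - β j0 * D (β i0) ≠ 0) :
    ∃ ζ : Vr n r → ℂ, (∀ H ∈ p, ∀ k, eval ζ ((lvf n r)^[k] (aeval (gcv n r) H)) = 0) ∧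
      eval ζ (aeval (gcv n r) G) ≠ 0 ∧
      eval ζ (gcv n r i0 * lvf n r (gcv n r j0) - gcv n r j0 * lvf n r (gcv n r i0)) ≠ 0 := by
  classical
  obtain ⟨D', hD'C, hD'X⟩ := exists_der_poly D (-δ)
  obtain ⟨ev, hev⟩ : ∃ ev : MvPolynomial (Vr n r) ℂ →ₐ[ℂ] Polynomial M, ev = aeval
      (Sum.elim (fun ij => Polynomial.C (A ij.1 ij.2)) (Sum.elim
        (fun ij => Polynomial.C (b ij.1 ij.2)) fun i => Polynomial.C (h i) * Polynomial.X)) :=
    ⟨_, rfl⟩
  have hevA : ∀ i j, ev (X (Sum.inl (i, j))) = Polynomial.C (A i j) := by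
    intro i j
    rw [hev, aeval_X]
    rfl
  have hevb : ∀ i j, ev (X (Sum.inr (Sum.inl (i, j)))) = Polynomial.C (b i j) := by
    intro i j
    rw [hev, aeval_X]
    rfl
  have hevh : ∀ i, ev (X (Sum.inr (Sum.inr i))) = Polynomial.C (h i) * Polynomial.X := by
    intro i
    rw [hev, aeval_X]
    rfl
  have hlv : ∀ i, lvf n r (X (Sum.inr (Sum.inr i))) =
      ∑ j, X (Sum.inl (i, j)) * X (Sum.inr (Sum.inr j)) := by
    intro i
    rw [lvf, mkDerivation_X]
    rfl
  have hcomm : ∀ P, D' (ev P) = ev (lvf n r P) := by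
    intro P
    induction P using MvPolynomial.induction_on with
    | C a =>
      rw [← algebraMap_eq, AlgHom.commutes, Derivation.map_algebraMap, Derivation.map_algebraMap,
        map_zero]
    | add p q hp hq => rw [map_add, map_add, hp, hq, map_add, map_add]
    | mul_X p v hp =>
      have hgen : D' (ev (X v)) = ev (lvf n r (X v)) := by
        rcases v with ⟨i, j⟩ | ⟨i, j⟩ | i
        · rw [hevA, hD'C, hA, Polynomial.C_0, lvf, mkDerivation_X, Sum.elim_inl, map_zero]
        · rw [hevb, hD'C, hb, Polynomial.C_0, lvf, mkDerivation_X, Sum.elim_inr, Sum.elim_inl,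
            map_zero]
        · rw [hevh, hlv, D'.leibniz, hD'C, hD'X, hh, map_sum]
          simp only [map_mul, hevA, hevh, smul_eq_mul, map_add, map_neg, map_sum]
          rw [Finset.sum_congr rfl fun j _ => (mul_assoc (Polynomial.C (A i j))
            (Polynomial.C (h j)) Polynomial.X).symm, ← Finset.sum_mul]
          ring
      rw [map_mul, D'.leibniz, Derivation.leibniz, map_add, hp, hgen]
      simp only [smul_eq_mul, map_mul]
  have hgcv : ∀ i, ev (gcv n r i) = Polynomial.X * Polynomial.C (β i) := by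
    intro i
    rw [gcv, map_sum, hβ, map_sum, Finset.mul_sum]
    refine Finset.sum_congr rfl fun j _ => ?_
    rw [map_mul, hevb, hevh, map_mul]
    ring
  have hform : ∀ (H : MvPolynomial (Fin (n + 1)) ℂ) (k : ℕ), H.IsHomogeneous k →
      ev (aeval (gcv n r) H) = Polynomial.X ^ k * Polynomial.C (aeval β H) := by
    intro H k hH
    rw [comp_aeval_apply]
    have h1 : (fun i => ev (gcv n r i)) = fun i => Polynomial.X * Polynomial.C (β i) :=
      funext hgcv
    rw [h1, aeval_smul_homog _ _ hH]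
    congr 1
    exact (comp_aeval_apply (f := β) (Polynomial.CAlgHom (R := ℂ) (A := M)) H).symm
  have hP : ∀ H ∈ p, ev (aeval (gcv n r) H) = 0 := by
    intro H hH
    rw [← sum_homogeneousComponent H, map_sum, map_sum]
    refine Finset.sum_eq_zero fun d _ => ?_
    rw [hform _ d (homogeneousComponent_isHomogeneous d H), hX _ (hp H hH d), Polynomial.C_0,
      mul_zero]
  have hPk : ∀ H ∈ p, ∀ k, ev ((lvf n r)^[k] (aeval (gcv n r) H)) = 0 := by
    intro H hH k
    induction k with
    | zero => exact hP H hH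
    | succ k ih => rw [Function.iterate_succ_apply', ← hcomm, ih, map_zero]
  have hGe : ev (aeval (gcv n r) G) ≠ 0 := by
    obtain ⟨k, hk⟩ := hG
    rw [hform G k hk]
    exact mul_ne_zero (pow_ne_zero _ Polynomial.X_ne_zero) (Polynomial.C_ne_zero.2 hGx)
  have hWe : ev (gcv n r i0 * lvf n r (gcv n r j0) - gcv n r j0 * lvf n r (gcv n r i0)) ≠ 0 := by
    have h1 : ev (gcv n r i0 * lvf n r (gcv n r j0) - gcv n r j0 * lvf n r (gcv n r i0)) =
        Polynomial.X ^ 2 * Polynomial.C (β i0 * D (β j0) - β j0 * D (β i0)) := by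
      rw [map_sub, map_mul, map_mul, ← hcomm, ← hcomm, hgcv, hgcv, D'.leibniz, D'.leibniz, hD'C,
        hD'C, hD'X]
      simp only [smul_eq_mul, map_sub, map_mul]
      ring
    rw [h1]
    exact mul_ne_zero (pow_ne_zero _ Polynomial.X_ne_zero) (Polynomial.C_ne_zero.2 hW)
  obtain ⟨P, hPd⟩ : ∃ P : Ideal (MvPolynomial (Vr n r) ℂ), P = RingHom.ker ev := ⟨_, rfl⟩
  have hPp : P.IsPrime := by
    rw [hPd]
    exact RingHom.ker_isPrime _
  obtain ⟨g, hg⟩ : ∃ g, g = aeval (gcv n r) G *
    (gcv n r i0 * lvf n r (gcv n r j0) - gcv n r j0 * lvf n r (gcv n r i0)) := ⟨_, rfl⟩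
  have hgP : g ∉ P := by
    rw [hPd, RingHom.mem_ker, hg, map_mul]
    exact mul_ne_zero hGe hWe
  obtain ⟨ζ, hζ, hζg⟩ : ∃ ζ : Vr n r → ℂ, (∀ Q ∈ P, aeval ζ Q = 0) ∧ aeval ζ g ≠ 0 := by
    by_contra hcon
    push Not at hcon
    apply hgP
    rw [← hPp.radical, ← vanishingIdeal_zeroLocus_eq_radical (K := ℂ), mem_vanishingIdeal_iff]
    intro ζ hζ
    rw [mem_zeroLocus_iff] at hζ
    exact hcon ζ hζ
  rw [ae, hg, map_mul] at hζg
  refine ⟨ζ, fun H hH k => ?_, left_ne_zero_of_mul hζg, right_ne_zero_of_mul hζg⟩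
  rw [← ae]
  refine hζ _ ?_
  rw [hPd, RingHom.mem_ker]
  exact hPk H hH k

end Pool.Agent.H917
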