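import Pool.Agent.H917.D2
import Pool.Agent.H917.D3
import Pool.Graph.R_pool_sql_team_seeded_2aa45f1a.Q139.EG.Hyp

/-!
Curves given by linear systems with constant coefficients in varieties of general type.
-/

set_option autoImplicit false
set_option linter.overlappingInstances false
set_option linter.unusedSectionVars false

open MvPolynomial Set Filter Topology

namespace Pool.Agent.H917

open Pool.Agent.Q139.EG Pool.Agent.Y377.ST

section pev

theorem pev_const' {L ι : Type} [CommRing L] [Fintype ι] [DecidableEq ι] {e : ℕ} (b : L)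
    (w : ι → L) : pev (fun m : ι → Fin (e + 1) => if m = 0 then b else 0) w = b := by
  unfold pev
  rw [Finset.sum_eq_single 0]
  · simp
  · intro m _ hm
    change (if m = 0 then b else 0) * _ = 0
    rw [if_neg hm, zero_mul]
  · intro h
    exact absurd (Finset.mem_univ _) h

theorem pev_lin' {L ι κ : Type} [CommRing L] [Fintype ι] [DecidableEq ι] [Fintype κ] (b : κ → L)
    (V : κ → ι) : ∃ c : (ι → Fin (1 + 1)) → L, ∀ w : ι → L, ∑ t, b t * w (V t) = pev c w := by
  classical
  refine ⟨fun m => ∑ t, if m = (fun u => if u = V t then 1 else 0) then b t else 0,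
    fun w => ?_⟩
  unfold pev
  simp_rw [Finset.sum_mul]
  rw [Finset.sum_comm]
  refine Finset.sum_congr rfl fun t _ => ?_
  rw [Finset.sum_eq_single (fun u => if u = V t then 1 else 0)]
  · rw [if_pos rfl, Finset.prod_eq_single (V t)]
    · simp
    · intro u _ hu
      simp [hu]
    · intro h
      exact absurd (Finset.mem_univ _) h
  · intro m _ hm
    rw [if_neg hm, zero_mul]
  · intro h
    exact absurd (Finset.mem_univ _) h

end pev

/-- the constant functions -/
def cst : Set (ℂ → ℂ) := {g | ∃ c : ℂ, g = fun _ => c}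

theorem cst_ring : CRing univ cst := by
  refine ⟨?_, fun c => ⟨c, rfl⟩, ?_, ?_, ?_⟩
  · rintro _ ⟨c, rfl⟩
    exact analyticOnNhd_const
  · rintro _ ⟨c, rfl⟩ _ ⟨d, rfl⟩
    exact ⟨c + d, rfl⟩
  · rintro _ ⟨c, rfl⟩ _ ⟨d, rfl⟩
    exact ⟨c * d, rfl⟩
  · rintro _ ⟨c, rfl⟩
    exact ⟨fun _ => 0, ⟨0, rfl⟩, fun z _ => deriv_const z c⟩

variable {n : ℕ} {p : Ideal (MvPolynomial (Fin (n + 1)) ℂ)}

/-- **The curve given by a linear system with constant coefficients.** -/
theorem curve_of_spec {r : ℕ} {ζ : Vr n r → ℂ}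
    (hζ : ∀ H ∈ p, ∀ k, eval ζ ((lvf n r)^[k] (aeval (gcv n r) H)) = 0) :
    ∃ f : ℂ → Fin (n + 1) → ℂ, MVec univ cst 1 r 1 f ∧ (∀ z, ∀ H ∈ p, eval (f z) H = 0) ∧
      (∀ i, f 0 i = eval ζ (gcv n r i)) ∧
      ∀ i, HasDerivAt (fun z => f z i) (eval ζ (lvf n r (gcv n r i))) 0 := by
  classical
  obtain ⟨A, hA⟩ : ∃ A : Matrix (Fin r) (Fin r) ℂ, A = Matrix.of fun i j => ζ (Sum.inl (i, j)) :=
    ⟨_, rfl⟩
  obtain ⟨X', Y', hX0, hXY, hX, hY⟩ := exists_exp A
  let F : ℂ → Fin r → ℂ := fun z i => ∑ k, X' z i k * ζ (Sum.inr (Sum.inr k))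
  let Z : ℂ → Vr n r → ℂ := fun z => Sum.elim (fun v => ζ (Sum.inl v))
    (Sum.elim (fun v => ζ (Sum.inr (Sum.inl v))) (F z))
  have hF0 : ∀ i, F 0 i = ζ (Sum.inr (Sum.inr i)) := by
    intro i
    change ∑ k, X' 0 i k * ζ (Sum.inr (Sum.inr k)) = _
    rw [hX0, Finset.sum_eq_single i]
    · rw [Matrix.one_apply_eq, one_mul]
    · intro b _ hb
      rw [Matrix.one_apply_ne hb.symm, zero_mul]
    · intro h
      exact absurd (Finset.mem_univ _) h
  have hZ0 : Z 0 = ζ := by
    funext v
    rcases v with v | v | v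
    · rfl
    · rfl
    · exact hF0 v
  have hF : ∀ z i, HasDerivAt (fun w => F w i) (∑ j, ζ (Sum.inl (i, j)) * F z j) z := by
    intro z i
    have h1 : HasDerivAt (fun w => F w i)
        (∑ k, (∑ j, A i j * X' z j k) * ζ (Sum.inr (Sum.inr k))) z := by
      change HasDerivAt (fun w => ∑ k, X' w i k * ζ (Sum.inr (Sum.inr k))) _ z
      exact HasDerivAt.fun_sum fun k _ => (hX z i k).mul_const _
    convert h1 using 1
    change ∑ j, ζ (Sum.inl (i, j)) * (∑ k, X' z j k * ζ (Sum.inr (Sum.inr k))) = _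
    simp only [Finset.sum_mul, Finset.mul_sum]
    rw [Finset.sum_comm]
    refine Finset.sum_congr rfl fun k _ => Finset.sum_congr rfl fun j _ => ?_
    rw [hA, Matrix.of_apply]
    ring
  have hZ : ∀ (P : MvPolynomial (Vr n r) ℂ) (z : ℂ),
      HasDerivAt (fun w => eval (Z w) P) (eval (Z z) (lvf n r P)) z := by
    intro P z
    induction P using MvPolynomial.induction_on with
    | C a =>
      have h1 : lvf n r (C a) = 0 := by
        rw [← algebraMap_eq, Derivation.map_algebraMap]
      rw [h1, map_zero]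
      simp only [eval_C]
      exact hasDerivAt_const z a
    | add p q hp hq =>
      simp only [map_add]
      exact hp.add hq
    | mul_X p v hp =>
      have hgen : HasDerivAt (fun w => Z w v) (eval (Z z) (lvf n r (X v))) z := by
        rw [lvf, mkDerivation_X]
        rcases v with v | v | i
        · rw [Sum.elim_inl, map_zero]
          exact hasDerivAt_const z _
        · rw [Sum.elim_inr, Sum.elim_inl, map_zero]
          exact hasDerivAt_const z _
        · rw [Sum.elim_inr, Sum.elim_inr, map_sum]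
          simp only [map_mul, eval_X]
          exact hF z i
      have h1 := hp.mul hgen
      simp only [map_mul, eval_X]
      rw [Derivation.leibniz, map_add]
      simp only [smul_eq_mul, map_mul, eval_X]
      refine h1.congr_deriv ?_
      ring
  let f : ℂ → Fin (n + 1) → ℂ := fun z i => eval (Z z) (gcv n r i)
  have hfd : ∀ P : MvPolynomial (Vr n r) ℂ, Differentiable ℂ fun z => eval (Z z) P :=
    fun P z => (hZ P z).differentiableAt
  refine ⟨f, ?_, fun z H hH => ?_, fun i => ?_, fun i => ?_⟩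
  · refine ⟨fun _ => X', fun _ => Y', ⟨fun _ i j z _ => ?_, fun _ i j z _ => ?_,
      fun _ z _ => hXY z, fun l i j => ?_⟩, fun j => ?_⟩
    · exact Differentiable.analyticAt (fun w => (hX w i j).differentiableAt) z
    · exact Differentiable.analyticAt (hY i j) z
    · refine ⟨fun m _ => if m = 0 then A i j else 0, fun m => ⟨_, rfl⟩, fun z _ => ?_⟩
      rw [pev_const']
      have h1 : ∀ k, deriv (fun w => X' w i k) z = (A * X' z) i k := by
        intro k
        rw [(hX z i k).deriv, Matrix.mul_apply]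
      change ∑ k, deriv (fun w => X' w i k) z * Y' z k j = _
      rw [Finset.sum_congr rfl fun k _ => by rw [h1 k], ← Matrix.mul_apply, Matrix.mul_assoc, hXY,
        Matrix.mul_one]
    · obtain ⟨c, hc⟩ := pev_lin' (L := ℂ) (ι := Ix 1 r) (κ := Fin r × Fin r)
        (fun t => ζ (Sum.inr (Sum.inl (j, t.1))) * ζ (Sum.inr (Sum.inr t.2)))
        (fun t => (0, true, t.1, t.2))
      refine ⟨fun m _ => c m, fun m => ⟨_, rfl⟩, fun z _ => ?_⟩
      have h1 := hc (entries (fun _ => X') (fun _ => Y') z)
      rw [← h1]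
      change eval (Z z) (gcv n r j) = _
      rw [gcv, map_sum, Fintype.sum_prod_type]
      refine Finset.sum_congr rfl fun k _ => ?_
      rw [map_mul, eval_X, eval_X]
      change ζ (Sum.inr (Sum.inl (j, k))) * (∑ l, X' z k l * ζ (Sum.inr (Sum.inr l))) = _
      rw [Finset.mul_sum]
      refine Finset.sum_congr rfl fun l _ => ?_
      change _ = ζ (Sum.inr (Sum.inl (j, k))) * ζ (Sum.inr (Sum.inr l)) * X' z k l
      ring
  · have h1 : ∀ k, iteratedDeriv k (fun w => eval (Z w) (aeval (gcv n r) H)) =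
        fun w => eval (Z w) ((lvf n r)^[k] (aeval (gcv n r) H)) := by
      intro k
      induction k with
      | zero => rw [iteratedDeriv_zero]; rfl
      | succ k ih =>
        rw [iteratedDeriv_succ, ih]
        funext w
        rw [Function.iterate_succ_apply']
        exact (hZ _ w).deriv
    have h2 := Complex.taylorSeries_eq_of_entire' 0 z (hfd (aeval (gcv n r) H))
    have h3 : (fun k : ℕ => ((k.factorial : ℂ))⁻¹ *
        iteratedDeriv k (fun w => eval (Z w) (aeval (gcv n r) H)) 0 * (z - 0) ^ k) = fun _ => 0 := by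
      funext k
      rw [h1 k]
      change _ * eval (Z 0) _ * _ = 0
      rw [hZ0, hζ H hH k, mul_zero, zero_mul]
    rw [h3, tsum_zero] at h2
    have h4 : eval (Z z) (aeval (gcv n r) H) = eval (f z) H := by
      have h5 : ∀ P : MvPolynomial (Vr n r) ℂ, (aeval (Z z) : MvPolynomial (Vr n r) ℂ →ₐ[ℂ] ℂ) P =
        eval (Z z) P := fun P => ae (Z z) P
      rw [← h5, comp_aeval_apply, ← ae]
      congr 2
    rw [← h4]
    exact h2.symm
  · change eval (Z 0) (gcv n r i) = _
    rw [hZ0]
  · have h1 := hZ (gcv n r i) 0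
    rw [hZ0] at h1
    exact h1

end Pool.Agent.H917
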