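import Pool.Agent.H917.D4
import Pool.Agent.H917.C6
import Pool.Agent.H917.B3

/-!
The subvarieties which are not of general type of a variety of general type.
-/

set_option autoImplicit false
set_option linter.overlappingInstances false
set_option linter.unusedSectionVars false

open MvPolynomial Set Filter Topology

namespace Pool.Agent.H917

open Pool.Agent.Q139.EG Pool.Agent.Y377.ST
open Pool.Agent.W602.GT (IsForm GeneralType coords consts mem_consts)
open Pool.Agent.TH143.GT (FunField)

/-- functions with an algebraic ratio over the constants -/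
theorem alg_const {f g : ℂ → ℂ} {f' g' : ℂ} (hf : HasDerivAt f f' 0) (hg : HasDerivAt g g' 0)
    (hg0 : g 0 ≠ 0) {D : ℕ} (h : AlgM univ cst D f g) : f 0 * g' - g 0 * f' = 0 := by
  classical
  obtain ⟨A, hA, ⟨k0, hk0, z1, -, hz1⟩, hrel⟩ := h
  choose a ha using hA
  let P : Polynomial ℂ := ∑ k ∈ Finset.range (D + 1), Polynomial.monomial k (a k)
  have hP0 : P ≠ 0 := by
    intro h0
    have h1 := congrArg (fun Q : Polynomial ℂ => Q.coeff k0) h0
    simp only [P, Polynomial.finsetSum_coeff, Polynomial.coeff_monomial, Polynomial.coeff_zero]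
      at h1
    rw [Finset.sum_ite_eq', if_pos (Finset.mem_range.2 (by omega))] at h1
    apply hz1
    rw [ha k0]
    exact h1
  have hroot : ∀ z, g z ≠ 0 → P.IsRoot (f z / g z) := by
    intro z hz
    have h1 := hrel z (mem_univ z)
    have h2 : P.eval (f z / g z) * g z ^ D = 0 := by
      rw [Polynomial.eval_finsetSum, Finset.sum_mul, ← h1]
      refine Finset.sum_congr rfl fun k hk => ?_
      rw [Polynomial.eval_monomial, ha k]
      have h3 : g z ^ D = g z ^ k * g z ^ (D - k) := by
        rw [← pow_add]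
        congr 1
        rw [Finset.mem_range] at hk
        omega
      rw [h3, div_pow]
      field_simp
    exact (mul_eq_zero.1 h2).resolve_right (pow_ne_zero _ hz)
  have hd : HasDerivAt (fun z => f z / g z) ((f' * g 0 - f 0 * g') / g 0 ^ 2) 0 := hf.div hg hg0
  have hev : (fun z => f z / g z) =ᶠ[𝓝 0] fun _ => f 0 / g 0 := by
    have hfin : ((P.roots.toFinset : Set ℂ) \ {f 0 / g 0}).Finite :=
      (P.roots.toFinset.finite_toSet).subset Set.sdiff_subset
    have h1 : ∀ᶠ z in 𝓝 (0 : ℂ), f z / g z ∉ ((P.roots.toFinset : Set ℂ) \ {f 0 / g 0}) := by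
      have h2 : ((P.roots.toFinset : Set ℂ) \ {f 0 / g 0})ᶜ ∈ 𝓝 (f 0 / g 0) :=
        hfin.isClosed.isOpen_compl.mem_nhds fun h => h.2 rfl
      exact hd.continuousAt.eventually h2
    filter_upwards [h1, hg.continuousAt.eventually_ne hg0] with z hz1 hz2
    by_contra hne
    refine hz1 ⟨?_, hne⟩
    rw [Finset.mem_coe, Multiset.mem_toFinset, Polynomial.mem_roots hP0]
    exact hroot z hz2
  have h2 := (hasDerivAt_const (0 : ℂ) (f 0 / g 0)).congr_of_eventuallyEq hev
  have h3 := hd.unique h2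
  have h4 : g 0 ^ 2 ≠ 0 := pow_ne_zero _ hg0
  rw [div_eq_zero_iff] at h3
  have h5 := h3.resolve_right h4
  linear_combination -h5

variable {n : ℕ} {p : Ideal (MvPolynomial (Fin (n + 1)) ℂ)}

/-- **The subvarieties which are not of general type are contained in a hypersurface.** -/
theorem exists_form (hpp : p.IsPrime) (hp : Pool.Agent.W603.PV.IsHomog p) {m N : ℕ}
    {s : Fin N → SymDiff p m} (hs : Gens p m s) (hm : 1 ≤ m) {K : Type} [Field K] [Algebra ℂ K]
    {w : ℕ} {y : Fin (n + 1) → K} (hy : FunField p 1 K w y) (hGT : GeneralType ℂ K w) :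
    ∃ G : MvPolynomial (Fin (n + 1)) ℂ, (∃ k, G.IsHomogeneous k) ∧ G ∉ p ∧
      ∀ (F : Type) [Field F] [Algebra ℂ F] (d : ℕ) (x : Fin (n + 1) → F), 1 ≤ d → x ≠ 0 →
        (∀ H ∈ p, aeval x H = 0) → coords ℂ x = ⊤ → Algebra.trdeg ℂ F = d →
        ¬ GeneralType ℂ F d → aeval x G = 0 := by
  classical
  by_contra hcon
  push Not at hcon
  obtain ⟨M, i1, i2, D, x, hXp, hXG, hx0, hD, hval⟩ := exists_ultra hpp hp s fun G hG hGp => by
    obtain ⟨F, j1, j2, d, x, hd, hx0, hxm, hxg, htr, hngt, hxG⟩ := hcon G hG hGp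
    obtain ⟨D, h1, l, h2⟩ := key_N (M := AlgebraicClosure F) hp hs hm hd hx0 hxm hxg htr hngt
    have hmemM : ∀ H : MvPolynomial (Fin (n + 1)) ℂ, aeval (fun i => algebraMap F (AlgebraicClosure F) (x i)) H =
        algebraMap F (AlgebraicClosure F) (aeval x H) := by
      intro H
      have h1 := aeval_algebraMap_apply (A := F) (AlgebraicClosure F) x H
      have h2 : (algebraMap F (AlgebraicClosure F) ∘ x) =
        fun i => algebraMap F (AlgebraicClosure F) (x i) := rfl
      rw [← h2, h1]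
    refine ⟨AlgebraicClosure F, inferInstance, inferInstance, D,
      fun i => algebraMap F (AlgebraicClosure F) (x i), fun H hH => ?_, ?_, ?_, h1, l, h2⟩
    · rw [hmemM, hxm H hH, map_zero]
    · rw [hmemM]
      exact fun h => hxG ((map_eq_zero _).1 h)
    · intro h
      apply hx0
      funext i
      exact (map_eq_zero _).1 (congrFun h i)
  -- the point is not constant
  have hnc : ∃ i j, D (x i / x j) ≠ 0 := by
    by_contra hall
    push Not at hall
    obtain ⟨l, hl⟩ := hval
    exact hl (val_const hp hm (s l) D hx0 hXp hall)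
  obtain ⟨j1, hj1⟩ := Function.ne_iff.1 hx0
  have hj1 : x j1 ≠ 0 := hj1
  obtain ⟨r, h, δ, A, b, hA, hb, hh, hb0, hxb⟩ := linSys_amb D (consts D)
    (fun c hc => by
      rw [mem_consts] at hc ⊢
      rw [hc, map_zero]) hp hs hm hj1 hXp (fun l => mem_consts.2 (hD l)) hnc hy.sub.gen
    (fun G hG => by
      constructor
      · intro h0
        exact hXp G (hy.mem G hG h0)
      · intro h0
        by_contra hne
        refine hXG G hG (fun hGp => hne ?_) h0
        exact hy.sub.mem G hGp) hGT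
  obtain ⟨G, D0, hG, hGp, hG1, -, -⟩ := gt_gen hy hGT 1 r 1
  obtain ⟨β, hβ⟩ : ∃ β : Fin (n + 1) → M, ∀ i, β i = ∑ j, b i j * h j := ⟨_, fun _ => rfl⟩
  obtain ⟨c, hc⟩ : ∃ c, c = β j1 / x j1 := ⟨_, rfl⟩
  have hc0 : c ≠ 0 := by
    rw [hc, hβ]
    exact div_ne_zero hb0 hj1
  have hβx : ∀ i, β i = c * x i := by
    intro i
    have h1 := hxb i
    rw [← hβ, ← hβ] at h1
    rw [hc]
    field_simp
    linear_combination -h1
  have hβf : β = fun i => c * x i := funext hβx
  have hβX : ∀ H ∈ p, aeval β H = 0 := by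
    intro H hH
    rw [← sum_homogeneousComponent H, map_sum]
    refine Finset.sum_eq_zero fun e _ => ?_
    rw [hβf, aeval_smul_homog _ _ (homogeneousComponent_isHomogeneous e H), hXp _ (hp H hH e),
      mul_zero]
  have hβG : aeval β G ≠ 0 := by
    obtain ⟨e, he⟩ := hG
    rw [hβf, aeval_smul_homog _ _ he]
    exact mul_ne_zero (pow_ne_zero _ hc0) (hXG G ⟨e, he⟩ hGp)
  obtain ⟨i0, j0, hij⟩ := hnc
  have hxj0 : x j0 ≠ 0 := by
    intro h0
    apply hij
    rw [h0, div_zero, map_zero]
  have hW : β i0 * D (β j0) - β j0 * D (β i0) ≠ 0 := by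
    intro h0
    apply hij
    rw [hβx, hβx, D.leibniz, D.leibniz] at h0
    simp only [smul_eq_mul] at h0
    have h1 : c ^ 2 * (x i0 * D (x j0) - x j0 * D (x i0)) = 0 := by
      rw [← h0]
      ring
    have h2 := (mul_eq_zero.1 h1).resolve_left (pow_ne_zero _ hc0)
    rw [div_eq_mul_inv, D.leibniz, D.leibniz_inv]
    simp only [smul_eq_mul]
    field_simp
    linear_combination -h2
  obtain ⟨ζ, hζ1, hζ2, hζ3⟩ := exists_spec hp D (fun i j => mem_consts.1 (hA i j))
    (fun i j => mem_consts.1 (hb i j)) hh hβ hβX hG hβG hW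
  obtain ⟨f, hf, hfp, hf0, hfd⟩ := curve_of_spec hζ1
  rcases hG1 univ isOpen_univ isPreconnected_univ cst cst_ring f hf
    (fun z _ H hH _ => hfp z H hH) with h1 | h1
  · apply hζ2
    have h2 := h1 0 (mem_univ _)
    rw [← ae, comp_aeval_apply, ← h2, ← ae]
    congr 2
    funext i
    rw [hf0, ← ae]
  · have hW' : f 0 i0 * eval ζ (lvf n r (gcv n r j0)) -
        f 0 j0 * eval ζ (lvf n r (gcv n r i0)) ≠ 0 := by
      rw [hf0, hf0, ← map_mul, ← map_mul, ← map_sub]
      exact hζ3
    by_cases hfj : f 0 j0 = 0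
    · have hfi : f 0 i0 ≠ 0 := by
        intro h0
        apply hW'
        rw [h0, hfj]
        ring
      apply hW'
      have h2 := alg_const (hfd j0) (hfd i0) hfi (h1 j0 i0)
      linear_combination -h2
    · apply hW'
      exact alg_const (hfd i0) (hfd j0) hfj (h1 i0 j0)

end Pool.Agent.H917
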