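import Mathlib

/-!
Convergent power series and polynomial vector fields.
-/

set_option autoImplicit false
set_option linter.overlappingInstances false
set_option linter.unusedSectionVars false

open MvPolynomial Filter Topology

namespace Pool.Agent.H917

section conv

open PowerSeries (coeff)

/-- power series whose radius of convergence is at least `R` -/
noncomputable def Cv (R : ℝ) : Subalgebra ℂ (PowerSeries ℂ) where
  carrier := {f | ∀ ρ : ℝ, 0 ≤ ρ → ρ < R → Summable fun m => ‖coeff m f‖ * ρ ^ m}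
  mul_mem' := by
    intro f g hf hg ρ hρ hρR
    have ha : ∀ f : PowerSeries ℂ, (Summable fun m => ‖coeff m f‖ * ρ ^ m) →
        Summable fun m => ‖(‖coeff m f‖ * ρ ^ m : ℝ)‖ := fun f hf =>
      hf.congr fun m => by
        rw [Real.norm_of_nonneg (by positivity)]
    have h1 : Summable fun n => ∑ kl ∈ Finset.HasAntidiagonal.antidiagonal n,
        (‖coeff kl.1 f‖ * ρ ^ kl.1) * (‖coeff kl.2 g‖ * ρ ^ kl.2) :=
      (summable_norm_sum_mul_antidiagonal_of_summable_norm
        (f := fun m => ‖coeff m f‖ * ρ ^ m) (g := fun m => ‖coeff m g‖ * ρ ^ m)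
        (ha f (hf ρ hρ hρR)) (ha g (hg ρ hρ hρR))).of_norm
    refine Summable.of_nonneg_of_le (fun m => by positivity) (fun m => ?_) h1
    rw [PowerSeries.coeff_mul]
    calc ‖∑ p ∈ Finset.HasAntidiagonal.antidiagonal m, coeff p.1 f * coeff p.2 g‖ * ρ ^ m ≤
          (∑ p ∈ Finset.HasAntidiagonal.antidiagonal m, ‖coeff p.1 f * coeff p.2 g‖) * ρ ^ m :=
          mul_le_mul_of_nonneg_right (norm_sum_le _ _) (by positivity)
      _ = _ := by
          rw [Finset.sum_mul]
          refine Finset.sum_congr rfl fun p hp => ?_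
          rw [← Finset.HasAntidiagonal.mem_antidiagonal.1 hp, pow_add, norm_mul]
          ring
  add_mem' := by
    intro f g hf hg ρ hρ hρR
    refine Summable.of_nonneg_of_le (fun m => by positivity) (fun m => ?_)
      ((hf ρ hρ hρR).add (hg ρ hρ hρR))
    rw [map_add, ← add_mul]
    exact mul_le_mul_of_nonneg_right (norm_add_le _ _) (by positivity)
  algebraMap_mem' := by
    intro c ρ hρ _
    refine summable_of_ne_finset_zero (s := {0}) fun m hm => ?_
    have h0 : m ≠ 0 := by simpa using hm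
    have : coeff m (algebraMap ℂ (PowerSeries ℂ) c) = 0 := by
      rw [PowerSeries.algebraMap_apply, PowerSeries.coeff_C, if_neg h0]
    rw [this]
    simp

/-- the sum of a power series -/
noncomputable def psum (f : PowerSeries ℂ) (z : ℂ) : ℂ := ∑' m, coeff m f * z ^ m

variable {R : ℝ}

theorem summable_psum {f : PowerSeries ℂ} (hf : f ∈ Cv R) {z : ℂ} (hz : ‖z‖ < R) :
    Summable fun m => ‖coeff m f * z ^ m‖ := by
  have := hf ‖z‖ (norm_nonneg z) hz
  refine this.congr fun m => ?_
  rw [norm_mul, norm_pow]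

/-- the value at a point, as a homomorphism -/
noncomputable def pval {z : ℂ} (hz : ‖z‖ < R) : Cv R →ₐ[ℂ] ℂ where
  toFun f := psum f z
  map_one' := by
    change psum 1 z = 1
    rw [psum, tsum_eq_single 0]
    · simp
    · intro m hm
      rw [PowerSeries.coeff_one, if_neg hm, zero_mul]
  map_mul' := by
    intro f g
    change psum (f * g : PowerSeries ℂ) z = psum f z * psum g z
    rw [psum, psum, psum, tsum_mul_tsum_eq_tsum_sum_antidiagonal_of_summable_norm
      (summable_psum f.2 hz) (summable_psum g.2 hz)]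
    refine tsum_congr fun m => ?_
    rw [PowerSeries.coeff_mul, Finset.sum_mul]
    refine Finset.sum_congr rfl fun p hp => ?_
    rw [← Finset.HasAntidiagonal.mem_antidiagonal.1 hp, pow_add]
    ring
  map_zero' := by
    change psum 0 z = 0
    rw [psum]
    simp
  map_add' := by
    intro f g
    change psum (f + g : PowerSeries ℂ) z = psum f z + psum g z
    rw [psum, psum, psum, ← (summable_psum f.2 hz).of_norm.tsum_add
      (summable_psum g.2 hz).of_norm]
    refine tsum_congr fun m => ?_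
    rw [map_add, add_mul]
  commutes' := by
    intro c
    change psum (algebraMap ℂ (PowerSeries ℂ) c) z = c
    rw [psum, tsum_eq_single 0]
    · rw [PowerSeries.algebraMap_apply, PowerSeries.coeff_zero_C]
      simp
    · intro m hm
      rw [PowerSeries.algebraMap_apply, PowerSeries.coeff_C, if_neg hm]
      simp

/-- values of polynomials -/
theorem psum_aeval {σ : Type} {x : σ → PowerSeries ℂ} (hx : ∀ i, x i ∈ Cv R) {z : ℂ}
    (hz : ‖z‖ < R) (P : MvPolynomial σ ℂ) :
    psum (aeval x P) z = eval (fun i => psum (x i) z) P := by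
  have h1 := comp_aeval_apply (f := fun i => (⟨x i, hx i⟩ : Cv R)) (pval hz) P
  have h2 := comp_aeval_apply (f := fun i => (⟨x i, hx i⟩ : Cv R)) (Cv R).val P
  have h3 : (aeval fun i => pval hz (⟨x i, hx i⟩ : Cv R)) P = eval (fun i => psum (x i) z) P :=
    RingHom.congr_fun (coe_aeval_eq_eval (fun i => psum (x i) z)) P
  rw [h3] at h1
  rw [← h1]
  change _ = psum ((Cv R).val (aeval (fun i => (⟨x i, hx i⟩ : Cv R)) P)) z
  rw [h2]
  rfl

theorem Cv_of_bound {f : PowerSeries ℂ} {C : ℝ} (hR : 0 < R)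
    (h : ∀ k, ‖coeff k f‖ * R ^ k ≤ C) : f ∈ Cv R := by
  intro ρ hρ hρR
  have h1 : Summable fun k : ℕ => C * (ρ / R) ^ k :=
    (summable_geometric_of_lt_one (by positivity) ((div_lt_one hR).2 hρR)).mul_left C
  refine Summable.of_nonneg_of_le (fun m => by positivity) (fun m => ?_) h1
  have h2 : ‖coeff m f‖ * ρ ^ m = ‖coeff m f‖ * R ^ m * (ρ / R) ^ m := by
    rw [div_pow]
    field_simp
  rw [h2]
  exact mul_le_mul_of_nonneg_right (h m) (by positivity)

/-- the derivative of the sum of a power series -/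
theorem hasDeriv_psum {f g : PowerSeries ℂ} (hf : f ∈ Cv R)
    (hg : ∀ k, coeff k g = (k + 1) * coeff (k + 1) f) {z : ℂ} (hz : ‖z‖ < R) :
    HasDerivAt (psum f) (psum g z) z := by
  obtain ⟨ρ, hzρ, hρR⟩ := exists_between hz
  have hρ : 0 < ρ := (norm_nonneg z).trans_lt hzρ
  obtain ⟨ρ', hρρ', hρ'R⟩ := exists_between hρR
  have hρ' : 0 < ρ' := hρ.trans hρρ'
  have hs := hf ρ' hρ'.le hρ'R
  -- a bound for the derivatives
  have hb : Summable fun k : ℕ => ‖coeff k f‖ * (k * ρ ^ (k - 1)) := by
    have h1 : Tendsto (fun k : ℕ => (k : ℝ) * (ρ / ρ') ^ k) atTop (𝓝 0) :=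
      tendsto_self_mul_const_pow_of_lt_one (by positivity) ((div_lt_one hρ').2 hρρ')
    obtain ⟨B, hB⟩ := h1.bddAbove_range
    have hB' : ∀ k : ℕ, (k : ℝ) * (ρ / ρ') ^ k ≤ B := fun k => hB ⟨k, rfl⟩
    refine Summable.of_nonneg_of_le (fun k => by positivity) (fun k => ?_) (hs.mul_right (B / ρ))
    have h2 : (k : ℝ) * ρ ^ (k - 1) ≤ B / ρ * ρ' ^ k := by
      rcases Nat.eq_zero_or_pos k with rfl | hk
      · have h3 := hB' 0
        simp only [Nat.cast_zero, zero_mul] at h3 ⊢
        simp only [pow_zero, mul_one]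
        exact div_nonneg h3 hρ.le
      · have h3 := mul_le_mul_of_nonneg_right (hB' k) (by positivity : 0 ≤ ρ' ^ k / ρ)
        have h4 : (k : ℝ) * (ρ / ρ') ^ k * (ρ' ^ k / ρ) = k * ρ ^ (k - 1) := by
          obtain ⟨l, rfl⟩ : ∃ l, k = l + 1 := ⟨k - 1, by omega⟩
          rw [Nat.add_sub_cancel, div_pow, pow_succ ρ l]
          field_simp
        rw [h4] at h3
        calc (k : ℝ) * ρ ^ (k - 1) ≤ B * (ρ' ^ k / ρ) := h3
          _ = _ := by ring
    calc ‖coeff k f‖ * (k * ρ ^ (k - 1)) ≤ ‖coeff k f‖ * (B / ρ * ρ' ^ k) :=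
          mul_le_mul_of_nonneg_left h2 (norm_nonneg _)
      _ = _ := by ring
  have h1 := hasDerivAt_tsum_of_isPreconnected (g := fun (k : ℕ) (w : ℂ) => coeff k f * w ^ k)
    (g' := fun (k : ℕ) (w : ℂ) => coeff k f * (k * w ^ (k - 1))) hb Metric.isOpen_ball
    (convex_ball (0 : ℂ) ρ).isPreconnected (fun k w _ => (hasDerivAt_pow k w).const_mul _)
    (fun k w hw => by
      rw [norm_mul, norm_mul, norm_pow, Complex.norm_natCast]
      have hw' : ‖w‖ ≤ ρ := by
        rw [mem_ball_zero_iff] at hw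
        exact hw.le
      gcongr) (y₀ := z) (by rw [mem_ball_zero_iff]; exact hzρ)
    (summable_psum hf hz).of_norm (y := z) (by rw [mem_ball_zero_iff]; exact hzρ)
  have h2 : ∑' k : ℕ, coeff k f * (k * z ^ (k - 1)) = psum g z := by
    have h3 : Summable fun k : ℕ => coeff k f * (k * z ^ (k - 1)) := by
      refine Summable.of_norm_bounded hb fun k => ?_
      rw [norm_mul, norm_mul, norm_pow, Complex.norm_natCast]
      gcongr
    rw [h3.tsum_eq_zero_add]
    simp only [Nat.cast_zero, zero_mul, mul_zero, zero_add, Nat.add_sub_cancel]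
    refine tsum_congr fun k => ?_
    rw [hg]
    push_cast
    ring
  rw [← h2]
  exact h1

theorem psum_zero (f : PowerSeries ℂ) : psum f 0 = coeff 0 f := by
  rw [psum, tsum_eq_single 0]
  · simp
  · intro m hm
    rw [zero_pow hm, mul_zero]

end conv

end Pool.Agent.H917
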