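import Pool.Agent.H917.E1

/-!
Polynomial vector fields: estimates and solutions.
-/

set_option autoImplicit false
set_option linter.overlappingInstances false
set_option linter.unusedSectionVars false

open MvPolynomial Filter Topology

namespace Pool.Agent.H917

section bound

variable {σ : Type} [Fintype σ]

/-- `P` is a sum of monomials of degree at most `e` with coefficients whose absolute values have a
sum which is at most `C` -/
def Bd (e : ℕ) (C : ℝ) (P : MvPolynomial σ ℂ) : Prop :=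
  ∃ (ι : Type) (_ : Fintype ι) (c : ι → ℂ) (α : ι → (σ →₀ ℕ)), P = ∑ i, monomial (α i) (c i) ∧
    ∑ i, ‖c i‖ ≤ C ∧ ∀ i, (α i).degree ≤ e

theorem exists_Bd (P : MvPolynomial σ ℂ) : ∃ e C, Bd e C P := by
  classical
  refine ⟨P.totalDegree, ∑ i : P.support, ‖coeff i.1 P‖, P.support, inferInstance,
    fun i => coeff i.1 P, fun i => i.1, ?_, le_rfl, fun i => ?_⟩
  · rw [Finset.sum_coe_sort P.support fun i => monomial i (coeff i P)]
    exact P.as_sum
  · rw [Finsupp.degree_apply]
    exact le_totalDegree i.2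

theorem Bd.mono {e e' : ℕ} {C C' : ℝ} {P : MvPolynomial σ ℂ} (h : Bd e C P) (he : e ≤ e')
    (hC : C ≤ C') : Bd e' C' P := by
  obtain ⟨ι, _, c, α, h1, h2, h3⟩ := h
  exact ⟨ι, inferInstance, c, α, h1, h2.trans hC, fun i => (h3 i).trans he⟩

theorem Bd.nonneg {e : ℕ} {C : ℝ} {P : MvPolynomial σ ℂ} (h : Bd e C P) : 0 ≤ C := by
  obtain ⟨ι, _, c, α, h1, h2, h3⟩ := h
  exact (Finset.sum_nonneg fun i _ => norm_nonneg _).trans h2

theorem Bd.eval_le {e : ℕ} {C ρ : ℝ} {P : MvPolynomial σ ℂ} (h : Bd e C P) (hρ : 1 ≤ ρ)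
    {x : σ → ℂ} (hx : ∀ i, ‖x i‖ ≤ ρ) : ‖eval x P‖ ≤ C * ρ ^ e := by
  obtain ⟨ι, _, c, α, rfl, h2, h3⟩ := h
  rw [map_sum]
  refine (norm_sum_le _ _).trans ?_
  have h4 : ∀ i, ‖eval x (monomial (α i) (c i))‖ ≤ ‖c i‖ * ρ ^ e := by
    intro i
    rw [eval_monomial, norm_mul, Finsupp.prod, norm_prod]
    refine mul_le_mul_of_nonneg_left ?_ (norm_nonneg _)
    have h5 : ∏ j ∈ (α i).support, ‖x j ^ α i j‖ ≤ ∏ j ∈ (α i).support, ρ ^ α i j := by
      refine Finset.prod_le_prod (fun j _ => norm_nonneg _) fun j _ => ?_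
      rw [norm_pow]
      exact pow_le_pow_left₀ (norm_nonneg _) (hx j) _
    refine h5.trans ?_
    rw [Finset.prod_pow_eq_pow_sum, ← Finsupp.degree_apply]
    exact pow_le_pow_right₀ hρ (h3 i)
  refine (Finset.sum_le_sum fun i _ => h4 i).trans ?_
  rw [← Finset.sum_mul]
  exact mul_le_mul_of_nonneg_right h2 (by positivity)

/-- the vector field with the components `θ` -/
noncomputable def vf (θ : σ → MvPolynomial σ ℂ) :
    Derivation ℂ (MvPolynomial σ ℂ) (MvPolynomial σ ℂ) := mkDerivation ℂ θ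

theorem vf_X (θ : σ → MvPolynomial σ ℂ) (i : σ) : vf θ (X i) = θ i := mkDerivation_X ℂ θ i

theorem vf_C (θ : σ → MvPolynomial σ ℂ) (a : ℂ) : vf θ (C a) = 0 := by
  rw [← algebraMap_eq, Derivation.map_algebraMap]

theorem vf_monomial (θ : σ → MvPolynomial σ ℂ) (α : σ →₀ ℕ) (c : ℂ) :
    vf θ (monomial α c) = ∑ v, monomial (if α v = 0 then 0 else α - Finsupp.single v 1)
      (c * (α v : ℂ)) * θ v := by
  classical
  have h1 : ∀ P : MvPolynomial σ ℂ, vf θ P = ∑ v, pderiv v P * θ v := by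
    intro P
    induction P using MvPolynomial.induction_on with
    | C a =>
      rw [vf_C]
      simp
    | add p q hp hq =>
      rw [map_add, hp, hq, ← Finset.sum_add_distrib]
      refine Finset.sum_congr rfl fun v _ => ?_
      rw [map_add, add_mul]
    | mul_X p j hp =>
      rw [Derivation.leibniz, hp, vf_X]
      simp only [smul_eq_mul, Derivation.leibniz, pderiv_X]
      rw [Finset.sum_congr rfl fun i _ => add_mul _ _ _, Finset.sum_add_distrib]
      congr 1
      · rw [Finset.sum_eq_single j]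
        · simp
        · intro b _ hb
          simp [hb.symm]
        · simp
      · rw [Finset.mul_sum]
        refine Finset.sum_congr rfl fun i _ => ?_
        ring
  rw [h1]
  refine Finset.sum_congr rfl fun v _ => ?_
  rw [pderiv_monomial]
  by_cases hv : α v = 0
  · rw [hv]
    simp
  · rw [if_neg hv]

/-- the estimate for one application of the vector field -/
theorem Bd.vf {e d : ℕ} {C B : ℝ} {P : MvPolynomial σ ℂ} (h : Bd e C P) {θ : σ → MvPolynomial σ ℂ}
    (hB : 0 ≤ B) (hθ : ∀ v, Bd (d + 1) B (θ v)) : Bd (e + d) (C * e * B) (vf θ P) := by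
  classical
  obtain ⟨ι, i1, c, α, rfl, h2, h3⟩ := h
  choose κ i2 b β hb1 hb2 hb3 using hθ
  refine ⟨Σ (_ : ι) (v : σ), κ v, inferInstance, fun x => c x.1 * (α x.1 x.2.1 : ℂ) * b x.2.1 x.2.2,
    fun x => if α x.1 x.2.1 = 0 then 0 else
      (α x.1 - Finsupp.single x.2.1 1) + β x.2.1 x.2.2, ?_, ?_, ?_⟩
  · rw [map_sum, Fintype.sum_sigma]
    refine Finset.sum_congr rfl fun i _ => ?_
    rw [vf_monomial, Fintype.sum_sigma]
    refine Finset.sum_congr rfl fun v _ => ?_
    conv_lhs => rw [hb1 v]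
    rw [Finset.mul_sum]
    refine Finset.sum_congr rfl fun k _ => ?_
    by_cases hv : α i v = 0
    · simp only [hv, if_true, Nat.cast_zero, mul_zero, zero_mul, monomial_zero']
      simp
    · simp only [if_neg hv]
      rw [monomial_mul]
  · rw [Fintype.sum_sigma]
    have h4 : ∀ i, ∑ x : (v : σ) × κ v, ‖c i * (α i x.1 : ℂ) * b x.1 x.2‖ ≤ ‖c i‖ * (e * B) := by
      intro i
      rw [Fintype.sum_sigma]
      have h5 : ∀ v, ∑ k, ‖c i * (α i v : ℂ) * b v k‖ ≤ ‖c i‖ * ((α i v : ℝ) * B) := by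
        intro v
        have h6 : ∀ k, ‖c i * (α i v : ℂ) * b v k‖ = ‖c i‖ * (α i v : ℝ) * ‖b v k‖ := by
          intro k
          rw [norm_mul, norm_mul, Complex.norm_natCast]
        rw [Finset.sum_congr rfl fun k _ => h6 k, ← Finset.mul_sum, mul_assoc]
        exact mul_le_mul_of_nonneg_left (mul_le_mul_of_nonneg_left (hb2 v) (Nat.cast_nonneg _))
          (norm_nonneg _)
      refine (Finset.sum_le_sum fun v _ => h5 v).trans ?_
      rw [← Finset.mul_sum, ← Finset.sum_mul]
      refine mul_le_mul_of_nonneg_left ?_ (norm_nonneg _)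
      have h7 : ∑ v, (α i v : ℝ) ≤ e := by
        have h8 := h3 i
        rw [Finsupp.degree_eq_sum] at h8
        exact_mod_cast h8
      exact mul_le_mul_of_nonneg_right h7 hB
    refine (Finset.sum_le_sum fun i _ => h4 i).trans ?_
    rw [← Finset.sum_mul, mul_assoc]
    exact mul_le_mul_of_nonneg_right h2 (by positivity)
  · rintro ⟨i, v, k⟩
    dsimp only
    split_ifs with hv
    · rw [map_zero]
      exact Nat.zero_le _
    · have h8 : (α i - Finsupp.single v 1) + Finsupp.single v 1 = α i := by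
        refine tsub_add_cancel_of_le ?_
        rw [Finsupp.single_le_iff]
        omega
      have h9 := congrArg Finsupp.degree h8
      rw [map_add, Finsupp.degree_single] at h9
      have h10 := h3 i
      have h11 := hb3 v k
      rw [map_add]
      omega

/-- the estimate for the iterates -/
theorem bd_iter {d : ℕ} {B : ℝ} {θ : σ → MvPolynomial σ ℂ} (hB : 0 ≤ B)
    (hθ : ∀ v, Bd (d + 1) B (θ v)) (v : σ) (k : ℕ) :
    Bd (1 + k * d) (k.factorial * ((d + 1) * B) ^ k) ((vf θ)^[k] (X v)) := by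
  induction k with
  | zero =>
    refine ⟨Unit, inferInstance, fun _ => 1, fun _ => Finsupp.single v 1, ?_, ?_, fun _ => ?_⟩
    · simp [X]
    · simp
    · simp
  | succ k ih =>
    rw [Function.iterate_succ_apply']
    refine (ih.vf hB hθ).mono (by rw [Nat.succ_mul]; omega) ?_
    rw [Nat.factorial_succ, pow_succ]
    push_cast
    have h1 : (1 + (k : ℝ) * d) ≤ (k + 1) * (d + 1) := by
      have h2 : (0 : ℝ) ≤ k := Nat.cast_nonneg k
      have h3 : (0 : ℝ) ≤ d := Nat.cast_nonneg d
      nlinarith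
    calc (k.factorial : ℝ) * ((d + 1) * B) ^ k * (1 + k * d) * B ≤
          (k.factorial : ℝ) * ((d + 1) * B) ^ k * ((k + 1) * (d + 1)) * B := by gcongr
      _ = _ := by ring

/-- **A uniform radius of convergence.** -/
theorem exists_radius (θ : σ → MvPolynomial σ ℂ) {ρ : ℝ} (hρ : 1 ≤ ρ) :
    ∃ R : ℝ, 0 < R ∧ ∀ x : σ → ℂ, (∀ v, ‖x v‖ ≤ ρ) → ∀ (v : σ) (k : ℕ),
      ‖eval x ((vf θ)^[k] (X v))‖ / k.factorial * R ^ k ≤ ρ := by
  choose e C hC using fun v => exists_Bd (θ v)
  obtain ⟨d, hd⟩ : ∃ d, ∀ v, e v ≤ d := ⟨Finset.univ.sup e, fun v =>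
    Finset.le_sup (Finset.mem_univ v)⟩
  obtain ⟨B, hB0, hB⟩ : ∃ B : ℝ, 0 < B ∧ ∀ v, C v ≤ B := by
    refine ⟨1 + ∑ v, |C v|, by positivity, fun v => ?_⟩
    have h1 := Finset.single_le_sum (f := fun v => |C v|) (fun _ _ => abs_nonneg _)
      (Finset.mem_univ v)
    have h2 := le_abs_self (C v)
    linarith
  have hθ : ∀ v, Bd (d + 1) B (θ v) := fun v => (hC v).mono ((hd v).trans (Nat.le_succ d)) (hB v)
  have hρ0 : 0 < ρ := by linarith
  refine ⟨((d + 1) * B * ρ ^ d)⁻¹, by positivity, fun x hx v k => ?_⟩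
  have h1 := (bd_iter hB0.le hθ v k).eval_le hρ hx
  have hk : (0 : ℝ) < k.factorial := by exact_mod_cast k.factorial_pos
  have h2 : (k.factorial : ℝ) * ((d + 1) * B) ^ k * ρ ^ (1 + k * d) =
      ρ * k.factorial * ((d + 1) * B * ρ ^ d) ^ k := by
    rw [mul_pow ((d + 1) * B) (ρ ^ d), ← pow_mul, mul_comm d k, pow_add, pow_one]
    ring
  rw [h2] at h1
  have h3 : (0 : ℝ) < ((d + 1) * B * ρ ^ d) ^ k := by positivity
  rw [inv_pow, div_mul_eq_mul_div, div_le_iff₀ hk, ← div_eq_mul_inv, div_le_iff₀ h3]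
  calc _ ≤ _ := h1
    _ = _ := by ring

end bound

section flow

variable {σ : Type} [Fintype σ] (θ : σ → MvPolynomial σ ℂ) (x : σ → ℂ)

/-- the Taylor series of the values of polynomials along the flow of the vector field -/
noncomputable def fl (P : MvPolynomial σ ℂ) : PowerSeries ℂ :=
  PowerSeries.mk fun k => eval x ((vf θ)^[k] P) / k.factorial

theorem coeff_fl (P : MvPolynomial σ ℂ) (k : ℕ) :
    PowerSeries.coeff k (fl θ x P) = eval x ((vf θ)^[k] P) / k.factorial :=
  PowerSeries.coeff_mk _ _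

theorem iter_add (P Q : MvPolynomial σ ℂ) (k : ℕ) :
    (vf θ)^[k] (P + Q) = (vf θ)^[k] P + (vf θ)^[k] Q := by
  induction k with
  | zero => rfl
  | succ k ih => rw [Function.iterate_succ_apply', ih, map_add, Function.iterate_succ_apply',
      Function.iterate_succ_apply']

theorem fl_add (P Q : MvPolynomial σ ℂ) : fl θ x (P + Q) = fl θ x P + fl θ x Q := by
  ext k
  rw [map_add, coeff_fl, coeff_fl, coeff_fl, iter_add, map_add, add_div]

theorem fl_der (P : MvPolynomial σ ℂ) (k : ℕ) :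
    PowerSeries.coeff k (fl θ x (vf θ P)) = (k + 1) * PowerSeries.coeff (k + 1) (fl θ x P) := by
  rw [coeff_fl, coeff_fl, ← Function.iterate_succ_apply, Nat.factorial_succ]
  push_cast
  have h1 : (k.factorial : ℂ) ≠ 0 := by exact_mod_cast k.factorial_ne_zero
  have h2 : (k + 1 : ℂ) ≠ 0 := by exact_mod_cast k.succ_ne_zero
  field_simp

theorem fl_mul (P Q : MvPolynomial σ ℂ) : fl θ x (P * Q) = fl θ x P * fl θ x Q := by
  have h : ∀ k : ℕ, ∀ P Q : MvPolynomial σ ℂ, PowerSeries.coeff k (fl θ x (P * Q)) =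
      PowerSeries.coeff k (fl θ x P * fl θ x Q) := by
    intro k
    induction k with
    | zero =>
      intro P Q
      rw [PowerSeries.coeff_mul, Finset.HasAntidiagonal.antidiagonal_zero, Finset.sum_singleton,
        coeff_fl, coeff_fl, coeff_fl]
      simp
    | succ k ih =>
      intro P Q
      have h0 : (k + 1 : ℂ) ≠ 0 := by exact_mod_cast k.succ_ne_zero
      have h1 := fl_der θ x (P * Q) k
      have h2 : PowerSeries.derivative ℂ (fl θ x P) = fl θ x (vf θ P) := by
        ext l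
        rw [PowerSeries.coeff_derivative, fl_der, mul_comm]
      have h3 : PowerSeries.derivative ℂ (fl θ x Q) = fl θ x (vf θ Q) := by
        ext l
        rw [PowerSeries.coeff_derivative, fl_der, mul_comm]
      have h4 := PowerSeries.coeff_derivative (fl θ x P * fl θ x Q) k
      rw [Derivation.leibniz, h2, h3, map_add, smul_eq_mul, smul_eq_mul, ← ih, ← ih,
        ← map_add] at h4
      rw [← fl_add] at h4
      rw [Derivation.leibniz, smul_eq_mul, smul_eq_mul] at h1
      rw [h1] at h4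
      have h5 : (k + 1 : ℂ) * PowerSeries.coeff (k + 1) (fl θ x (P * Q)) =
          (k + 1 : ℂ) * PowerSeries.coeff (k + 1) (fl θ x P * fl θ x Q) := by
        rw [h4]
        ring
      exact mul_left_cancel₀ h0 h5
  ext k
  exact h k P Q

theorem fl_C (a : ℂ) : fl θ x (C a) = algebraMap ℂ (PowerSeries ℂ) a := by
  ext k
  rw [coeff_fl, PowerSeries.algebraMap_apply, PowerSeries.coeff_C]
  rcases Nat.eq_zero_or_pos k with rfl | hk
  · simp
  · obtain ⟨l, rfl⟩ : ∃ l, k = l + 1 := ⟨k - 1, by omega⟩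
    have h1 : (vf θ)^[l + 1] (C a) = 0 := by
      rw [Function.iterate_succ_apply, vf_C]
      induction l with
      | zero => rfl
      | succ l ih =>
        rw [Function.iterate_succ_apply']
        have h2 := ih (by omega)
        rw [h2, map_zero]
    rw [h1, if_neg (by omega), map_zero, zero_div]

/-- the Taylor series as a homomorphism -/
noncomputable def flh : MvPolynomial σ ℂ →ₐ[ℂ] PowerSeries ℂ where
  toFun := fl θ x
  map_one' := by
    rw [← C_1, fl_C, map_one]
  map_mul' := fl_mul θ x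
  map_zero' := by
    rw [← C_0, fl_C, map_zero]
  map_add' := fl_add θ x
  commutes' := by
    intro a
    rw [algebraMap_eq, fl_C]

theorem fl_eq (P : MvPolynomial σ ℂ) : fl θ x P = aeval (fun v => fl θ x (X v)) P := by
  have h1 : flh θ x = aeval fun v => fl θ x (X v) := by
    apply MvPolynomial.algHom_ext
    intro v
    rw [aeval_X]
    rfl
  exact AlgHom.congr_fun h1 P

/-- **The solutions of the differential equation.** -/
theorem exists_flow {R : ℝ} (hR : 0 < R) {ρ : ℝ}
    (h : ∀ (v : σ) (k : ℕ), ‖eval x ((vf θ)^[k] (X v))‖ / k.factorial * R ^ k ≤ ρ) :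
    ∃ f : ℂ → σ → ℂ, f 0 = x ∧ (∀ z, ‖z‖ < R → ∀ v,
      HasDerivAt (fun w => f w v) (eval (f z) (θ v)) z) ∧
      ∀ P : MvPolynomial σ ℂ, (∀ k, eval x ((vf θ)^[k] P) = 0) → ∀ z, ‖z‖ < R →
        eval (f z) P = 0 := by
  have hCv : ∀ v, fl θ x (X v) ∈ Cv R := by
    intro v
    refine Cv_of_bound (C := ρ) hR fun k => ?_
    rw [coeff_fl, norm_div, Complex.norm_natCast]
    exact h v k
  have hev : ∀ (P : MvPolynomial σ ℂ) (z : ℂ), ‖z‖ < R →
      psum (fl θ x P) z = eval (fun v => psum (fl θ x (X v)) z) P := by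
    intro P z hz
    rw [fl_eq θ x P]
    exact psum_aeval hCv hz P
  refine ⟨fun z v => psum (fl θ x (X v)) z, ?_, fun z hz v => ?_, fun P hP z hz => ?_⟩
  · funext v
    change psum _ 0 = x v
    rw [psum_zero, coeff_fl]
    simp
  · have h1 := hasDeriv_psum (hCv v) (g := fl θ x (vf θ (X v))) (fun k => fl_der θ x (X v) k) hz
    rw [vf_X, hev _ _ hz] at h1
    exact h1
  · rw [← hev P z hz]
    have h1 : fl θ x P = 0 := by
      ext k
      rw [coeff_fl, hP k, zero_div, map_zero]
    rw [h1, psum]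
    simp

end flow

end Pool.Agent.H917
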