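import Pool.Agent.H917.E2
import Pool.Agent.H917.B5

/-!
The differential equation for the curves with constant symmetric differentials.
-/

set_option autoImplicit false
set_option linter.overlappingInstances false
set_option linter.unusedSectionVars false

open MvPolynomial Filter Topology

namespace Pool.Agent.H917

section jets

variable {σ : Type} [Fintype σ] {θ : σ → MvPolynomial σ ℂ} {x : ℂ → σ → ℂ} {z0 : ℂ}

theorem hasDeriv_vf {z : ℂ} (hx : ∀ v, HasDerivAt (fun w => x w v) (eval (x z) (θ v)) z)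
    (P : MvPolynomial σ ℂ) :
    HasDerivAt (fun w => eval (x w) P) (eval (x z) (vf θ P)) z := by
  induction P using MvPolynomial.induction_on with
  | C a =>
    rw [vf_C, map_zero]
    simp only [eval_C]
    exact hasDerivAt_const z a
  | add p q hp hq =>
    simp only [map_add]
    exact hp.add hq
  | mul_X p v hp =>
    have h1 := hp.mul (hx v)
    simp only [map_mul, eval_X]
    rw [Derivation.leibniz, map_add, vf_X]
    simp only [smul_eq_mul, map_mul, eval_X]
    refine h1.congr_deriv ?_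
    ring

theorem iter_vf (hx : ∀ᶠ z in 𝓝 z0, ∀ v, HasDerivAt (fun w => x w v) (eval (x z) (θ v)) z)
    (P : MvPolynomial σ ℂ) (k : ℕ) :
    ∀ᶠ z in 𝓝 z0, iteratedDeriv k (fun w => eval (x w) P) z = eval (x z) ((vf θ)^[k] P) := by
  induction k with
  | zero => exact Eventually.of_forall fun z => by rw [iteratedDeriv_zero]; rfl
  | succ k ih =>
    filter_upwards [ih.eventually_nhds, hx] with z h1 h2
    rw [iteratedDeriv_succ, Function.iterate_succ_apply']
    have h3 : deriv (iteratedDeriv k fun w => eval (x w) P) z =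
        deriv (fun w => eval (x w) ((vf θ)^[k] P)) z := Filter.EventuallyEq.deriv_eq h1
    rw [h3]
    exact (hasDeriv_vf h2 _).deriv

/-- analytic functions with the same derivatives at a point -/
theorem eq_of_iter {f g : ℂ → ℂ} (hf : AnalyticAt ℂ f z0) (hg : AnalyticAt ℂ g z0)
    (h : ∀ k, iteratedDeriv k f z0 = iteratedDeriv k g z0) : f =ᶠ[𝓝 z0] g := by
  have h1 := hf.hasFPowerSeriesAt
  have h2 := hg.hasFPowerSeriesAt
  have h3 : (FormalMultilinearSeries.ofScalars ℂ fun k => iteratedDeriv k f z0 / k.factorial) =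
      FormalMultilinearSeries.ofScalars ℂ fun k => iteratedDeriv k g z0 / k.factorial := by
    congr 1
    funext k
    rw [h k]
  rw [h3] at h1
  have h4 := h1.sub h2
  rw [sub_self] at h4
  filter_upwards [h4.eventually_eq_zero] with z hz
  exact sub_eq_zero.1 hz

/-- uniqueness of the solutions -/
theorem flow_unique {y : ℂ → σ → ℂ}
    (hx : ∀ᶠ z in 𝓝 z0, ∀ v, HasDerivAt (fun w => x w v) (eval (x z) (θ v)) z)
    (hy : ∀ᶠ z in 𝓝 z0, ∀ v, HasDerivAt (fun w => y w v) (eval (y z) (θ v)) z)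
    (hxy : x z0 = y z0) : ∀ᶠ z in 𝓝 z0, x z = y z := by
  have han : ∀ {x : ℂ → σ → ℂ},
      (∀ᶠ z in 𝓝 z0, ∀ v, HasDerivAt (fun w => x w v) (eval (x z) (θ v)) z) → ∀ v,
      AnalyticAt ℂ (fun w => x w v) z0 := by
    intro x hx v
    rw [Complex.analyticAt_iff_eventually_differentiableAt]
    filter_upwards [hx] with z hz
    exact (hz v).differentiableAt
  have h1 : ∀ v, (fun w => x w v) =ᶠ[𝓝 z0] fun w => y w v := by
    intro v
    refine eq_of_iter (han hx v) (han hy v) fun k => ?_
    have h2 := (iter_vf hx (X v) k).self_of_nhds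
    have h3 := (iter_vf hy (X v) k).self_of_nhds
    simp only [eval_X] at h2 h3
    rw [h2, h3, hxy]
  filter_upwards [Filter.eventually_all.2 h1] with z hz
  funext v
  exact hz v

end jets

/-- the algebra of the differential equation -/
theorem alg_step {K : Type} [Field K] [CharZero K] {ι : Type} {i0 : ι} {m' : ℕ}
    {v v' g dg : ι → K} {w : K} (hw : w * v i0 = 1) (hg : ∀ k, v k * v i0 ^ m' = g k)
    (hdg : ∀ k, v' k * v i0 ^ m' + v k * (m' * v i0 ^ (m' - 1) * v' i0) = dg k) :
    v' i0 = (m' + 1 : K)⁻¹ * w ^ m' * dg i0 ∧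
    ∀ k, v' k = w ^ m' * dg k - m' / (m' + 1) * g k * w ^ (2 * m' + 1) * dg i0 := by
  have hm : (m' + 1 : K) ≠ 0 := by exact_mod_cast m'.succ_ne_zero
  have hVW : v i0 ^ m' * w ^ m' = 1 := by rw [← mul_pow, mul_comm, hw, one_pow]
  have hl : (m' : K) * (v i0 ^ (m' - 1) * w ^ m') = m' * w := by
    rcases Nat.eq_zero_or_pos m' with rfl | hm'
    · simp
    · obtain ⟨l, rfl⟩ : ∃ l, m' = l + 1 := ⟨m' - 1, by omega⟩
      have h5 : v i0 ^ l * w ^ l = 1 := by rw [← mul_pow, mul_comm, hw, one_pow]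
      rw [Nat.add_sub_cancel, pow_succ]
      linear_combination ((l + 1 : ℕ) : K) * w * h5
  have hl' : (m' : K) * (v i0 * v i0 ^ (m' - 1)) = m' * v i0 ^ m' := by
    rcases Nat.eq_zero_or_pos m' with rfl | hm'
    · simp
    · obtain ⟨l, rfl⟩ : ∃ l, m' = l + 1 := ⟨m' - 1, by omega⟩
      rw [Nat.add_sub_cancel, pow_succ]
      ring
  have h1 : v' i0 = (m' + 1 : K)⁻¹ * w ^ m' * dg i0 := by
    have h2 := hdg i0
    have h6 : w ^ m' * dg i0 = (m' + 1) * v' i0 := by
      rw [← h2]
      linear_combination (w ^ m' * v' i0) * hl' + ((m' : K) + 1) * v' i0 * hVW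
    rw [mul_assoc, h6, inv_mul_cancel_left₀ hm]
  refine ⟨h1, fun k => ?_⟩
  have h2 := hdg k
  have h3 : v' k = w ^ m' * dg k - m' * (v k * w) * v' i0 := by
    rw [← h2]
    linear_combination -(v' k) * hVW - (v k * v' i0) * hl
  have h4 : v k = g k * w ^ m' := by
    rw [← hg k, mul_assoc, hVW, mul_one]
  rw [h3, h1, h4]
  have h5 : w ^ (2 * m' + 1) = w ^ m' * w * w ^ m' := by ring
  rw [h5]
  field_simp

end Pool.Agent.H917
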