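import Pool.Agent.H917.E6
import Pool.Graph.R_seed8.Y190.AN.Wei

/-!
Entire curves with constant symmetric differentials.
-/

set_option autoImplicit false
set_option linter.overlappingInstances false
set_option linter.unusedSectionVars false

open MvPolynomial Filter Topology Metric Set

namespace Pool.Agent.H917

variable {n N m' : ℕ} {p : Ideal (MvPolynomial (Fin (n + 1)) ℂ)} {s : Fin N → SymDiff p (m' + 1)}
  {ζ : Fin N → ℂ}

/-- equality of the points of the projective space with given homogeneous coordinates -/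
def Pe (x y : Fin (n + 1) → ℂ) : Prop := ∃ c : ℂ, c ≠ 0 ∧ ∀ i, x i = c * y i

theorem Pe.refl (x : Fin (n + 1) → ℂ) : Pe x x := ⟨1, one_ne_zero, fun _ => (one_mul _).symm⟩

theorem Pe.symm {x y : Fin (n + 1) → ℂ} (h : Pe x y) : Pe y x := by
  obtain ⟨c, hc, h⟩ := h
  refine ⟨c⁻¹, inv_ne_zero hc, fun i => ?_⟩
  rw [h, inv_mul_cancel_left₀ hc]

theorem Pe.trans {x y z : Fin (n + 1) → ℂ} (h : Pe x y) (h' : Pe y z) : Pe x z := by
  obtain ⟨c, hc, h⟩ := h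
  obtain ⟨c', hc', h'⟩ := h'
  exact ⟨c * c', mul_ne_zero hc hc', fun i => by rw [h, h', mul_assoc]⟩

theorem Pe.minor {x y : Fin (n + 1) → ℂ} (h : Pe x y) (i j : Fin (n + 1)) :
    x i * y j - x j * y i = 0 := by
  obtain ⟨c, hc, h⟩ := h
  rw [h, h]
  ring

theorem pe_of_minor {x y : Fin (n + 1) → ℂ} (hx : x ≠ 0) (hy : y ≠ 0)
    (h : ∀ i j, x i * y j - x j * y i = 0) : Pe x y := by
  obtain ⟨j, hj⟩ := Function.ne_iff.1 hy
  have hj : y j ≠ 0 := hj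
  refine ⟨x j / y j, ?_, fun i => ?_⟩
  · intro h0
    have hxj : x j = 0 := by
      rcases div_eq_zero_iff.1 h0 with h1 | h1
      · exact h1
      · exact absurd h1 hj
    apply hx
    funext i
    have h1 := h i j
    rw [hxj, zero_mul, sub_zero] at h1
    exact (mul_eq_zero.1 h1).resolve_right hj
  · have h1 := h i j
    field_simp
    linear_combination h1

/-- a holomorphic curve given by local homogeneous coordinates -/
def Lc (s : Fin N → SymDiff p (m' + 1)) (ζ : Fin N → ℂ) (U : Set ℂ) (f : ℂ → Fin (n + 1) → ℂ) :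
    Prop :=
  ∀ z0 ∈ U, ∃ Ω, IsOpen Ω ∧ z0 ∈ Ω ∧ ∃ g, Sl s ζ Ω g ∧ ∀ z ∈ Ω, Pe (f z) (g z)

theorem Lc.mono {U V : Set ℂ} {f : ℂ → Fin (n + 1) → ℂ} (h : V ⊆ U) (hf : Lc s ζ U f) :
    Lc s ζ V f := fun z hz => hf z (h hz)

theorem Sl.lc {U : Set ℂ} {g : ℂ → Fin (n + 1) → ℂ} (hU : IsOpen U) (hg : Sl s ζ U g) :
    Lc s ζ U g := fun _ hz => ⟨U, hU, hz, g, hg, fun _ _ => Pe.refl _⟩

/-- **The identity theorem.** -/
theorem Lc.ident {U : Set ℂ} {f1 f2 : ℂ → Fin (n + 1) → ℂ} (hU : IsPreconnected U)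
    (h1 : Lc s ζ U f1) (h2 : Lc s ζ U f2) {z0 : ℂ} (hz0 : z0 ∈ U)
    (h : ∀ᶠ z in 𝓝 z0, Pe (f1 z) (f2 z)) : ∀ z ∈ U, Pe (f1 z) (f2 z) := by
  obtain ⟨A, hA'⟩ : ∃ A : Set ℂ, ∀ z, z ∈ A ↔ ∀ᶠ w in 𝓝 z, Pe (f1 w) (f2 w) :=
    ⟨{z | ∀ᶠ w in 𝓝 z, Pe (f1 w) (f2 w)}, fun _ => Iff.rfl⟩
  have hA : IsOpen A := by
    rw [isOpen_iff_mem_nhds]
    intro z hz
    filter_upwards [((hA' z).1 hz).eventually_nhds] with w hw
    exact (hA' w).2 hw
  have hsub : U ⊆ A := by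
    refine hU.subset_of_closure_inter_subset hA ⟨z0, hz0, (hA' z0).2 h⟩ ?_
    rintro z1 ⟨hz1, hz1U⟩
    obtain ⟨Ω1, ho1, hm1, g1, hg1, hf1⟩ := h1 z1 hz1U
    obtain ⟨Ω2, ho2, hm2, g2, hg2, hf2⟩ := h2 z1 hz1U
    obtain ⟨r, hr, hrs⟩ := Metric.mem_nhds_iff.1 (inter_mem (ho1.mem_nhds hm1) (ho2.mem_nhds hm2))
    obtain ⟨z2, hz2A, hz2⟩ := Metric.mem_closure_iff.1 hz1 r hr
    have hz2b : z2 ∈ ball z1 r := by
      rw [mem_ball, dist_comm]
      exact hz2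
    have hmin : ∀ i j, ∀ z ∈ ball z1 r, g1 z i * g2 z j - g1 z j * g2 z i = 0 := by
      intro i j z hz
      have han : AnalyticOnNhd ℂ (fun z => g1 z i * g2 z j - g1 z j * g2 z i) (ball z1 r) :=
        fun z hz => ((hg1.an i z (hrs hz).1).fun_mul (hg2.an j z (hrs hz).2)).fun_sub
          ((hg1.an j z (hrs hz).1).fun_mul (hg2.an i z (hrs hz).2))
      refine han.eqOn_zero_of_preconnected_of_eventuallyEq_zero (convex_ball z1 r).isPreconnected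
        hz2b ?_ hz
      filter_upwards [(hA' z2).1 hz2A, isOpen_ball.mem_nhds hz2b] with w hw hwb
      exact (((hf1 w (hrs hwb).1).symm.trans hw).trans (hf2 w (hrs hwb).2)).minor i j
    rw [hA']
    filter_upwards [ball_mem_nhds z1 hr] with w hw
    exact ((hf1 w (hrs hw).1).trans (pe_of_minor (hg1.ne w (hrs hw).1) (hg2.ne w (hrs hw).2)
      fun i j => hmin i j w hw)).trans (hf2 w (hrs hw).2).symm
  exact fun z hz => ((hA' z).1 (hsub hz)).self_of_nhds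

/-- **The extension of a curve to a larger disc.** -/
theorem Lc.step {R0 : ℝ} (hR0 : 0 < R0) (hext : ∀ (z0 : ℂ) (Ω : Set ℂ) (g : ℂ → Fin (n + 1) → ℂ),
      IsOpen Ω → z0 ∈ Ω → Sl s ζ Ω g → ∃ G : ℂ → Fin (n + 1) → ℂ, Sl s ζ (ball z0 R0) G ∧
        ∀ᶠ z in 𝓝 z0, ∃ c : ℂ, c ≠ 0 ∧ ∀ i, g z i = c * G z i)
    {R : ℝ} (hR : 0 < R) {f : ℂ → Fin (n + 1) → ℂ} (hf : Lc s ζ (ball 0 R) f) :
    ∃ f' : ℂ → Fin (n + 1) → ℂ, Lc s ζ (ball 0 (R + R0 / 2)) f' ∧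
      ∀ z ∈ ball (0 : ℂ) R, Pe (f' z) (f z) := by
  have hG0 : ∀ z0 : ℂ, z0 ∈ ball (0 : ℂ) R → ∃ G : ℂ → Fin (n + 1) → ℂ, Sl s ζ (ball z0 R0) G ∧
      ∀ᶠ z in 𝓝 z0, Pe (f z) (G z) := by
    intro z0 hz0
    obtain ⟨Ω, ho, hm, g, hg, hfg⟩ := hf z0 hz0
    obtain ⟨G, hG, hgG⟩ := hext z0 Ω g ho hm hg
    refine ⟨G, hG, ?_⟩
    filter_upwards [hgG, ho.mem_nhds hm] with z h1 h2
    exact (hfg z h2).trans h1
  choose! G hGs hGe using hG0
  -- comparison with the curve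
  have hK : ∀ z0 ∈ ball (0 : ℂ) R, ∀ w ∈ ball (0 : ℂ) R ∩ ball z0 R0, Pe (f w) (G z0 w) := by
    intro z0 hz0
    exact Lc.ident ((convex_ball _ _).inter (convex_ball _ _)).isPreconnected
      (hf.mono inter_subset_left) (((hGs z0 hz0).lc isOpen_ball).mono inter_subset_right)
      ⟨hz0, mem_ball_self hR0⟩ (hGe z0 hz0)
  have hL : ∀ z0 ∈ ball (0 : ℂ) R, ∀ z1 ∈ ball (0 : ℂ) R, dist z0 z1 < R0 →
      ∀ w ∈ ball z0 R0 ∩ ball z1 R0, Pe (G z0 w) (G z1 w) := by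
    intro z0 hz0 z1 hz1 hd
    refine Lc.ident (z0 := z0) ((convex_ball _ _).inter (convex_ball _ _)).isPreconnected
      (((hGs z0 hz0).lc isOpen_ball).mono inter_subset_left)
      (((hGs z1 hz1).lc isOpen_ball).mono inter_subset_right) ⟨mem_ball_self hR0, hd⟩ ?_
    have h1 : ball (0 : ℂ) R ∩ (ball z0 R0 ∩ ball z1 R0) ∈ 𝓝 z0 :=
      (isOpen_ball.inter (isOpen_ball.inter isOpen_ball)).mem_nhds
        ⟨hz0, mem_ball_self hR0, hd⟩
    filter_upwards [h1] with w hw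
    exact (hK z0 hz0 w ⟨hw.1, hw.2.1⟩).symm.trans (hK z1 hz1 w ⟨hw.1, hw.2.2⟩)
  -- the contraction
  have hR' : 0 < R + R0 / 2 := by linarith
  obtain ⟨q, hq⟩ : ∃ q : ℝ, q = R / (R + R0 / 2) := ⟨_, rfl⟩
  have hq0 : 0 < q := by
    rw [hq]
    exact div_pos hR hR'
  have hq1 : q < 1 := by
    rw [hq, div_lt_one hR']
    linarith
  have hqR : q * (R + R0 / 2) = R := by
    rw [hq]
    field_simp
  obtain ⟨t, ht⟩ : ∃ t : ℂ → ℂ, ∀ z, t z = (q : ℂ) * z := ⟨_, fun _ => rfl⟩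
  have hnq : ‖(q : ℂ)‖ = q := by
    rw [Complex.norm_real, Real.norm_of_nonneg hq0.le]
  have htR : ∀ z ∈ ball (0 : ℂ) (R + R0 / 2), t z ∈ ball (0 : ℂ) R := by
    intro z hz
    rw [mem_ball_zero_iff] at hz ⊢
    rw [ht, norm_mul, hnq]
    calc q * ‖z‖ < q * (R + R0 / 2) := mul_lt_mul_of_pos_left hz hq0
      _ = R := hqR
  have htz : ∀ z ∈ ball (0 : ℂ) (R + R0 / 2), dist z (t z) < R0 / 2 := by
    intro z hz
    rw [mem_ball_zero_iff] at hz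
    rw [dist_eq_norm, ht]
    have h1 : z - (q : ℂ) * z = ((1 - q : ℝ) : ℂ) * z := by
      push_cast
      ring
    rw [h1, norm_mul, Complex.norm_real, Real.norm_of_nonneg (by linarith)]
    calc (1 - q) * ‖z‖ < (1 - q) * (R + R0 / 2) := mul_lt_mul_of_pos_left hz (by linarith)
      _ = R0 / 2 := by rw [sub_mul, hqR]; ring
  have htt : ∀ z w : ℂ, dist (t z) (t w) ≤ dist z w := by
    intro z w
    rw [dist_eq_norm, dist_eq_norm, ht, ht, ← mul_sub, norm_mul, hnq]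
    exact mul_le_of_le_one_left (norm_nonneg _) hq1.le
  refine ⟨fun z => G (t z) z, fun z1 hz1 => ?_, fun z hz => ?_⟩
  · refine ⟨ball 0 (R + R0 / 2) ∩ ball z1 (R0 / 2), isOpen_ball.inter isOpen_ball,
      ⟨hz1, mem_ball_self (by linarith)⟩, G (t z1), ?_, fun z hz => ?_⟩
    · refine (hGs _ (htR z1 hz1)).mono fun z hz => ?_
      have h1 : dist z z1 < R0 / 2 := hz.2
      have h2 := htz z1 hz1
      have h3 := dist_triangle z z1 (t z1)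
      rw [mem_ball]
      linarith
    · have h1 : dist z z1 < R0 / 2 := hz.2
      have h2 := htz z1 hz1
      have h3 := dist_triangle z z1 (t z1)
      have h4 := htz z hz.1
      have h5 := htt z z1
      refine hL (t z) (htR z hz.1) (t z1) (htR z1 hz1) (by linarith) z ⟨?_, ?_⟩
      · rw [mem_ball]
        linarith
      · rw [mem_ball]
        linarith
  · have hz' : z ∈ ball (0 : ℂ) (R + R0 / 2) := ball_subset_ball (by linarith) hz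
    refine (hK (t z) (htR z hz') z ⟨hz, ?_⟩).symm
    have h4 := htz z hz'
    rw [mem_ball]
    linarith

theorem exists_Lc {R0 : ℝ} (hR0 : 0 < R0) (hext : ∀ (z0 : ℂ) (Ω : Set ℂ) (g : ℂ → Fin (n + 1) → ℂ),
      IsOpen Ω → z0 ∈ Ω → Sl s ζ Ω g → ∃ G : ℂ → Fin (n + 1) → ℂ, Sl s ζ (ball z0 R0) G ∧
        ∀ᶠ z in 𝓝 z0, ∃ c : ℂ, c ≠ 0 ∧ ∀ i, g z i = c * G z i)
    {R1 : ℝ} (hR1 : 0 < R1) {g : ℂ → Fin (n + 1) → ℂ} (hg : Sl s ζ (ball 0 R1) g) (k : ℕ) :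
    ∃ f : ℂ → Fin (n + 1) → ℂ, Lc s ζ (ball 0 (R1 + k * (R0 / 2))) f ∧
      ∀ᶠ z in 𝓝 0, Pe (f z) (g z) := by
  induction k with
  | zero =>
    refine ⟨g, ?_, Eventually.of_forall fun z => Pe.refl _⟩
    rw [Nat.cast_zero, zero_mul, add_zero]
    exact hg.lc isOpen_ball
  | succ k ih =>
    obtain ⟨f, hf, hfg⟩ := ih
    have hk : 0 < R1 + k * (R0 / 2) := by positivity
    obtain ⟨f', hf', hff⟩ := hf.step hR0 hext hk
    refine ⟨f', ?_, ?_⟩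
    · have e : R1 + ((k + 1 : ℕ) : ℝ) * (R0 / 2) = R1 + k * (R0 / 2) + R0 / 2 := by
        push_cast
        ring
      rw [e]
      exact hf'
    · filter_upwards [hfg, ball_mem_nhds (0 : ℂ) hk] with z h1 h2
      exact (hff z h2).trans h1

/-- **The global curve.** -/
theorem exists_Lc_univ {R0 : ℝ} (hR0 : 0 < R0)
    (hext : ∀ (z0 : ℂ) (Ω : Set ℂ) (g : ℂ → Fin (n + 1) → ℂ),
      IsOpen Ω → z0 ∈ Ω → Sl s ζ Ω g → ∃ G : ℂ → Fin (n + 1) → ℂ, Sl s ζ (ball z0 R0) G ∧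
        ∀ᶠ z in 𝓝 z0, ∃ c : ℂ, c ≠ 0 ∧ ∀ i, g z i = c * G z i)
    {R1 : ℝ} (hR1 : 0 < R1) {g : ℂ → Fin (n + 1) → ℂ} (hg : Sl s ζ (ball 0 R1) g) :
    ∃ f : ℂ → Fin (n + 1) → ℂ, Lc s ζ univ f ∧ Pe (f 0) (g 0) := by
  choose f hf hfg using exists_Lc hR0 hext hR1 hg
  have hk : ∀ z : ℂ, ∃ k : ℕ, z ∈ ball (0 : ℂ) (R1 + k * (R0 / 2)) := by
    intro z
    obtain ⟨k, hk⟩ := exists_nat_gt (‖z‖ / (R0 / 2))
    refine ⟨k, ?_⟩
    rw [div_lt_iff₀ (by linarith)] at hk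
    rw [mem_ball_zero_iff]
    linarith
  choose k hk using hk
  have hcomp : ∀ a b : ℕ, ∀ z ∈ ball (0 : ℂ) (R1 + a * (R0 / 2)) ∩ ball 0 (R1 + b * (R0 / 2)),
      Pe (f a z) (f b z) := by
    intro a b
    refine Lc.ident (z0 := 0) ((convex_ball _ _).inter (convex_ball _ _)).isPreconnected
      ((hf a).mono inter_subset_left) ((hf b).mono inter_subset_right)
      ⟨mem_ball_self (by positivity), mem_ball_self (by positivity)⟩ ?_
    filter_upwards [hfg a, hfg b] with z h1 h2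
    exact h1.trans h2.symm
  refine ⟨fun z => f (k z) z, fun z0 _ => ?_, (hfg (k 0)).self_of_nhds⟩
  obtain ⟨Ω, ho, hm, g', hg', hfg'⟩ := hf (k z0) z0 (hk z0)
  refine ⟨Ω ∩ ball 0 (R1 + k z0 * (R0 / 2)), ho.inter isOpen_ball, ⟨hm, hk z0⟩, g',
    hg'.mono inter_subset_left, fun z hz => ?_⟩
  exact (hcomp (k z) (k z0) z ⟨hk z, hz.2⟩).trans (hfg' z hz.1)

end Pool.Agent.H917
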