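import Pool.Agent.H917.B5
import Pool.Graph.R_seed8.TH143.GT.Fin

/-!
The special subsets of a projective variety.
-/

set_option autoImplicit false
set_option linter.overlappingInstances false
set_option linter.unusedSectionVars false

open MvPolynomial Metric Set

namespace Pool.Agent.H917

open Pool.Agent.W602.GT (IsForm GeneralType coords)

variable {n : ℕ}

/-- The homogeneous coordinates of the points of the projective variety with the ideal `p`. -/
def Pts (p : Ideal (MvPolynomial (Fin (n + 1)) ℂ)) : Set (Fin (n + 1) → ℂ) :=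
  {x | x ≠ 0 ∧ ∀ H ∈ p, eval x H = 0}

/-- `K` is the function field and `y` the generic point, in homogeneous coordinates, of a closed
subvariety, of dimension `w`, of the projective variety with the ideal `p`: `K` is generated by the
ratios of the coordinates of `y`. The forms which vanish on the subvariety are those which vanish
at `y`. -/
structure SubVar (p : Ideal (MvPolynomial (Fin (n + 1)) ℂ)) (K : Type) [Field K] [Algebra ℂ K]
    (w : ℕ) (y : Fin (n + 1) → K) : Prop where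
  ne : y ≠ 0
  mem : ∀ H ∈ p, aeval y H = 0
  gen : IntermediateField.adjoin ℂ {z | ∃ i j, y j ≠ 0 ∧ z = y i / y j} = ⊤
  dim : Algebra.trdeg ℂ K = w

/-- `Sp_alg`: the Zariski closure of the union of the closed subvarieties of positive dimension
which are not of general type. -/
def SpAlg (p : Ideal (MvPolynomial (Fin (n + 1)) ℂ)) : Set (Fin (n + 1) → ℂ) :=
  {x | x ∈ Pts p ∧ ∀ G : MvPolynomial (Fin (n + 1)) ℂ, (∃ d, G.IsHomogeneous d) →
    (∀ (K : Type) [Field K] [Algebra ℂ K] (w : ℕ) (y : Fin (n + 1) → K), 1 ≤ w →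
      SubVar p K w y → ¬ GeneralType ℂ K w → aeval y G = 0) → eval x G = 0}

/-- `f` is the vector of homogeneous coordinates of a holomorphic map from the punctured unit disc
to the projective variety with the ideal `p`. -/
def PuncCurve (p : Ideal (MvPolynomial (Fin (n + 1)) ℂ)) (f : ℂ → Fin (n + 1) → ℂ) : Prop :=
  DifferentiableOn ℂ f (ball 0 1 \ {0}) ∧ ∀ z ∈ ball (0 : ℂ) 1 \ {0}, f z ∈ Pts p

/-- The holomorphic map from the punctured unit disc to the projective space with the vector of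
homogeneous coordinates `f` extends to a holomorphic map from the unit disc. -/
def Extends (f : ℂ → Fin (n + 1) → ℂ) : Prop :=
  ∃ g : ℂ → Fin (n + 1) → ℂ, DifferentiableOn ℂ g (ball 0 1) ∧ (∀ z ∈ ball (0 : ℂ) 1, g z ≠ 0) ∧
    ∀ z ∈ ball (0 : ℂ) 1 \ {0}, ∃ c : ℂ, f z = c • g z

/-- `f` is the vector of homogeneous coordinates of a nonconstant holomorphic map from the complex
plane to the projective variety with the ideal `p`. -/
def EntCurve (p : Ideal (MvPolynomial (Fin (n + 1)) ℂ)) (f : ℂ → Fin (n + 1) → ℂ) : Prop :=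
  Differentiable ℂ f ∧ (∀ z, f z ∈ Pts p) ∧ ∃ z w, ∀ c : ℂ, f z ≠ c • f w

/-- `Sp_p`: the Zariski closure of the union of the images of the holomorphic maps from the
punctured disc with an essential singularity at the origin. -/
def SpP (p : Ideal (MvPolynomial (Fin (n + 1)) ℂ)) : Set (Fin (n + 1) → ℂ) :=
  {x | x ∈ Pts p ∧ ∀ G : MvPolynomial (Fin (n + 1)) ℂ, (∃ d, G.IsHomogeneous d) →
    (∀ f, PuncCurve p f → ¬ Extends f → ∀ z ∈ ball (0 : ℂ) 1 \ {0}, eval (f z) G = 0) →
    eval x G = 0}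

/-- `Sp_h`: the Zariski closure of the union of the images of the nonconstant entire curves. -/
def SpH (p : Ideal (MvPolynomial (Fin (n + 1)) ℂ)) : Set (Fin (n + 1) → ℂ) :=
  {x | x ∈ Pts p ∧ ∀ G : MvPolynomial (Fin (n + 1)) ℂ, (∃ d, G.IsHomogeneous d) →
    (∀ f, EntCurve p f → ∀ z, eval (f z) G = 0) → eval x G = 0}

variable {p : Ideal (MvPolynomial (Fin (n + 1)) ℂ)}

theorem subVar_of_gen {f : ℂ → Fin (n + 1) → ℂ} (hp : Pool.Agent.W603.PV.IsHomog p) {K : Type}
    [Field K] [Algebra ℂ K] {w : ℕ} {y : Fin (n + 1) → K} {S : Set ℂ}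
    (hy : Pool.Agent.TH143.GT.GenPt f S K w y) (hX : ∀ z ∈ S, ∀ H ∈ p, eval (f z) H = 0) :
    SubVar p K w y := by
  refine ⟨hy.ne, fun H hH => ?_, hy.gen, hy.dim⟩
  rw [← sum_homogeneousComponent H, map_sum]
  refine Finset.sum_eq_zero fun d _ => ?_
  exact (hy.rel _ ⟨d, homogeneousComponent_isHomogeneous d H⟩).2 fun z hz => hX z hz _ (hp H hH d)

open Pool.Agent.W603.BP (PB PB_preconn PB_nonempty mem_disc disc_open)

theorem spP_sub (hp : Pool.Agent.W603.PV.IsHomog p) {m N : ℕ} {s : Fin N → SymDiff p m}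
    (hs : Gens p m s) (hm : 1 ≤ m) : SpP p ⊆ SpAlg p := by
  intro x hx
  refine ⟨hx.1, fun G hG hGT => hx.2 G hG fun f hf hext => ?_⟩
  have han : ∀ j, AnalyticOnNhd ℂ (fun w => f w j) (PB 1) := by
    intro j w hw
    have h1 : DifferentiableOn ℂ (fun w => f w j) (ball 0 1 \ {0}) := by
      intro z hz
      exact (differentiableWithinAt_pi.mp (hf.1 z hz)) j
    exact h1.analyticAt (disc_open.mem_nhds (mem_disc.mpr hw))
  have hne : ∀ w ∈ PB 1, f w ≠ 0 := fun w hw => (hf.2 w (mem_disc.2 hw)).1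
  have hX : ∀ z ∈ PB 1, ∀ H ∈ p, eval (f z) H = 0 := fun z hz => (hf.2 z (mem_disc.2 hz)).2
  obtain ⟨z0, hz0⟩ := PB_nonempty one_pos
  obtain ⟨j0, hj0⟩ := Function.ne_iff.1 (hne z0 hz0)
  obtain ⟨K, i1, i2, w, y, h1, h2, h3, h4, h5⟩ := Pool.Agent.TH143.GT.exists_closure f
    (PB_preconn one_pos) han ⟨z0, hz0, hj0⟩
  have hy : Pool.Agent.TH143.GT.GenPt f (PB 1) K w y := ⟨h1, h2, h3, h4⟩
  rcases Nat.eq_zero_or_pos w with hw | hw
  · exact absurd (Pool.Agent.TH143.GT.extends_of_const han hne (h5 hw)) hext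
  · have h6 := hGT K w y hw (subVar_of_gen hp hy hX)
      fun hgt => hext (pcurve_ext hp hs hm han hne hX hy hgt)
    intro z hz
    exact (hy.rel G hG).1 h6 z (mem_disc.1 hz)

theorem spH_sub (hp : Pool.Agent.W603.PV.IsHomog p) {m N : ℕ} {s : Fin N → SymDiff p m}
    (hs : Gens p m s) (hm : 1 ≤ m) : SpH p ⊆ SpAlg p := by
  intro x hx
  refine ⟨hx.1, fun G hG hGT => hx.2 G hG fun f hf => ?_⟩
  have hd : ∀ j, Differentiable ℂ fun z => f z j := fun j z => (differentiableAt_pi.1 (hf.1 z)) j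
  have han : ∀ j, AnalyticOnNhd ℂ (fun w => f w j) univ := fun j z _ => (hd j).analyticAt z
  have hX : ∀ z ∈ (univ : Set ℂ), ∀ H ∈ p, eval (f z) H = 0 := fun z _ => (hf.2.1 z).2
  obtain ⟨j0, hj0⟩ := Function.ne_iff.1 (hf.2.1 0).1
  obtain ⟨K, i1, i2, w, y, h1, h2, h3, h4, h5⟩ := Pool.Agent.TH143.GT.exists_closure f
    isPreconnected_univ han ⟨0, mem_univ _, hj0⟩
  have hy : Pool.Agent.TH143.GT.GenPt f univ K w y := ⟨h1, h2, h3, h4⟩
  rcases Nat.eq_zero_or_pos w with hw | hw
  · exfalso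
    obtain ⟨z, w', hzw⟩ := hf.2.2
    have h6 := h5 hw
    choose c hc using h6
    have hw0 : f w' j0 ≠ 0 := by
      intro h0
      apply (hf.2.1 w').1
      funext j
      rw [hc j w' (mem_univ _), h0, mul_zero]
      rfl
    apply hzw (f z j0 / f w' j0)
    funext j
    rw [Pi.smul_apply, smul_eq_mul, hc j z (mem_univ _), hc j w' (mem_univ _)]
    field_simp
  · have h6 := hGT K w y hw (subVar_of_gen hp hy hX)
      fun hgt => entire_not_gt hp hs hm hd (fun z => (hf.2.1 z).1) (fun z => (hf.2.1 z).2) hf.2.2 hy hgt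
    intro z
    exact (hy.rel G hG).1 h6 z (mem_univ _)

end Pool.Agent.H917
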