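import Pool.Agent.H917.E8
import Pool.Agent.H917.F1
import Pool.Agent.H917.D5
import Pool.Graph.R_seed8.TH143.Conv

/-!
Entire curves in varieties which are not of general type.
-/

set_option autoImplicit false
set_option linter.overlappingInstances false
set_option linter.unusedSectionVars false

open MvPolynomial Filter Topology Metric Set

namespace Pool.Agent.H917

open Pool.Agent.W602.GT (IsForm GeneralType coords)

section curves

variable {n N m' : ℕ} {p : Ideal (MvPolynomial (Fin (n + 1)) ℂ)} {s : Fin N → SymDiff p (m' + 1)}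
  {ζ : Fin N → ℂ}

/-- forms at equal points -/
theorem Pe.eval_ne {x y : Fin (n + 1) → ℂ} (h : Pe x y) {G : MvPolynomial (Fin (n + 1)) ℂ}
    (hG : ∃ k, G.IsHomogeneous k) (hy : eval y G ≠ 0) : eval x G ≠ 0 := by
  obtain ⟨c, hc, h⟩ := h
  obtain ⟨k, hk⟩ := hG
  rw [funext h, ← ae, aeval_smul_homog _ _ hk, ae]
  exact mul_ne_zero (pow_ne_zero _ hc) hy

theorem Pe.ne {x y : Fin (n + 1) → ℂ} (h : Pe x y) (hy : y ≠ 0) : x ≠ 0 := by
  obtain ⟨c, hc, h⟩ := h
  intro h0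
  apply hy
  funext i
  have h1 := h i
  rw [h0] at h1
  exact (mul_eq_zero.1 h1.symm).resolve_left hc

theorem Pe.mem (hp : Pool.Agent.W603.PV.IsHomog p) {x y : Fin (n + 1) → ℂ} (h : Pe x y)
    (hy : ∀ H ∈ p, eval y H = 0) : ∀ H ∈ p, eval x H = 0 := by
  obtain ⟨c, hc, h⟩ := h
  intro H hH
  rw [← sum_homogeneousComponent H, map_sum]
  refine Finset.sum_eq_zero fun k _ => ?_
  rw [funext h, ← ae, aeval_smul_homog _ _ (homogeneousComponent_isHomogeneous k H), ae,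
    hy _ (hp H hH k), mul_zero]

/-- **Entire curves with constant symmetric differentials.** -/
theorem exists_entire (hp : Pool.Agent.W603.PV.IsHomog p) (hs : Gens p (m' + 1) s) {M : Type}
    [Field M] [Algebra ℂ M] (D : Derivation ℂ M M) {y : Fin (n + 1) → M} (hy : y ≠ 0)
    (hmem : ∀ H ∈ p, aeval y H = 0) (hD : ∀ l, D ((s l).val y fun i => D (y i)) = 0)
    (hval : ∃ l, (s l).val y (fun i => D (y i)) ≠ 0) {G : MvPolynomial (Fin (n + 1)) ℂ}
    (hG : ∃ k, G.IsHomogeneous k) (hGy : aeval y G ≠ 0) :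
    ∃ ζ : Fin N → ℂ, (∃ l, ζ l ≠ 0) ∧ ∃ F : ℂ → Fin (n + 1) → ℂ,
      Sl s ζ univ F ∧ eval (F 0) G ≠ 0 := by
  obtain ⟨ζ, hζ, R, hR, g, hg, hgG⟩ := exists_initial hp hs D hy hmem hD hval hG hGy
  obtain ⟨R0, hR0, hext⟩ := exists_ext hp hs hζ
  obtain ⟨f, hf, hf0⟩ := exists_Lc_univ hR0 hext hR hg
  obtain ⟨F, hFd, hFf⟩ := exists_lift (f := f) fun z0 => by
    obtain ⟨Ω, hΩ, hz0, g', hg', hfg⟩ := hf z0 (mem_univ _)
    refine ⟨g', fun i => hg'.an i z0 hz0, hg'.ne z0 hz0, ?_⟩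
    filter_upwards [hΩ.mem_nhds hz0] with z hz
    exact hfg z hz
  have hloc : ∀ z0, ∃ Ω, IsOpen Ω ∧ z0 ∈ Ω ∧ Sl s ζ Ω F := by
    intro z0
    obtain ⟨Ω, hΩ, hz0, g', hg', hfg⟩ := hf z0 (mem_univ _)
    exact ⟨Ω, hΩ, hz0, hg'.scale hp hΩ (fun i z _ => (hFd i).analyticAt z) fun z hz =>
      (hFf z).trans (hfg z hz)⟩
  refine ⟨ζ, hζ, F, ⟨fun i z _ => (hFd i).analyticAt z, fun z _ => ?_, fun z _ => ?_,
    fun z _ => ?_⟩, ?_⟩
  · obtain ⟨Ω, hΩ, hz0, h⟩ := hloc z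
    exact h.ne z hz0
  · obtain ⟨Ω, hΩ, hz0, h⟩ := hloc z
    exact h.mem z hz0
  · obtain ⟨Ω, hΩ, hz0, h⟩ := hloc z
    exact h.val z hz0
  · exact ((hFf 0).trans hf0).eval_ne hG hgG

/-- curves with nonzero values of the symmetric differentials are not constant -/
theorem Sl.nonconst (hp : Pool.Agent.W603.PV.IsHomog p) (hζ : ∃ l, ζ l ≠ 0)
    {F : ℂ → Fin (n + 1) → ℂ} (hF : Sl s ζ univ F) {x : Fin (n + 1) → ℂ} :
    ¬ ∀ z, z ≠ 0 → Pe (F z) x := by
  intro h
  obtain ⟨l, hl⟩ := hζ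
  apply hl
  obtain ⟨j, hj⟩ := Function.ne_iff.1 (hF.ne 1 (mem_univ _))
  have hj : F 1 j ≠ 0 := hj
  rw [← hF.val 1 (mem_univ _) l, along_eq hp (s l) isOpen_univ hF.an hF.ne hF.mem (mem_univ _) hj]
  have h1 : ∀ i, deriv (fun w => F w i / F w j) 1 = 0 := by
    intro i
    have h2 : (fun w => F w i / F w j) =ᶠ[𝓝 1] fun _ => x i / x j := by
      filter_upwards [isOpen_ne.mem_nhds (one_ne_zero (α := ℂ))] with w hw
      obtain ⟨c, hc, hcw⟩ := h w hw
      rw [hcw, hcw, mul_div_mul_left _ _ hc]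
    rw [h2.deriv_eq, deriv_const]
  have h3 : (Sum.elim (fun i => F 1 i / F 1 j) fun i => deriv (fun w => F w i / F w j) 1 :
      Fin (n + 1) ⊕ Fin (n + 1) → ℂ) =
      Sum.elim (fun i => F 1 i / F 1 j) fun i => (0 : ℂ) * (fun _ => (0 : ℂ)) i := by
    funext k
    rcases k with k | k
    · rfl
    · change deriv (fun w => F w k / F w j) 1 = 0 * 0
      rw [h1, mul_zero]
  rw [h3, ← ae, aeval_scale_inr ((s l).hom j), zero_pow (by omega), zero_mul]

theorem Sl.entCurve (hp : Pool.Agent.W603.PV.IsHomog p) (hζ : ∃ l, ζ l ≠ 0)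
    {F : ℂ → Fin (n + 1) → ℂ} (hF : Sl s ζ univ F) : EntCurve p F := by
  refine ⟨fun z => differentiableAt_pi.2 fun i => (hF.an i z (mem_univ _)).differentiableAt,
    fun z => ⟨hF.ne z (mem_univ _), hF.mem z (mem_univ _)⟩, ?_⟩
  by_contra hcon
  push Not at hcon
  refine hF.nonconst hp hζ (x := F 0) fun z _ => ?_
  obtain ⟨c, hc⟩ := hcon z 0
  refine ⟨c, ?_, fun i => ?_⟩
  · rintro rfl
    rw [zero_smul] at hc
    exact hF.ne z (mem_univ _) hc
  · rw [hc]
    rfl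

open Pool.Agent.W603.BP (PB mem_disc)
open Pool.Agent.TH143 (exists_exp_inv)

/-- the curve in the punctured disc -/
theorem Sl.puncCurve {F : ℂ → Fin (n + 1) → ℂ} (hF : Sl s ζ univ F) :
    PuncCurve p fun w => F (Complex.exp w⁻¹) := by
  refine ⟨fun w hw => ?_, fun w _ => ⟨hF.ne _ (mem_univ _), hF.mem _ (mem_univ _)⟩⟩
  have hw0 : w ≠ 0 := fun h => hw.2 h
  refine (differentiableAt_pi.2 fun i => ?_).differentiableWithinAt
  have h1 : DifferentiableAt ℂ (fun w : ℂ => Complex.exp w⁻¹) w :=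
    (differentiableAt_inv hw0).cexp
  exact (hF.an i _ (mem_univ _)).differentiableAt.comp w h1

/-- the curve in the punctured disc does not extend -/
theorem Sl.not_extends (hp : Pool.Agent.W603.PV.IsHomog p) (hζ : ∃ l, ζ l ≠ 0)
    {F : ℂ → Fin (n + 1) → ℂ} (hF : Sl s ζ univ F) : ¬ Extends fun w => F (Complex.exp w⁻¹) := by
  rintro ⟨g, hgd, hgne, hg⟩
  have hg00 : g 0 ≠ 0 := hgne 0 (mem_ball_self one_pos)
  refine hF.nonconst hp hζ (x := g 0) fun t ht => ?_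
  refine pe_of_minor (hF.ne t (mem_univ _)) hg00 fun i j => ?_
  -- points with the given value of the exponential
  have hw : ∀ k : ℕ, ∃ w : ℂ, w ≠ 0 ∧ ‖w‖ < 1 / ((k : ℝ) + 1) ∧ Complex.exp w⁻¹ = t := by
    intro k
    obtain ⟨w, hw, hwt⟩ := exists_exp_inv ht (ε := 1 / ((k : ℝ) + 1)) Nat.one_div_pos_of_nat
    exact ⟨w, hw.1, hw.2, hwt⟩
  choose w hw0 hw1 hwt using hw
  have hwlim : Tendsto w atTop (𝓝 0) := by
    rw [tendsto_zero_iff_norm_tendsto_zero]
    exact squeeze_zero (fun k => norm_nonneg _) (fun k => (hw1 k).le)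
      tendsto_one_div_add_atTop_nhds_zero_nat
  have hgc : ∀ i, Tendsto (fun k => g (w k) i) atTop (𝓝 (g 0 i)) := by
    intro i
    have h1 : DifferentiableOn ℂ (fun z => g z i) (ball 0 1) := fun z hz =>
      (differentiableWithinAt_pi.1 (hgd z hz)) i
    have h2 : ContinuousAt (fun z => g z i) 0 :=
      (h1.differentiableAt (isOpen_ball.mem_nhds (mem_ball_self one_pos))).continuousAt
    exact h2.tendsto.comp hwlim
  have h1 : ∀ k, F t i * g (w k) j - F t j * g (w k) i = 0 := by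
    intro k
    have h2 : w k ∈ ball (0 : ℂ) 1 \ {0} := by
      refine ⟨?_, hw0 k⟩
      rw [mem_ball_zero_iff]
      refine (hw1 k).trans_le ?_
      rw [div_le_one (by positivity)]
      have : (0 : ℝ) ≤ k := Nat.cast_nonneg k
      linarith
    obtain ⟨c, hc⟩ := hg (w k) h2
    simp only [hwt] at hc
    rw [hc, Pi.smul_apply, Pi.smul_apply, smul_eq_mul, smul_eq_mul]
    ring
  have h2 : Tendsto (fun k => F t i * g (w k) j - F t j * g (w k) i) atTop
      (𝓝 (F t i * g 0 j - F t j * g 0 i)) :=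
    ((hgc j).const_mul _).sub ((hgc i).const_mul _)
  simp only [h1] at h2
  exact (tendsto_nhds_unique h2 tendsto_const_nhds)

/-- a point of the curve in the punctured disc off a hypersurface -/
theorem exists_off {F : ℂ → Fin (n + 1) → ℂ} (hF : ∀ i, Continuous fun z => F z i)
    {G : MvPolynomial (Fin (n + 1)) ℂ} (hG : eval (F 0) G ≠ 0) :
    ∃ w ∈ ball (0 : ℂ) 1 \ {0}, eval (F (Complex.exp w⁻¹)) G ≠ 0 := by
  have h1 : Continuous fun z => eval (F z) G := by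
    have h2 : Continuous F := continuous_pi hF
    exact (MvPolynomial.continuous_eval G).comp h2
  have h3 : ∀ᶠ z in 𝓝[≠] (0 : ℂ), eval (F z) G ≠ 0 :=
    nhdsWithin_le_nhds (h1.continuousAt.eventually_ne hG)
  obtain ⟨t, ht, ht0⟩ := (h3.and self_mem_nhdsWithin).exists
  obtain ⟨w, hw, hwt⟩ := exists_exp_inv (t := t) ht0 one_pos
  exact ⟨w, mem_disc.2 hw, by rw [hwt]; exact ht⟩

end curves

end Pool.Agent.H917
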