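import Pool.Agent.H917.F1
import Mathlib.RingTheory.GradedAlgebra.Radical

/-!
Closed subvarieties, ideals and function fields.
-/

set_option autoImplicit false
set_option linter.overlappingInstances false
set_option linter.unusedSectionVars false

open MvPolynomial Metric Set

namespace Pool.Agent.H917

open Pool.Agent.W602.GT (IsForm GeneralType coords IsPluri RegAt Divisorial)

variable {n : ℕ}

/-- the generic point of the subvariety given by a point over a field -/
theorem exists_gen {L : Type} [Field L] [Algebra ℂ L] {x : Fin (n + 1) → L} (hx : x ≠ 0) :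
    ∃ (K : Type) (_ : Field K) (_ : Algebra ℂ K) (w : ℕ) (y : Fin (n + 1) → K), y ≠ 0 ∧
      coords ℂ y = ⊤ ∧ Algebra.trdeg ℂ K = w ∧
      ∀ G : MvPolynomial (Fin (n + 1)) ℂ, (∃ d, G.IsHomogeneous d) →
        (aeval y G = 0 ↔ aeval x G = 0) := by
  classical
  obtain ⟨j0, hj0⟩ := Function.ne_iff.1 hx
  have hj0 : x j0 ≠ 0 := hj0
  let y' : Fin (n + 1) → L := fun j => x j / x j0
  have hy'0 : y' j0 = 1 := div_self hj0
  have hmem : ∀ j, y' j ∈ coords ℂ y' := by
    intro j
    apply IntermediateField.subset_adjoin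
    refine ⟨j, j0, by rw [hy'0]; exact one_ne_zero, ?_⟩
    rw [hy'0, div_one]
  let y : Fin (n + 1) → coords ℂ y' := fun j => ⟨y' j, hmem j⟩
  have hy0 : y j0 = 1 := Subtype.ext hy'0
  have hval : ∀ G : MvPolynomial (Fin (n + 1)) ℂ, ((aeval y G : coords ℂ y') : L) =
      aeval y' G := by
    intro G
    have h4 := MvPolynomial.comp_aeval_apply (f := y) (coords ℂ y').val G
    exact h4
  have hgen : coords ℂ y = ⊤ := by
    have h1 : (coords ℂ y).map (coords ℂ y').val = coords ℂ y' := by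
      unfold coords
      rw [IntermediateField.adjoin_map]
      congr 1
      ext z
      constructor
      · rintro ⟨_, ⟨i, j, hj, rfl⟩, rfl⟩
        refine ⟨i, j, fun h => hj (Subtype.ext h), ?_⟩
        rw [map_div₀]
        rfl
      · rintro ⟨i, j, hj, rfl⟩
        exact ⟨y i / y j, ⟨i, j, fun h => hj (congrArg Subtype.val h), rfl⟩, rfl⟩
    apply IntermediateField.map_injective (coords ℂ y').val
    rw [h1]
    ext z
    simp only [IntermediateField.mem_map, IntermediateField.mem_top, true_and]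
    constructor
    · intro hz
      exact ⟨⟨z, hz⟩, rfl⟩
    · rintro ⟨x, rfl⟩
      exact x.2
  have hess : Algebra.EssFiniteType ℂ (coords ℂ y') := Pool.Agent.TH143.GT.ess_of_coords hgen
  obtain ⟨w, hw⟩ := Cardinal.lt_aleph0.1 (trdeg_lt_aleph0 ℂ (coords ℂ y'))
  refine ⟨coords ℂ y', inferInstance, inferInstance, w, y, ?_, hgen, hw, ?_⟩
  · exact Function.ne_iff.2 ⟨j0, by rw [hy0]; exact one_ne_zero⟩
  · rintro G ⟨d, hG⟩
    have h1 : aeval y G = 0 ↔ aeval y' G = 0 := by
      rw [← hval G]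
      exact (map_eq_zero_iff (coords ℂ y').val (coords ℂ y').val.injective).symm
    have h2 : x j0 ^ d * aeval y' G = aeval x G := by
      refine (Pool.Agent.W603.PV.aeval_scale hG y' (x j0)).symm.trans ?_
      congr 2
      funext j
      exact mul_div_cancel₀ _ hj0
    rw [h1, ← h2]
    constructor
    · intro h
      rw [h, mul_zero]
    · intro h
      exact (mul_eq_zero.1 h).resolve_left (pow_ne_zero _ hj0)

/-- the function field of a projective variety -/
theorem exists_funField {p : Ideal (MvPolynomial (Fin (n + 1)) ℂ)} (hpp : p.IsPrime)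
    {j0 : Fin (n + 1)} (hj0 : X j0 ∉ p) :
    ∃ (K : Type) (_ : Field K) (_ : Algebra ℂ K) (w : ℕ) (y : Fin (n + 1) → K), y ≠ 0 ∧
      coords ℂ y = ⊤ ∧ Algebra.trdeg ℂ K = w ∧
      ∀ G : MvPolynomial (Fin (n + 1)) ℂ, (∃ d, G.IsHomogeneous d) → (aeval y G = 0 ↔ G ∈ p) := by
  let R := MvPolynomial (Fin (n + 1)) ℂ ⧸ p
  have hdom : IsDomain R := Ideal.Quotient.isDomain p
  let L := FractionRing R
  let i : R →ₐ[ℂ] L := IsScalarTower.toAlgHom ℂ R L
  have hi : Function.Injective i := IsFractionRing.injective R L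
  let a : Fin (n + 1) → L := fun j => i (Ideal.Quotient.mkₐ ℂ p (X j))
  have ha : ∀ G : MvPolynomial (Fin (n + 1)) ℂ, aeval a G = i (Ideal.Quotient.mkₐ ℂ p G) := by
    intro G
    have h1 : (aeval a : MvPolynomial (Fin (n + 1)) ℂ →ₐ[ℂ] L) =
        i.comp (Ideal.Quotient.mkₐ ℂ p) := by
      refine MvPolynomial.algHom_ext fun j => ?_
      rw [aeval_X]
      rfl
    rw [h1]
    rfl
  have hG : ∀ G : MvPolynomial (Fin (n + 1)) ℂ, aeval a G = 0 ↔ G ∈ p := by
    intro G
    rw [ha, map_eq_zero_iff i hi]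
    exact Ideal.Quotient.eq_zero_iff_mem
  have ha0 : a ≠ 0 := by
    intro h0
    apply hj0
    rw [← hG, aeval_X, h0]
    rfl
  obtain ⟨K, i1, i2, w, y, h1, h2, h3, h4⟩ := exists_gen ha0
  exact ⟨K, i1, i2, w, y, h1, h2, h3, fun G hG' => (h4 G hG').trans (hG G)⟩

attribute [local instance] MvPolynomial.gradedAlgebra

theorem isHomog_iff {p : Ideal (MvPolynomial (Fin (n + 1)) ℂ)} :
    Pool.Agent.W603.PV.IsHomog p ↔ p.IsHomogeneous (homogeneousSubmodule (Fin (n + 1)) ℂ) := by
  constructor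
  · intro h i r hr
    have := h r hr i
    rw [← decomposition.decompose'_apply] at this
    exact this
  · intro h H hH d
    have := h d hH
    rw [← decomposition.decompose'_apply]
    exact this

theorem isHomog_sup {p : Ideal (MvPolynomial (Fin (n + 1)) ℂ)}
    (hp : Pool.Agent.W603.PV.IsHomog p) {A : MvPolynomial (Fin (n + 1)) ℂ}
    (hA : ∃ d, A.IsHomogeneous d) : Pool.Agent.W603.PV.IsHomog (p ⊔ Ideal.span {A}) := by
  rw [isHomog_iff] at hp ⊢
  refine hp.sup (Ideal.homogeneous_span _ _ ?_)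
  rintro x rfl
  obtain ⟨d, hd⟩ := hA
  exact ⟨d, hd⟩

theorem isPrime_of_forms {p : Ideal (MvPolynomial (Fin (n + 1)) ℂ)}
    (hp : Pool.Agent.W603.PV.IsHomog p) (hne : p ≠ ⊤)
    (h : ∀ A B : MvPolynomial (Fin (n + 1)) ℂ, (∃ d, A.IsHomogeneous d) →
      (∃ d, B.IsHomogeneous d) → A * B ∈ p → A ∈ p ∨ B ∈ p) : p.IsPrime := by
  refine (isHomog_iff.1 hp).isPrime_of_homogeneous_mem_or_mem hne ?_
  rintro x y ⟨d, hd⟩ ⟨e, he⟩ hxy
  exact h x y ⟨d, hd⟩ ⟨e, he⟩ hxy

/-- points are of general type -/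
theorem gt_zero {K : Type} [Field K] [Algebra ℂ K] (h : Algebra.trdeg ℂ K = (0 : ℕ)) :
    GeneralType ℂ K 0 := by
  refine ⟨h, 1, one_pos, fun _ _ => 1, fun j A D => ?_, fun P _ j D _ => ?_, fun i => i.elim0,
    one_ne_zero, ?_⟩
  · rw [Matrix.det_isEmpty]
    simp
  · exact P.reg_one
  · exact algebraicIndependent_empty_type

/-- points of a variety off a hypersurface -/
theorem exists_pt {p : Ideal (MvPolynomial (Fin (n + 1)) ℂ)} (hpp : p.IsPrime) {j0 : Fin (n + 1)}
    (hj0 : X j0 ∉ p) {G : MvPolynomial (Fin (n + 1)) ℂ} (hG : G ∉ p) :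
    ∃ x ∈ Pts p, eval x G ≠ 0 := by
  have h1 : G * X j0 ∉ p := fun h => (hpp.mem_or_mem h).elim hG hj0
  rw [← IsPrime.vanishingIdeal_zeroLocus (k := ℂ) (K := ℂ) p, mem_vanishingIdeal_iff] at h1
  push Not at h1
  obtain ⟨x, hx, hxG⟩ := h1
  rw [map_mul] at hxG
  have hxG' : eval x G ≠ 0 ∧ x j0 ≠ 0 := by
    constructor
    · intro h0
      apply hxG
      rw [ae, h0, zero_mul]
    · intro h0
      apply hxG
      rw [aeval_X, h0, mul_zero]
  refine ⟨x, ⟨fun h0 => hxG'.2 (by rw [h0]; rfl), fun H hH => ?_⟩, hxG'.1⟩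
  rw [← ae]
  exact hx H hH

section restrict

variable {p q : Ideal (MvPolynomial (Fin (n + 1)) ℂ)}

theorem TanVec.le (h : p ≤ q) {R : Type} [Field R] [Algebra ℂ R] {x x' : Fin (n + 1) → R}
    (hx : TanVec q x x') : TanVec p x x' :=
  ⟨hx.ne, fun H hH => hx.mem H (h hH), fun H hH => hx.tan H (h hH)⟩

/-- the restriction of a symmetric differential to a subvariety -/
def SymDiff.res {m : ℕ} (h : p ≤ q) (s : SymDiff p m) : SymDiff q m :=
  ⟨s.pol, s.hom, fun i j x x' hx => s.compat i j x x' (hx.le h)⟩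

theorem Gens.res {m N : ℕ} {s : Fin N → SymDiff p m} (hs : Gens p m s) (h : p ≤ q) :
    Gens q m fun l => (s l).res h := by
  refine ⟨fun j I => ?_⟩
  obtain ⟨b, hb⟩ := hs.gen j I
  exact ⟨b, fun x x' hx hj => hb x x' (hx.le h) hj⟩

end restrict

end Pool.Agent.H917
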