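import Pool.Agent.H917.F2
import Pool.Agent.H917.E9

/-!
The special sets of varieties with generating symmetric differentials.
-/

set_option autoImplicit false
set_option linter.overlappingInstances false
set_option linter.unusedSectionVars false

open MvPolynomial Metric Set

namespace Pool.Agent.H917

open Pool.Agent.W602.GT (IsForm GeneralType coords)
open Pool.Agent.TH143.GT (FunField)

variable {n : ℕ} {p : Ideal (MvPolynomial (Fin (n + 1)) ℂ)}

/-- `q` is the ideal of a closed subvariety of positive dimension which is not of general type. -/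
def NotGT (q : Ideal (MvPolynomial (Fin (n + 1)) ℂ)) : Prop :=
  ∃ (K : Type) (_ : Field K) (_ : Algebra ℂ K) (w : ℕ) (y : Fin (n + 1) → K), 1 ≤ w ∧
    SubVar q K w y ∧ (∀ H : MvPolynomial (Fin (n + 1)) ℂ, (∃ d, H.IsHomogeneous d) →
      aeval y H = 0 → H ∈ q) ∧ ¬ GeneralType ℂ K w

/-- curves through general points of subvarieties which are not of general type -/
theorem curve_of_ngt (hp : Pool.Agent.W603.PV.IsHomog p) {m' N : ℕ}
    {s : Fin N → SymDiff p (m' + 1)} (hs : Gens p (m' + 1) s) {K : Type} [Field K] [Algebra ℂ K]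
    {w : ℕ} {y : Fin (n + 1) → K} (hw : 1 ≤ w) (hy : SubVar p K w y) (hngt : ¬ GeneralType ℂ K w)
    {G : MvPolynomial (Fin (n + 1)) ℂ} (hG : ∃ k, G.IsHomogeneous k) (hGy : aeval y G ≠ 0) :
    ∃ ζ : Fin N → ℂ, (∃ l, ζ l ≠ 0) ∧ ∃ F : ℂ → Fin (n + 1) → ℂ,
      Sl s ζ univ F ∧ eval (F 0) G ≠ 0 := by
  obtain ⟨D, h1, h2⟩ := key_N (M := AlgebraicClosure K) hp hs (Nat.succ_pos m') hw hy.ne hy.mem
    hy.gen hy.dim hngt
  have hmemM : ∀ H : MvPolynomial (Fin (n + 1)) ℂ,
      aeval (fun i => algebraMap K (AlgebraicClosure K) (y i)) H =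
        algebraMap K (AlgebraicClosure K) (aeval y H) := by
    intro H
    have h1 := aeval_algebraMap_apply (A := K) (AlgebraicClosure K) y H
    have h2 : (algebraMap K (AlgebraicClosure K) ∘ y) =
      fun i => algebraMap K (AlgebraicClosure K) (y i) := rfl
    rw [← h2, h1]
  refine exists_entire hp hs D (y := fun i => algebraMap K (AlgebraicClosure K) (y i)) ?_ ?_ h1 h2
    hG ?_
  · intro h
    apply hy.ne
    funext i
    exact (map_eq_zero _).1 (congrFun h i)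
  · intro H hH
    rw [hmemM, hy.mem H hH, map_zero]
  · rw [hmemM]
    exact fun h => hGy ((map_eq_zero _).1 h)

theorem spAlg_sub_spH (hp : Pool.Agent.W603.PV.IsHomog p) {m N : ℕ} {s : Fin N → SymDiff p m}
    (hs : Gens p m s) (hm : 1 ≤ m) : SpAlg p ⊆ SpH p := by
  obtain ⟨m', rfl⟩ := Nat.exists_eq_add_of_le' hm
  intro x hx
  refine ⟨hx.1, fun G hG hcur => hx.2 G hG fun K _ _ w y hw hy hngt => ?_⟩
  by_contra hGy
  obtain ⟨ζ, hζ, F, hF, hFG⟩ := curve_of_ngt hp hs hw hy hngt hG hGy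
  exact hFG (hcur F (hF.entCurve hp hζ) 0)

theorem spAlg_sub_spP (hp : Pool.Agent.W603.PV.IsHomog p) {m N : ℕ} {s : Fin N → SymDiff p m}
    (hs : Gens p m s) (hm : 1 ≤ m) : SpAlg p ⊆ SpP p := by
  obtain ⟨m', rfl⟩ := Nat.exists_eq_add_of_le' hm
  intro x hx
  refine ⟨hx.1, fun G hG hcur => hx.2 G hG fun K _ _ w y hw hy hngt => ?_⟩
  by_contra hGy
  obtain ⟨ζ, hζ, F, hF, hFG⟩ := curve_of_ngt hp hs hw hy hngt hG hGy
  obtain ⟨z, hz, hzG⟩ := exists_off (fun i => (fun z =>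
    (hF.an i z (mem_univ _)).continuousAt : ∀ z, ContinuousAt (fun z => F z i) z) |>
      continuous_iff_continuousAt.2) hFG
  exact hzG (hcur _ hF.puncCurve (hF.not_extends hp hζ) z hz)

/-- **The special sets coincide.** -/
theorem sp_eq (hp : Pool.Agent.W603.PV.IsHomog p) {m N : ℕ} {s : Fin N → SymDiff p m}
    (hs : Gens p m s) (hm : 1 ≤ m) : SpP p = SpAlg p ∧ SpH p = SpAlg p :=
  ⟨(spP_sub hp hs hm).antisymm (spAlg_sub_spP hp hs hm),
    (spH_sub hp hs hm).antisymm (spAlg_sub_spH hp hs hm)⟩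

theorem funField_of {K : Type} [Field K] [Algebra ℂ K] {w : ℕ} {y : Fin (n + 1) → K}
    (hy : SubVar p K w y) (hf : ∀ H : MvPolynomial (Fin (n + 1)) ℂ, (∃ d, H.IsHomogeneous d) →
      aeval y H = 0 → H ∈ p) : FunField p 1 K w y := by
  refine ⟨⟨hy.ne, hy.mem, ?_, hy.gen, hy.dim⟩, hf⟩
  unfold Pool.Agent.W602.GT.val
  rw [map_one]
  exact one_ne_zero

theorem X_notMem {K : Type} [Field K] [Algebra ℂ K] {w : ℕ} {y : Fin (n + 1) → K}
    (hy : SubVar p K w y) : ∃ j, X j ∉ p := by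
  obtain ⟨j, hj⟩ := Function.ne_iff.1 hy.ne
  refine ⟨j, fun h => hj ?_⟩
  have h1 := hy.mem _ h
  rw [aeval_X] at h1
  exact h1

/-- the whole variety, if it is not of general type -/
theorem pts_sub_spAlg {q : Ideal (MvPolynomial (Fin (n + 1)) ℂ)} (hq : NotGT q) :
    Pts q ⊆ SpAlg q := by
  obtain ⟨K, i1, i2, w, y, hw, hy, hf, hngt⟩ := hq
  intro x hx
  exact ⟨hx, fun G hG h => hx.2 G (hf G hG (h K w y hw hy hngt))⟩

theorem spAlg_mono {p q : Ideal (MvPolynomial (Fin (n + 1)) ℂ)} (h : p ≤ q) :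
    SpAlg q ⊆ SpAlg p := by
  intro x hx
  refine ⟨⟨hx.1.1, fun H hH => hx.1.2 H (h hH)⟩, fun G hG hGV => hx.2 G hG
    fun K _ _ w y hw hy hngt => hGV K w y hw ⟨hy.ne, fun H hH => hy.mem H (h hH), hy.gen, hy.dim⟩
      hngt⟩

/-- **The equivalence.** -/
theorem tfae_gt (hpp : p.IsPrime) (hp : Pool.Agent.W603.PV.IsHomog p) {m N : ℕ}
    {s : Fin N → SymDiff p m} (hs : Gens p m s) (hm : 1 ≤ m) {K : Type} [Field K] [Algebra ℂ K]
    {w : ℕ} {y : Fin (n + 1) → K} (hy : SubVar p K w y)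
    (hf : ∀ H : MvPolynomial (Fin (n + 1)) ℂ, (∃ d, H.IsHomogeneous d) → aeval y H = 0 → H ∈ p) :
    List.TFAE [GeneralType ℂ K w, SpAlg p ≠ Pts p, SpP p ≠ Pts p, SpH p ≠ Pts p] := by
  rw [(sp_eq hp hs hm).1, (sp_eq hp hs hm).2]
  have h1 : GeneralType ℂ K w ↔ SpAlg p ≠ Pts p := by
    constructor
    · intro hGT heq
      obtain ⟨G, hG, hGp, hGV⟩ := exists_form hpp hp hs hm (funField_of hy hf) hGT
      obtain ⟨j, hj⟩ := X_notMem hy
      obtain ⟨x, hx, hxG⟩ := exists_pt hpp hj hGp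
      rw [← heq] at hx
      exact hxG (hx.2 G hG fun F _ _ d x hd hx hngt =>
        hGV F d x hd hx.ne hx.mem hx.gen hx.dim hngt)
    · intro h
      by_contra hngt
      have hw : 1 ≤ w := by
        by_contra hw
        have hw0 : w = 0 := by omega
        subst hw0
        exact hngt (gt_zero hy.dim)
      exact h (Subset.antisymm (fun x hx => hx.1) (pts_sub_spAlg ⟨K, inferInstance, inferInstance,
        w, y, hw, hy, hf, hngt⟩))
  tfae_have 1 ↔ 2 := h1
  tfae_finish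

theorem not_mem_spAlg {q : Ideal (MvPolynomial (Fin (n + 1)) ℂ)}
    (hq : Pool.Agent.W603.PV.IsHomog q) {x : Fin (n + 1) → ℂ} (hx : x ≠ 0) (h : x ∉ SpAlg q) :
    ∃ G : MvPolynomial (Fin (n + 1)) ℂ, (∃ d, G.IsHomogeneous d) ∧
      (∀ (K : Type) [Field K] [Algebra ℂ K] (w : ℕ) (y : Fin (n + 1) → K), 1 ≤ w →
        SubVar q K w y → ¬ GeneralType ℂ K w → aeval y G = 0) ∧ eval x G ≠ 0 := by
  by_cases hxq : x ∈ Pts q
  · by_contra hcon
    push Not at hcon
    exact h ⟨hxq, hcon⟩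
  · have h1 : ∃ H ∈ q, eval x H ≠ 0 := by
      by_contra hcon
      push Not at hcon
      exact hxq ⟨hx, hcon⟩
    obtain ⟨H, hH, hHx⟩ := h1
    have h2 : ∃ d, eval x (homogeneousComponent d H) ≠ 0 := by
      by_contra hcon
      push Not at hcon
      apply hHx
      rw [← sum_homogeneousComponent H, map_sum]
      exact Finset.sum_eq_zero fun d _ => hcon d
    obtain ⟨d, hd⟩ := h2
    exact ⟨homogeneousComponent d H, ⟨d, homogeneousComponent_isHomogeneous d H⟩,
      fun K _ _ w y _ hy _ => hy.mem _ (hq H hH d), hd⟩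

theorem subVar_sup {q : Ideal (MvPolynomial (Fin (n + 1)) ℂ)} {K : Type} [Field K] [Algebra ℂ K]
    {w : ℕ} {y : Fin (n + 1) → K} (hy : SubVar q K w y) {A : MvPolynomial (Fin (n + 1)) ℂ}
    (hA : aeval y A = 0) : SubVar (q ⊔ Ideal.span {A}) K w y := by
  refine ⟨hy.ne, fun H hH => ?_, hy.gen, hy.dim⟩
  obtain ⟨a, ha, b, hb, rfl⟩ := Submodule.mem_sup.1 hH
  obtain ⟨c, rfl⟩ := Ideal.mem_span_singleton.1 hb
  rw [map_add, hy.mem a ha, map_mul, hA, zero_mul, add_zero]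

/-- **The union of the subvarieties which are not of general type.** -/
theorem finite_union {m N : ℕ}
    {s : Fin N → SymDiff p m} (hs : Gens p m s) (hm : 1 ≤ m) :
    ∀ I : Ideal (MvPolynomial (Fin (n + 1)) ℂ), p ≤ I → Pool.Agent.W603.PV.IsHomog I →
      ∃ S : Finset (Ideal (MvPolynomial (Fin (n + 1)) ℂ)),
        (∀ q ∈ S, I ≤ q ∧ Pool.Agent.W603.PV.IsHomog q ∧ NotGT q) ∧
          ∀ x ∈ SpAlg I, ∃ q ∈ S, x ∈ Pts q := by
  classical
  intro I
  induction I using WellFoundedGT.induction with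
  | ind I ih =>
  intro hpI hI
  by_cases hX : ∀ j, X j ∈ I
  · refine ⟨∅, fun q hq => absurd hq (Finset.notMem_empty q), fun x hx => ?_⟩
    exfalso
    apply hx.1.1
    funext j
    have h1 := hx.1.2 _ (hX j)
    rwa [eval_X] at h1
  · push Not at hX
    obtain ⟨j, hj⟩ := hX
    have hltsup : ∀ A, A ∉ I → I < I ⊔ Ideal.span {A} := by
      intro A hA
      refine lt_of_le_of_ne le_sup_left fun h => hA ?_
      rw [h]
      exact Ideal.mem_sup_right (Ideal.mem_span_singleton_self A)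
    by_cases hAB : ∀ A B : MvPolynomial (Fin (n + 1)) ℂ, (∃ d, A.IsHomogeneous d) →
        (∃ d, B.IsHomogeneous d) → A * B ∈ I → A ∈ I ∨ B ∈ I
    · have hIp : I.IsPrime := isPrime_of_forms hI (fun h => hj (h ▸ Submodule.mem_top)) hAB
      obtain ⟨K, i1, i2, w, y, hy0, hyg, hyd, hyf⟩ := exists_funField hIp hj
      have hy : SubVar I K w y := by
        refine ⟨hy0, fun H hH => ?_, hyg, hyd⟩
        rw [← sum_homogeneousComponent H, map_sum]
        exact Finset.sum_eq_zero fun d _ =>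
          (hyf _ ⟨d, homogeneousComponent_isHomogeneous d H⟩).2 (hI H hH d)
      by_cases hGT : GeneralType ℂ K w
      · obtain ⟨G, hG, hGI, hGV⟩ := exists_form hIp hI (hs.res hpI) hm
          (funField_of hy fun H hH => (hyf H hH).1) hGT
        obtain ⟨S, hS1, hS2⟩ := ih _ (hltsup G hGI) (hpI.trans le_sup_left) (isHomog_sup hI hG)
        refine ⟨S, fun q hq => ⟨le_sup_left.trans (hS1 q hq).1, (hS1 q hq).2⟩, fun x hx => ?_⟩
        refine hS2 x ?_
        by_contra hxS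
        obtain ⟨G1, hG1, hG1V, hG1x⟩ := not_mem_spAlg (isHomog_sup hI hG) hx.1.1 hxS
        refine hG1x (hx.2 G1 hG1 fun F _ _ d x' hd hx' hngt => ?_)
        exact hG1V F d x' hd (subVar_sup hx' (hGV F d x' hd hx'.ne hx'.mem hx'.gen hx'.dim hngt))
          hngt
      · have hw : 1 ≤ w := by
          by_contra hw
          have hw0 : w = 0 := by omega
          subst hw0
          exact hGT (gt_zero hy.dim)
        refine ⟨{I}, fun q hq => ?_, fun x hx => ⟨I, Finset.mem_singleton_self I, hx.1⟩⟩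
        rw [Finset.mem_singleton] at hq
        subst hq
        exact ⟨le_rfl, hI, K, i1, i2, w, y, hw, hy, fun H hH => (hyf H hH).1, hGT⟩
    · push Not at hAB
      obtain ⟨A, B, hA, hB, hAB, hAI, hBI⟩ := hAB
      obtain ⟨S1, h1, h2⟩ := ih _ (hltsup A hAI) (hpI.trans le_sup_left) (isHomog_sup hI hA)
      obtain ⟨S2, h3, h4⟩ := ih _ (hltsup B hBI) (hpI.trans le_sup_left) (isHomog_sup hI hB)
      refine ⟨S1 ∪ S2, fun q hq => ?_, fun x hx => ?_⟩
      · rcases Finset.mem_union.1 hq with hq | hq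
        · exact ⟨le_sup_left.trans (h1 q hq).1, (h1 q hq).2⟩
        · exact ⟨le_sup_left.trans (h3 q hq).1, (h3 q hq).2⟩
      · have h5 : x ∈ SpAlg (I ⊔ Ideal.span {A}) ∨ x ∈ SpAlg (I ⊔ Ideal.span {B}) := by
          by_contra hcon
          push Not at hcon
          obtain ⟨G1, ⟨d1, hG1⟩, hG1V, hG1x⟩ := not_mem_spAlg (isHomog_sup hI hA) hx.1.1 hcon.1
          obtain ⟨G2, ⟨d2, hG2⟩, hG2V, hG2x⟩ := not_mem_spAlg (isHomog_sup hI hB) hx.1.1 hcon.2
          have h6 := hx.2 (G1 * G2) ⟨d1 + d2, hG1.mul hG2⟩ fun F _ _ d x' hd hx' hngt => by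
            rw [map_mul]
            have h7 := hx'.mem _ hAB
            rw [map_mul, mul_eq_zero] at h7
            rcases h7 with h7 | h7
            · rw [hG1V F d x' hd (subVar_sup hx' h7) hngt, zero_mul]
            · rw [hG2V F d x' hd (subVar_sup hx' h7) hngt, mul_zero]
          rw [map_mul, mul_eq_zero] at h6
          exact h6.elim hG1x hG2x
        rcases h5 with h5 | h5
        · obtain ⟨q, hq, hxq⟩ := h2 x h5
          exact ⟨q, Finset.mem_union_left _ hq, hxq⟩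
        · obtain ⟨q, hq, hxq⟩ := h4 x h5
          exact ⟨q, Finset.mem_union_right _ hq, hxq⟩

theorem spAlg_eq (hp : Pool.Agent.W603.PV.IsHomog p) {m N : ℕ}
    {s : Fin N → SymDiff p m} (hs : Gens p m s) (hm : 1 ≤ m) :
    ∃ S : Finset (Ideal (MvPolynomial (Fin (n + 1)) ℂ)),
      (∀ q ∈ S, p ≤ q ∧ Pool.Agent.W603.PV.IsHomog q ∧ NotGT q) ∧
        SpAlg p = {x | ∃ q ∈ S, x ∈ Pts q} := by
  obtain ⟨S, h1, h2⟩ := finite_union hs hm p le_rfl hp
  refine ⟨S, h1, Subset.antisymm h2 ?_⟩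
  rintro x ⟨q, hq, hx⟩
  exact spAlg_mono (h1 q hq).1 (pts_sub_spAlg (h1 q hq).2.2 hx)

end Pool.Agent.H917
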